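import Pool.Agent.H38.ER.FMA

/-!
Binary arithmetic in polynomial time.
-/

namespace Pool.Agent.H38.ER

open Pool.Agent.H38.NP

variable {α β : Type} [Enc α] [Enc β]

instance : EncInj Bin := ⟨fun ⟨a⟩ ⟨b⟩ h => by
  have h' : a.bits = b.bits := h
  rw [← bval_bits a, h', bval_bits]⟩

theorem bval_append (l m : List Bool) : bval (l ++ m) = bval l + 2 ^ l.length * bval m := by
  induction l with
  | nil => simp [bval]
  | cons b l ih =>
    change b.toNat + 2 * bval (l ++ m) = b.toNat + 2 * bval l + _
    rw [ih, List.length_cons]; ring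

theorem bval_lt (l : List Bool) : bval l < 2 ^ l.length := by
  induction l with
  | nil => simp [bval]
  | cons b l ih =>
    change b.toNat + 2 * bval l < _
    rw [List.length_cons, pow_succ]; cases b <;> simp <;> omega

theorem bval_take (l : List Bool) (k : ℕ) :
    bval (l.take (k + 1)) = bval (l.take k) + 2 ^ k * (l.getD k false).toNat := by
  by_cases h : k < l.length
  · rw [List.take_succ_eq_append_getElem h, bval_append, List.getD_eq_getElem _ _ h]
    simp [bval, h.le]
  · rw [List.take_of_length_le (by omega), List.take_of_length_le (by omega),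
      List.getD_eq_default _ _ (by omega)]; simp

theorem bits_bval (w : List Bool) (h : w.getLast? ≠ some false) : (bval w).bits = w := by
  obtain ⟨n, rfl⟩ := exists_bits w h; rw [bval_bits]

def strip (l : List Bool) : List Bool := l.take (l.length - l.reverse.findIdx id)

theorem strip_eq (l : List Bool) : strip l = (bval l).bits := by
  induction l using List.reverseRecOn with
  | nil => rfl
  | append_singleton l b ih =>
    cases b
    · rw [bval_append, show bval [false] = 0 from rfl, mul_zero, add_zero, ← ih]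
      simp only [strip, List.reverse_append, List.reverse_cons, List.reverse_nil, List.nil_append,
        List.singleton_append, List.findIdx_cons, id, cond_false, List.length_append,
        List.length_singleton, Nat.add_sub_add_right]
      exact List.take_append_of_le_length (by omega)
    · rw [bits_bval _ (by simp)]; simp [strip, List.findIdx_cons]

@[fun_prop] theorem pt_ofBits {l : α → List Bool} (hl : PT l) : PT fun a => Bin.mk (bval (l a)) := by
  have : PT fun a => Bits.mk (strip (l a)) := by
    unfold strip; exact PT.bmk (PT.take (PT.sub hl.length (PT.findIdx (f := fun _ => id)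
      (by fun_prop) hl.reverse)) hl)
  exact this.recast' fun a => strip_eq _

@[fun_prop] theorem pt_bits {f : α → Bin} (hf : PT f) : PT fun a => (f a).val.bits := hf.raw.bval

theorem sz_bin (n : ℕ) : sz (Bin.mk n) = n.size := Nat.size_eq_bits_len n

def astep (l m : List Bool) (s : Bool × List Bool) (j : ℕ) : Bool × List Bool :=
  ((l.getD j false && m.getD j false) || (s.1 && (l.getD j false || m.getD j false)),
    s.2 ++ [xor (xor (l.getD j false) (m.getD j false)) s.1])

def addc (l m : List Bool) (c : Bool) (L : ℕ) : Bool × List Bool :=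
  (List.range L).foldl (astep l m) (c, [])

theorem addc_spec (l m c L) : (addc l m c L).2.length = L ∧
    bval (addc l m c L).2 + 2 ^ L * (addc l m c L).1.toNat =
      bval (l.take L) + bval (m.take L) + c.toNat := by
  induction L with
  | zero => simp [addc, bval]
  | succ L ih =>
    have e : addc l m c (L + 1) = astep l m (addc l m c L) L := by
      simp [addc, List.range_succ]
    rw [e, bval_take, bval_take]
    obtain ⟨h1, h2⟩ := ih
    generalize addc l m c L = s at *
    obtain ⟨d, w⟩ := s
    simp only [astep, List.length_append, bval_append] at *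
    rw [h1, pow_succ]
    refine ⟨rfl, ?_⟩
    cases l.getD L false <;> cases m.getD L false <;> cases d <;> simp [bval] at h2 ⊢ <;> omega

theorem pt_addc {l m : α → List Bool} {c : α → Bool} {L : α → ℕ} (hl : PT l) (hm : PT m)
    (hc : PT c) (hL : PT L) : PT fun a => addc (l a) (m a) (c a) (L a) := by
  refine PT.foldl (f := fun a => astep (l a) (m a)) (by unfold astep; fun_prop) hL.range
    (by fun_prop) (((PB.const 3).mul hL.nat_pb).add (PB.const 3)) fun a k => ?_
  rw [List.take_range]
  have h1 := (addc_spec (l a) (m a) (c a) (min k (L a))).1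
  have h2 := sz_le_of_forall (l := (addc (l a) (m a) (c a) (min k (L a))).2) (B := 1)
    fun _ _ => by simp [sz, enc]
  change sz (addc _ _ _ _) ≤ _
  rw [sz_prod, show ∀ b : Bool, sz b = 1 from fun _ => rfl]
  rw [h1] at h2; omega

@[fun_prop] theorem pt_badd {f g : α → Bin} (hf : PT f) (hg : PT g) :
    PT fun a => Bin.mk ((f a).val + (g a).val) := by
  have h := pt_addc (pt_bits hf) (pt_bits hg) (PT.const false)
    ((pt_bits hf).length.add (pt_bits hg).length)
  refine (pt_ofBits (h.snd.append (h.fst.cons (PT.const [])))).of_eq fun a => ?_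
  obtain ⟨h1, h2⟩ := addc_spec (f a).val.bits (g a).val.bits false
    ((f a).val.bits.length + (g a).val.bits.length)
  rw [List.take_of_length_le (by omega), List.take_of_length_le (by omega), bval_bits,
    bval_bits] at h2
  rw [bval_append, h1]
  simpa [bval] using h2

theorem bval_compl (m : List Bool) (L : ℕ) :
    bval ((List.range L).map fun j => !m.getD j false) + bval (m.take L) + 1 = 2 ^ L := by
  induction L with
  | zero => simp [bval]
  | succ L ih =>
    rw [List.range_succ, List.map_append, bval_append, bval_take, pow_succ]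
    simp only [List.map_cons, List.map_nil, List.length_map, List.length_range]
    generalize bval (List.map _ _) = X at *
    generalize bval (List.take _ _) = Y at *
    cases m.getD L false <;> simp [bval] <;> omega

theorem pt_bsub_aux {f g : α → Bin} (hf : PT f) (hg : PT g) :
    (PT fun a => decide ((g a).val ≤ (f a).val)) ∧ PT fun a => Bin.mk ((f a).val - (g a).val) := by
  have hL := ((pt_bits hf).length.add (pt_bits hg).length)
  have hb := pt_bits hg
  have h := pt_addc (pt_bits hf) (m := fun a => (List.range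
    ((f a).val.bits.length + (g a).val.bits.length)).map fun j => !(g a).val.bits.getD j false)
    (PT.map (by fun_prop) hL.range) (PT.const true) hL
  have key : ∀ x y : ℕ, let s := addc x.bits ((List.range (x.bits.length + y.bits.length)).map
      fun j => !y.bits.getD j false) true (x.bits.length + y.bits.length)
      s.1 = decide (y ≤ x) ∧ (y ≤ x → bval s.2 = x - y) := by
    intro x y s
    obtain ⟨h1, h2⟩ := addc_spec x.bits ((List.range (x.bits.length + y.bits.length)).map
      fun j => !y.bits.getD j false) true (x.bits.length + y.bits.length)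
    have h3 := bval_compl y.bits (x.bits.length + y.bits.length)
    rw [List.take_of_length_le (by omega), bval_bits] at h3
    rw [List.take_of_length_le (by omega), List.take_of_length_le (by simp), bval_bits] at h2
    have h4 := bval_lt s.2
    rw [h1] at h4
    change bval s.2 + _ * s.1.toNat = _ at h2
    rcases hs : s.1 <;> simp [hs] at h2 h3 ⊢ <;> omega
  have h1 : PT fun a => decide ((g a).val ≤ (f a).val) := h.fst.of_eq fun a => (key _ _).1
  refine ⟨h1, (PT.cond h1 (pt_ofBits h.snd) (PT.const ⟨0⟩)).of_eq fun a => ?_⟩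
  by_cases e : (g a).val ≤ (f a).val
  · simp only [e, decide_true, cond_true]; rw [(key _ _).2 e]
  · simp only [e, decide_false, cond_false]; congr 1; omega

@[fun_prop] theorem pt_ble {f g : α → Bin} (hf : PT f) (hg : PT g) :
    PT fun a => decide ((f a).val ≤ (g a).val) := (pt_bsub_aux hg hf).1
@[fun_prop] theorem pt_bsub {f g : α → Bin} (hf : PT f) (hg : PT g) :
    PT fun a => Bin.mk ((f a).val - (g a).val) := (pt_bsub_aux hf hg).2

theorem size_le_of_lt {n k : ℕ} (h : n < 2 ^ k) : sz (Bin.mk n) ≤ k := by
  rw [sz_bin]; exact Nat.size_le.2 h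

theorem lt_sz (x : Bin) : x.val < 2 ^ sz x := by
  obtain ⟨x⟩ := x; rw [sz_bin]; exact Nat.lt_size_self x

@[fun_prop] theorem pt_bmul {f g : α → Bin} (hf : PT f) (hg : PT g) :
    PT fun a => Bin.mk ((f a).val * (g a).val) := by
  have key : ∀ (x : ℕ) (l : List Bool), l.foldr (fun b (s : Bin) =>
      Bin.mk ((cond b (Bin.mk x) (Bin.mk 0)).val + (Bin.mk (s.val + s.val)).val)) ⟨0⟩ =
        ⟨x * bval l⟩ := by
    intro x l
    induction l with
    | nil => rfl
    | cons b l ih =>
      rw [List.foldr_cons, ih]
      change Bin.mk _ = Bin.mk (x * (b.toNat + 2 * bval l))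
      cases b <;> simp <;> ring
  have := PT.foldr (f := fun a b (s : Bin) =>
      Bin.mk ((cond b (Bin.mk (f a).val) (Bin.mk 0)).val + (Bin.mk (s.val + s.val)).val))
    (pt_badd (PT.cond (by fun_prop) (hf.comp (by fun_prop)) (PT.const _))
      (pt_badd (by fun_prop) (by fun_prop))) (pt_bits hg) (PT.const (Bin.mk 0))
    (hf.pb.add hg.pb) fun a k => by
      rw [key]
      refine size_le_of_lt ?_
      have h1 := bval_lt ((g a).val.bits.drop k)
      have h2 : 2 ^ ((g a).val.bits.drop k).length ≤ 2 ^ sz (g a) :=
        Nat.pow_le_pow_right (by omega) (by rw [List.length_drop]; exact Nat.sub_le _ _)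
      rw [pow_add]
      exact Nat.mul_lt_mul'' (lt_sz _) (h1.trans_le h2)
  exact this.of_eq fun a => by rw [key, bval_bits]

@[fun_prop] theorem pt_bin {f : α → ℕ} (hf : PT f) : PT fun a => Bin.mk (f a) := by
  have key : ∀ i, (fun s : Bin => Bin.mk (s.val + (Bin.mk 1).val))^[i] ⟨0⟩ = ⟨i⟩ := by
    intro i; induction i with
    | zero => rfl
    | succ i ih => rw [Function.iterate_succ_apply', ih]
  exact (PT.iterate (step := fun _ (s : Bin) => Bin.mk (s.val + (Bin.mk 1).val))
    (pt_badd (by fun_prop) (PT.const _)) hf (PT.const ⟨0⟩) hf.nat_pb fun a i hi => by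
      rw [key]; exact (size_le_of_lt Nat.lt_two_pow_self).trans hi).of_eq fun a => key _

/-! ### integers -/

theorem pt_sgn {f : α → ℤ} (hf : PT f) : PT fun a => (decide (f a < 0), Bin.mk (f a).natAbs) :=
  hf.recast' fun _ => rfl

theorem pt_diff {f g : α → Bin} (hf : PT f) (hg : PT g) :
    PT fun a => (((f a).val : ℤ) - ((g a).val : ℤ)) := by
  refine (PT.mk (pt_ble hg hf).not (pt_badd (pt_bsub hf hg) (pt_bsub hg hf))).recast' fun a => ?_
  change _ = enc (decide (((f a).val : ℤ) - (g a).val < 0),
    Bin.mk (((f a).val : ℤ) - (g a).val).natAbs)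
  congr 3
  · by_cases h : (g a).val ≤ (f a).val <;> simp [h]; omega
  · simp only; omega

theorem pt_pos {f : α → ℤ} (hf : PT f) : PT fun a => Bin.mk (f a).toNat :=
  (PT.cond (pt_sgn hf).fst (PT.const ⟨0⟩) (pt_sgn hf).snd).of_eq fun a => by
    by_cases h : f a < 0 <;> simp [h] <;> omega
theorem pt_negp {f : α → ℤ} (hf : PT f) : PT fun a => Bin.mk (-f a).toNat :=
  (PT.cond (pt_sgn hf).fst (pt_sgn hf).snd (PT.const ⟨0⟩)).of_eq fun a => by
    by_cases h : f a < 0 <;> simp [h] <;> omega

@[fun_prop] theorem pt_zneg {f : α → ℤ} (hf : PT f) : PT fun a => -f a :=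
  (pt_diff (pt_negp hf) (pt_pos hf)).of_eq fun a => by simp only; omega
@[fun_prop] theorem pt_zadd {f g : α → ℤ} (hf : PT f) (hg : PT g) : PT fun a => f a + g a :=
  (pt_diff (pt_badd (pt_pos hf) (pt_pos hg)) (pt_badd (pt_negp hf) (pt_negp hg))).of_eq
    fun a => by simp only; omega
@[fun_prop] theorem pt_zsub {f g : α → ℤ} (hf : PT f) (hg : PT g) : PT fun a => f a - g a :=
  (pt_zadd hf (pt_zneg hg)).of_eq fun a => (sub_eq_add_neg _ _).symm
@[fun_prop] theorem pt_zmul {f g : α → ℤ} (hf : PT f) (hg : PT g) : PT fun a => f a * g a :=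
  (pt_diff (pt_badd (pt_bmul (pt_pos hf) (pt_pos hg)) (pt_bmul (pt_negp hf) (pt_negp hg)))
    (pt_badd (pt_bmul (pt_pos hf) (pt_negp hg)) (pt_bmul (pt_negp hf) (pt_pos hg)))).of_eq
    fun a => by
      push_cast
      conv_rhs => rw [← Int.toNat_sub_toNat_neg (f a), ← Int.toNat_sub_toNat_neg (g a)]
      ring
@[fun_prop] theorem pt_zcast {f : α → ℕ} (hf : PT f) : PT fun a => (f a : ℤ) :=
  (pt_diff (pt_bin hf) (PT.const ⟨0⟩)).of_eq fun a => by simp
@[fun_prop] theorem pt_rat {f : α → ℤ} (hf : PT f) : PT fun a => (f a : ℚ) :=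
  (hf.mk (PT.const (Bin.mk 1))).recast' fun a => by
    change _ = enc ((f a : ℚ).num, Bin.mk (f a : ℚ).den); simp

instance : EncInj ℤ := ⟨fun a b h => by
  have h' : (decide (a < 0), Bin.mk a.natAbs) = (decide (b < 0), Bin.mk b.natAbs) := EncInj.inj h
  simp only [Prod.mk.injEq, decide_eq_decide, Bin.mk.injEq] at h'
  omega⟩

theorem sz_int_le {z : ℤ} {k : ℕ} (h : z.natAbs < 2 ^ k) : sz z ≤ k + 3 := by
  have := size_le_of_lt h
  change sz (decide (z < 0), Bin.mk z.natAbs) ≤ _
  rw [sz_prod, show ∀ b : Bool, sz b = 1 from fun _ => rfl]; dsimp only; omega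

theorem abs_lt_sz (z : ℤ) : z.natAbs < 2 ^ sz z := by
  refine (lt_sz ⟨z.natAbs⟩).trans_le (Nat.pow_le_pow_right (by omega) ?_)
  change _ ≤ sz (decide (z < 0), Bin.mk z.natAbs)
  rw [sz_prod]; exact Nat.le_add_left _ _

@[fun_prop] theorem pt_zsum {l : α → List ℤ} (hl : PT l) : PT fun a => (l a).sum := by
  have key : ∀ m : List ℤ, m.sum.natAbs < 2 ^ sz m := by
    intro m
    induction m with
    | nil => simp [sz]
    | cons z m ih =>
      rw [List.sum_cons, sz_cons]
      have h1 := abs_lt_sz z
      have h2 := Int.natAbs_add_le z m.sum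
      have h3 : 2 ^ sz z ≤ 2 ^ (2 * sz z + sz m) := Nat.pow_le_pow_right (by omega) (by omega)
      have h4 : 2 ^ sz m ≤ 2 ^ (2 * sz z + sz m) := Nat.pow_le_pow_right (by omega) (by omega)
      rw [show 2 * sz z + 1 + sz m = 2 * sz z + sz m + 1 by omega, pow_succ]; omega
  refine (PT.foldr (f := fun _ (b s : ℤ) => b + s) (by fun_prop) hl (PT.const 0)
    (hl.pb.add (PB.const 3)) fun a k => ?_).of_eq fun a => rfl
  exact (sz_int_le (key _)).trans
    (Nat.add_le_add_right (sz_le_of_sublist (List.drop_sublist _ _)) _)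

@[fun_prop] theorem pt_zprod {l : α → List ℤ} (hl : PT l) : PT fun a => (l a).prod := by
  have key : ∀ m : List ℤ, m.prod.natAbs ≤ 2 ^ sz m := by
    intro m
    induction m with
    | nil => simp [sz]
    | cons z m ih =>
      rw [List.prod_cons, sz_cons, Int.natAbs_mul]
      calc _ ≤ 2 ^ sz z * 2 ^ sz m := Nat.mul_le_mul (abs_lt_sz z).le ih
        _ ≤ _ := by rw [← pow_add]; exact Nat.pow_le_pow_right (by omega) (by omega)
  refine (PT.foldr (f := fun _ (b s : ℤ) => b * s) (by fun_prop) hl (PT.const 1)
    (hl.pb.add (PB.const 4)) fun a k => ?_).of_eq fun a => rfl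
  refine (sz_int_le (k := sz ((l a).drop k) + 1) ((key _).trans_lt
    (Nat.pow_lt_pow_right (by omega) (by omega)))).trans ?_
  have := sz_le_of_sublist (List.drop_sublist k (l a)); omega

end Pool.Agent.H38.ER
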