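import Pool.Agent.H38.NP.Defs

/-!
The existential theory of the reals as a language of bit strings, and hardness for it under
polynomial-time many-one reductions.
-/

namespace Pool.Agent.H38.ER

open Pool.Agent.H38.NP

/-- Polynomial expressions with integer coefficients in real variables `x 0, x 1, …`. -/
inductive Tm
  | var (i : ℕ)
  | num (n : ℕ)
  | add (s t : Tm)
  | mul (s t : Tm)
  | neg (s : Tm)

/-- Quantifier-free Boolean combinations of polynomial equations and inequalities. -/
inductive Fm
  | lt (s t : Tm)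
  | eq (s t : Tm)
  | and (φ ψ : Fm)
  | or (φ ψ : Fm)
  | not (φ : Fm)

/-- The value of an expression. -/
noncomputable def Tm.ev (x : ℕ → ℝ) : Tm → ℝ
  | .var i => x i
  | .num n => n
  | .add s t => s.ev x + t.ev x
  | .mul s t => s.ev x * t.ev x
  | .neg s => -s.ev x

/-- The truth of a formula. -/
def Fm.Holds (x : ℕ → ℝ) : Fm → Prop
  | .lt s t => s.ev x < t.ev x
  | .eq s t => s.ev x = t.ev x
  | .and φ ψ => φ.Holds x ∧ ψ.Holds x
  | .or φ ψ => φ.Holds x ∨ ψ.Holds x
  | .not φ => ¬ φ.Holds x

/-- The existential closure of `φ` is true over the reals. -/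
def ETR (φ : Fm) : Prop := ∃ x : ℕ → ℝ, φ.Holds x

/-- Reverse Polish code: a list of symbols (kind, number); variable indices and constants are
written in binary. -/
def Tm.code : Tm → List (ℕ × Bin)
  | .var i => [(0, ⟨i⟩)]
  | .num n => [(1, ⟨n⟩)]
  | .add s t => s.code ++ t.code ++ [(2, ⟨0⟩)]
  | .mul s t => s.code ++ t.code ++ [(3, ⟨0⟩)]
  | .neg s => s.code ++ [(4, ⟨0⟩)]

/-- Reverse Polish code of a formula. -/
def Fm.code : Fm → List (ℕ × Bin)
  | .lt s t => s.code ++ t.code ++ [(5, ⟨0⟩)]
  | .eq s t => s.code ++ t.code ++ [(6, ⟨0⟩)]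
  | .and φ ψ => φ.code ++ ψ.code ++ [(7, ⟨0⟩)]
  | .or φ ψ => φ.code ++ ψ.code ++ [(8, ⟨0⟩)]
  | .not φ => φ.code ++ [(9, ⟨0⟩)]

instance encFm : Enc Fm := ⟨fun φ => enc φ.code⟩

/-- Integers: sign and binary absolute value. -/
instance encInt : Enc ℤ := ⟨fun z => enc (decide (z < 0), Bin.mk z.natAbs)⟩

/-- Rationals: numerator and denominator in binary. -/
instance encRat : Enc ℚ := ⟨fun q => enc (q.num, Bin.mk q.den)⟩

/-- The decision problem `P`, restricted to inputs in the class `C`, is hard for the existential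
theory of the reals: the language of codes of true existential sentences has a polynomial-time
many-one reduction to `P` whose values are codes of members of `C`. -/
def ERHardOn {α : Type} [Enc α] (C P : α → Prop) : Prop :=
  ∃ f, PolyTime f ∧ ∀ x, ∃ a, f x = enc a ∧ C a ∧ (x ∈ lang ETR ↔ P a)

end Pool.Agent.H38.ER
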