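import Pool.Agent.H38.ER.Big

/-!
Formulas as inputs and outputs of polynomial-time maps.
-/

namespace Pool.Agent.H38.ER

open Pool.Agent.H38.NP

variable {α β : Type} [Enc α] [Enc β]

instance : Enc Tm := ⟨fun s => enc s.code⟩

@[fun_prop] theorem pt_tk {f : α → Fm} (h : PT f) : PT fun a => (f a).tk :=
  h.recast' fun _ => (enc_tk _).symm
theorem pt_tcode {f : α → Tm} (h : PT f) : PT fun a => (f a).code := h.recast' fun _ => rfl
theorem pt_fcode {f : α → Fm} (h : PT f) : PT fun a => (f a).code := h.recast' fun _ => rfl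

@[fun_prop] theorem pt_var {f : α → ℕ} (h : PT f) : PT fun a => Tm.var (f a) :=
  (PT.cons ((PT.const 0).mk (pt_bin h)) (PT.const [])).recast' fun _ => rfl
@[fun_prop] theorem pt_tadd {f g : α → Tm} (h : PT f) (h' : PT g) : PT fun a => (f a).add (g a) :=
  (((pt_tcode h).append (pt_tcode h')).append (PT.const _)).recast' fun _ => rfl
@[fun_prop] theorem pt_tmul {f g : α → Tm} (h : PT f) (h' : PT g) : PT fun a => (f a).mul (g a) :=
  (((pt_tcode h).append (pt_tcode h')).append (PT.const _)).recast' fun _ => rfl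
@[fun_prop] theorem pt_tneg {f : α → Tm} (h : PT f) : PT fun a => (f a).neg :=
  ((pt_tcode h).append (PT.const _)).recast' fun _ => rfl
@[fun_prop] theorem pt_flt {f g : α → Tm} (h : PT f) (h' : PT g) : PT fun a => Fm.lt (f a) (g a) :=
  (((pt_tcode h).append (pt_tcode h')).append (PT.const _)).recast' fun _ => rfl
@[fun_prop] theorem pt_feq {f g : α → Tm} (h : PT f) (h' : PT g) : PT fun a => Fm.eq (f a) (g a) :=
  (((pt_tcode h).append (pt_tcode h')).append (PT.const _)).recast' fun _ => rfl
@[fun_prop] theorem pt_fand {f g : α → Fm} (h : PT f) (h' : PT g) : PT fun a => (f a).and (g a) :=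
  (((pt_fcode h).append (pt_fcode h')).append (PT.const _)).recast' fun _ => rfl
@[fun_prop] theorem pt_for {f g : α → Fm} (h : PT f) (h' : PT g) : PT fun a => (f a).or (g a) :=
  (((pt_fcode h).append (pt_fcode h')).append (PT.const _)).recast' fun _ => rfl
@[fun_prop] theorem pt_fnot {f : α → Fm} (h : PT f) : PT fun a => (f a).not :=
  ((pt_fcode h).append (PT.const _)).recast' fun _ => rfl

def sumT (l : List Tm) : Tm := l.foldl Tm.add (.num 0)
def allF (l : List Fm) : Fm := l.foldl Fm.and (.eq (.num 0) (.num 0))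

theorem ev_sumT (x) (l : List Tm) : (sumT l).ev x = (l.map (Tm.ev x)).sum := by
  induction l using List.reverseRecOn with
  | nil => simp [sumT, Tm.ev]
  | append_singleton l t ih => simp only [sumT] at ih; simp [sumT, Tm.ev, ih]

theorem holds_allF (x) (l : List Fm) : (allF l).Holds x ↔ ∀ φ ∈ l, φ.Holds x := by
  induction l using List.reverseRecOn with
  | nil => simp [allF, Fm.Holds]
  | append_singleton l t ih =>
    simp only [allF] at ih; simp [allF, Fm.Holds, ih, or_imp, forall_and]

@[fun_prop] theorem pt_sumT {l : α → List Tm} (h : PT l) : PT fun a => sumT (l a) := by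
  have e : ∀ l : List Tm, (sumT l).code = [(1, ⟨0⟩)] ++ l.flatMap fun t => t.code ++ [(2, ⟨0⟩)] := by
    intro l
    induction l using List.reverseRecOn with
    | nil => rfl
    | append_singleton l t ih => simp only [sumT] at ih; simp [sumT, Tm.code, ih]
  exact ((PT.const _).append (PT.flatMap ((pt_tcode (by fun_prop)).append (PT.const _)) h)).recast'
    fun a => congrArg enc (e _).symm

@[fun_prop] theorem pt_allF {l : α → List Fm} (h : PT l) : PT fun a => allF (l a) := by
  have e : ∀ l : List Fm, (allF l).code = (Fm.eq (.num 0) (.num 0)).code ++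
      l.flatMap fun t => t.code ++ [(7, ⟨0⟩)] := by
    intro l
    induction l using List.reverseRecOn with
    | nil => rfl
    | append_singleton l t ih => simp only [allF] at ih; simp [allF, Fm.code, ih]
  exact ((PT.const _).append (PT.flatMap ((pt_fcode (by fun_prop)).append (PT.const _)) h)).recast'
    fun a => congrArg enc (e _).symm

/-! injectivity of codes -/

def ustep (st : List (Tm ⊕ Fm)) (t : Tok) : List (Tm ⊕ Fm) :=
  match t.1, st with
  | 0, st => .inl (.var (bval t.2.val)) :: st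
  | 1, st => .inl (.num (bval t.2.val)) :: st
  | 2, .inl b :: .inl a :: st => .inl (.add a b) :: st
  | 3, .inl b :: .inl a :: st => .inl (.mul a b) :: st
  | 4, .inl b :: st => .inl (.neg b) :: st
  | 5, .inl b :: .inl a :: st => .inr (.lt a b) :: st
  | 6, .inl b :: .inl a :: st => .inr (.eq a b) :: st
  | 7, .inr b :: .inr a :: st => .inr (.and a b) :: st
  | 8, .inr b :: .inr a :: st => .inr (.or a b) :: st
  | 9, .inr b :: st => .inr (.not b) :: st
  | _, st => st

theorem un_tm (s : Tm) : ∀ st, s.tk.foldl ustep st = .inl s :: st := by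
  induction s with
  | var i => intro st; simp [Tm.tk, Tm.code, conv, ustep, bval_bits]
  | num i => intro st; simp [Tm.tk, Tm.code, conv, ustep, bval_bits]
  | add s t hs ht => intro st; simp only [Tm.tk] at *; simp [Tm.code, hs, ht, conv, ustep]
  | mul s t hs ht => intro st; simp only [Tm.tk] at *; simp [Tm.code, hs, ht, conv, ustep]
  | neg s hs => intro st; simp only [Tm.tk] at *; simp [Tm.code, hs, conv, ustep]

theorem un_fm (s : Fm) : ∀ st, s.tk.foldl ustep st = .inr s :: st := by
  have h := un_tm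
  simp only [Tm.tk] at h
  induction s with
  | lt s t => intro st; simp [Fm.tk, Fm.code, h, conv, ustep]
  | eq s t => intro st; simp [Fm.tk, Fm.code, h, conv, ustep]
  | and s t hs ht => intro st; simp only [Fm.tk] at *; simp [Fm.code, hs, ht, conv, ustep]
  | or s t hs ht => intro st; simp only [Fm.tk] at *; simp [Fm.code, hs, ht, conv, ustep]
  | not s hs => intro st; simp only [Fm.tk] at *; simp [Fm.code, hs, conv, ustep]

theorem tk_inj {φ ψ : Fm} (h : φ.tk = ψ.tk) : φ = ψ := by
  have := un_fm φ []; rw [h, un_fm] at this; simpa using this.symm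

open Classical in
noncomputable instance : Dec Fm where
  dec x := if h : ∃ φ : Fm, φ.tk = Dec.dec x then h.choose else .lt (.num 0) (.num 0)
  pt := by
    have hv := pt_valid
    refine (PT.cond (PT.beq (hv.comp Dec.pt) (PT.const (some [true]))) Dec.pt
      (PT.const (Fm.lt (.num 0) (.num 0)).tk)).recast' fun x => ?_
    split_ifs with h
    · rw [(valid_iff _).2 h, ← enc_tk, h.choose_spec]; rfl
    · rw [← enc_tk, Bool.cond_eq_ite, if_neg (by simpa [valid_iff] using h)]
  dec_raw φ := by
    have e : raw φ = raw φ.tk := by simp [raw, enc_tk]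
    have h : ∃ ψ : Fm, ψ.tk = Dec.dec (raw φ) := ⟨φ, by rw [e, Dec.dec_raw]⟩
    rw [dif_pos h]
    exact tk_inj (by rw [h.choose_spec, e, Dec.dec_raw])

/-- membership in the class of the existential theory of the reals -/
theorem reduces_etr [Dec α] {P : α → Prop} (f : α → Fm) (hf : PT f) (e : ∀ a, P a ↔ ETR (f a)) :
    Reduces (lang P) (lang ETR) := by
  have hF : ¬ ETR (.lt (.num 0) (.num 0)) := fun ⟨_, h⟩ => lt_irrefl _ h
  have : PT fun x : Bits => cond (decide (raw (Dec.dec x : α) = x)) (f (Dec.dec x))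
    (.lt (.num 0) (.num 0)) := PT.cond (by fun_prop) (hf.comp Dec.pt) (PT.const _)
  refine ⟨_, PT.polyTime this.raw, fun x => ?_⟩
  rw [raw_val, enc_mem_lang]
  refine (mem_lang_iff ⟨x⟩).trans ?_
  by_cases h : raw (Dec.dec ⟨x⟩ : α) = ⟨x⟩ <;> simp [h, e, hF]

def qFm (q : Q4) : Fm := .eq (((Tm.var q.1).mul (.var q.2.1)).add (.var q.2.2.1)) (.var q.2.2.2)
def sysFm (c : List Q4) : Fm := (Fm.eq (.var 0) (.num 1)).and (allF (c.map qFm))

theorem holds_sysFm (u c) : (sysFm c).Holds u ↔ u 0 = 1 ∧ Sat u c := by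
  simp only [sysFm, Fm.Holds, holds_allF, List.forall_mem_map, qFm, Tm.ev, Sat, Nat.cast_one]

@[fun_prop] theorem pt_sysFm {c : α → List Q4} (h : PT c) : PT fun a => sysFm (c a) := by
  unfold sysFm qFm; fun_prop

/-! the system of a formula, placed at given positions -/

def fN (φ : Fm) : ℕ := (φ.tk.foldl step ([], 3 + φ.tk.length)).2
def fC (φ : Fm) : List Q4 :=
  [(0, 0, 1, 0), (0, 0, 0, 2), (0, (φ.tk.foldl step ([], 3 + φ.tk.length)).1.getD 0 0, 1, 0)] ++
    cons φ.tk ([], 3 + φ.tk.length) φ.tk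

@[fun_prop] theorem pt_fN {f : α → Fm} (h : PT f) : PT fun a => fN (f a) :=
  (pt_run (pt_tk h) (by fun_prop)).snd

@[fun_prop] theorem pt_fC {f : α → Fm} (h : PT f) : PT fun a => fC (f a) := by
  have h1 : PT fun T : List Tok => T.foldl step ([], 3 + T.length) := pt_run PT.id' (by fun_prop)
  have h2 : PT fun p : List Tok × ℕ => (p.1.take p.2).foldl step ([], 3 + p.1.length) :=
    pt_run (by fun_prop) (by fun_prop)
  have h3 : PT fun p : List Tok × Tok × ℕ × ℕ × ℕ => gad p.1 p.2.1 p.2.2.1 p.2.2.2.1 p.2.2.2.2 := by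
    unfold gad; fun_prop
  have h4 : PT fun T : List Tok => [(0, 0, 1, 0), (0, 0, 0, 2),
      (0, (T.foldl step ([], 3 + T.length)).1.getD 0 0, 1, 0)] ++ cons T ([], 3 + T.length) T := by
    simp only [cons_eq]
    refine PT.append (by fun_prop) (PT.flatMap ?_ (by fun_prop))
    exact h3.comp (g := fun p : List Tok × ℕ => (p.1, p.1.getD p.2 (0, ⟨[]⟩),
      ((p.1.take p.2).foldl step ([], 3 + p.1.length)).1.getD 1 0,
      ((p.1.take p.2).foldl step ([], 3 + p.1.length)).1.getD 0 0,
      ((p.1.take p.2).foldl step ([], 3 + p.1.length)).2)) (by fun_prop)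
  exact h4.comp (pt_tk h)

theorem fC_spec (φ : Fm) : 3 + φ.tk.length ≤ fN φ ∧ Bd (fN φ) (fC φ) ∧
    (∀ u, u 0 = 1 → Sat u (fC φ) → u 1 = 0 ∧ φ.Holds (rho φ.tk u)) ∧
    ∀ x, φ.Holds x → ∃ u : ℕ → ℝ, u 0 = 1 ∧ Sat u (fC φ) ∧
      ∀ j < φ.tk.length, u (3 + j) = x (bval (φ.tk.getD j (0, ⟨[]⟩)).2.val) := by
  obtain ⟨r, n, e, hr, hx, hv⟩ := inv_fm φ.tk φ (List.Subset.refl _) [] _ le_rfl (by simp)
  have := hx.1
  simp only [fN, fC, e, sat_append, bd_append]
  refine ⟨this, ⟨by simp [Bd]; omega, hx.2.1⟩, ?_, ?_⟩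
  · rintro u h0 ⟨h1, hs⟩
    simp only [Sat, List.forall_mem_cons, h0, List.getD_cons_zero] at h1
    have hb : Base u := ⟨h0, by linarith [h1.1], by linarith [h1.2.1]⟩
    have h2 := hv u hb hs
    beta_reduce at h2
    refine ⟨hb.2.1, ?_⟩
    by_contra h
    rw [if_neg h] at h2
    linarith [h1.2.2.1, hb.2.1]
  · intro x hφ
    obtain ⟨v, ev, hs⟩ := hx.2.2 (fun i => if i = 0 then 1 else if i = 1 then 0 else
      if i = 2 then 2 else x (bval (φ.tk.getD (i - 3) (0, ⟨[]⟩)).2.val)) ⟨rfl, rfl, rfl⟩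
    have hb : Base v := ⟨ev 0 (by omega), ev 1 (by omega), ev 2 (by omega)⟩
    have h1 := hv v hb hs
    have e3 : ∀ j < φ.tk.length, v (3 + j) = x (bval (φ.tk.getD j (0, ⟨[]⟩)).2.val) := fun j hj => by
      rw [ev _ (by omega), if_neg (by omega), if_neg (by omega), if_neg (by omega),
        Nat.add_sub_cancel_left]
    beta_reduce at h1
    rw [if_pos] at h1
    · exact ⟨v, hb.1, ⟨by simp [Sat, hb.1, hb.2.1, hb.2.2, h1, one_add_one_eq_two], hs⟩, e3⟩
    · refine (holds_congr φ fun i hi => ?_).1 hφ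
      have := List.idxOf_lt_length_of_mem hi
      rw [rho, e3 _ this, List.getD_eq_getElem _ _ this, List.getElem_idxOf, bval_bits]

instance : DecidableEq Bin := fun a b =>
  decidable_of_iff (a.val = b.val) ⟨fun h => by cases a; cases b; cases h; rfl, fun h => h ▸ rfl⟩

theorem pt_minb {w : α → List Bool} {n : α → ℕ} (hw : PT w) (hn : PT n) :
    PT fun a => min (bval (w a)) (n a) :=
  (PT.idxOf (pt_ofBits hw) (PT.map (f := fun _ => Bin.mk) (pt_bin (by fun_prop)) hn.range)).of_eq
    fun a => by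
      by_cases h : bval (w a) < n a
      · rw [min_eq_left h.le]
        have := List.Nodup.idxOf_getElem (xs := (List.range (n a)).map Bin.mk)
          (List.Nodup.map (fun _ _ e => by simpa using e) List.nodup_range) (bval (w a))
          (by simpa using h)
        simpa using this
      · rw [min_eq_right (by omega), List.idxOf_eq_length (by simpa using by omega)]; simp

def sh (off i : ℕ) : ℕ := if i = 0 then 0 else off + i

def emb (φ : Fm) (n xo off : ℕ) : List Q4 :=
  (fC φ).map (fun q => (sh off q.1, sh off q.2.1, sh off q.2.2.1, sh off q.2.2.2)) ++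
    (List.range φ.tk.length).map fun j => (0, off + (3 + j), off + 1,
      if n ≤ min (bval (φ.tk.getD j (0, ⟨[]⟩)).2.val) n then off + 1 else
        xo + min (bval (φ.tk.getD j (0, ⟨[]⟩)).2.val) n)

@[fun_prop] theorem pt_emb {f : α → Fm} {n xo off : α → ℕ} (h : PT f) (hn : PT n) (hx : PT xo)
    (ho : PT off) : PT fun a => emb (f a) (n a) (xo a) (off a) := by
  have h1 : PT fun p : α × ℕ => min (bval ((f p.1).tk.getD p.2 (0, ⟨[]⟩)).2.val) (n p.1) :=
    pt_minb (by fun_prop) (by fun_prop)
  unfold emb sh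
  refine PT.append (by fun_prop) (PT.map (PT.mk (by fun_prop) (PT.mk (by fun_prop) (PT.mk
    (by fun_prop) (PT.ite (PT.le (by fun_prop) h1) (by fun_prop) (PT.add (by fun_prop) h1)))))
    (by fun_prop))

theorem emb_bd (φ : Fm) {n xo off N : ℕ} (h1 : xo + n ≤ N) (h2 : off + fN φ ≤ N) :
    Bd N (emb φ n xo off) := by
  obtain ⟨a, b, -⟩ := fC_spec φ
  simp only [emb, bd_append]
  constructor
  · simp only [Bd, List.forall_mem_map, sh]
    intro q hq
    have := b q hq
    refine ⟨?_, ?_, ?_, ?_⟩ <;> split_ifs <;> omega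
  · simp only [Bd, List.forall_mem_map, List.mem_range]
    intro j hj
    refine ⟨by omega, by omega, by omega, ?_⟩
    split_ifs <;> omega

theorem emb_sound {φ : Fm} {n xo off : ℕ} {u : ℕ → ℝ} (h0 : u 0 = 1) (h : Sat u (emb φ n xo off)) :
    u (off + 1) = 0 ∧ φ.Holds fun i => if i < n then u (xo + i) else 0 := by
  obtain ⟨-, -, c, -⟩ := fC_spec φ
  rw [emb, sat_append] at h
  obtain ⟨z, hz⟩ := c (fun i => u (sh off i)) h0 fun q hq => h.1 _ (List.mem_map_of_mem hq)
  have z' : u (off + 1) = 0 := z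
  refine ⟨z', (holds_congr φ fun i hi => ?_).1 hz⟩
  have hl := List.idxOf_lt_length_of_mem hi
  have := h.2 _ (List.mem_map_of_mem (List.mem_range.2 hl))
  rw [List.getD_eq_getElem _ _ hl, List.getElem_idxOf, bval_bits] at this
  simp only [h0, z', one_mul, add_zero] at this
  rw [rho, sh, if_neg (by omega), this]
  by_cases hi : i < n
  · rw [if_neg (by omega), if_pos hi, min_eq_left hi.le]
  · rw [if_pos (by omega), if_neg hi, z']

theorem emb_complete {φ : Fm} {n : ℕ} {x : ℕ → ℝ} (h : φ.Holds fun i => if i < n then x i else 0) :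
    ∃ w : ℕ → ℝ, ∀ (xo off : ℕ) (u : ℕ → ℝ), u 0 = 1 → (∀ i < n, u (xo + i) = x i) →
      (∀ i < fN φ, 0 < i → u (off + i) = w i) → Sat u (emb φ n xo off) := by
  obtain ⟨a, b, c, d⟩ := fC_spec φ
  obtain ⟨w, w0, hw, e⟩ := d _ h
  have z := (c w w0 hw).1
  refine ⟨w, fun xo off u h0 hx hu => ?_⟩
  have s : ∀ i < fN φ, u (sh off i) = w i := fun i hi => by
    unfold sh; split_ifs with h
    · rw [h0, h, w0]
    · exact hu i hi (by omega)
  rw [emb, sat_append]
  constructor
  · simp only [Sat, List.forall_mem_map]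
    intro q hq
    obtain ⟨b1, b2, b3, b4⟩ := b q hq
    rw [s _ b1, s _ b2, s _ b3, s _ b4]; exact hw q hq
  · simp only [Sat, List.forall_mem_map, List.mem_range]
    intro j hj
    rw [h0, hu _ (by omega) (by omega), hu 1 (by omega) (by omega), z, e j hj]
    generalize bval _ = k
    by_cases hk : k < n
    · rw [if_pos hk, if_neg (by omega), min_eq_left hk.le, hx k hk]; simp
    · rw [if_neg hk, if_pos (by omega), hu 1 (by omega) (by omega), z]; simp

end Pool.Agent.H38.ER
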