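import Pool.Agent.H38.ER.Frame

/-!
Assigning nonzero vectors of three-space to vertices with adjacent vertices orthogonal is hard.
-/

namespace Pool.Agent.H38.ER

open Pool.Agent.H38.NP

def W3 (p : ℕ × List (ℕ × ℕ)) : Prop :=
  ∃ q : ℕ → V3, (∀ i < p.1, q i ≠ 0) ∧ ∀ u v : Fin p.1, (graphOf p.1 p.2).Adj u v → ip (q u) (q v) = 0

def arW : ℕ → ℕ | 0 => 2 | 1 => 4 | _ => 9

def sW : Sem V3 := ⟨(· ≠ 0), fun _ _ => True, fun c l => match c, l with
  | 0, [u, v] => ip u v = 0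
  | 1, [e1, e3, b, y] => Pa e1 (1, 0, 0) → Pa e3 (0, 0, 1) → Pa b (1, 0, 1) → y.2.2 = 0 →
      ∃ η, Pa y (1, η, 0)
  | 2, [e1, e2, e3, w, z, A, B, C, D] => Pa e1 (1, 0, 0) → Pa e2 (0, 1, 0) → Pa e3 (0, 0, 1) →
      Pa w (0, 1, -1) → Pa z (1, 0, -1) → ∀ a b c, Pa A (1, a, 0) → Pa B (1, b, 0) →
      Pa C (1, c, 0) → D.2.2 = 0 → Pa D (1, a * b + c, 0)
  | _, _ => True⟩

def cW : Sem V3 := ⟨(· ≠ 0), fun _ _ => True, fun c l => match c, l with
  | 0, [u, v] => ip u v = 0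
  | 1, [e1, e3, b, y] => e1 = (1, 0, 0) ∧ e3 = (0, 0, 1) ∧ b = (1, 0, 1) ∧
      ∃ η, |η| ≤ 1 / 2 ∧ y = (1, η, 0)
  | 2, [e1, e2, e3, w, z, A, B, C, D] => e1 = (1, 0, 0) ∧ e2 = (0, 1, 0) ∧ e3 = (0, 0, 1) ∧
      w = (0, 1, -1) ∧ z = (1, 0, -1) ∧ ∃ a b c, A = (1, a, 0) ∧ B = (1, b, 0) ∧
      C = (1, c, 0) ∧ D = (1, a * b + c, 0)
  | _, _ => True⟩

def mkE (l : List (ℕ × ℕ)) : List Con := l.map fun e => (0, [e.1, e.2])

def skVar : List Con := mkE [(0, 4), (2, 5), (4, 5), (4, 6), (5, 6), (7, 1), (7, 6), (7, 3)]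

def skF : List Con := mkE [(9, 1), (10, 6), (10, 3), (10, 9), (11, 1), (11, 9), (12, 0), (13, 5),
  (13, 11), (13, 12), (14, 4), (15, 7), (15, 12), (15, 14), (16, 8), (16, 2), (16, 14)]

theorem skVar_wf : SkWF arW 1 4 skVar := by simp [SkWF, skVar, mkE, arW]
theorem skF_wf : SkWF arW 2 8 skF := by simp [SkWF, skF, mkE, arW]

theorem var_s : sW.GS 1 4 4 skVar := by
  intro f ok _ h
  have k := fun i hi => v3_ne.1 (ok i hi)
  have k3 := k 3 (by norm_num); have k4 := k 4 (by norm_num); have k5 := k 5 (by norm_num)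
  have k6 := k 6 (by norm_num); have k7 := k 7 (by norm_num)
  simp only [Sem.sat, skVar, mkE, sW, List.map_cons, List.map_nil, List.forall_mem_cons,
    List.range_succ, List.range_zero, List.nil_append, List.cons_append] at h ⊢
  obtain ⟨h1, h2, h3, h4, h5, h6, h7, h8, -⟩ := h
  rintro ⟨s, hs, e0⟩ ⟨t, ht, e1⟩ ⟨r, hr, e2⟩ hy
  rw [e0] at h1; rw [e1] at h6; rw [e2] at h2
  have c1 : (f 4).1 = 0 := by simpa [ip, hs] using h1
  have n3 : (f 7).2.2 = 0 := by simpa [ip, ht] using h6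
  have d13 : (f 5).1 + (f 5).2.2 = 0 := by
    refine mul_left_cancel₀ hr ?_; unfold ip at h2; linear_combination h2
  unfold ip at *
  have e1 : (f 6).1 ≠ 0 := by
    intro e
    have hc : 0 < (f 4).2.1 ^ 2 + (f 4).2.2 ^ 2 := by
      rcases k4 with h | h | h
      · exact absurd c1 h
      all_goals positivity
    have he : 0 < (f 6).2.1 ^ 2 + (f 6).2.2 ^ 2 := by
      rcases k6 with h | h | h
      · exact absurd e h
      all_goals positivity
    rw [c1] at h3 h4; rw [e] at h4 h5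
    have hD : ((f 4).2.1 * (f 6).2.2 - (f 4).2.2 * (f 6).2.1) ≠ 0 := by
      intro hD
      have : ((f 4).2.1 ^ 2 + (f 4).2.2 ^ 2) * ((f 6).2.1 ^ 2 + (f 6).2.2 ^ 2) = 0 := by
        linear_combination ((f 4).2.1 * (f 6).2.2 - (f 4).2.2 * (f 6).2.1) * hD +
          ((f 4).2.1 * (f 6).2.1 + (f 4).2.2 * (f 6).2.2) * h4
      exact (mul_pos hc he).ne' this
    have d2 : (f 5).2.1 = 0 := mul_left_cancel₀ hD (by
      linear_combination (f 6).2.2 * h3 - (f 4).2.2 * h5)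
    have d3 : (f 5).2.2 = 0 := mul_left_cancel₀ hD (by
      linear_combination -(f 6).2.1 * h3 + (f 4).2.1 * h5)
    rcases k5 with h | h | h
    · exact h (by linarith)
    · exact h d2
    · exact h d3
  have y1 : (f 3).1 ≠ 0 := by
    intro e
    have y2 : (f 3).2.1 ≠ 0 := by tauto
    have n2 : (f 7).2.1 = 0 := mul_right_cancel₀ y2 (by rw [e, hy] at h8; linear_combination h8)
    have n1 : (f 7).1 = 0 := mul_right_cancel₀ e1 (by rw [n2, n3] at h7; linear_combination h7)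
    tauto
  exact ⟨(f 3).2.1 / (f 3).1, (f 3).1, y1, Prod.ext (by simp) (Prod.ext (by field_simp) (by simpa))⟩

theorem f_s : sW.GS 2 9 8 skF := by
  intro f ok _ h
  have k := fun i hi => v3_ne.1 (ok i hi)
  have k8 := k 8 (by norm_num); have k9 := k 9 (by norm_num); have k11 := k 11 (by norm_num)
  have k12 := k 12 (by norm_num); have k14 := k 14 (by norm_num)
  simp only [Sem.sat, skF, mkE, sW, List.map_cons, List.map_nil, List.forall_mem_cons,
    List.range_succ, List.range_zero, List.nil_append, List.cons_append] at h ⊢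
  obtain ⟨h1, h2, h3, h4, h5, h6, h7, h8, h9, h10, h11, h12, h13, h14, h15, h16, h17, -⟩ := h
  have d1 := det_of_orth (ok 10 (by norm_num)) h2 h3 h4
  have d2 := det_of_orth (ok 13 (by norm_num)) h8 h9 h10
  have d3 := det_of_orth (ok 15 (by norm_num)) h12 h13 h14
  have d4 := det_of_orth (ok 16 (by norm_num)) h15 h16 h17
  rintro ⟨s0, p0, e0⟩ ⟨s1, p1, e1⟩ ⟨s2, p2, e2⟩ ⟨s3, p3, e3⟩ ⟨s4, p4, e4⟩ a b c ⟨s5, p5, e5⟩
    ⟨s6, p6, e6⟩ ⟨s7, p7, e7⟩ hD
  simp only [e0, e1, e2, e3, e4, e5, e6, e7, ip, det3] at h1 h5 h6 h7 h11 d1 d2 d3 d4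
  have t2 : (f 9).2.1 = 0 := mul_left_cancel₀ p1 (by linear_combination h1)
  have t3 : (f 9).2.2 = b * (f 9).1 := mul_left_cancel₀ (mul_ne_zero p6 p3) (by
    linear_combination d1 - s6 * s3 * t2)
  have t1 : (f 9).1 ≠ 0 := by
    intro e; rw [e, mul_zero] at t3; tauto
  have u2 : (f 11).2.1 = 0 := mul_left_cancel₀ p1 (by linear_combination h5)
  have u1 : (f 11).1 = -b * (f 11).2.2 := mul_left_cancel₀ t1 (by
    linear_combination h6 - (f 11).2.2 * t3 - (f 9).2.1 * u2)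
  have u3 : (f 11).2.2 ≠ 0 := by
    intro e; rw [e, mul_zero] at u1; tauto
  have w1 : (f 12).1 = 0 := mul_left_cancel₀ p0 (by linear_combination h7)
  have w2 : (f 12).2.1 = a * b * (f 12).2.2 := mul_left_cancel₀ (mul_ne_zero p5 u3) (by
    linear_combination -d2 + s5 * (f 12).2.2 * u2 - s5 * a * (f 12).2.2 * u1 +
      s5 * a * (f 11).2.2 * w1)
  have w3 : (f 12).2.2 ≠ 0 := by
    intro e; rw [e, mul_zero] at w2; tauto
  have r3 : (f 14).2.2 = (f 14).1 := mul_left_cancel₀ p4 (by linear_combination -h11)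
  have r2 : (f 14).2.1 = (a * b + c) * (f 14).1 := mul_left_cancel₀ (mul_ne_zero p7 w3) (by
    linear_combination -d3 + s7 * (f 14).2.2 * w2 + s7 * a * b * (f 12).2.2 * r3 -
      s7 * c * (f 14).2.2 * w1)
  have r1 : (f 14).1 ≠ 0 := by
    intro e; rw [e, mul_zero] at r2; rw [e] at r3; tauto
  have x2 : (f 8).2.1 = (a * b + c) * (f 8).1 := mul_left_cancel₀ (mul_ne_zero p2 r1) (by
    linear_combination d4 + s2 * (f 8).1 * r2)
  have x1 : (f 8).1 ≠ 0 := by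
    intro e; rw [e, mul_zero] at x2; tauto
  exact ⟨(f 8).1, x1, Prod.ext (by simp) (Prod.ext (by simp [x2, mul_comm]) (by simpa))⟩

theorem var_c : cW.GC 1 4 4 skVar := by
  intro f h F _
  simp only [cW, List.map_cons, List.map_nil, List.range_succ, List.range_zero, List.nil_append,
    List.cons_append] at h
  obtain ⟨e0, e1, e2, η, hη, e3⟩ := h
  have h4 : 0 ≤ 1 - 4 * η ^ 2 := by have := abs_le.1 hη; nlinarith
  have hs := Real.sq_sqrt h4
  have h0 := Real.sqrt_nonneg (1 - 4 * η ^ 2)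
  set z := (1 + √(1 - 4 * η ^ 2)) / 2 with hz
  have z0 : z ≠ 0 := by positivity
  have z2 : η ^ 2 + z ^ 2 = z := by rw [hz]; linear_combination hs / 4
  refine ⟨fun i => [(0, -z, η), (-z, η, z), (1, η, z), (-η, 1, 0)].getD i 0, fun i hi => ?_,
    fun _ _ _ _ => trivial, ?_⟩
  · refine ⟨?_, fun _ _ => trivial⟩
    interval_cases i <;> simp [cW, z0]
  · simp [Sem.sat, skVar, mkE, cW, e0, e1, e2, e3, ip]
    refine ⟨?_, ?_⟩ <;> nlinarith

theorem f_c : cW.GC 2 9 8 skF := by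
  intro f h F _
  simp only [cW, List.map_cons, List.map_nil, List.range_succ, List.range_zero, List.nil_append,
    List.cons_append] at h
  obtain ⟨e0, e1, e2, e3, e4, a, b, c, e5, e6, e7, e8⟩ := h
  refine ⟨fun i => [(1, 0, b), (-b, 1, 1), (-b, 0, 1), (0, a * b, 1), (-a, 1, -(a * b)),
    (1, a * b + c, 1), (-c, 1, -(a * b)), (-(a * b + c), 1, 0)].getD i 0, fun i hi => ?_,
    fun _ _ _ _ => trivial, ?_⟩
  · refine ⟨?_, fun _ _ => trivial⟩
    interval_cases i <;> simp [cW]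
  · simp [Sem.sat, skF, mkE, cW, e0, e1, e2, e3, e4, e5, e6, e7, e8, ip]

def topW (p : ℕ × List Q4) : ℕ × List Con :=
  (13 + 2 * p.1, mkE yuoh ++ ((0, [13, 7]) :: ((List.range p.1).flatMap fun v =>
    [(0, [2, 13 + 2 * v]), (0, [2, 14 + 2 * v]), (1, [0, 2, 6, 14 + 2 * v]),
      (2, [0, 1, 2, 3, 5, 8, 14 + 2 * v, 14 + 2 * v, 13 + 2 * v])]) ++
    p.2.map fun q => (2, [0, 1, 2, 3, 5, 13 + 2 * q.1, 13 + 2 * q.2.1, 13 + 2 * q.2.2.1,
      13 + 2 * q.2.2.2])))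

theorem topW_wf {p : ℕ × List Q4} (h3 : 3 ≤ p.1) (hb : Bd p.1 p.2) : WF arW 3 (topW p) := by
  simp only [WF, topW, List.mem_append, List.mem_cons, List.mem_flatMap, List.mem_range,
    List.mem_map, List.not_mem_nil, or_false]
  rintro c (h | (rfl | ⟨v, hv, rfl | rfl | rfl | rfl⟩) | ⟨q, hq, rfl⟩)
  · simp only [mkE, yuoh, List.map_cons, List.map_nil, List.mem_cons, List.not_mem_nil,
      or_false] at h
    rcases h with rfl | rfl | rfl | rfl | rfl | rfl | rfl | rfl | rfl | rfl | rfl | rfl | rfl | rfl |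
      rfl | rfl | rfl | rfl | rfl | rfl | rfl | rfl | rfl | rfl <;> simp [arW] <;> omega
  all_goals simp [arW]
  · omega
  · omega
  · omega
  · omega
  · omega
  · have := hb q hq; omega

theorem pa_uniq {v : V3} {a b : ℝ} (h : Pa v (1, a, 0)) (h' : Pa v (1, b, 0)) : a = b := by
  obtain ⟨s, hs, rfl⟩ := h
  obtain ⟨t, ht, e⟩ := h'
  simp only [mul_one, mul_zero, Prod.mk.injEq, and_true] at e
  rw [← e.1] at e; exact mul_left_cancel₀ hs e.2

theorem topW_s {p : ℕ × List Q4} (h3 : 3 ≤ p.1) (hb : Bd p.1 p.2) {q} (h : sW.Rz (topW p) q)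
    (fr : Fr q) : FSol p := by
  obtain ⟨⟨ok, -⟩, h⟩ := h
  simp only [Sem.sat, topW, List.forall_mem_append, List.forall_mem_cons, List.forall_mem_flatMap,
    List.mem_range, List.forall_mem_map, sW, List.map_cons, List.map_nil, mkE, yuoh] at h ok
  obtain ⟨⟨-, -, -, -, -, -, -, h1, h2, -, h4, h5, -⟩, ⟨h6, hv⟩, hc⟩ := h
  obtain ⟨f0, f1, f2, f3, f5, f7⟩ := fr
  have z : ∀ i, ip (q 2) (q i) = 0 → (q i).2.2 = 0 := fun i h => by
    obtain ⟨s, hs, e⟩ := f2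
    rw [e] at h; simpa [ip, hs] using h
  have one : ∀ i < 13 + 2 * p.1, (q i).2.2 = 0 → ip (q 7) (q i) = 0 → Pa (q i) (1, 1, 0) := by
    intro i hi h h'
    obtain ⟨s, hs, e⟩ := f7
    have e2 : (q i).2.1 = (q i).1 := mul_left_cancel₀ hs (by
      rw [e] at h'; unfold ip at h'; linear_combination -h')
    have := v3_ne.1 (ok i hi)
    rw [e2] at this
    exact ⟨(q i).1, by tauto, Prod.ext (by simp) (Prod.ext (by simp [e2]) (by simpa))⟩
  have f8 := one 8 (by omega) (z 8 h4) h5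
  have f6 : Pa (q 6) (1, 0, 1) := by
    obtain ⟨s, hs, e⟩ := f1
    obtain ⟨t, ht, e'⟩ := f5
    have e1 : (q 6).2.1 = 0 := by rw [e] at h1; simpa [ip, hs] using h1
    have e2 : (q 6).2.2 = (q 6).1 := mul_left_cancel₀ ht (by
      rw [e'] at h2; unfold ip at h2; linear_combination -h2)
    have := v3_ne.1 (ok 6 (by omega))
    rw [e2] at this
    exact ⟨(q 6).1, by tauto, Prod.ext (by simp) (Prod.ext (by simp [e1]) (by simp [e2]))⟩
  have hx : ∀ v, ∃ x, v < p.1 → Pa (q (13 + 2 * v)) (1, x, 0) := fun v => by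
    by_cases h : v < p.1
    · obtain ⟨a1, a2, a3, a4, -⟩ := hv v h
      obtain ⟨η, hη⟩ := a3 f0 f2 f6 (z _ a2)
      exact ⟨_, fun _ => a4 f0 f1 f2 f3 f5 1 η η f8 hη hη (z _ a1)⟩
    · exact ⟨0, fun h' => absurd h' h⟩
  choose u hu using hx
  refine ⟨u, pa_uniq (hu 0 (by omega))
    (one 13 (by omega) (z _ (hv 0 (by omega)).1) (by rw [ip_comm]; exact h6)), fun c hc' => ?_⟩
  obtain ⟨b1, b2, b3, b4⟩ := hb c hc'
  exact pa_uniq (hc c hc' f0 f1 f2 f3 f5 _ _ _ (hu _ b1) (hu _ b2) (hu _ b3) (z _ (hv _ b4).1))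
    (hu _ b4)

theorem topW_c {p : ℕ × List Q4} {u : ℕ → ℝ} (h0 : u 0 = 1) (hs : Sat u p.2)
    (hu : ∀ i, |u i| ≤ 1) : ∃ q, cW.Rz (topW p) q := by
  let q : ℕ → V3 := fun i => if i < 13 then [(1, 0, 0), (0, 1, 0), (0, 0, 1), (0, 1, -1), (0, 1, 1),
    (1, 0, -1), (1, 0, 1), (1, -1, 0), (1, 1, 0), (1, 1, 1), (-1, 1, 1), (1, -1, 1), (1, 1, -1)].getD i 0
    else if i % 2 = 1 then (1, u ((i - 13) / 2), 0) else (1, u ((i - 13) / 2) / 2, 0)
  have e1 : ∀ v, q (13 + 2 * v) = (1, u v, 0) := fun v => by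
    simp only [q]; rw [if_neg (by omega), if_pos (by omega)]; congr 3; omega
  have e2 : ∀ v, q (14 + 2 * v) = (1, u v / 2, 0) := fun v => by
    simp only [q]; rw [if_neg (by omega), if_neg (by omega)]; congr 4; omega
  refine ⟨q, ⟨fun i _ => ?_, fun _ _ _ _ _ => trivial⟩, ?_⟩
  · by_cases h : i < 13
    · interval_cases i <;> simp [q, cW]
    · simp only [q, cW, if_neg h]; split_ifs <;> simp
  · simp only [Sem.sat, topW, List.forall_mem_append, List.forall_mem_cons, List.forall_mem_flatMap,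
      List.mem_range, List.forall_mem_map, cW, List.map_cons, List.map_nil, mkE, yuoh, e1, e2]
    refine ⟨by simp [q, ip], ⟨by simp [q, ip, h0], fun v _ => ⟨by simp [q, ip], by simp [q, ip],
      ⟨rfl, rfl, rfl, _, ?_, rfl⟩, ⟨rfl, rfl, rfl, rfl, rfl, 1, _, _, rfl, rfl, rfl, by simp⟩,
      by simp⟩⟩, fun c hc => ⟨rfl, rfl, rfl, rfl, rfl, _, _, _, rfl, rfl, rfl, by rw [hs c hc]⟩⟩
    have := hu v; rw [abs_div, abs_two]; linarith

theorem w3_erh : ERH (fun _ => True) W3 := by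
  refine bfma_erh.reduce (fun p => ((subst 1 4 4 skVar (subst 2 9 8 skF (topW p))).1,
    edges (subst 1 4 4 skVar (subst 2 9 8 skF (topW p))).2)) ?_ ?_
  · have : PT topW := by unfold topW; fun_prop
    have := pt_subst 1 4 4 skVar (pt_subst 2 9 8 skF this)
    exact this.fst.mk (pt_edges this.snd)
  rintro p ⟨h3, hb, hp⟩
  have w0 := topW_wf h3 hb
  have w1 := w0.subst skF_wf
  have w2 := w1.subst skVar_wf
  refine ⟨trivial, fun h => ?_, fun ⟨q, ok, h⟩ => ?_⟩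
  · obtain ⟨u, a, b, c⟩ := hp h
    obtain ⟨q, hq⟩ := topW_c a b c
    obtain ⟨q1, h1⟩ := Sem.complete (fun _ _ _ => trivial) w0 skF_wf f_c hq
    obtain ⟨q2, h2⟩ := Sem.complete (fun _ _ _ => trivial) w1 skVar_wf var_c h1
    exact ⟨q2, h2.1.1, (edges_iff w2 rfl (S := cW) (r := fun u v => ip u v = 0)
      (fun _ _ h => by rwa [ip_comm]) (fun _ _ => Iff.rfl) q2).1 h2.2⟩
  · have key : ∀ q : ℕ → V3, (∀ i < (subst 1 4 4 skVar (subst 2 9 8 skF (topW p))).1, q i ≠ 0) →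
        (∀ u v : Fin _, (graphOf _ (edges (subst 1 4 4 skVar (subst 2 9 8 skF (topW p))).2)).Adj u v →
          ip (q u) (q v) = 0) → sW.Rz (topW p) q := fun q ok h =>
      Sem.sound w0 f_s (Sem.sound w1 var_s ⟨⟨ok, fun _ _ _ _ _ => trivial⟩,
        (edges_iff w2 rfl (S := sW) (r := fun u v => ip u v = 0)
          (fun _ _ h => by rwa [ip_comm]) (fun _ _ => Iff.rfl) q).2 h⟩)
    have k := key q ok h
    obtain ⟨Φ, hΦ, fr⟩ := frame (q := q) (fun i hi => k.1.1 i (by simp only [topW]; omega))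
      fun e he => k.2 (0, [e.1, e.2]) (List.mem_append_left _ (List.mem_map.2 ⟨e, he, rfl⟩))
    exact topW_s h3 hb (key (fun i => Φ (q i))
      (fun i hi => ne_of_ip (by rw [hΦ]; exact (ip_pos (ok i hi)).ne'))
      fun u v huv => by rw [hΦ]; exact h u v huv) fr

end Pool.Agent.H38.ER
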