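import Pool.Agent.H38.ER.Link
import Pool.Agent.H38.ER.Weak3

/-!
From orthogonality graphs of unit vectors in three-space to unit distance graphs.
-/

namespace Pool.Agent.H38.ER

open Module Finset Pool.Agent.H38.NP
open scoped RealInnerProductSpace

def U3 (g : Prop) (p : ℕ × List (ℕ × ℕ)) : Prop :=
  ∃ q : ℕ → V3, (∀ i < p.1, ip (q i) (q i) = 1) ∧ (g → ∀ i < p.1, ∀ j < p.1, i ≠ j → q i ≠ q j) ∧
    ∀ u v : Fin p.1, (graphOf p.1 p.2).Adj u v → ip (q u) (q v) = 0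

def Lk (g : Prop) (d : ℕ) (p : ℕ × List (ℕ × ℕ)) : Prop :=
  ∃ x : Fin p.1 → EuclideanSpace ℝ (Fin d), (g → Function.Injective x) ∧
    ∀ u v, (graphOf p.1 p.2).Adj u v → dist (x u) (x v) = 1

def topL (k : ℕ) (p : ℕ × List (ℕ × ℕ)) : ℕ × List Con :=
  (1 + k + p.1, ((List.range (k + p.1)).map fun i => (0, [0, 1 + i])) ++
    ((List.range k).flatMap fun i => ((List.range (k + p.1)).filter fun j => i != j).map fun j =>
      (3, [1 + i, 1 + j])) ++
    (p.2.filter fun e => decide (e.1 < p.1) && decide (e.2 < p.1) && e.1 != e.2).map fun e =>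
      (3, [1 + k + e.1, 1 + k + e.2]))

theorem topL_wf (k p) : WF (fun _ => 2) 4 (topL k p) := by
  simp only [WF, topL, List.forall_mem_append, List.forall_mem_flatMap, List.forall_mem_map,
    List.mem_range, List.mem_filter]
  simp
  and_intros <;> intros <;> and_intros <;> intros <;> omega

abbrev j0 (k : ℕ) : Fin (k + 3) := ⟨0, by omega⟩
abbrev j1 (k : ℕ) : Fin (k + 3) := ⟨1, by omega⟩
abbrev j2 (k : ℕ) : Fin (k + 3) := ⟨2, by omega⟩

theorem tail3 {k : ℕ} (b : OrthonormalBasis (Fin (k + 3)) ℝ (EuclideanSpace ℝ (Fin (k + 3))))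
    {x} (y) (h : ∀ i : Fin (k + 3), 3 ≤ i.val → ⟪x, b i⟫ = 0) :
    ⟪x, y⟫ = ip (⟪x, b (j0 k)⟫, ⟪x, b (j1 k)⟫, ⟪x, b (j2 k)⟫) (⟪y, b (j0 k)⟫, ⟪y, b (j1 k)⟫, ⟪y, b (j2 k)⟫) := by
  rw [← b.sum_inner_mul_inner x y, Fin.sum_univ_succ, Fin.sum_univ_succ, Fin.sum_univ_succ,
    sum_eq_zero fun i _ => by rw [h _ (by simp), zero_mul]]
  simp only [ip, real_inner_comm y]
  rw [add_zero, ← add_assoc (G := ℝ)]; rfl

theorem topL_s {g k p q} (h : (sL (EuclideanSpace ℝ (Fin (k + 3))) (k + 2) g).Rz (topL k p) q) :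
    U3 g p := by
  obtain ⟨⟨-, ap⟩, h⟩ := h
  simp only [Sem.sat, topL, List.forall_mem_append, List.forall_mem_flatMap, List.forall_mem_map,
    List.mem_range, List.mem_filter, sL, List.map_cons, List.map_nil, val, zero_ne_one, false_and,
    false_or, OfNat.ofNat_ne_one] at h ap
  obtain ⟨⟨h1, h2⟩, h3⟩ := h
  have n1 : ∀ i < k + p.1, ‖q (1 + i) - q 0‖ ^ 2 = 1 := fun i hi => by
    rw [norm_sub_rev]; exact h1 i hi
  have o : ∀ i < k + p.1, ∀ j < k + p.1, ‖q (1 + i) - q (1 + j)‖ ^ 2 = 2 →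
      ⟪q (1 + i) - q 0, q (1 + j) - q 0⟫ = 0 := fun i hi j hj h => by
    rw [inner_of_sq (n1 i hi) (n1 j hj) (c := 2) (by rwa [sub_sub_sub_cancel_right])]; ring
  obtain ⟨b, hb⟩ := Orthonormal.exists_orthonormalBasis_extension_of_card_eq (𝕜 := ℝ)
    (ι := Fin (k + 3)) (by simp) (v := fun i => q (1 + (i.val - 3)) - q 0) (s := {i | 3 ≤ i.val})
    ⟨fun i => (pow_eq_one_iff_of_nonneg (norm_nonneg _) two_ne_zero).1
      (n1 _ (by have := i.1.2; have : 3 ≤ i.1.val := i.2; omega)), fun i j hij => by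
        have hi : 3 ≤ i.1.val := i.2
        have hj : 3 ≤ j.1.val := j.2
        have := i.1.2
        have := j.1.2
        have : i.1.val ≠ j.1.val := fun e => hij (Subtype.ext (Fin.ext e))
        exact o _ (by omega) _ (by omega) (h2 _ (by omega) _ ⟨by omega, by simp; omega⟩)⟩
  have t : ∀ v < p.1, ∀ i : Fin (k + 3), 3 ≤ i.val → ⟪q (1 + (k + v)) - q 0, b i⟫ = 0 :=
    fun v hv i hi => by
      have := i.2
      rw [hb i hi, real_inner_comm]
      exact o _ (by omega) _ (by omega) (h2 _ (by omega) _ ⟨by omega, by simp; omega⟩)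
  have nn : ∀ v < p.1, ⟪q (1 + (k + v)) - q 0, q (1 + (k + v)) - q 0⟫ = 1 := fun v hv => by
    rw [real_inner_self_eq_norm_sq, n1 _ (by omega)]
  refine ⟨fun v => (⟪q (1 + (k + v)) - q 0, b (j0 k)⟫, ⟪q (1 + (k + v)) - q 0, b (j1 k)⟫,
    ⟪q (1 + (k + v)) - q 0, b (j2 k)⟫), fun v hv => ?_, fun hg i hi j hj hij e => ?_, fun u v huv => ?_⟩
  · rw [← tail3 b _ (t v hv), nn v hv]
  · refine ap (1 + (k + i)) (by omega) (1 + (k + j)) (by omega) (by omega) hg ?_
    have e1 := tail3 b (q (1 + (k + j)) - q 0) (t i hi)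
    simp only at e
    rw [e, ← tail3 b _ (t j hj), nn j hj] at e1
    have : ‖(q (1 + (k + i)) - q 0) - (q (1 + (k + j)) - q 0)‖ ^ 2 = 0 := by
      rw [norm_sub_sq_real, e1, n1 _ (by omega), n1 _ (by omega)]; ring
    rw [sub_sub_sub_cancel_right] at this
    exact sub_eq_zero.1 (by simpa using this)
  · rw [← tail3 b _ (t u u.2)]
    obtain ⟨hne, h⟩ := graphOf_adj.1 huv
    have hne : u.val ≠ v.val := fun e => hne (Fin.ext e)
    refine o _ (by omega) _ (by omega) ?_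
    rw [← add_assoc 1 k, ← add_assoc 1 k]
    rcases h with h | h
    · exact h3 (u.val, v.val) ⟨h, by simp [hne]⟩
    · rw [norm_sub_rev]; exact h3 (v.val, u.val) ⟨h, by simp [hne.symm]⟩

theorem topL_c {g k p} (h : U3 g p) :
    ∃ q, (cL (EuclideanSpace ℝ (Fin (k + 3))) (k + 2) g).Rz (topL k p) q := by
  obtain ⟨z, h1, h2, h3⟩ := h
  let b := EuclideanSpace.basisFun (Fin (k + 3)) ℝ
  have hb := orthonormal_iff_ite.1 b.orthonormal
  let ι : V3 → EuclideanSpace ℝ (Fin (k + 3)) := fun v => v.1 • b (j0 k) + v.2.1 • b (j1 k) + v.2.2 • b (j2 k)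
  have i1 : ∀ u v, ⟪ι u, ι v⟫ = ip u v := fun u v => by
    simp only [ι, inner_add_left, inner_add_right, real_inner_smul_left, real_inner_smul_right, hb]
    simp [ip, Fin.ext_iff]; ring
  have i2 : ∀ u (i : Fin (k + 3)), 3 ≤ i.val → ⟪b i, ι u⟫ = 0 := fun u i hi => by
    simp only [ι, inner_add_right, real_inner_smul_right, hb, Fin.ext_iff]
    rw [if_neg (by omega), if_neg (by omega), if_neg (by omega)]; simp
  let w : ℕ → EuclideanSpace ℝ (Fin (k + 3)) := fun i =>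
    if h : i < k then b ⟨i + 3, by omega⟩ else ι (z (i - k))
  have w1 : ∀ i (h : i < k), w i = b ⟨i + 3, by omega⟩ := fun i h => dif_pos h
  have w2 : ∀ i, w (k + i) = ι (z i) := fun i => by
    simp only [w]; rw [dif_neg (by omega)]; simp
  have n1 : ∀ i < k + p.1, ‖w i‖ ^ 2 = 1 := fun i hi => by
    rw [← real_inner_self_eq_norm_sq]
    by_cases h : i < k
    · rw [w1 i h, hb, if_pos rfl]
    · obtain ⟨v, rfl⟩ : ∃ v, i = k + v := ⟨i - k, by omega⟩
      rw [w2, i1, h1 v (by omega)]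
  have o : ∀ i < k + p.1, ∀ j < k + p.1, ⟪w i, w j⟫ = 0 → ‖w i - w j‖ ^ 2 = 2 :=
    fun i hi j hj h => by rw [norm_sub_sq_real, h, n1 i hi, n1 j hj]; ring
  have o2 : ∀ i < k, ∀ j < k + p.1, i ≠ j → ‖w i - w j‖ ^ 2 = 2 := fun i hi j hj hij => by
    refine o i (by omega) j hj ?_
    rw [w1 i hi]
    by_cases h : j < k
    · rw [w1 j h, hb, if_neg (by simpa using hij)]
    · obtain ⟨v, rfl⟩ : ∃ v, j = k + v := ⟨j - k, by omega⟩
      rw [w2, i2 _ _ (by simp)]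
  let q : ℕ → EuclideanSpace ℝ (Fin (k + 3)) := fun i => if i = 0 then 0 else w (i - 1)
  have q1 : ∀ i, q (1 + i) = w i := fun i => by simp [q]
  have q0 : q 0 = 0 := rfl
  refine ⟨q, ⟨fun _ _ => trivial, fun i hi j hj hij hg => ?_⟩, ?_⟩
  · simp only [topL] at hi hj
    have z0 : ∀ i < k + p.1, q (1 + i) ≠ q 0 := fun i hi =>
      ne_of_sq (by rw [q1, q0, sub_zero, n1 i hi]) one_ne_zero
    rcases Nat.eq_zero_or_pos i with rfl | h
    · rw [show j = 1 + (j - 1) by omega]; exact (z0 _ (by omega)).symm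
    obtain ⟨i, rfl⟩ : ∃ v, i = 1 + v := ⟨i - 1, by omega⟩
    rcases Nat.eq_zero_or_pos j with rfl | h
    · exact z0 _ (by omega)
    obtain ⟨j, rfl⟩ : ∃ v, j = 1 + v := ⟨j - 1, by omega⟩
    rw [q1, q1]
    by_cases a : i < k
    · exact ne_of_sq (o2 i a j (by omega) (by omega)) two_ne_zero
    by_cases a' : j < k
    · exact (ne_of_sq (o2 j a' i (by omega) (by omega)) two_ne_zero).symm
    obtain ⟨i, rfl⟩ : ∃ v, i = k + v := ⟨i - k, by omega⟩
    obtain ⟨j, rfl⟩ : ∃ v, j = k + v := ⟨j - k, by omega⟩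
    rw [w2, w2]
    intro e
    refine h2 hg i (by omega) j (by omega) (by omega) ?_
    by_contra hne
    have := ip_pos (sub_ne_zero.2 hne)
    have e1 := i1 (z i) (z j)
    rw [e, i1, h1 j (by omega)] at e1
    have e2 := h1 i (by omega)
    have e3 := h1 j (by omega)
    simp only [ip, Prod.fst_sub, Prod.snd_sub] at this e1 e2 e3
    linarith
  · simp only [Sem.sat, topL, List.forall_mem_append, List.forall_mem_flatMap, List.forall_mem_map,
      List.mem_range, List.mem_filter, cL, List.map_cons, List.map_nil, val, add_assoc, q1, q0]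
    refine ⟨⟨fun i hi => by rw [zero_sub, norm_neg, n1 i hi], fun i hi j hj =>
      o2 i hi j hj.1 (by simpa using hj.2)⟩, fun e ⟨he, he'⟩ => ?_⟩
    simp only [Bool.and_eq_true, decide_eq_true_eq, bne_iff_ne] at he'
    refine o _ (by omega) _ (by omega) ?_
    rw [w2, w2, i1]
    exact h3 ⟨e.1, he'.1.1⟩ ⟨e.2, he'.1.2⟩ (graphOf_adj.2 ⟨by simpa using he'.2, Or.inl he⟩)

theorem lk_erh {g : Prop} (h : ERH (fun _ => True) (U3 g)) (d : ℕ) (hd : 3 ≤ d) :
    ERH (fun _ => True) (Lk g d) := by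
  obtain ⟨k, rfl⟩ : ∃ k, d = k + 3 := ⟨d - 3, by omega⟩
  let G := fun p => subst 1 2 (k + 2 + 1) (skW (k + 2)) (subst 2 2 1 skD
    (subst 3 2 (k + 2 + 3) (skR (k + 2)) (topL k p)))
  refine h.reduce (fun p => ((G p).1, edges (G p).2)) ?_ ?_
  · have : PT (topL k) := by unfold topL; fun_prop
    have : PT G := pt_subst _ _ _ _ (pt_subst _ _ _ _ (pt_subst _ _ _ _ this))
    exact this.fst.mk (pt_edges this.snd)
  intro p _
  have w0 := topL_wf k p
  have w1 := w0.subst (skR_wf (k + 2))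
  have w2 := w1.subst skD_wf
  have w3 : WF _ 1 (G p) := w2.subst (skW_wf (k + 2))
  have f1 : finrank ℝ (EuclideanSpace ℝ (Fin (k + 3))) = k + 2 + 1 := by simp
  have f2 : 3 ≤ finrank ℝ (EuclideanSpace ℝ (Fin (k + 3))) := by simp
  have sy : ∀ x y : EuclideanSpace ℝ (Fin (k + 3)), dist x y = 1 → dist y x = 1 :=
    fun x y h => by rwa [dist_comm]
  have hr : ∀ x y : EuclideanSpace ℝ (Fin (k + 3)), ‖x - y‖ ^ 2 = 1 ↔ dist x y = 1 := fun x y => by
    rw [dist_eq_norm, pow_eq_one_iff_of_nonneg (norm_nonneg _) two_ne_zero]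
  refine ⟨trivial, fun h => ?_, fun ⟨x, hx, h⟩ => ?_⟩
  · obtain ⟨v, hv⟩ := simplex (k + 3)
    have sa : ∀ x y, (cL (EuclideanSpace ℝ (Fin (k + 3))) (k + 2) g).Ap x y →
        (cL (EuclideanSpace ℝ (Fin (k + 3))) (k + 2) g).Ap y x := fun x y h hg => (h hg).symm
    obtain ⟨q, hq⟩ := topL_c (k := k) h
    obtain ⟨q1, h1⟩ := Sem.complete sa w0 (skR_wf (k + 2)) (r_c hv f2 (by omega)) hq
    obtain ⟨q2, h2⟩ := Sem.complete sa w1 skD_wf (d_c hv f2 (by omega)) h1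
    obtain ⟨q3, h3⟩ := Sem.complete sa w2 (skW_wf (k + 2)) (w_c hv f2 (by omega)) h2
    refine ⟨fun i => q3 i, fun hg i j e => ?_, (edges_iff w3 rfl sy hr q3).1 h3.2⟩
    by_contra hne
    exact h3.1.2 i i.2 j j.2 (fun e => hne (Fin.ext e)) hg e
  · let q : ℕ → EuclideanSpace ℝ (Fin (k + 3)) := fun i => if h : i < (G p).1 then x ⟨i, h⟩ else 0
    have hq : ∀ i : Fin (G p).1, q i = x i := fun i => dif_pos i.2
    refine topL_s (k := k) (q := q) (Sem.sound w0 (r_s f1) (Sem.sound w1 d_s (Sem.sound w2 (w_s f1)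
      ⟨⟨fun _ _ => trivial, fun i hi j hj hij hg e => hij ?_⟩, (edges_iff w3 rfl sy
        (fun x y => by simpa [sL, val] using hr x y) q).2 fun u v huv => ?_⟩)))
    · rw [hq ⟨i, hi⟩, hq ⟨j, hj⟩] at e
      exact congrArg Fin.val (hx hg e)
    · rw [hq, hq]; exact h u v huv

theorem u3_erh : ERH (fun _ => True) (U3 False) := by
  refine w3_erh.mono fun p _ => ⟨trivial, fun ⟨q, h1, h2⟩ => ?_, fun ⟨q, h1, _, h2⟩ =>
    ⟨q, fun i hi => ne_of_ip (by rw [h1 i hi]; exact one_ne_zero), h2⟩⟩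
  have : ∀ i, ∃ s : ℝ, i < p.1 → ip (s • q i) (s • q i) = 1 := fun i => by
    by_cases h : i < p.1
    · obtain ⟨s, -, hs⟩ := unit3 (h1 i h); exact ⟨s, fun _ => hs⟩
    · exact ⟨0, fun h' => absurd h' h⟩
  choose s hs using this
  exact ⟨fun i => s i • q i, hs, False.elim, fun u v h => by
    rw [ip_smul, smul_ip, h2 u v h]; simp⟩

end Pool.Agent.H38.ER
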