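import Pool.Agent.H38.ER.Strong2
import Pool.Agent.H38.ER.Link2

/-!
Orthogonal representations in three-space by pairwise non-collinear vectors.
-/

namespace Pool.Agent.H38.ER

open Pool.Agent.H38.NP Filter

def shf (p : ℕ × List Q4) : ℕ × List Q4 :=
  (4 + p.1 + 3 * p.2.length, [(0, 0, 0, 1), (0, 4, 0, 2), (0, 2, 0, 3), (0, 1, 1, 3)] ++
    (List.range p.2.length).flatMap fun t =>
      [(0, 0, 4 + (p.2.getD t (0, 0, 0, 0)).2.2.1, 4 + p.1 + 3 * t),
        (4 + (p.2.getD t (0, 0, 0, 0)).1, 4 + (p.2.getD t (0, 0, 0, 0)).2.1, 4 + p.1 + 3 * t,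
          4 + p.1 + 3 * t + 1),
        (4 + (p.2.getD t (0, 0, 0, 0)).1, 0, 4 + (p.2.getD t (0, 0, 0, 0)).2.2.2, 4 + p.1 + 3 * t + 2),
        (4 + (p.2.getD t (0, 0, 0, 0)).2.1, 0, 4 + p.1 + 3 * t + 2, 4 + p.1 + 3 * t + 1)])

def NZ (p : ℕ × List Q4) : Prop := ∃ u : ℕ → ℝ, u 0 ≠ 0 ∧ Sat u p.2

theorem getD_mem {c : List Q4} {t} (h : t < c.length) : c.getD t (0, 0, 0, 0) ∈ c := by
  rw [List.getD_eq_getElem _ _ h]; exact List.getElem_mem _

theorem pf_erh : ERH (fun p : ℕ × List Q4 => 0 < p.1 ∧ Bd p.1 p.2 ∧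
    (NZ p → ∃ u : ℕ → ℝ, (∀ i, 1 < u i) ∧ Sat u p.2)) NZ := by
  refine bfma_erh.reduce shf (by unfold shf; fun_prop) ?_
  rintro ⟨n, c⟩ ⟨h3, hb, hp⟩
  simp only at h3 hb
  have s : NZ (shf (n, c)) → FSol (n, c) := by
    rintro ⟨u, h0, h⟩
    simp only [Sat, shf, List.forall_mem_append, List.forall_mem_cons, List.forall_mem_flatMap,
      List.mem_range] at h
    obtain ⟨⟨a1, a2, a3, a4, -⟩, h⟩ := h
    refine ⟨fun i => u (4 + i) - u 0, by grind, fun q hq => ?_⟩
    obtain ⟨t, ht, rfl⟩ := List.getElem_of_mem hq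
    obtain ⟨b1, b2, b3, b4, -⟩ := h t ht
    rw [List.getD_eq_getElem _ _ ht] at b1 b2 b3 b4
    simp only; linear_combination b1 + b2 - b3 - b4
  have k : FSol (n, c) → ∃ u : ℕ → ℝ, (∀ i, 1 < u i) ∧ Sat u (shf (n, c)).2 := fun h => by
    obtain ⟨u, h0, hs, hu⟩ := hp h
    let g : ℕ → ℝ := fun j =>
      let q := c.getD (j / 3) (0, 0, 0, 0)
      if j % 3 = 0 then 12 + u q.2.2.1 else if j % 3 = 1 then (u q.1 + 3) * (u q.2.1 + 3) + (12 + u q.2.2.1)
      else (u q.1 + 3) * 3 + (u q.2.2.2 + 3)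
    let v := ov (4 + n) (ov 4 (fun i => [3, 12, 15, 48].getD i 3) fun i => u i + 3) g
    have v1 : ∀ i < n, v (4 + i) = u i + 3 := fun i hi => by
      simp only [v]; rw [ov_lt (by omega), ov_add]
    have v0 : ∀ i < 4, v i = [3, 12, 15, 48].getD i 3 := fun i hi => by
      simp only [v]; rw [ov_lt (by omega), ov_lt hi]
    have v2 : ∀ j, v (4 + n + j) = g j := fun j => ov_add
    refine ⟨v, fun i => ?_, ?_⟩
    · have b := fun i => abs_le.1 (hu i)
      by_cases h1 : i < 4
      · rw [v0 i h1]; interval_cases i <;> norm_num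
      by_cases h2 : i < 4 + n
      · rw [show i = 4 + (i - 4) by omega, v1 _ (by omega)]; linarith [b (i - 4)]
      · rw [show i = 4 + n + (i - (4 + n)) by omega, v2]
        simp only [g]
        generalize c.getD _ (0, 0, 0, 0) = q
        have := b q.1; have := b q.2.1; have := b q.2.2.1; have := b q.2.2.2
        split_ifs <;> nlinarith
    · simp only [Sat, shf, List.forall_mem_append, List.forall_mem_cons, List.forall_mem_flatMap,
        List.mem_range]
      have v4 : v 4 = 4 := by rw [v1 0 (by omega), h0]; norm_num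
      refine ⟨by simp [v0, v4]; norm_num, fun t ht => ?_⟩
      obtain ⟨b1, b2, b3, b4⟩ := hb _ (getD_mem ht)
      have := hs _ (getD_mem ht)
      simp only [add_assoc (4 + n), v2, v1 _ b1, v1 _ b2, v1 _ b3, v1 _ b4, v0 0 (by norm_num), g,
        show 3 * t / 3 = t by omega, show (3 * t + 1) / 3 = t by omega,
        show (3 * t + 2) / 3 = t by omega, show 3 * t % 3 = 0 by omega,
        show (3 * t + 1) % 3 = 1 by omega, show (3 * t + 2) % 3 = 2 by omega]
      simp only [List.getD_cons_zero, if_true, one_ne_zero, if_false, OfNat.ofNat_ne_zero,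
        OfNat.ofNat_ne_one]
      refine ⟨by ring, trivial, trivial, by linear_combination -this, by simp⟩
  refine ⟨⟨by simp only [shf]; omega, ?_, fun h => k (s h)⟩, fun h =>
    let ⟨u, a, b⟩ := k h; ⟨u, by linarith [a 0], b⟩, s⟩
  simp only [Bd, shf, List.forall_mem_append, List.forall_mem_cons, List.forall_mem_flatMap,
    List.mem_range]
  refine ⟨by simp; omega, fun t ht => ?_⟩
  have := hb _ (getD_mem ht)
  simp only [List.not_mem_nil, false_imp_iff, implies_true, and_true]; omega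

def topS (p : ℕ × List Q4) : ℕ × List Con :=
  (2 + 4 * p.1, ((List.range p.1).flatMap fun v =>
    [(0, [0, 5 + 4 * v]), (0, [2 + 4 * v, 5 + 4 * v]), (0, [3 + 4 * v, 5 + 4 * v]),
      (0, [4 + 4 * v, 5 + 4 * v]), (0, [4 + 4 * v, 1])]) ++
    p.2.map fun q => (2, [0, 1, 2 + 4 * q.1, 3 + 4 * q.1, 2 + 4 * q.2.1, 3 + 4 * q.2.1,
      2 + 4 * q.2.2.1, 3 + 4 * q.2.2.1, 2 + 4 * q.2.2.2, 3 + 4 * q.2.2.2]))

theorem topS_wf {p : ℕ × List Q4} (hb : Bd p.1 p.2) : WF arS 3 (topS p) := by
  simp only [WF, topS, List.forall_mem_append, List.forall_mem_flatMap, List.forall_mem_map,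
    List.mem_range, List.forall_mem_cons]
  refine ⟨fun v hv => ?_, fun q hq => ?_⟩
  · simp [arS]; omega
  · have := hb q hq; simp [arS]; omega

theorem topS_s {p : ℕ × List Q4} (h0 : 0 < p.1) (hb : Bd p.1 p.2) {q} (h : sS.Rz (topS p) q) :
    NZ p := by
  obtain ⟨⟨-, ap⟩, h⟩ := h
  simp only [Sem.sat, topS, List.forall_mem_append, List.forall_mem_cons, List.forall_mem_flatMap,
    List.mem_range, List.forall_mem_map, sS, List.map_cons, List.map_nil] at h ap
  obtain ⟨hv, hc⟩ := h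
  have fin : ∀ v < p.1, ∀ i < 2 + 4 * p.1, i ≠ 4 + 4 * v → ip (q i) (q (5 + 4 * v)) = 0 →
      ip (q i) (q 1) ≠ 0 := fun v h i hi hi' e =>
    two (ap _ (by omega) _ (by omega) (by omega)) (ap _ (by omega) _ hi hi'.symm)
      (hv v h).2.2.2.1 (hv v h).2.2.2.2.1 e
  have hO := fin 0 h0 0 (by omega) (by omega) (hv 0 h0).1
  have hx : ∀ v, ∃ x, v < p.1 → Rat (q 0) (q 1) (q (2 + 4 * v)) (q (3 + 4 * v)) x := fun v => by
    by_cases h : v < p.1
    · obtain ⟨a1, a2, a3, -⟩ := hv v h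
      obtain ⟨x, hx⟩ := rat_line hO a1 a2 a3 (ap _ (by omega) _ (by omega) (by omega))
        (fin v h _ (by omega) (by omega) a2) (fin v h _ (by omega) (by omega) a3)
        (ap _ (by omega) _ (by omega) (by omega))
      exact ⟨x, fun _ => hx⟩
    · exact ⟨0, fun h' => absurd h' h⟩
  choose u hu using hx
  refine ⟨u, fun e => ?_, fun c hc' => ?_⟩
  · obtain ⟨-, a2, -, a4⟩ := hu 0 h0
    rw [e, zero_smul] at a4
    exact vec_ne a2 (ap _ (by omega) _ (by omega) (by omega)) a4
  · obtain ⟨b1, b2, b3, b4⟩ := hb c hc'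
    exact hc c hc' hO _ _ _ _ (hu _ b1) (hu _ b2) (hu _ b3) (hu _ b4)

theorem topS_c {p : ℕ × List Q4} {u : ℕ → ℝ} (hu : ∀ i, 1 < u i) (hs : Sat u p.2) :
    ∃ q, cS.Rz (topS p) q := by
  let g : ℕ → ℕ → TV := fun v r => [(true, 1, (v : ℝ), 1), (true, u v * 1, u v * v, 1),
    (true, 1, (v : ℝ), 0), (false, (v : ℝ), -1, 0)].getD r default
  let q : ℕ → TV := fun i => if i = 0 then (true, 0, 0, 1) else if i = 1 then (false, 0, 0, 1)
    else g ((i - 2) / 4) ((i - 2) % 4)
  have e : ∀ v, ∀ r < 4, q (2 + r + 4 * v) = g v r := fun v r hr => by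
    simp only [q]; rw [if_neg (by omega), if_neg (by omega)]; congr 1 <;> omega
  have cs : ∀ i, i = 0 ∨ i = 1 ∨ ∃ v, ∃ r < 4, i = 2 + r + 4 * v := fun i => by
    rcases Nat.lt_or_ge i 2 with h | h
    · omega
    · exact Or.inr (Or.inr ⟨(i - 2) / 4, (i - 2) % 4, by omega, by omega⟩)
  have u0 : ∀ i, u i ≠ 0 := fun i => by linarith [hu i]
  have u1 : ∀ i, u i ≠ 1 := fun i => by linarith [hu i]
  have q0 : q 0 = (true, 0, 0, 1) := rfl
  have q1 : q 1 = (false, 0, 0, 1) := rfl
  have a0 : ∀ v, ∀ r < 4, cS.Ap (q 0) (g v r) ∧ cS.Ap (q 1) (g v r) := fun v r hr => by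
    interval_cases r <;> simp [q0, q1, g, cS, NP, (u0 v).symm]
  refine ⟨q, ⟨fun i _ => ?_, fun i _ j _ hij => ?_⟩, ?_⟩
  · rcases cs i with rfl | rfl | ⟨v, r, hr, rfl⟩
    · simp [q0, cS]
    · simp [q1, cS]
    · rw [e v r hr]; interval_cases r <;> simp [g, cS]
  · rcases cs i with rfl | rfl | ⟨v, r, hr, rfl⟩ <;> rcases cs j with rfl | rfl | ⟨w, s, hs, rfl⟩
    · omega
    · simp [q0, q1, cS]
    · rw [e w s hs]; exact (a0 w s hs).1
    · simp [q0, q1, cS]
    · omega
    · rw [e w s hs]; exact (a0 w s hs).2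
    · rw [e v r hr]; exact cS_sy _ _ (a0 v r hr).1
    · rw [e v r hr]; exact cS_sy _ _ (a0 v r hr).2
    · rw [e v r hr, e w s hs]
      by_cases hvw : v = w
      · subst hvw
        have := u0 v
        have := u1 v
        interval_cases r <;> interval_cases s <;> first | omega | (simp [g, cS, NP]; try grind)
      · have : (v : ℝ) ≠ w := by exact_mod_cast hvw
        have := u0 v
        have := u0 w
        interval_cases r <;> interval_cases s <;> simp only [g, cS, List.getD_cons_succ,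
          List.getD_cons_zero, Bool.false_eq_true, Bool.true_eq_false, false_imp_iff,
          true_imp_iff] <;> left <;> grind
  · have e0 : ∀ v, q (2 + 4 * v) = g v 0 := fun v => e v 0 (by norm_num)
    have e1 : ∀ v, q (3 + 4 * v) = g v 1 := fun v => e v 1 (by norm_num)
    have e2 : ∀ v, q (4 + 4 * v) = g v 2 := fun v => e v 2 (by norm_num)
    have e3 : ∀ v, q (5 + 4 * v) = g v 3 := fun v => e v 3 (by norm_num)
    have rc : ∀ v, RatC (g v 0) (g v 1) (u v) := fun v => ⟨1, v, Or.inl one_ne_zero, rfl, rfl⟩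
    simp only [Sem.sat, topS, List.forall_mem_append, List.forall_mem_cons, List.forall_mem_flatMap,
      List.mem_range, List.forall_mem_map, cS, List.map_cons, List.map_nil, e0, e1, e2, e3]
    refine ⟨fun v _ => by simp [g, q0, q1, ip], fun c hc => ⟨rfl, rfl, _, _, _, hu _, hu _, hu _,
      rc _, rc _, rc _, by rw [hs c hc]; exact rc _⟩⟩

def S3 (p : ℕ × List (ℕ × ℕ)) : Prop :=
  ∃ q : ℕ → V3, (∀ i < p.1, q i ≠ 0) ∧ (∀ i < p.1, ∀ j < p.1, i ≠ j → NP (q i) (q j)) ∧
    ∀ u v : Fin p.1, (graphOf p.1 p.2).Adj u v → ip (q u) (q v) = 0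

def pol (t : ℝ) (x : TV) : V3 := cond x.1 (x.2.1 + t * x.2.2.1, x.2.2.1 + t * x.2.2.2, x.2.2.2)
  (x.2.1, x.2.2.1 - t * x.2.1, x.2.2.2 - t * x.2.2.1 + t ^ 2 * x.2.1)

theorem pol_ev {x y : TV} (hx : x.2 ≠ 0) (hy : y.2 ≠ 0) (h : cS.Ap x y) :
    ∀ᶠ t in cofinite, NP (pol t x) (pol t y) := by
  have k : ∀ u v : V3, u ≠ 0 → v ≠ 0 → ∀ᶠ t in cofinite, NP (pol t (true, u)) (pol t (false, v)) := by
    rintro ⟨a, b, c⟩ ⟨d, e, f⟩ hu hv
    filter_upwards [ev_np (u0 := (a, b, c)) (u1 := (b, a + c, b)) (u2 := (0, b, c)) hv (by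
      by_contra hc
      simp only [NP, not_or, not_not] at hc
      rcases v3_ne.1 hu with h | h | h <;> grind)] with t ht
    by_contra hc
    simp only [NP, pol, cv, not_or, not_not, cond_true, cond_false] at hc ht
    rcases ht with h | h | h <;> grind
  obtain ⟨s, u⟩ := x
  obtain ⟨s', v⟩ := y
  cases s <;> cases s'
  · refine Eventually.of_forall fun t => ?_
    have h := h rfl
    by_contra hc
    simp only [NP, pol, not_or, not_not, cond_false] at hc h
    rcases h with h | h | h <;> grind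
  · exact (k v u hy hx).mono fun _ h => h.symm
  · exact k u v hx hy
  · refine Eventually.of_forall fun t => ?_
    have h := h rfl
    by_contra hc
    simp only [NP, pol, not_or, not_not, cond_true] at hc h
    rcases h with h | h | h <;> grind

theorem pol_ne {x : TV} (t) (h : x.2 ≠ 0) : pol t x ≠ 0 := fun e => by
  obtain ⟨s, a, b, c⟩ := x
  have := v3_ne.1 h
  cases s <;> simp only [pol, cond_true, cond_false, Prod.mk_eq_zero] at e this <;> grind

theorem s3_erh : ERH (fun _ => True) S3 := by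
  refine pf_erh.reduce (fun p => ((subst 1 6 9 skE (subst 2 10 16 skC (topS p))).1,
    edges (subst 1 6 9 skE (subst 2 10 16 skC (topS p))).2)) ?_ ?_
  · have : PT topS := by unfold topS; fun_prop
    have := pt_subst 1 6 9 skE (pt_subst 2 10 16 skC this)
    exact this.fst.mk (pt_edges this.snd)
  rintro p ⟨h0, hb, hp⟩
  have w0 := topS_wf hb
  have w1 := w0.subst skC_wf
  have w2 := w1.subst skE_wf
  have ei := edges_iff w2 rfl (S := sS) (r := fun u v => ip u v = 0)
    (fun _ _ h => by rwa [ip_comm]) (fun _ _ => Iff.rfl)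
  refine ⟨trivial, fun h => ?_, fun ⟨q, ok, ap, h⟩ =>
    topS_s h0 hb (Sem.sound w0 c_s (Sem.sound w1 e_s ⟨⟨ok, ap⟩, (ei q).2 h⟩))⟩
  obtain ⟨u, a, b⟩ := hp h
  obtain ⟨q, hq⟩ := topS_c a b
  obtain ⟨q1, h1⟩ := Sem.complete cS_sy w0 skC_wf c_c hq
  obtain ⟨q2, ⟨ok, ap⟩, h2⟩ := Sem.complete cS_sy w1 skE_wf e_c h1
  obtain ⟨t, ht⟩ := (ev_lt fun i hi => ev_lt fun j hj => (show ∀ᶠ t in cofinite,
    i ≠ j → NP (pol t (q2 i)) (pol t (q2 j)) from by
      by_cases h : i = j
      · simp [h]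
      · exact (pol_ev (ok i hi) (ok j hj) (ap i hi j hj h)).mono fun _ h _ => h)).exists
  refine ⟨fun i => pol t (q2 i), fun i hi => pol_ne t (ok i hi), ht,
    (ei fun i => pol t (q2 i)).1 fun c hc => ?_⟩
  · obtain ⟨c1, c2, -⟩ := w2 c hc
    have := h2 c hc
    obtain ⟨l, A⟩ := c
    obtain rfl : l = 0 := by simpa using c1
    obtain ⟨i, j, rfl⟩ := List.length_eq_two.1 c2
    obtain ⟨a1, a2, a3⟩ := this
    show ip (pol t (q2 i)) (pol t (q2 j)) = 0
    simp only [pol, a1, a2, cond_true, cond_false, ip] at a3 ⊢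
    linear_combination a3

def twin (p : ℕ × List (ℕ × ℕ)) : ℕ × List (ℕ × ℕ) :=
  (2 * p.1, (p.2.filter fun e => e.1 != e.2).flatMap fun e =>
    [(2 * e.1, 2 * e.2), (2 * e.1 + 1, 2 * e.2), (2 * e.1, 2 * e.2 + 1), (2 * e.1 + 1, 2 * e.2 + 1)])

theorem mem_twin {p a b} : (a, b) ∈ (twin p).2 ↔ (a / 2, b / 2) ∈ p.2 ∧ a / 2 ≠ b / 2 := by
  simp only [twin, List.mem_flatMap, List.mem_filter, bne_iff_ne, List.mem_cons, Prod.mk.injEq,
    List.not_mem_nil, or_false]
  constructor
  · rintro ⟨⟨u, v⟩, ⟨h, h'⟩, e⟩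
    simp only at e h'
    rw [show a / 2 = u by omega, show b / 2 = v by omega]; exact ⟨h, h'⟩
  · rintro ⟨h, h'⟩
    exact ⟨_, ⟨h, h'⟩, by simp only; omega⟩

theorem np_unit {x y : V3} (hx : ip x x = 1) (hy : ip y y = 1) (h1 : x ≠ y) (h2 : x ≠ -y) :
    NP x y := by
  by_contra hc
  simp only [NP, not_or, not_not] at hc
  obtain ⟨a, b, c⟩ := x
  obtain ⟨d, e, f⟩ := y
  simp only [ip, ne_eq, Prod.mk.injEq, Prod.neg_mk] at *
  have k : (a * d + b * e + c * f) ^ 2 = 1 := by grind
  rcases sq_eq_one_iff.1 k with k | k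
  · exact h1 (by refine ⟨?_, ?_, ?_⟩ <;> grind)
  · exact h2 (by refine ⟨?_, ?_, ?_⟩ <;> grind)

theorem u3t_erh : ERH (fun _ => True) (U3 True) := by
  refine s3_erh.reduce twin (by unfold twin; fun_prop) fun p _ =>
    ⟨trivial, fun ⟨q, h1, h2, h3⟩ => ?_, fun ⟨z, h1, h2, h3⟩ => ?_⟩
  · have : ∀ i, ∃ s : ℝ, i < p.1 → s ≠ 0 ∧ ip (s • q i) (s • q i) = 1 := fun i => by
      by_cases h : i < p.1
      · obtain ⟨s, hs⟩ := unit3 (h1 i h); exact ⟨s, fun _ => hs⟩
      · exact ⟨0, fun h' => absurd h' h⟩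
    choose s hs using this
    let ε : ℕ → ℝ := fun i => if i % 2 = 0 then 1 else -1
    have e2 : ∀ i, ε i * ε i = 1 := fun i => by simp only [ε]; split_ifs <;> norm_num
    refine ⟨fun i => ε i • s (i / 2) • q (i / 2), fun i hi => ?_, fun _ i hi j hj hij e => ?_,
      fun u v h => ?_⟩
    · simp only [twin] at hi
      rw [ip_smul, smul_ip, (hs _ (by omega)).2, mul_one, e2]
    · simp only [twin] at hi hj
      have e : ε i • s (i / 2) • q (i / 2) = ε j • s (j / 2) • q (j / 2) := e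
      by_cases h : i / 2 = j / 2
      · have k := congrArg (ip · (s (j / 2) • q (j / 2))) e
        simp only [h, smul_ip (ε _), (hs (j / 2) (by omega)).2, ε] at k
        split_ifs at k <;> first | omega | norm_num at k
      · have k := h2 (i / 2) (by omega) (j / 2) (by omega) h
        have s0 := (hs (i / 2) (by omega)).1
        have : q (i / 2) = (ε i * ε j * s (j / 2) / s (i / 2)) • q (j / 2) := by
          have e' := congrArg ((ε i / s (i / 2)) • ·) e
          simp only [smul_smul] at e'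
          rw [show ε i / s (i / 2) * (ε i * s (i / 2)) = 1 by field_simp; linarith [e2 i],
            one_smul] at e'
          rw [e']; congr 1; ring
        rw [this] at k; exact np_smul _ _ k
    · have hu := u.2
      have hv := v.2
      simp only [twin] at hu hv
      have : ip (q (u / 2)) (q (v / 2)) = 0 := by
        rcases (graphOf_adj.1 h).2 with h | h <;> have h := mem_twin.1 h
        · exact h3 ⟨u / 2, by omega⟩ ⟨v / 2, by omega⟩ (graphOf_adj.2 ⟨by simpa using h.2, Or.inl h.1⟩)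
        · exact h3 ⟨u / 2, by omega⟩ ⟨v / 2, by omega⟩
            (graphOf_adj.2 ⟨by simpa using h.2.symm, Or.inr h.1⟩)
      simp only [ip_smul, smul_ip, this, mul_zero]
  · classical
    simp only [twin] at h1 h2
    have h2 := h2 trivial
    let cl : V3 → Finset V3 := fun x => {x, -x}
    let t : Fin p.1 → Finset (Finset V3) := fun v => {cl (z (2 * v)), cl (z (2 * v + 1))}
    obtain ⟨f, hf, hft⟩ := (Finset.all_card_le_biUnion_card_iff_exists_injective t).1 fun s => by
      let A : Finset ℕ := (s ×ˢ Finset.range 2).image fun x => 2 * x.1.val + x.2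
      have hA : A.card = 2 * s.card := by
        rw [Finset.card_image_of_injOn, Finset.card_product, Finset.card_range, mul_comm]
        rintro ⟨a, b⟩ h ⟨c, d⟩ h' e
        simp only [Finset.coe_product, Set.mem_prod, Finset.coe_range, Set.mem_Iio] at h h' e
        exact Prod.ext (Fin.ext (by simp only; omega)) (by simp only; omega)
      have hlt : ∀ i ∈ A, i < 2 * p.1 := fun i hi => by
        obtain ⟨⟨a, b⟩, h, rfl⟩ := Finset.mem_image.1 hi
        have := a.2
        simp at h ⊢; omega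
      have := Finset.card_le_mul_card_image_of_maps_to (s := A) (t := s.biUnion t)
        (f := fun i => cl (z i)) (fun i hi => by
          obtain ⟨⟨a, b⟩, h, rfl⟩ := Finset.mem_image.1 hi
          simp only [Finset.mem_product, Finset.mem_range] at h
          refine Finset.mem_biUnion.2 ⟨a, h.1, ?_⟩
          have := h.2
          interval_cases b <;> simp [t]) 2 fun c _ => by
          by_cases hc : ∃ x, cl x = c
          · obtain ⟨x, rfl⟩ := hc
            refine (Finset.card_le_card_of_injOn (t := cl x) z (fun i hi => ?_)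
              fun i hi j hj e => ?_).trans Finset.card_le_two
            · rw [← (Finset.mem_filter.1 hi).2]; simp [cl]
            · by_contra hij
              exact h2 i (hlt i (Finset.mem_filter.1 hi).1) j (hlt j (Finset.mem_filter.1 hj).1) hij e
          · rw [Finset.filter_eq_empty_iff.2 fun i _ e => hc ⟨_, e⟩]; simp
      omega
    have : ∀ v : Fin p.1, ∃ i, i / 2 = v.val ∧ f v = cl (z i) := fun v => by
      rcases Finset.mem_insert.1 (hft v) with h | h
      · exact ⟨_, by omega, h⟩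
      · exact ⟨_, by omega, Finset.mem_singleton.1 h⟩
    choose g hg hg' using this
    have gl : ∀ v, g v < 2 * p.1 := fun v => by have := hg v; have := v.2; omega
    refine ⟨fun i => if h : i < p.1 then z (g ⟨i, h⟩) else 0, fun i hi => ?_,
      fun i hi j hj hij => ?_, fun u v h => ?_⟩
    · simp only [dif_pos hi]; exact ne_of_ip (by rw [h1 _ (gl _)]; exact one_ne_zero)
    · simp only [dif_pos hi, dif_pos hj]
      have : cl (z (g ⟨i, hi⟩)) ≠ cl (z (g ⟨j, hj⟩)) := by
        rw [← hg', ← hg']; exact fun e => hij (congrArg Fin.val (hf e))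
      exact np_unit (h1 _ (gl _)) (h1 _ (gl _)) (fun e => this (by rw [e]))
        fun e => this (by rw [e]; simp [cl, Finset.pair_comm])
    · simp only [dif_pos u.2, dif_pos v.2]
      obtain ⟨hne, h⟩ := graphOf_adj.1 h
      have hne : u.val ≠ v.val := fun e => hne (Fin.ext e)
      have a := hg u
      have b := hg v
      refine h3 ⟨g u, gl u⟩ ⟨g v, gl v⟩ (graphOf_adj.2 ⟨by simp only [ne_eq, Fin.mk.injEq]; intro e; rw [e] at a; omega, ?_⟩)
      simp only [mem_twin, a, b]
      exact h.imp (fun h => ⟨h, hne⟩) fun h => ⟨h, hne.symm⟩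

end Pool.Agent.H38.ER
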