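import Pool.Agent.H38.ER.Defs

/-!
Integer polynomials in `n` variables given by their coefficients.
-/

namespace Pool.Agent.H38.ER

/-- A polynomial is a list of pairs (exponent vector, integer coefficient); its value at `x`. -/
noncomputable def pev {n : ℕ} (p : List (List ℕ × ℤ)) (x : Fin n → ℝ) : ℝ :=
  (p.map fun t => (t.2 : ℝ) * ∏ i, x i ^ t.1.getD i 0).sum

/-- Every exponent vector has length `n` and is listed at most once. -/
def PolyWF (n : ℕ) (p : List (List ℕ × ℤ)) : Prop :=
  (p.map Prod.fst).Nodup ∧ ∀ t ∈ p, t.1.length = n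

end Pool.Agent.H38.ER
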