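import Pool.Agent.H38.ER.Coll
import Pool.Agent.H38.ER.PolyDefs

/-!
Affine polynomial projection is hard for the existential theory of the reals.
-/

namespace Pool.Agent.H38.ER

open Pool.Agent.H38.NP

def exps (n d : ℕ) (m : List ℕ) : List ℕ :=
  (List.range n).map fun i => if i = 0 then d else m.count i

noncomputable def hat {n : ℕ} (x : Fin n → ℝ) (i : ℕ) : ℝ :=
  if i = 0 then 1 else if h : i < n then x ⟨i, h⟩ else 0

theorem prod_exps {n : ℕ} (x : Fin (n + 1) → ℝ) (d : ℕ) (m : List ℕ) (hm : ∀ i ∈ m, i < n + 1) :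
    ∏ i, x i ^ (exps (n + 1) d m).getD i 0 = x 0 ^ d * (m.map (hat x)).prod := by
  have e : ∀ (m : List ℕ) (i : Fin (n + 1)), (exps (n + 1) d m).getD i 0 =
      if i.val = 0 then d else m.count i.val := by
    intro m i; rw [List.getD_eq_getElem _ _ (by simp [exps]; omega)]; simp [exps]
  simp only [e]
  induction m with
  | nil => simp [Fin.prod_univ_succ]
  | cons a m ih =>
    have ha := hm a List.mem_cons_self
    rw [List.map_cons, List.prod_cons, mul_left_comm,
      ← ih fun i hi => hm i (List.mem_cons_of_mem _ hi)]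
    by_cases h0 : a = 0
    · subst h0
      rw [hat, if_pos rfl, one_mul]
      refine Finset.prod_congr rfl fun i _ => ?_
      by_cases hi : i.val = 0
      · simp [hi]
      · rw [if_neg hi, if_neg hi, List.count_cons_of_ne (Ne.symm hi)]
    · rw [hat, if_neg h0, dif_pos ha]
      have : x ⟨a, ha⟩ = ∏ i, if i = ⟨a, ha⟩ then x i else 1 := by simp
      rw [this, ← Finset.prod_mul_distrib]
      refine Finset.prod_congr rfl fun i _ => ?_
      by_cases hi : i = ⟨a, ha⟩
      · subst hi; simp [h0, pow_succ']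
      · have hi' : a ≠ i.val := fun h => hi (Fin.ext h.symm)
        rw [if_neg hi, one_mul, List.count_cons_of_ne hi']

def tq (q : Q4) : List (List ℕ × Bool) :=
  [([q.1, q.2.1], false), ([q.2.2.1], false), ([q.2.2.2], true)]

def rawG (n : ℕ) (c : List Q4) : List (List ℕ × Bool) :=
  (exps n 1 [], false) :: c.flatMap fun q => (tq q).flatMap fun s => (tq q).map fun t =>
    (exps n 2 (s.1 ++ t.1), xor s.2 t.2)

noncomputable def res (u : ℕ → ℝ) (q : Q4) : ℝ := u q.1 * u q.2.1 + u q.2.2.1 - u q.2.2.2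

theorem sat_iff_res {u c} : Sat u c ↔ (c.map fun q => res u q ^ 2).sum = 0 := by
  induction c with
  | nil => simp [Sat]
  | cons q c ih =>
    have h1 : 0 ≤ (c.map fun q => res u q ^ 2).sum :=
      List.sum_nonneg (by simp only [List.mem_map]; rintro _ ⟨q, -, rfl⟩; positivity)
    rw [List.map_cons, List.sum_cons, add_eq_zero_iff_of_nonneg (sq_nonneg _) h1, ← ih]
    simp [Sat, res, sub_eq_zero]

theorem pev_rawG {n : ℕ} (c : List Q4) (hc : Bd (n + 1) c) (x : Fin (n + 1) → ℝ) :
    pev (collect (rawG (n + 1) c)) x = x 0 + x 0 ^ 2 * (c.map fun q => res (hat x) q ^ 2).sum := by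
  rw [pev, sum_collect _ fun e : List ℕ => ∏ i, x i ^ e.getD i.val 0, rawG, List.map_cons, List.sum_cons,
    prod_exps _ _ _ (by simp)]
  congr 1
  · simp
  induction c with
  | nil => simp
  | cons q c ih =>
    obtain ⟨h1, h2, h3, h4⟩ := hc q List.mem_cons_self
    rw [List.flatMap_cons, List.map_append, List.sum_append,
      ih fun i hi => hc i (List.mem_cons_of_mem _ hi), List.map_cons, List.sum_cons, mul_add]
    congr 1
    simp only [tq, List.flatMap_cons, List.map_cons, List.map_nil, List.flatMap_nil,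
      List.cons_append, List.nil_append, List.sum_cons, List.sum_nil]
    repeat rw [prod_exps _ _ _ (by simp; omega)]
    simp [res]; ring

theorem wf_collect {n : ℕ} {R : List (List ℕ × Bool)} (h : ∀ t ∈ R, t.1.length = n) :
    PolyWF n (collect R) := by
  refine ⟨by rw [collect_fst]; exact nodup_firsts _, fun t ht => ?_⟩
  have := List.mem_map_of_mem (f := Prod.fst) ht
  rw [collect_fst, mem_firsts, List.mem_map] at this
  obtain ⟨s, hs, e⟩ := this
  rw [← e]; exact h s hs

theorem proj_erh : ERH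
    (fun p : ℕ × List (List ℕ × ℤ) × List (List ℕ × ℤ) => PolyWF p.1 p.2.1 ∧ PolyWF p.1 p.2.2 ∧
      (∀ t ∈ p.2.2, t.1.sum ≤ 6) ∧ ∃ i : Fin p.1, ∀ x : Fin p.1 → ℝ, pev p.2.1 x = x i)
    fun p => ∃ (A : Matrix (Fin p.1) (Fin p.1) ℝ) (b : Fin p.1 → ℝ),
      ∀ x : Fin p.1 → ℝ, pev p.2.1 x = pev p.2.2 (A.mulVec x + b) := by
  refine fma_erh.reduce (fun p => (p.1, collect (rawG p.1 []), collect (rawG p.1 p.2))) ?_ ?_
  · refine PT.mk (by fun_prop) (PT.mk (pt_collect ?_) (pt_collect ?_)) <;> unfold rawG tq exps <;>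
      fun_prop
  rintro ⟨n, c⟩ ⟨h3, hc⟩
  obtain ⟨n, rfl⟩ : ∃ m, n = m + 1 := ⟨n - 1, by simp only at h3; omega⟩
  have hl : ∀ c, ∀ t ∈ rawG (n + 1) c, t.1.length = n + 1 := by
    intro c t ht
    simp only [rawG, List.mem_cons, List.mem_flatMap, List.mem_map] at ht
    rcases ht with rfl | ⟨q, -, s, -, r, -, rfl⟩ <;> simp [exps]
  have hf : ∀ x : Fin (n + 1) → ℝ, pev (collect (rawG (n + 1) [])) x = x 0 := fun x => by
    rw [pev_rawG _ (by simp [Bd])]; simp
  refine ⟨⟨wf_collect (hl _), wf_collect (hl _), fun t ht => ?_, 0, hf⟩, ?_⟩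
  · have := List.mem_map_of_mem (f := Prod.fst) ht
    rw [collect_fst, mem_firsts, List.mem_map] at this
    obtain ⟨s, hs, e⟩ := this
    rw [← e]
    have key : ∀ d m, (exps (n + 1) d m).sum ≤ d + m.length := by
      intro d m
      rw [exps, List.range_succ_eq_map, List.map_cons, List.sum_cons, List.map_map]
      refine Nat.add_le_add_left ?_ _
      induction m with
      | nil => simp [Function.comp_def]
      | cons a m ih =>
        simp only [Function.comp_def, Nat.succ_ne_zero, if_false, List.count_cons,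
          List.sum_map_add, List.length_cons] at ih ⊢
        refine Nat.add_le_add ih ?_
        change ∑ i ∈ Finset.range n, (if (a == i.succ) = true then 1 else 0) ≤ 1
        calc _ ≤ ∑ i ∈ Finset.range n, if i = a - 1 then 1 else 0 :=
            Finset.sum_le_sum fun i hi => by by_cases h : a = i + 1 <;> simp [h]
          _ ≤ 1 := by rw [Finset.sum_ite_eq']; split_ifs <;> simp
    simp only [rawG, List.mem_cons, List.mem_flatMap, List.mem_map] at hs
    rcases hs with rfl | ⟨q, -, s, hs, r, hr, rfl⟩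
    · exact (key _ _).trans (by simp)
    · refine (key _ _).trans ?_
      simp only [tq, List.mem_cons, List.not_mem_nil, or_false] at hs hr
      rcases hs with rfl | rfl | rfl <;> rcases hr with rfl | rfl | rfl <;> simp
  simp only [hf, pev_rawG c hc, FSol]
  constructor
  · rintro ⟨u, h0, hu⟩
    refine ⟨Matrix.single 0 0 1, fun i => if i = 0 then 0 else u i, fun x => ?_⟩
    rw [sat_iff_res.1 (hu.congr hc fun i hi => ?_)]
    · simp [Matrix.single_mulVec]
    · by_cases h : i = 0
      · simp [h, hat, h0]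
      · have : (⟨i, hi⟩ : Fin (n + 1)) ≠ 0 := fun e => h (congrArg Fin.val e)
        simp [hat, h, hi, Matrix.single_mulVec, this]
  · rintro ⟨A, b, h⟩
    have hP : ∀ x : Fin (n + 1) → ℝ, 0 ≤ (c.map fun q => res (hat x) q ^ 2).sum := fun x =>
      List.sum_nonneg (by simp only [List.mem_map]; rintro _ ⟨q, -, rfl⟩; positivity)
    have hz : ∀ t : ℝ, (A.mulVec (Pi.single 0 t) + b) 0 = A 0 0 * t + b 0 := by
      intro t; simp [mul_comm]
    have H := fun t : ℝ => h (Pi.single 0 t)
    simp only [hz, Pi.single_eq_same] at H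
    have hle : ∀ t : ℝ, A 0 0 * t + b 0 ≤ t := fun t => by
      have := mul_nonneg (sq_nonneg (A 0 0 * t + b 0)) (hP (A.mulVec (Pi.single 0 t) + b))
      linarith [H t]
    have ha : A 0 0 = 1 := by
      by_contra hne
      have := hle ((1 - b 0) / (A 0 0 - 1))
      have e := mul_div_cancel₀ (1 - b 0) (sub_ne_zero.2 hne)
      nlinarith
    have hb : b 0 = 0 := by have := H (-b 0); rw [ha] at this; simpa using this
    have := H 1
    rw [ha, hb] at this
    exact ⟨hat _, rfl, sat_iff_res.2 (by simpa using this)⟩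

end Pool.Agent.H38.ER
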