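import Pool.Agent.H38.ER.Key
import Pool.Agent.H38.ER.Proj

/-!
Solvable systems have solutions of doubly exponential size; bounded systems are hard.
-/

namespace Pool.Agent.H38.ER

open Filter Topology Finset Function Pool.Agent.H38.NP

variable {n : ℕ}

theorem norm_le_of_six {x : Fin n → ℝ} {C : ℝ} (h : ∑ i, x i ^ 6 ≤ C) : ‖x‖ ≤ C + 1 := by
  have h0 : 0 ≤ C := le_trans (by positivity) h
  refine (pi_norm_le_iff_of_nonneg (by linarith)).2 fun i => ?_
  have h1 : x i ^ 6 ≤ C :=
    (single_le_sum (f := fun i => x i ^ 6) (fun _ _ => by positivity) (mem_univ i)).trans h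
  by_contra hc
  rw [Real.norm_eq_abs, not_le] at hc
  have : |x i| ≤ |x i| ^ 6 := le_self_pow₀ (by linarith) (by omega)
  rw [Even.pow_abs (by decide)] at this
  linarith

theorem crit {ι : Type} (l : List ι) (r : ι → (Fin n → ℝ) → ℝ) (dr : ι → Fin n → (Fin n → ℝ) → ℝ)
    (w : ι → ℝ) (hw : ∀ q, 0 ≤ w q) (hc : ∀ q, Continuous (r q))
    (hd : ∀ q i x, HasDerivAt (fun t => r q (update x i t)) (dr q i x) (x i)) :
    ∃ x, (∀ y, 3 * (l.map fun q => w q * r q x ^ 2).sum + ∑ i, x i ^ 6 ≤
        3 * (l.map fun q => w q * r q y ^ 2).sum + ∑ i, y i ^ 6) ∧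
      ∀ i, x i ^ 5 = -(l.map fun q => w q * (r q x * dr q i x)).sum := by
  have h0 : ∀ y, 0 ≤ (l.map fun q => w q * r q y ^ 2).sum := fun y =>
    List.sum_nonneg (by
      simp only [List.mem_map]; rintro _ ⟨q, -, rfl⟩; exact mul_nonneg (hw q) (sq_nonneg _))
  have hG : Continuous fun y : Fin n → ℝ =>
      3 * (l.map fun q => w q * r q y ^ 2).sum + ∑ i, y i ^ 6 :=
    (continuous_const.mul (continuous_list_sum _ fun q _ => by fun_prop)).add (by fun_prop)
  obtain ⟨x, hx⟩ := hG.exists_forall_le_of_isBounded 0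
    ((Metric.isBounded_closedBall (x := 0)).subset fun y hy => mem_closedBall_zero_iff.2
      (norm_le_of_six (le_trans (by linarith [h0 y]) hy)))
  refine ⟨x, hx, fun i => ?_⟩
  have d1 : HasDerivAt (fun t => (l.map fun q => w q * r q (update x i t) ^ 2).sum)
      (2 * (l.map fun q => w q * (r q x * dr q i x)).sum) (x i) := by
    clear h0 hG hx
    induction l with
    | nil => simpa using hasDerivAt_const _ _
    | cons q l ih =>
      simp only [List.map_cons, List.sum_cons]
      refine ((((hd q i x).fun_pow 2).const_mul (w q)).fun_add ih).congr_deriv ?_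
      simp; ring
  have d2 : HasDerivAt (fun t => ∑ j, update x i t j ^ 6) (6 * x i ^ 5) (x i) := by
    have : (fun t => ∑ j, update x i t j ^ 6) = fun t => t ^ 6 + ∑ j ∈ univ.erase i, x j ^ 6 := by
      funext t
      rw [← add_sum_erase _ _ (mem_univ i), update_self]
      congr 1
      exact sum_congr rfl fun j hj => by rw [update_of_ne (ne_of_mem_erase hj)]
    rw [this]
    exact ((hasDerivAt_pow 6 (x i)).add_const _).congr_deriv (by simp)
  have := IsLocalMin.hasDerivAt_eq_zero (Eventually.of_forall fun t => by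
    simpa using hx (update x i t)) ((d1.const_mul 3).add d2)
  linarith

noncomputable def dhat (i : Fin n) (a : ℕ) : ℝ := if a ≠ 0 ∧ a = i then 1 else 0

theorem hat_deriv (x : Fin n → ℝ) (i : Fin n) (a : ℕ) :
    HasDerivAt (fun t => hat (update x i t) a) (dhat i a) (x i) := by
  unfold hat dhat
  by_cases h0 : a = 0
  · simpa [h0] using hasDerivAt_const _ _
  by_cases h1 : a = i
  · subst h1; simpa [h0] using hasDerivAt_id' _
  by_cases h2 : a < n
  · have : (⟨a, h2⟩ : Fin n) ≠ i := fun e => h1 (congrArg Fin.val e)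
    simpa [h0, h1, h2, this] using hasDerivAt_const _ _
  · simpa [h0, h1, h2] using hasDerivAt_const _ _

theorem hat_cont (a : ℕ) : Continuous fun x : Fin n → ℝ => hat x a := by
  unfold hat; split_ifs <;> fun_prop

theorem pol_hat (a : ℕ) : Pol 1 0 1 fun _ (x : Fin n → ℝ) => hat x a := by
  unfold hat; split_ifs
  exacts [Pol.one.mono (by omega) le_rfl le_rfl, Pol.var _, Pol.zero]

theorem pol_dhat (i : Fin n) (a : ℕ) : Pol 0 0 1 fun _ (_ : Fin n → ℝ) => dhat i a := by
  unfold dhat; split_ifs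
  exacts [Pol.one, Pol.zero]

theorem ball {c : List Q4} (hc : Bd n c) (h : FSol (n, c)) : ∃ u : ℕ → ℝ, u 0 = 1 ∧ Sat u c ∧
    ∀ i, |u i| ≤ 2 ^ 2 ^ (3 * n + (c.length * 12 + 1) + 8) := by
  obtain ⟨u, h0, hu⟩ := h
  have hz : ∀ q ∈ c, res (hat fun i : Fin n => u i) q = 0 := fun q hq => sub_eq_zero.2
    (hu.congr hc (fun i hi => by by_cases h : i = 0 <;> simp [hat, h, hi, h0]) q hq)
  have hcont : ∀ q, Continuous fun x : Fin n → ℝ => res (hat x) q := fun q =>
    (((hat_cont _).mul (hat_cont _)).add (hat_cont _)).sub (hat_cont _)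
  choose x hx ex using fun m : ℕ => crit c (fun q x => res (hat x) q)
    (fun q i x => dhat i q.1 * hat x q.2.1 + hat x q.1 * dhat i q.2.1 + dhat i q.2.2.1 -
      dhat i q.2.2.2) (fun _ => (m : ℝ)) (fun _ => Nat.cast_nonneg m) hcont fun q i x => by
        refine ((((hat_deriv x i _).fun_mul (hat_deriv x i _)).fun_add (hat_deriv x i _)).fun_sub
          (hat_deriv x i _)).congr_deriv ?_
        simp
  set N := ∑ i : Fin n, u i ^ 6
  have h1 : ∀ m : ℕ, 3 * (m * (c.map fun q => res (hat (x m)) q ^ 2).sum) + ∑ i, x m i ^ 6 ≤ N := by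
    intro m
    have := hx m fun i => u i
    rw [List.sum_map_mul_left, List.map_congr_left (g := fun _ => 0)
      (f := fun q => (m : ℝ) * res (hat fun i : Fin n => u i) q ^ 2)
      (fun q hq => by rw [hz q hq]; simp)] at this
    simpa using this
  have hP : ∀ y : Fin n → ℝ, 0 ≤ (c.map fun q => res (hat y) q ^ 2).sum := fun x =>
    List.sum_nonneg (by simp only [List.mem_map]; rintro _ ⟨q, -, rfl⟩; positivity)
  obtain ⟨ξ, -, φ, hφ, hl⟩ := tendsto_subseq_of_bounded (x := x)
    (Metric.isBounded_closedBall (x := 0) (r := N + 1)) fun m => mem_closedBall_zero_iff.2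
      (norm_le_of_six (by
        have := mul_nonneg (Nat.cast_nonneg (α := ℝ) m) (hP (x m)); linarith [h1 m]))
  have hT : Tendsto (fun m => (φ m : ℝ)) atTop atTop :=
    tendsto_natCast_atTop_atTop.comp hφ.tendsto_atTop
  refine ⟨hat ξ, rfl, sat_iff_res.2 (le_antisymm ?_ (hP _)), fun i => ?_⟩
  · refine le_of_tendsto_of_tendsto
      (((continuous_list_sum c fun q _ => (hcont q).pow 2).tendsto ξ).comp hl)
      (hT.const_div_atTop N) ?_
    filter_upwards [hT.eventually_gt_atTop 0] with m hm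
    rw [le_div_iff₀ hm]
    have := h1 (φ m)
    have h2 : 0 ≤ ∑ i, x (φ m) i ^ 6 := by positivity
    have := mul_nonneg hm.le (hP (x (φ m)))
    simp only [comp, Pi.pow_apply]
    linarith
  · refine le_trans (key (L := c.length * 12 + 1) (x := fun m => x (φ m))
      (h := fun i T x => -(c.map fun q => T * (res (hat x) q * (dhat i q.1 * hat x q.2.1 +
        hat x q.1 * dhat i q.2.1 + dhat i q.2.2.1 - dhat i q.2.2.2))).sum) (by omega) (fun i => ?_)
      ((pol_hat i).mono (by omega) le_rfl (by omega)) hT (fun m i => ex (φ m) i)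
      (((hat_cont i).tendsto ξ).comp hl)).1 (by exact_mod_cast HH_le _ _)
    refine (Pol.lsum (d := 3) (e := 1) (L := 12) c fun q _ => ?_).neg.mono (by omega) (by omega)
      (by omega)
    exact Pol.tt.mul (((((pol_hat _).mul (pol_hat _)).add
      ((pol_hat _).mono (by omega) le_rfl le_rfl)).sub ((pol_hat _).mono (by omega) le_rfl le_rfl)).mul
      (((((pol_dhat _ _).mul (pol_hat _)).add ((pol_hat _).mul (pol_dhat _ _))).add
        ((pol_dhat _ _).mono (by omega) le_rfl le_rfl)).sub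
        ((pol_dhat _ _).mono (by omega) le_rfl le_rfl)))

/-- scaled system: index `0` is one, `1` is zero, `2 + j` the squaring chain, `k + 3 + i` the scaled
variables, then two auxiliary variables for each equation -/
def scaled (n k : ℕ) (c : List Q4) : List Q4 :=
  [(0, 0, 1, 0), (0, 2, 2, 0), (0, 2 + k, 1, k + 3)] ++
    (List.range k).map (fun j => (2 + j, 2 + j, 1, 2 + (j + 1))) ++
    c.zipIdx.flatMap fun q => [(k + 3, k + 3 + q.1.2.2.1, 1, k + 3 + n + 2 * q.2),
      (k + 3, k + 3 + q.1.2.2.2, 1, k + 3 + n + 2 * q.2 + 1),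
      (k + 3 + q.1.1, k + 3 + q.1.2.1, k + 3 + n + 2 * q.2, k + 3 + n + 2 * q.2 + 1)]

theorem scaled_sound {k c u} (h0 : u 0 = 1) (h : Sat u (scaled n k c)) : FSol (n, c) := by
  simp only [scaled, sat_append] at h
  obtain ⟨⟨h1, h2⟩, h3⟩ := h
  simp only [Sat, List.forall_mem_cons, h0] at h1
  have z : u 1 = 0 := by linarith [h1.1]
  have hp : ∀ j ≤ k, u (2 + j) ≠ 0 := by
    intro j hj
    induction j with
    | zero => intro e; have := h1.2.1; simp only [add_zero] at e; rw [e] at this; simp at this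
    | succ j ih =>
      have := h2 _ (List.mem_map_of_mem (List.mem_range.2 hj))
      simp only [z, add_zero] at this
      rw [← this]; exact mul_self_ne_zero.2 (ih (by omega))
  have hd : u (k + 3) ≠ 0 := by
    have := h1.2.2.1; rw [z] at this; rw [← this]; simpa using hp k le_rfl
  refine ⟨fun i => u (k + 3 + i) / u (k + 3), by simp [hd], fun q hq => ?_⟩
  obtain ⟨j, hj⟩ := List.mem_iff_getElem?.1 hq
  have := fun t ht => h3 t (List.mem_flatMap.2 ⟨(q, j), List.mem_zipIdx_iff_getElem?.2 hj, ht⟩)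
  simp only [List.forall_mem_cons, z, add_zero] at this
  obtain ⟨a, b, c, -⟩ := this
  field_simp
  linarith

theorem scaled_complete {k c} (hn : 0 < n) (hc : Bd n c) {u : ℕ → ℝ} (h0 : u 0 = 1) (hu : Sat u c)
    (hb : ∀ i, |u i| ≤ 2 ^ 2 ^ k) :
    ∃ v : ℕ → ℝ, v 0 = 1 ∧ Sat v (scaled n k c) ∧ ∀ i, |v i| ≤ 1 := by
  set δ : ℝ := (1 / 2) ^ 2 ^ k with hδ
  have hδ0 : 0 < δ := by positivity
  have hδ1 : δ ≤ 1 := pow_le_one₀ (by norm_num) (by norm_num)
  have hs : ∀ i, |δ * u i| ≤ 1 := fun i => by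
    rw [abs_mul, abs_of_pos hδ0]
    refine (mul_le_mul_of_nonneg_left (hb i) hδ0.le).trans ?_
    rw [hδ, ← mul_pow]; simp
  let v : ℕ → ℝ := fun i => if i = 0 then 1 else if i = 1 then 0 else if i < k + 3 then
    (1 / 2) ^ 2 ^ (i - 2) else if i < k + 3 + n then δ * u (i - (k + 3)) else
      δ * (δ * u (if (i - (k + 3 + n)) % 2 = 0 then (c.getD ((i - (k + 3 + n)) / 2) default).2.2.1
        else (c.getD ((i - (k + 3 + n)) / 2) default).2.2.2))
  have v1 : ∀ j ≤ k, v (2 + j) = (1 / 2) ^ 2 ^ j := fun j hj => by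
    simp only [v]; rw [if_neg (by omega), if_neg (by omega), if_pos (by omega)]; simp
  have v2 : ∀ j < n, v (k + 3 + j) = δ * u j := fun j hj => by
    simp only [v]
    rw [if_neg (by omega), if_neg (by omega), if_neg (by omega), if_pos (by omega)]; simp
  have v3 : ∀ j, v (k + 3 + n + 2 * j) = δ * (δ * u (c.getD j default).2.2.1) := fun j => by
    simp only [v]
    rw [if_neg (by omega), if_neg (by omega), if_neg (by omega), if_neg (by omega)]; simp
  have v4 : ∀ j, v (k + 3 + n + 2 * j + 1) = δ * (δ * u (c.getD j default).2.2.2) := fun j => by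
    simp only [v]
    rw [if_neg (by omega), if_neg (by omega), if_neg (by omega), if_neg (by omega),
      if_neg (by omega), show (k + 3 + n + 2 * j + 1 - (k + 3 + n)) / 2 = j by omega]
  have v0 : v (k + 3) = δ := by simpa [h0] using v2 0 hn
  have z0 : v 0 = 1 := rfl
  have z1 : v 1 = 0 := rfl
  refine ⟨v, rfl, ?_, fun i => ?_⟩
  · simp only [scaled, sat_append]
    refine ⟨⟨?_, ?_⟩, ?_⟩
    · have := v1 0 (by omega)
      simp only [add_zero] at this
      simp [Sat, z0, z1, this, v0, v1 k le_rfl, hδ]; norm_num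
    · simp only [Sat, List.mem_map, List.mem_range]
      rintro _ ⟨j, hj, rfl⟩
      simp only [v1 j hj.le, v1 (j + 1) hj, z1, add_zero, pow_succ, pow_mul]; simp
    · simp only [Sat, List.mem_flatMap]
      rintro t ⟨⟨q, j⟩, hq, ht⟩
      have hj := List.mem_zipIdx_iff_getElem?.1 hq
      have hq' := List.mem_of_getElem? hj
      obtain ⟨b1, b2, b3, b4⟩ := hc q hq'
      have e : c.getD j default = q := by simp [List.getD_eq_getElem?_getD, hj]
      have := hu q hq'
      simp only [List.mem_cons, List.not_mem_nil, or_false] at ht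
      rcases ht with rfl | rfl | rfl <;> simp only [v0, v2 _ b1, v2 _ b2, v2 _ b3, v2 _ b4, v3, v4,
        e, z1, add_zero]
      rw [← this]; ring
  · simp only [v]
    split_ifs
    · simp
    · simp
    · rw [abs_of_pos (by positivity)]; exact pow_le_one₀ (by norm_num) (by norm_num)
    · exact hs _
    all_goals
      rw [abs_mul, abs_of_pos hδ0]; exact mul_le_one₀ hδ1 (abs_nonneg _) (hs _)

theorem bfma_erh : ERH (fun p : ℕ × List Q4 => 3 ≤ p.1 ∧ Bd p.1 p.2 ∧
    (FSol p → ∃ u : ℕ → ℝ, u 0 = 1 ∧ Sat u p.2 ∧ ∀ i, |u i| ≤ 1)) FSol := by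
  refine fma_erh.reduce (fun p => (3 * p.1 + (p.2.length * 12 + 1) + 8 + 3 + p.1 + 2 * p.2.length,
    scaled p.1 (3 * p.1 + (p.2.length * 12 + 1) + 8) p.2)) (by unfold scaled; fun_prop) ?_
  rintro ⟨n, c⟩ ⟨h3, hc⟩
  have h1 : FSol (n, c) → _ := fun h =>
    let ⟨_, a, b, d⟩ := ball hc h; scaled_complete (by simp only at h3; omega) hc a b d
  refine ⟨⟨by simp only; omega, ?_, fun ⟨u, a, b⟩ => h1 (scaled_sound a b)⟩,
    fun h => let ⟨u, a, b, _⟩ := h1 h; ⟨u, a, b⟩, fun ⟨u, a, b⟩ => scaled_sound a b⟩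
  simp only [scaled, bd_append]
  simp only at h3
  refine ⟨⟨by simp [Bd]; omega, ?_⟩, ?_⟩
  · simp only [Bd, List.mem_map, List.mem_range]
    rintro _ ⟨j, hj, rfl⟩
    simp only; omega
  · simp only [Bd, List.mem_flatMap]
    rintro t ⟨⟨q, j⟩, hq, ht⟩
    have hj := List.mem_zipIdx_iff_getElem?.1 hq
    obtain ⟨b1, b2, b3, b4⟩ := hc q (List.mem_of_getElem? hj)
    have := (List.getElem?_eq_some_iff.1 hj).1
    simp only [List.mem_cons, List.not_mem_nil, or_false] at ht
    rcases ht with rfl | rfl | rfl <;> simp only at * <;> omega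

end Pool.Agent.H38.ER
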