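import Pool.Agent.H38.ER.Ball

/-!
Homogeneous quadratic systems: hardness of nonzero solvability, a gap theorem, and a strict
version.
-/

namespace Pool.Agent.H38.ER

open Filter Topology Finset Function Pool.Agent.H38.NP

variable {n : ℕ}

abbrev Q6 := ℕ × ℕ × ℕ × ℕ × ℕ × ℕ

noncomputable def xt (x : Fin n → ℝ) (a : ℕ) : ℝ := if h : a < n then x ⟨a, h⟩ else 0

def bil (u v : ℕ → ℝ) (q : Q6) : ℝ :=
  u q.1 * v q.2.1 + u q.2.2.1 * v q.2.2.2.1 - u q.2.2.2.2.1 * v q.2.2.2.2.2

def HSol (p : ℕ × List Q6) : Prop :=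
  ∃ x : Fin p.1 → ℝ, x ≠ 0 ∧ ∀ q ∈ p.2, bil (xt x) (xt x) q = 0

theorem xt_lt (x : Fin n → ℝ) {a} (h : a < n) : xt x a = x ⟨a, h⟩ := dif_pos h
theorem xt_ge (x : Fin n → ℝ) {a} (h : n ≤ a) : xt x a = 0 := dif_neg (by omega)
theorem xt_res (u : ℕ → ℝ) {a} (h : a < n) : xt (fun i : Fin n => u i) a = u a := dif_pos h
theorem xt_smul (c : ℝ) (x : Fin n → ℝ) (a) : xt (c • x) a = c * xt x a := by
  unfold xt; split_ifs <;> simp

theorem h2n_erh : ERH (fun p : ℕ × List Q6 => 0 < p.1 ∧ p.2 ≠ [] ∧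
    (∀ q ∈ p.2, q.1 < p.1 ∧ q.2.1 < p.1 ∧ q.2.2.1 < p.1 ∧ q.2.2.2.1 < p.1 ∧ q.2.2.2.2.1 < p.1 ∧
      q.2.2.2.2.2 < p.1) ∧
    ∀ x : Fin p.1 → ℝ, (∀ q ∈ p.2, bil (xt x) (xt x) q = 0) → xt x 0 = 0 → x = 0) HSol := by
  refine bfma_erh.reduce (fun p => (p.1 + p.1,
    (List.range p.1).map (fun i => (i, i, p.1 + i, p.1 + i, 0, 0)) ++
      p.2.map fun q => (q.1, q.2.1, 0, q.2.2.1, 0, q.2.2.2))) (by fun_prop) ?_
  rintro ⟨n, c⟩ ⟨h3, hc, hb⟩
  simp only at h3 hc hb
  have key : ∀ x : Fin (n + n) → ℝ, (∀ q ∈ (List.range n).map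
      (fun i => (i, i, n + i, n + i, 0, 0)) ++ c.map fun q => (q.1, q.2.1, 0, q.2.2.1, 0, q.2.2.2),
        bil (xt x) (xt x) q = 0) → xt x 0 = 0 → x = 0 := by
    intro x hx h0
    have : ∀ i < n, xt x i = 0 ∧ xt x (n + i) = 0 := fun i hi => by
      have := hx _ (List.mem_append_left _ (List.mem_map_of_mem (List.mem_range.2 hi)))
      simp only [bil, h0, mul_zero, sub_zero] at this
      exact mul_self_add_mul_self_eq_zero.1 this
    funext i
    by_cases hi : i.val < n
    · exact (xt_lt x i.2).symm.trans (this i hi).1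
    · have := (this (i - n) (by omega)).2
      rw [show n + (i - n) = i by omega] at this
      exact (xt_lt x i.2).symm.trans this
  refine ⟨⟨by simp only; omega, by simp; omega, ?_, key⟩, fun h => ?_, ?_⟩
  · simp only [List.mem_append, List.mem_map, List.mem_range]
    rintro _ (⟨i, hi, rfl⟩ | ⟨q, hq, rfl⟩)
    · simp only; omega
    · have := hc q hq; simp only; omega
  · obtain ⟨u, h0, hu, hb⟩ := hb h
    let v : ℕ → ℝ := fun i => if i < n then u i else √(1 - u (i - n) ^ 2)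
    have e1 : ∀ i < n, xt (fun i : Fin (n + n) => v i) i = u i := fun i hi => by
      rw [xt_res v (by omega)]; exact if_pos hi
    have e2 : ∀ i < n, xt (fun i : Fin (n + n) => v i) (n + i) = √(1 - u i ^ 2) := fun i hi => by
      rw [xt_res v (by omega)]; simp [v]
    refine ⟨fun i => v i, fun e => ?_, ?_⟩
    · have := e1 0 (by omega); rw [e, h0, xt_lt _ (by omega)] at this; simp at this
    simp only [List.mem_append, List.mem_map, List.mem_range]
    rintro _ (⟨i, hi, rfl⟩ | ⟨q, hq, rfl⟩)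
    · simp only [bil, e1 i hi, e2 i hi, e1 0 (by omega), h0]
      rw [Real.mul_self_sqrt (by nlinarith [abs_le.1 (hb i)])]; ring
    · obtain ⟨b1, b2, b3, b4⟩ := hc q hq
      simp only [bil, e1 _ b1, e1 _ b2, e1 _ b3, e1 _ b4, e1 0 (by omega), h0]
      linarith [hu q hq]
  · rintro ⟨x, hx, h⟩
    have h0 : xt x 0 ≠ 0 := fun e => hx (key x h e)
    refine ⟨fun i => xt x i / xt x 0, div_self h0, fun q hq => ?_⟩
    have := h _ (List.mem_append_right _ (List.mem_map_of_mem hq))
    simp only [bil] at this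
    field_simp
    linarith

noncomputable def dxt (i : Fin n) (a : ℕ) : ℝ := if a = i then 1 else 0

theorem xt_deriv (x : Fin n → ℝ) (i : Fin n) (a : ℕ) :
    HasDerivAt (fun t => xt (update x i t) a) (dxt i a) (x i) := by
  unfold xt dxt
  by_cases h1 : a = i
  · subst h1; simpa using hasDerivAt_id' _
  by_cases h2 : a < n
  · have : (⟨a, h2⟩ : Fin n) ≠ i := fun e => h1 (congrArg Fin.val e)
    simpa [h1, h2, this] using hasDerivAt_const _ _
  · simpa [h1, h2] using hasDerivAt_const _ _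

theorem xt_cont (a : ℕ) : Continuous fun x : Fin n → ℝ => xt x a := by
  unfold xt; split_ifs <;> fun_prop

theorem pol_xt (a : ℕ) : Pol 1 0 1 fun _ (x : Fin n → ℝ) => xt x a := by
  unfold xt; split_ifs
  exacts [Pol.var _, Pol.zero]

theorem pol_dxt (i : Fin n) (a : ℕ) : Pol 0 0 1 fun _ (_ : Fin n → ℝ) => dxt i a := by
  unfold dxt; split_ifs
  exacts [Pol.one, Pol.zero]

noncomputable def sos (l : List Q6) (x : Fin n → ℝ) : ℝ :=
  (l.map fun q => bil (xt x) (xt x) q ^ 2).sum

theorem sos_nonneg (l) (x : Fin n → ℝ) : 0 ≤ sos l x :=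
  List.sum_nonneg (by simp only [List.mem_map]; rintro _ ⟨q, -, rfl⟩; positivity)

theorem le_sos {l q} (h : q ∈ l) (x : Fin n → ℝ) : bil (xt x) (xt x) q ^ 2 ≤ sos l x :=
  List.single_le_sum (by simp only [List.mem_map]; rintro _ ⟨q, -, rfl⟩; positivity) _
    (List.mem_map_of_mem h)

theorem sos_smul (l) (c : ℝ) (x : Fin n → ℝ) : sos l (c • x) = c ^ 4 * sos l x := by
  simp only [sos, ← List.sum_map_mul_left, bil, xt_smul]
  congr 2; funext q; ring

theorem bil_cont (q) : Continuous fun x : Fin n → ℝ => bil (xt x) (xt x) q :=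
  (((xt_cont _).mul (xt_cont _)).add ((xt_cont _).mul (xt_cont _))).sub
    ((xt_cont _).mul (xt_cont _))

theorem gap {l : List Q6} (h : ¬ HSol (n, l)) (z : Fin n → ℝ) (hz : ∑ i, z i ^ 2 = 1) :
    (1 / 2) ^ 2 ^ (3 * n + (l.length + 1) * (2 * n + 20) + 8) ≤ sos l z := by
  have hc : Continuous fun x : Fin n → ℝ => sos l x :=
    continuous_list_sum _ fun q _ => (bil_cont q).pow 2
  choose x hx ex using fun m : ℕ => crit (none :: l.map some)
    (fun q x => q.elim (∑ i : Fin n, x i ^ 2 - 1) fun q => bil (xt x) (xt x) q)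
    (fun q i x => q.elim (2 * x i) fun q => bil (dxt i) (xt x) q + bil (xt x) (dxt i) q)
    (fun q => q.elim ((m : ℝ) * m) fun _ => m) (fun q => by cases q <;> simp <;> positivity)
    (fun q => by
      cases q
      · simp only [Option.elim]; fun_prop
      · exact bil_cont _) fun q i x => by
      cases q
      · simp only [Option.elim]
        have : (fun t => ∑ j, update x i t j ^ 2 - 1) =
            fun t => t ^ 2 + (∑ j ∈ univ.erase i, x j ^ 2 - 1) := by
          funext t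
          rw [← add_sum_erase _ _ (mem_univ i), update_self, add_sub_assoc]
          congr 2
          exact sum_congr rfl fun j hj => by rw [update_of_ne (ne_of_mem_erase hj)]
        rw [this]
        exact ((hasDerivAt_pow 2 (x i)).add_const _).congr_deriv (by simp)
      · refine ((((xt_deriv x i _).fun_mul (xt_deriv x i _)).fun_add
          ((xt_deriv x i _).fun_mul (xt_deriv x i _))).fun_sub
          ((xt_deriv x i _).fun_mul (xt_deriv x i _))).congr_deriv ?_
        simp [bil]; ring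
  set N := ∑ i : Fin n, z i ^ 6
  have hN : 0 ≤ N := by positivity
  have h1 : ∀ m : ℕ, 3 * (m * m * (∑ i, x m i ^ 2 - 1) ^ 2 + m * sos l (x m)) + ∑ i, x m i ^ 6 ≤
      3 * (m * sos l z) + N := by
    intro m
    have := hx m z
    simpa [hz, sos, List.sum_map_mul_left, Function.comp_def] using this
  have h6 : ∀ m, 0 ≤ ∑ i, x m i ^ 6 := fun m => by positivity
  have h2 : ∀ m : ℕ, 1 ≤ m → (∑ i, x m i ^ 2 - 1) ^ 2 ≤ (sos l z + N) / m ∧
      sos l (x m) ≤ sos l z + N / m := by
    intro m hm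
    have hm' : (1 : ℝ) ≤ m := by exact_mod_cast hm
    have a := h1 m
    have b := h6 m
    have c := sos_nonneg l (x m)
    have d := sq_nonneg (∑ i, x m i ^ 2 - 1)
    constructor
    · rw [le_div_iff₀ (by linarith)]
      refine le_of_mul_le_mul_left ?_ (show (0 : ℝ) < 3 * m by linarith)
      nlinarith [mul_nonneg (sub_nonneg.2 hm') hN, mul_nonneg (show (0 : ℝ) ≤ m by linarith) c]
    · rw [← sub_le_iff_le_add', le_div_iff₀ (by linarith)]
      nlinarith [mul_nonneg (mul_self_nonneg (m : ℝ)) d]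
  obtain ⟨ξ, -, φ, hφ, hl⟩ := tendsto_subseq_of_bounded (x := fun m => x (m + 1))
    (Metric.isBounded_closedBall (x := 0) (r := sos l z + N + 3)) fun m =>
      mem_closedBall_zero_iff.2 ((pi_norm_le_iff_of_nonneg (by
        linarith [sos_nonneg l z])).2 fun i => by
        have a := (h2 (m + 1) (by omega)).1
        have b : (sos l z + N) / (m + 1 : ℕ) ≤ sos l z + N :=
          div_le_self (by linarith [sos_nonneg l z]) (by simp)
        have c : x (m + 1) i ^ 2 ≤ ∑ i, x (m + 1) i ^ 2 :=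
          single_le_sum (f := fun i => x (m + 1) i ^ 2) (fun _ _ => sq_nonneg _) (mem_univ i)
        rw [Real.norm_eq_abs]
        nlinarith [sq_abs (x (m + 1) i), sq_nonneg (|x (m + 1) i| - 1),
          sq_nonneg (∑ i, x (m + 1) i ^ 2 - 2)])
  have hT : Tendsto (fun m => ((φ m + 1 : ℕ) : ℝ)) atTop atTop :=
    tendsto_natCast_atTop_atTop.comp ((tendsto_add_atTop_nat 1).comp hφ.tendsto_atTop)
  have l1 : (∑ i, ξ i ^ 2 - 1) ^ 2 ≤ 0 := le_of_tendsto_of_tendsto'
    (((by fun_prop : Continuous fun x : Fin n → ℝ => (∑ i, x i ^ 2 - 1) ^ 2).tendsto ξ).comp hl)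
    (hT.const_div_atTop (sos l z + N)) fun m => (h2 _ (by omega)).1
  have l2 : sos l ξ ≤ sos l z + 0 := le_of_tendsto_of_tendsto' ((hc.tendsto ξ).comp hl)
    ((hT.const_div_atTop N).const_add _) fun m => (h2 _ (by omega)).2
  have l3 : 0 < sos l ξ := (sos_nonneg _ _).lt_of_ne fun e => h ⟨ξ, fun e0 => by
    rw [e0] at l1; norm_num at l1, fun q hq => by
      have := le_sos hq ξ; rw [← e] at this; exact pow_eq_zero_iff (two_ne_zero) |>.1
        (le_antisymm this (sq_nonneg _))⟩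
  have pb : ∀ q, Pol 2 0 3 fun _ (x : Fin n → ℝ) => bil (xt x) (xt x) q := fun q =>
    (((pol_xt _).mul (pol_xt _)).add ((pol_xt _).mul (pol_xt _))).sub ((pol_xt _).mul (pol_xt _))
  have k := (key (L := (l.length + 1) * (2 * n + 20)) (x := fun m => x (φ m + 1))
    (γ := fun _ x => sos l x)
    (h := fun i T x => -((none :: l.map some).map fun q : Option Q6 => (q.elim (T * T) fun _ => T) *
      ((q.elim (∑ i : Fin n, x i ^ 2 - 1) fun q => bil (xt x) (xt x) q) *
      (q.elim (2 * x i) fun q => bil (dxt i) (xt x) q + bil (xt x) (dxt i) q))).sum)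
    (by nlinarith) (fun i => ?_)
    ((Pol.lsum l fun q _ => (pb q).pow 2).mono le_rfl le_rfl (by nlinarith)) hT
    (fun m i => ex _ i) ((hc.tendsto ξ).comp hl)).2 l3.ne'
  · have k2 := k.trans (by exact_mod_cast HH_le _ _ : _ ≤ (2 : ℝ) ^ 2 ^ _)
    rw [abs_of_pos (inv_pos.2 l3), inv_le_comm₀ l3 (by positivity)] at k2
    rw [one_div, inv_pow]; linarith
  · refine (Pol.lsum (d := 3) (e := 2) (L := 2 * n + 20) _ fun q _ => ?_).neg.mono (by omega)
      le_rfl (by simp)
    cases q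
    · refine (((Pol.tt.mul Pol.tt).mul ((((Pol.lsum (List.finRange n) fun i _ =>
        (Pol.var i).pow 2).sub (Pol.one.mono (by omega) le_rfl le_rfl))).mul
          ((Pol.int 2).mul (Pol.var i)))).congr fun T x => ?_).mono le_rfl le_rfl (by simp; omega)
      simp [Fin.sum_univ_def]
    · exact (Pol.tt.mul ((pb _).mul ((((((pol_dxt _ _).mul (pol_xt _)).add
        ((pol_dxt _ _).mul (pol_xt _))).sub ((pol_dxt _ _).mul (pol_xt _))).add
        ((((pol_xt _).mul (pol_dxt _ _)).add ((pol_xt _).mul (pol_dxt _ _))).sub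
          ((pol_xt _).mul (pol_dxt _ _))))))).mono le_rfl (by omega) (by omega)

end Pool.Agent.H38.ER
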