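import Pool.Agent.H38.ER.Lim3
import Pool.Agent.H38.ER.FmPT
import Pool.Agent.H38.ER.Gap

/-!
Deciding that a semialgebraic set is not closed reduces to the existential theory of the reals.
-/

namespace Pool.Agent.H38.ER

open Filter Topology Finset Pool.Agent.H38.NP

def chain (s k z : ℕ) : List Q4 :=
  (0, 0, 0, s) :: (List.range k).map fun j => (s + j, s + j, z, s + (j + 1))

theorem chain_sound {s k z} {u : ℕ → ℝ} (h0 : u 0 = 1) (hz : u z = 0) (h : Sat u (chain s k z)) :
    u (s + k) = 2 ^ 2 ^ k := by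
  have : ∀ j ≤ k, u (s + j) = 2 ^ 2 ^ j := by
    intro j hj
    induction j with
    | zero => have := h _ List.mem_cons_self; simp only [h0] at this; simp [← this]; norm_num
    | succ j ih =>
      have := h _ (List.mem_cons_of_mem _ (List.mem_map_of_mem (List.mem_range.2 hj)))
      simp only [hz, ih (by omega)] at this
      rw [← this, pow_succ, pow_mul]; ring
  exact this k le_rfl

theorem chain_complete {s k z} {u : ℕ → ℝ} (h0 : u 0 = 1) (hz : u z = 0)
    (h : ∀ j ≤ k, u (s + j) = 2 ^ 2 ^ j) : Sat u (chain s k z) := by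
  simp only [Sat, chain, List.forall_mem_cons, List.forall_mem_map, List.mem_range]
  refine ⟨by have := h 0 (by omega); simp only [add_zero] at this; rw [h0, this]; norm_num,
    fun j hj => ?_⟩
  rw [h j hj.le, h (j + 1) hj, hz, pow_succ, pow_mul]; ring

theorem chain_bd {s k z N} (h : s + k < N) (hz : z < N) : Bd N (chain s k z) := by
  simp only [Bd, chain, List.forall_mem_cons, List.forall_mem_map, List.mem_range]
  exact ⟨by omega, fun j hj => by omega⟩

def cD (n : ℕ) (φ : Fm) : ℕ := 1 + n + fN φ.not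
def cN1 (n : ℕ) (φ : Fm) : ℕ := cD n φ + n + fN φ
def cC1 (n : ℕ) (φ : Fm) : List Q4 := emb φ.not n 1 (1 + n) ++ emb φ n (cD n φ) (cD n φ + n)
def cO (n : ℕ) (φ : Fm) : List Q4 := (List.range n).map fun i => (0, 1 + i, 1 + n + 1, cD n φ + i)
def cK1 (n : ℕ) (φ : Fm) : ℕ := 3 * cN1 n φ + (((cC1 n φ).length + (cO n φ).length) * 12 + 1) + 13
def cA (n : ℕ) (φ : Fm) : ℕ := cN1 n φ + (cK1 n φ + 3)
def cC2 (n : ℕ) (φ : Fm) : List Q4 := cC1 n φ ++ chain (cN1 n φ) (cK1 n φ + 2) (1 + n + 1) ++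
  (List.range (cD n φ)).flatMap fun i =>
    [(cA n φ + 2 * i, cA n φ + 2 * i, 1 + n + 1, cA n φ + (2 * i + 1)),
      (i, i, cA n φ + (2 * i + 1), cN1 n φ + (cK1 n φ + 2))]
def cN2 (n : ℕ) (φ : Fm) : ℕ := cA n φ + 2 * cD n φ
def cK2 (n : ℕ) (φ : Fm) : ℕ := 3 * cN2 n φ + (((cC2 n φ).length + (cO n φ).length) * 12 + 1) + 13
def resT (q : Q4) : Tm := ((((Tm.var q.1).mul (.var q.2.1)).add (.var q.2.2.1)).add
  (Tm.var q.2.2.2).neg)
def cF (n : ℕ) (φ : Fm) : Fm :=
  (sysFm (cC2 n φ ++ chain (cN2 n φ) (cK2 n φ) (1 + n + 1))).and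
    (.lt ((sumT ((cO n φ).map fun q => (resT q).mul (resT q))).mul (.var (cN2 n φ + cK2 n φ)))
      (.num 1))

theorem pt_cF : PT fun p : ℕ × Fm => cF p.1 p.2 := by
  have h1 : PT fun p : ℕ × Fm => cD p.1 p.2 := by unfold cD; fun_prop
  have h2 : PT fun p : ℕ × Fm => cN1 p.1 p.2 := by unfold cN1; fun_prop
  have h3 : PT fun p : ℕ × Fm => cC1 p.1 p.2 := by unfold cC1; fun_prop
  have h1' : PT fun p : (ℕ × Fm) × ℕ => cD p.1.1 p.1.2 := h1.comp (by fun_prop)
  have h4 : PT fun p : ℕ × Fm => cO p.1 p.2 := by unfold cO; fun_prop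
  have h5 : PT fun p : ℕ × Fm => cK1 p.1 p.2 := by unfold cK1; fun_prop
  have h6 : PT fun p : ℕ × Fm => cA p.1 p.2 := by unfold cA; fun_prop
  have hc : ∀ {s k z : ℕ × Fm → ℕ}, PT s → PT k → PT z → PT fun p => chain (s p) (k p) (z p) :=
    fun _ _ _ => by unfold chain; fun_prop
  have h6' : PT fun p : (ℕ × Fm) × ℕ => cA p.1.1 p.1.2 := h6.comp (by fun_prop)
  have h2' : PT fun p : (ℕ × Fm) × ℕ => cN1 p.1.1 p.1.2 := h2.comp (by fun_prop)
  have h5' : PT fun p : (ℕ × Fm) × ℕ => cK1 p.1.1 p.1.2 := h5.comp (by fun_prop)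
  have h7 : PT fun p : ℕ × Fm => cC2 p.1 p.2 :=
    (h3.append (hc h2 (by fun_prop) (by fun_prop))).append (PT.flatMap (by fun_prop) h1.range)
  have h8 : PT fun p : ℕ × Fm => cN2 p.1 p.2 := by unfold cN2; fun_prop
  have h9 : PT fun p : ℕ × Fm => cK2 p.1 p.2 := by unfold cK2; fun_prop
  exact pt_fand (pt_sysFm (h7.append (hc h8 h9 (by fun_prop)))) (pt_flt (pt_tmul (pt_sumT
    (PT.map (by unfold resT; fun_prop) h4)) (pt_var (h8.add h9))) (PT.const _))

theorem holds_cF (n φ u) : (cF n φ).Holds u ↔ (u 0 = 1 ∧ Sat u (cC2 n φ) ∧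
    Sat u (chain (cN2 n φ) (cK2 n φ) (1 + n + 1))) ∧
      ss (cO n φ) u * u (cN2 n φ + cK2 n φ) < 1 := by
  simp only [cF, Fm.Holds, holds_sysFm, sat_append, Tm.ev, ev_sumT, List.map_map, Nat.cast_one]
  rw [ss]; congr! 5
  funext q; simp [resT, res, Tm.ev, sq, sub_eq_add_neg]

theorem xt_ite {n} (u : ℕ → ℝ) : xt (fun i : Fin n => u i) = fun i => if i < n then u i else 0 := by
  funext i; unfold xt; split_ifs <;> rfl

theorem notClosed_iff (n : ℕ) (φ : Fm) :
    ¬ IsClosed {x : Fin n → ℝ | φ.Holds (xt x)} ↔ ETR (cF n φ) := by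
  have f1 := (fC_spec φ.not).1
  have f2 := (fC_spec φ).1
  have eD : cD n φ = 1 + n + fN φ.not := rfl
  have eN : cN1 n φ = cD n φ + n + fN φ := rfl
  have eA : cA n φ = cN1 n φ + (cK1 n φ + 3) := rfl
  have eN2 : cN2 n φ = cA n φ + 2 * cD n φ := rfl
  have bP : Bd (cD n φ) (emb φ.not n 1 (1 + n)) := emb_bd _ (by omega) (by omega)
  have b1 : Bd (cN1 n φ) (cC1 n φ) :=
    bd_append.2 ⟨bP.mono (by omega), emb_bd _ (by omega) (by omega)⟩
  have bO : Bd (cN1 n φ) (cO n φ) := by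
    simp only [Bd, cO, List.forall_mem_map, List.mem_range]; intro j hj; omega
  have b2 : Bd (cN2 n φ) (cC2 n φ) := by
    refine bd_append.2 ⟨bd_append.2 ⟨b1.mono (by omega), chain_bd (by omega) (by omega)⟩, ?_⟩
    simp only [Bd, List.forall_mem_flatMap, List.mem_range, List.forall_mem_cons]
    intro j hj; simp; omega
  have ssO : ∀ u : ℕ → ℝ, u 0 = 1 → u (1 + n + 1) = 0 →
      ss (cO n φ) u = ∑ i : Fin n, (u (1 + i) - u (cD n φ + i)) ^ 2 := fun u h0 hz => by
    rw [Fin.sum_univ_eq_sum_range fun i => (u (1 + i) - u (cD n φ + i)) ^ 2]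
    simp only [ss, cO, List.map_map, Function.comp_def, res, h0, hz, one_mul, add_zero]
    rfl
  have ssc : ∀ {N} {u v : ℕ → ℝ}, cN1 n φ ≤ N → (∀ i < N, v i = u i) →
      ss (cO n φ) v = ss (cO n φ) u := fun hN e =>
    congrArg List.sum (List.map_congr_left fun q hq => by
      obtain ⟨a, b, c, d⟩ := bO.mono hN q hq
      simp only [res, e _ a, e _ b, e _ c, e _ d])
  constructor
  · intro h
    rw [← closure_subset_iff_isClosed, Set.not_subset] at h
    obtain ⟨x, hx, hx'⟩ := h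
    obtain ⟨w, hw⟩ := emb_complete (φ := φ.not) (n := n) (x := xt x) (by
      rw [← xt_ite]; simpa [xt_lt, Fm.Holds] using hx')
    let p : ℕ → ℝ := fun i => if i = 0 then 1 else if i < 1 + n then xt x (i - 1) else w (i - (1 + n))
    obtain ⟨v, v0, vc, vo, vb⟩ := lim1 b1 bO (d := cD n φ) (by omega)
      (M := ∑ i ∈ range (cD n φ), |p i|) (fun ε hε => by
        obtain ⟨y, hy, hd⟩ := Metric.mem_closure_iff.1 hx (√(ε / (n + 1))) (by positivity)
        obtain ⟨w', hw'⟩ := emb_complete (φ := φ) (n := n) (x := xt y) (by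
          rw [← xt_ite]; simpa [xt_lt] using hy)
        let u := ov (cD n φ) p fun i => if i < n then xt y i else w' (i - n)
        have u0 : u 0 = 1 := ov_lt (by omega)
        have u1 : ∀ i < n, u (1 + i) = xt x i := fun i hi => (ov_lt (by omega)).trans (by
          simp only [p]; rw [if_neg (by omega), if_pos (by omega)]; simp)
        have u2 : ∀ i < n, u (cD n φ + i) = xt y i := fun i hi => ov_add.trans (if_pos hi)
        have s1 : Sat u (emb φ.not n 1 (1 + n)) := hw _ _ u u0 u1 fun i hi h0 =>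
          (ov_lt (by omega)).trans (by
            simp only [p]; rw [if_neg (by omega), if_neg (by omega)]; simp)
        refine ⟨u, u0, sat_append.2 ⟨s1, hw' _ _ u u0 u2 fun i hi h0 => ?_⟩, ?_, fun i hi => ?_⟩
        · rw [add_assoc]; exact ov_add.trans (by simp)
        · rw [ssO u u0 (emb_sound u0 s1).1]
          calc _ ≤ ∑ _ : Fin n, ε / (n + 1) := sum_le_sum fun i _ => by
                rw [u1 _ i.2, u2 _ i.2, xt_lt _ i.2, xt_lt _ i.2, ← sq_abs, ← Real.sq_sqrt
                  (show 0 ≤ ε / (n + 1) by positivity)]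
                exact pow_le_pow_left₀ (abs_nonneg _) ((dist_le_pi_dist x y i).trans hd.le) _
            _ ≤ ε := by
                simp only [sum_const, card_univ, Fintype.card_fin, nsmul_eq_mul]
                rw [← mul_div_assoc, div_le_iff₀ (by positivity)]; nlinarith
        · rw [show u i = p i from ov_lt hi]
          exact single_le_sum (f := fun i => |p i|) (fun _ _ => abs_nonneg _) (mem_range.2 hi))
      (1 / 2 ^ (2 ^ cK2 n φ + 1)) (by positivity)
    have vz := (emb_sound v0 (sat_append.1 vc).1).1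
    set R : ℝ := 2 ^ 2 ^ (cK1 n φ + 2) with hR
    have vb' : ∀ i < cD n φ, v i ^ 2 ≤ R := fun i hi => by
      have a := vb i hi
      change _ ≤ 2 ^ 2 ^ cK1 n φ + 1 at a
      have b : (2 : ℝ) ≤ 2 ^ 2 ^ cK1 n φ := le_self_pow₀ (by norm_num) (by positivity)
      rw [hR, pow_add, pow_mul, ← sq_abs]
      generalize (2 : ℝ) ^ 2 ^ cK1 n φ = B at *
      calc _ ≤ (B ^ 2) ^ 2 := pow_le_pow_left₀ (abs_nonneg _) (by nlinarith) _
        _ = _ := by ring
    let u := ov (cN1 n φ) v fun j => if j < cK1 n φ + 3 then 2 ^ 2 ^ j else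
      if j < cK1 n φ + 3 + 2 * cD n φ then (if (j - (cK1 n φ + 3)) % 2 = 0 then
        √(R - v ((j - (cK1 n φ + 3)) / 2) ^ 2) else R - v ((j - (cK1 n φ + 3)) / 2) ^ 2) else
        2 ^ 2 ^ (j - (cK1 n φ + 3 + 2 * cD n φ))
    have e1 : ∀ i < cN1 n φ, u i = v i := fun i => ov_lt
    have u0 : u 0 = 1 := (e1 _ (by omega)).trans v0
    have uz : u (1 + n + 1) = 0 := (e1 _ (by omega)).trans vz
    have e2 : ∀ j ≤ cK1 n φ + 2, u (cN1 n φ + j) = 2 ^ 2 ^ j := fun j hj =>
      ov_add.trans (if_pos (by omega))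
    have e3 : ∀ j, u (cN2 n φ + j) = 2 ^ 2 ^ j := fun j => by
      rw [eN2, eA, add_assoc, add_assoc]
      refine ov_add.trans ?_
      rw [if_neg (by omega), if_neg (by omega),
        show cK1 n φ + 3 + (2 * cD n φ + j) - (cK1 n φ + 3 + 2 * cD n φ) = j by omega]
    refine ⟨u, (holds_cF _ _ _).2 ⟨⟨u0, sat_append.2 ⟨sat_append.2 ⟨vc.congr b1 e1,
      chain_complete u0 uz e2⟩, ?_⟩, chain_complete u0 uz fun j _ => e3 j⟩, ?_⟩⟩
    · simp only [Sat, List.forall_mem_flatMap, List.mem_range, List.forall_mem_cons]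
      intro i hi
      have a1 : u (cA n φ + 2 * i) = √(R - v i ^ 2) := by
        rw [eA, add_assoc]; refine ov_add.trans ?_
        rw [if_neg (by omega), if_pos (by omega)]; simp
      have a2 : u (cA n φ + (2 * i + 1)) = R - v i ^ 2 := by
        rw [eA, add_assoc]; refine ov_add.trans ?_
        rw [if_neg (by omega), if_pos (by omega), if_neg (by omega), Nat.add_sub_cancel_left,
          show (2 * i + 1) / 2 = i by omega]
      rw [a1, a2, uz, e2 _ le_rfl, e1 i (by omega), Real.mul_self_sqrt (sub_nonneg.2 (vb' i hi))]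
      simp [hR, sq]
    · rw [e3, ssc le_rfl e1]
      refine (mul_le_mul_of_nonneg_right vo (by positivity)).trans_lt ?_
      rw [pow_succ, div_mul_eq_mul_div, div_lt_one (by positivity)]
      have : (0 : ℝ) < 2 ^ 2 ^ cK2 n φ := by positivity
      linarith
  · rintro ⟨u, hu⟩ hcl
    obtain ⟨⟨u0, uc, uch⟩, ul⟩ := (holds_cF _ _ _).1 hu
    have zz : ∀ {u : ℕ → ℝ}, u 0 = 1 → Sat u (cC2 n φ) → u (1 + n + 1) = 0 := fun u0 uc =>
      (emb_sound u0 (sat_append.1 (sat_append.1 (sat_append.1 uc).1).1).1).1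
    rw [chain_sound u0 (zz u0 uc) uch] at ul
    choose v v0 vc vo using fun m : ℕ =>
      gap2 b2 (bO.mono (by omega)) u0 uc ul (1 / ((m : ℝ) + 1)) (by positivity)
    obtain ⟨ξ, -, ψ, hψ, hl⟩ := tendsto_subseq_of_bounded (x := fun m (i : Fin (cD n φ)) => v m i)
      (Metric.isBounded_closedBall (x := 0) (r := 2 ^ 2 ^ (cK1 n φ + 2) + 1)) fun m =>
        mem_closedBall_zero_iff.2 ((pi_norm_le_iff_of_nonneg (by positivity)).2 fun i => by
          obtain ⟨⟨-, c1⟩, c2⟩ := (sat_append.trans (and_congr_left' sat_append)).1 (vc m)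
          have a := chain_sound (v0 m) (zz (v0 m) (vc m)) c1
          simp only [Sat, List.forall_mem_flatMap, List.mem_range, List.forall_mem_cons] at c2
          obtain ⟨a1, a2, -⟩ := c2 i i.2
          rw [zz (v0 m) (vc m)] at a1
          rw [a, ← a1] at a2
          rw [Real.norm_eq_abs, abs_le]
          constructor <;> nlinarith [mul_self_nonneg (v m (cA n φ + 2 * i)),
            sq_nonneg (v m i - 1), sq_nonneg (v m i + 1)])
    have hl' : ∀ i < cD n φ, Tendsto (fun m => v (ψ m) i) atTop (𝓝 (xt ξ i)) := fun i hi => by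
      rw [xt_lt _ hi]; exact tendsto_pi_nhds.1 hl ⟨i, hi⟩
    have x0 : xt ξ 0 = 1 := tendsto_nhds_unique (hl' 0 (by omega)) (by simp [v0])
    have xs : Sat (xt ξ) (emb φ.not n 1 (1 + n)) := fun q hq => by
      obtain ⟨a, b, c, d⟩ := bP q hq
      refine tendsto_nhds_unique (((hl' _ a).mul (hl' _ b)).add (hl' _ c)) ((hl' _ d).congr fun m => ?_)
      exact ((sat_append.1 (sat_append.1 (sat_append.1 (vc _)).1).1).1 q hq).symm
    refine (emb_sound x0 xs).2 ?_
    rw [← xt_ite fun i => xt ξ (1 + i)]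
    refine (hcl.mem_of_tendsto (b := atTop) (f := fun m (i : Fin n) => v (ψ m) (cD n φ + i))
      (x := fun i : Fin n => xt ξ (1 + i))
      (tendsto_pi_nhds.2 fun i => ?_) (Eventually.of_forall fun m => ?_) :)
    · have t : Tendsto (fun m => v (ψ m) (1 + i) - v (ψ m) (cD n φ + i)) atTop (𝓝 0) := by
        rw [tendsto_zero_iff_abs_tendsto_zero]
        have t0 := ((tend_one.const_div_atTop 1).comp hψ.tendsto_atTop).sqrt
        rw [Real.sqrt_zero] at t0
        refine squeeze_zero (fun _ => abs_nonneg _) (fun m => Real.abs_le_sqrt ?_) t0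
        refine le_trans ?_ (vo _)
        rw [ssO _ (v0 _) (zz (v0 _) (vc _))]
        exact single_le_sum (f := fun i : Fin n => (v (ψ m) (1 + i) - v (ψ m) (cD n φ + i)) ^ 2)
          (fun _ _ => sq_nonneg _) (mem_univ i)
      simpa using (hl' (1 + i) (by omega)).sub t
    · have := (emb_sound (v0 (ψ m)) (sat_append.1 (sat_append.1 (sat_append.1 (vc _)).1).1).2).2
      rwa [← xt_ite fun i => v (ψ m) (cD n φ + i)] at this

theorem notClosed_mem : Reduces
    (lang fun p : ℕ × Fm => ¬ IsClosed {x : Fin p.1 → ℝ | p.2.Holds (xt x)}) (lang ETR) :=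
  reduces_etr _ pt_cF fun p => notClosed_iff p.1 p.2

theorem reduces_compl {α : Type} [Enc α] [Dec α] {P : α → Prop} (f : α → Fm) (hf : PT f)
    (e : ∀ a, ¬ P a ↔ ETR (f a)) : Reduces (lang P)ᶜ (lang ETR) := by
  have hF : ETR (.eq (.num 0) (.num 0)) := ⟨0, rfl⟩
  have : PT fun x : Bits => cond (decide (raw (Dec.dec x : α) = x)) (f (Dec.dec x))
    (.eq (.num 0) (.num 0)) := PT.cond (by fun_prop) (hf.comp Dec.pt) (PT.const _)
  refine ⟨_, PT.polyTime this.raw, fun x => ?_⟩
  rw [raw_val, enc_mem_lang]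
  refine (not_congr (mem_lang_iff ⟨x⟩)).trans ?_
  by_cases h : raw (Dec.dec ⟨x⟩ : α) = ⟨x⟩ <;> simp [h, ← e, hF]

theorem closed_mem : Reduces
    (lang fun p : ℕ × Fm => IsClosed {x : Fin p.1 → ℝ | p.2.Holds (xt x)})ᶜ (lang ETR) :=
  reduces_compl _ pt_cF fun p => notClosed_iff p.1 p.2

theorem notClosed_erh : ERH (fun _ : ℕ × Fm => True)
    fun p => ¬ IsClosed {x : Fin p.1 → ℝ | p.2.Holds (xt x)} := by
  refine fma_erh.reduce (fun p => (p.1 + 1, (sysFm p.2).and (.lt (.num 0) (.var p.1))))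
    (by fun_prop) ?_
  rintro ⟨n, c⟩ ⟨h3, hc⟩
  simp only [Fm.Holds, holds_sysFm, Tm.ev, Nat.cast_zero] at *
  refine ⟨trivial, fun ⟨u, h0, hu⟩ hcl => ?_, fun h => ?_⟩
  · have := hcl.mem_of_tendsto (b := atTop)
      (f := fun (m : ℕ) (i : Fin (n + 1)) => if i.val < n then u i else 1 / ((m : ℝ) + 1))
      (x := fun i : Fin (n + 1) => if i.val < n then u i else 0) (tendsto_pi_nhds.2 fun i => by
        split_ifs; exacts [tendsto_const_nhds, tend_one.const_div_atTop 1])
      (Eventually.of_forall fun m => by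
        have e : ∀ i < n, xt (fun i : Fin (n + 1) => if i.val < n then u i else 1 / ((m : ℝ) + 1)) i
          = u i := fun i hi => by rw [xt_lt _ (by omega)]; exact if_pos hi
        refine ⟨⟨by rw [e 0 (by omega), h0], hu.congr hc e⟩, ?_⟩
        rw [xt_lt _ (by omega)]; simp; positivity)
    simpa [xt_lt] using this.2
  · by_contra hn
    refine h ?_
    convert isClosed_empty
    exact Set.eq_empty_of_forall_notMem fun x hx => hn ⟨_, hx.1⟩

end Pool.Agent.H38.ER
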