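import Pool.Agent.H38.ER.Big

/-!
Collecting equal terms of signed lists.
-/

namespace Pool.Agent.H38.ER

open Pool.Agent.H38.NP

variable {α β : Type} [Enc α] [Enc β]

/-- the signed count of `e` -/
def cnt [DecidableEq β] (R : List (β × Bool)) (e : β) : ℤ :=
  (R.count (e, false) : ℤ) - R.count (e, true)

theorem pt_cnt [DecidableEq β] [EncInj β] {R : α → List (β × Bool)} {e : α → β} (hR : PT R)
    (he : PT e) : PT fun a => cnt (R a) (e a) :=
  pt_zsub (pt_zcast (by fun_prop)) (pt_zcast (by fun_prop))

omit [Enc β] in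
theorem sum_cnt [DecidableEq β] (R : List (β × Bool)) (S : Finset β) (hS : ∀ t ∈ R, t.1 ∈ S)
    (F : β → ℝ) : ∑ e ∈ S, (cnt R e : ℝ) * F e = (R.map fun t => cond t.2 (-1) 1 * F t.1).sum := by
  induction R with
  | nil => simp [cnt]
  | cons t R ih =>
    rw [List.map_cons, List.sum_cons, ← ih fun t ht => hS t (List.mem_cons_of_mem _ ht)]
    have : ∀ e, (cnt (t :: R) e : ℝ) = (if t.1 = e then cond t.2 (-1) 1 else 0) + cnt R e := by
      intro e
      obtain ⟨a, b⟩ := t
      by_cases h : a = e <;> cases b <;> simp [cnt, List.count_cons, h] <;> ring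
    simp only [this, add_mul, Finset.sum_add_distrib, ite_mul, zero_mul]
    rw [Finset.sum_ite_eq, if_pos (hS t List.mem_cons_self)]

def firsts [DecidableEq β] (l : List β) : List β :=
  (l.zipIdx.filter fun t => decide (l.idxOf t.1 = t.2)).map Prod.fst

theorem pt_firsts [DecidableEq β] [EncInj β] {l : α → List β} (hl : PT l) :
    PT fun a => firsts (l a) := by
  unfold firsts; fun_prop

omit [Enc β] in
theorem mem_firsts [DecidableEq β] {l : List β} {x} : x ∈ firsts l ↔ x ∈ l := by
  simp only [firsts, List.mem_map, List.mem_filter, decide_eq_true_eq, Prod.exists,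
    List.mem_zipIdx_iff_getElem?, exists_and_right, exists_eq_right]
  constructor
  · rintro ⟨i, h, -⟩; exact List.mem_of_getElem? h
  · intro h
    exact ⟨_, by
      rw [List.getElem?_eq_getElem (List.idxOf_lt_length_of_mem h), List.getElem_idxOf], rfl⟩

omit [Enc β] in
theorem nodup_firsts [DecidableEq β] (l : List β) : (firsts l).Nodup := by
  refine List.Nodup.map_on ?_ (List.Nodup.filter _ ?_)
  · rintro ⟨x, i⟩ h ⟨y, j⟩ h' (rfl : x = y)
    simp only [List.mem_filter, decide_eq_true_eq] at h h'
    rw [← h.2, ← h'.2]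
  · exact List.Nodup.of_map Prod.snd (by simp [List.nodup_range'])

def collect [DecidableEq β] (R : List (β × Bool)) : List (β × ℤ) :=
  (firsts (R.map Prod.fst)).map fun e => (e, cnt R e)

theorem pt_collect [DecidableEq β] [EncInj β] {R : α → List (β × Bool)} (hR : PT R) :
    PT fun a => collect (R a) :=
  PT.map (PT.mk (by fun_prop) (pt_cnt (by fun_prop) (by fun_prop))) (pt_firsts (by fun_prop))

omit [Enc β] in
theorem sum_collect [DecidableEq β] (R : List (β × Bool)) (F : β → ℝ) :
    ((collect R).map fun t => (t.2 : ℝ) * F t.1).sum =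
      (R.map fun t => cond t.2 (-1) 1 * F t.1).sum := by
  rw [← sum_cnt R (firsts (R.map Prod.fst)).toFinset fun t ht =>
    List.mem_toFinset.2 (mem_firsts.2 (List.mem_map_of_mem ht)),
    List.sum_toFinset _ (nodup_firsts _), collect, List.map_map]
  rfl

omit [Enc β] in
theorem collect_fst [DecidableEq β] (R : List (β × Bool)) :
    (collect R).map Prod.fst = firsts (R.map Prod.fst) := by
  simp [collect, Function.comp_def]

end Pool.Agent.H38.ER
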