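import Pool.Agent.H38.ER.Defs

/-!
Sentences with two blocks of real quantifiers, and hardness for them.
-/

namespace Pool.Agent.H38.ER

open Pool.Agent.H38.NP

/-- `(k, φ)` stands for the sentence: for all values of the variables `0, …, k - 1` there are
values of the other variables such that `φ` holds. -/
def AE (p : ℕ × Fm) : Prop := ∀ x : ℕ → ℝ, ∃ y : ℕ → ℝ, (∀ i < p.1, y i = x i) ∧ p.2.Holds y

/-- The language of codes of objects with `Q` has a polynomial-time many-one reduction to the
problem `P` whose values are codes of members of `C`. -/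
def QHardOn {β α : Type} [Enc β] [Enc α] (Q : β → Prop) (C P : α → Prop) : Prop :=
  ∃ f, PolyTime f ∧ ∀ x, ∃ a, f x = enc a ∧ C a ∧ (x ∈ lang Q ↔ P a)

end Pool.Agent.H38.ER
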