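import Pool.Agent.H38.ER.Parse

/-!
Systems of equations `u i * u j + u k = u l` with `u 0 = 1` are hard.
-/

namespace Pool.Agent.H38.ER

open Pool.Agent.H38.NP

abbrev Q4 := ℕ × ℕ × ℕ × ℕ

def Sat (u : ℕ → ℝ) (c : List Q4) : Prop := ∀ q ∈ c, u q.1 * u q.2.1 + u q.2.2.1 = u q.2.2.2

def Bd (n : ℕ) (c : List Q4) : Prop := ∀ q ∈ c, q.1 < n ∧ q.2.1 < n ∧ q.2.2.1 < n ∧ q.2.2.2 < n

def FSol (p : ℕ × List Q4) : Prop := ∃ u : ℕ → ℝ, u 0 = 1 ∧ Sat u p.2

theorem sat_append {u c d} : Sat u (c ++ d) ↔ Sat u c ∧ Sat u d := by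
  simp only [Sat, List.mem_append, or_imp, forall_and]
theorem bd_append {n c d} : Bd n (c ++ d) ↔ Bd n c ∧ Bd n d := by
  simp only [Bd, List.mem_append, or_imp, forall_and]; tauto
theorem Bd.mono {n m c} (h : Bd n c) (e : n ≤ m) : Bd m c := fun q hq => by
  have := h q hq; omega
theorem Sat.congr {u v c n} (h : Sat u c) (hb : Bd n c) (e : ∀ i < n, v i = u i) : Sat v c :=
  fun q hq => by
    obtain ⟨h1, h2, h3, h4⟩ := hb q hq
    rw [e _ h1, e _ h2, e _ h3, e _ h4]; exact h q hq

def Base (u : ℕ → ℝ) : Prop := u 0 = 1 ∧ u 1 = 0 ∧ u 2 = 2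

def gad (T : List Tok) (t : Tok) (a b n : ℕ) : List Q4 :=
  if t.1 = 0 then [(0, 3 + T.idxOf t, 1, n)]
  else if t.1 = 1 then (0, 1, 1, n + t.2.val.length) ::
    (List.range t.2.val.length).map fun j => (2, n + (j + 1), cond (t.2.val.getD j false) 0 1, n + j)
  else if t.1 = 2 then [(0, a, b, n)]
  else if t.1 = 3 then [(a, b, 1, n)]
  else if t.1 = 4 then [(0, n, b, 1)]
  else if t.1 = 5 then [(0, n + 1, a, b), (n + 2, n + 2, 1, n + 3), (0, n + 4, n + 3, n + 1),
    (0, n + 1, n + 3, n + 5), (n + 4, n + 5, 1, 1), (n + 5, n + 6, 1, n), (n + 5, n, 1, n + 5)]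
  else if t.1 = 6 then [(0, n + 1, b, a), (n + 1, n + 2, 1, n + 3), (n + 1, n + 3, 1, n + 1),
    (0, n, n + 3, 0)]
  else if t.1 = 7 then [(a, b, 1, n)]
  else if t.1 = 8 then [(a, b, 1, n + 1), (0, a, b, n + 2), (0, n, n + 1, n + 2)]
  else [(0, n, b, 0)]

def step (S : List ℕ × ℕ) (t : Tok) : List ℕ × ℕ :=
  (S.2 :: S.1.drop (sig t.1).1.length, S.2 + (8 + t.2.val.length))

def cons (T : List Tok) : List ℕ × ℕ → List Tok → List Q4
  | _, [] => []
  | S, t :: l => gad T t (S.1.getD 1 0) (S.1.getD 0 0) S.2 ++ cons T (step S t) l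

theorem cons_append (T l m S) : cons T S (l ++ m) = cons T S l ++ cons T (l.foldl step S) m := by
  induction l generalizing S with
  | nil => rfl
  | cons t l ih => simp [cons, ih]

def Ext (n : ℕ) (c : List Q4) (n' : ℕ) : Prop :=
  n ≤ n' ∧ Bd n' c ∧ ∀ u, Base u → ∃ v : ℕ → ℝ, (∀ i < n, v i = u i) ∧ Sat v c

theorem Ext.trans {n m k c d} (h3 : 3 ≤ n) (h : Ext n c m) (h' : Ext m d k) : Ext n (c ++ d) k := by
  refine ⟨h.1.trans h'.1, bd_append.2 ⟨h.2.1.mono h'.1, h'.2.1⟩, fun u hu => ?_⟩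
  obtain ⟨v, e, hv⟩ := h.2.2 u hu
  obtain ⟨w, e', hw⟩ := h'.2.2 v ⟨by rw [e 0 (by omega), hu.1], by rw [e 1 (by omega), hu.2.1],
    by rw [e 2 (by omega), hu.2.2]⟩
  exact ⟨w, fun i hi => by rw [e' i (hi.trans_le h.1), e i hi],
    sat_append.2 ⟨hv.congr h.2.1 e', hw⟩⟩

def bval (w : List Bool) : ℕ := w.foldr (fun b r => b.toNat + 2 * r) 0

theorem bval_bits (n : ℕ) : bval n.bits = n := by
  induction n using Nat.binaryRec' with
  | zero => rfl
  | bit b n h ih =>
    rw [Nat.bits_append_bit _ _ h]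
    change b.toNat + 2 * bval n.bits = _
    rw [ih, Nat.bit_val]; omega

theorem bval_drop (w : List Bool) {j} (hj : j < w.length) :
    bval (w.drop j) = (w.getD j false).toNat + 2 * bval (w.drop (j + 1)) := by
  rw [List.drop_eq_getElem_cons hj, List.getD_eq_getElem _ _ hj]; rfl

noncomputable def ov (n : ℕ) (u g : ℕ → ℝ) : ℕ → ℝ := fun i => if i < n then u i else g (i - n)
theorem ov_lt {n u g i} (h : i < n) : ov n u g i = u i := if_pos h
@[simp] theorem ov_add {n u g i} : ov n u g (n + i) = g i := by simp [ov]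
@[simp] theorem ov_self {n u g} : ov n u g n = g 0 := by simp [ov]

theorem gad_ext (T : List Tok) (t : Tok) {a b n : ℕ} (ht : t ∈ T) (hn : 3 + T.length ≤ n)
    (ha : a < n) (hb : b < n) : Ext n (gad T t a b n) (n + (8 + t.2.val.length)) := by
  have hi := List.idxOf_lt_length_of_mem ht
  have key : ∀ (c : List Q4), Bd (n + (8 + t.2.val.length)) c →
      (∀ u, Base u → ∃ g, Sat (ov n u g) c) → Ext n c (n + (8 + t.2.val.length)) :=
    fun c h1 h2 => ⟨by omega, h1, fun u hu => let ⟨g, hg⟩ := h2 u hu; ⟨_, fun i => ov_lt, hg⟩⟩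
  have o0 : ∀ u g, ov n u g 0 = u 0 := fun u g => ov_lt (by omega)
  have o1 : ∀ u g, ov n u g 1 = u 1 := fun u g => ov_lt (by omega)
  have o2 : ∀ u g, ov n u g 2 = u 2 := fun u g => ov_lt (by omega)
  have oa : ∀ u g, ov n u g a = u a := fun u g => ov_lt ha
  have ob : ∀ u g, ov n u g b = u b := fun u g => ov_lt hb
  have oi : ∀ u g, ov n u g (3 + T.idxOf t) = u (3 + T.idxOf t) := fun u g => ov_lt (by omega)
  unfold gad
  split_ifs <;> refine key _ ?_ fun u ⟨h0, h1, h2⟩ => ?_
  · simp [Bd]; omega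
  · exact ⟨fun _ => u (3 + T.idxOf t), by simp [Sat, *]⟩
  · simp only [Bd, List.mem_cons, List.mem_map, List.mem_range]
    rintro q (rfl | ⟨j, hj, rfl⟩)
    · simp; omega
    · cases t.2.val.getD j false <;> simp <;> omega
  · refine ⟨fun j => bval (t.2.val.drop j), ?_⟩
    simp only [Sat, List.mem_cons, List.mem_map, List.mem_range]
    rintro q (rfl | ⟨j, hj, rfl⟩)
    · simp [*, bval]
    · simp only [ov_add, bval_drop _ hj, o2, h2]
      cases t.2.val.getD j false <;> simp [*, add_comm]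
  · simp [Bd]; omega
  · exact ⟨fun _ => u a + u b, by simp [Sat, *]⟩
  · simp [Bd]; omega
  · exact ⟨fun _ => u a * u b, by simp [Sat, *]⟩
  · simp [Bd]; omega
  · exact ⟨fun _ => - u b, by simp [Sat, *]⟩
  · simp [Bd]; omega
  · obtain ⟨d, hd⟩ : ∃ d, d + u a = u b := ⟨u b - u a, by ring⟩
    refine ⟨fun j => [if d + |d| = 0 then 0 else 1, d, √|d|, |d|, d - |d|, d + |d|,
      (d + |d|)⁻¹].getD j 0, ?_⟩
    have : (d - |d|) * (d + |d|) = 0 := by nlinarith [sq_abs d]
    by_cases h : d + |d| = 0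
    · simp [Sat, *]
    · simp [Sat, *, mul_inv_cancel₀ h]
  · simp [Bd]; omega
  · obtain ⟨d, hd⟩ : ∃ d, d + u b = u a := ⟨u a - u b, by ring⟩
    refine ⟨fun j => [if d = 0 then 1 else 0, d, d⁻¹, if d = 0 then 0 else 1].getD j 0, ?_⟩
    by_cases h : d = 0
    · simp [Sat, *]; simpa [h] using hd
    · simp [Sat, *, mul_inv_cancel₀ h]
  · simp [Bd]; omega
  · exact ⟨fun _ => u a * u b, by simp [Sat, *]⟩
  · simp [Bd]; omega
  · exact ⟨fun j => [u a + u b - u a * u b, u a * u b, u a + u b].getD j 0, by simp [Sat, *]⟩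
  · simp [Bd]; omega
  · exact ⟨fun _ => 1 - u b, by simp [Sat, *]⟩

theorem num_sound (w : List Bool) (n : ℕ) (u : ℕ → ℝ) (hu : Base u)
    (h : Sat u ((0, 1, 1, n + w.length) ::
    (List.range w.length).map fun j => (2, n + (j + 1), cond (w.getD j false) 0 1, n + j))) :
    u n = bval w := by
  have : ∀ k j, j + k = w.length → u (n + j) = bval (w.drop j) := by
    intro k
    induction k with
    | zero =>
      intro j hj
      have := h _ List.mem_cons_self
      simp only [hu.1, hu.2.1] at this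
      rw [Nat.add_zero] at hj
      rw [hj, ← this]; simp [bval]
    | succ k ih =>
      intro j hj
      have := h _ (List.mem_cons_of_mem _ (List.mem_map_of_mem (List.mem_range.2
        (show j < w.length by omega))))
      simp only [hu.2.2, ih (j + 1) (by omega)] at this
      rw [← this, bval_drop _ (show j < w.length by omega)]
      cases w.getD j false <;> simp [hu.1, hu.2.1, add_comm]
  simpa using this w.length 0 (by simp)

def rho (T : List Tok) (u : ℕ → ℝ) (i : ℕ) : ℝ := u (3 + T.idxOf (0, ⟨i.bits⟩))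

/-- the invariant of a block of symbols -/
def Inv (T l : List Tok) (V : (ℕ → ℝ) → ℝ) : Prop :=
  ∀ st n, 3 + T.length ≤ n → (∀ s ∈ st, s < n) →
    ∃ r n', l.foldl step (st, n) = (r :: st, n') ∧ r < n' ∧
    Ext n (cons T (st, n) l) n' ∧ ∀ u, Base u → Sat u (cons T (st, n) l) → u r = V u

theorem getD_lt {st : List ℕ} {n} (h : ∀ s ∈ st, s < n) (hn : 0 < n) (i) : st.getD i 0 < n := by
  rw [List.getD_eq_getElem?_getD]
  rcases e : st[i]? with _ | s
  · exact hn
  · exact h s (List.mem_of_getElem? e)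

theorem inv0 {T} {t : Tok} (V : (ℕ → ℝ) → ℝ) (hk : t ∈ T) (hs : (sig t.1).1.length = 0)
    (e : ∀ a b n u, Base u → Sat u (gad T t a b n) → u n = V u) : Inv T [t] V := by
  intro st n hn hst
  refine ⟨n, n + (8 + t.2.val.length), by simp [step, hs], by omega, ?_, fun u hu hc => ?_⟩
  · simpa only [cons, List.append_nil] using
      gad_ext T t hk hn (getD_lt hst (by omega) _) (getD_lt hst (by omega) _)
  · simp only [cons, List.append_nil] at hc
    exact e _ _ _ u hu hc

theorem inv1 {T l V} {k} (V' : (ℕ → ℝ) → ℝ) (h : Inv T l V) (hk : (k, ⟨[]⟩) ∈ T)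
    (hs : (sig k).1.length = 1) (e : ∀ a b n u, Base u → u b = V u →
      Sat u (gad T (k, ⟨[]⟩) a b n) → u n = V' u) : Inv T (l ++ [(k, ⟨[]⟩)]) V' := by
  intro st n hn hst
  obtain ⟨r, n', e1, hr, hx, hv⟩ := h st n hn hst
  have := hx.1
  have h' : ∀ s ∈ r :: st, s < n' := by
    intro s hs; rcases List.mem_cons.1 hs with rfl | hs; exacts [hr, (hst s hs).trans_le this]
  refine ⟨n', n' + 8, by simp [e1, step, hs], by omega, ?_, fun u hu hc => ?_⟩
  · rw [cons_append, e1]
    refine hx.trans (by omega) ?_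
    simp only [cons, List.append_nil]
    exact gad_ext T _ hk (by omega) (getD_lt h' (by omega) _) (getD_lt h' (by omega) _)
  · rw [cons_append, e1, sat_append] at hc
    simp only [cons, List.append_nil] at hc
    exact e _ _ _ u hu (hv u hu hc.1) hc.2

theorem inv2 {T l m V W} {k} (V' : (ℕ → ℝ) → ℝ) (h : Inv T l V) (h2 : Inv T m W)
    (hk : (k, ⟨[]⟩) ∈ T)
    (hs : (sig k).1.length = 2) (e : ∀ a b n u, Base u → u a = V u → u b = W u →
      Sat u (gad T (k, ⟨[]⟩) a b n) → u n = V' u) : Inv T (l ++ m ++ [(k, ⟨[]⟩)]) V' := by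
  intro st n hn hst
  obtain ⟨r, n', e1, hr, hx, hv⟩ := h st n hn hst
  have := hx.1
  have h' : ∀ s ∈ r :: st, s < n' := by
    intro s hs; rcases List.mem_cons.1 hs with rfl | hs; exacts [hr, (hst s hs).trans_le this]
  obtain ⟨r2, n2, e2, hr2, hx2, hv2⟩ := h2 (r :: st) n' (by omega) h'
  have := hx2.1
  refine ⟨n2, n2 + 8, by simp [e1, e2, step, hs], by omega, ?_, fun u hu hc => ?_⟩
  · rw [cons_append, cons_append, List.foldl_append, e1, e2]
    refine (hx.trans (by omega) hx2).trans (by omega) ?_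
    simp only [cons, List.append_nil]
    exact gad_ext T _ hk (by omega) (show r < n2 by omega) hr2
  · rw [cons_append, cons_append, List.foldl_append, e1, e2, sat_append, sat_append] at hc
    simp only [cons, List.append_nil] at hc
    exact e _ _ _ u hu (hv u hu hc.1.1) (hv2 u hu hc.1.2) hc.2

theorem inv_tm (T) (s : Tm) (h : s.tk ⊆ T) : Inv T s.tk fun u => s.ev (rho T u) := by
  induction s with
  | var i =>
    refine inv0 (t := (0, ⟨i.bits⟩)) _ (h (by simp [Tm.tk, Tm.code, conv])) rfl ?_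
    intro a b n u hu hc
    simpa [gad, Sat, hu.1, hu.2.1, Tm.ev, rho, eq_comm] using hc
  | num i =>
    refine inv0 (t := (1, ⟨i.bits⟩)) _ (h (by simp [Tm.tk, Tm.code, conv])) rfl ?_
    intro a b n u hu hc
    simpa [bval_bits, Tm.ev] using num_sound i.bits n u hu hc
  | add s t hs ht =>
    have e : (s.add t).tk = s.tk ++ t.tk ++ [(2, ⟨[]⟩)] := by simp [Tm.tk, Tm.code, conv]
    rw [e] at h ⊢
    simp only [List.append_subset, List.cons_subset] at h
    refine inv2 _ (hs h.1.1) (ht h.1.2) h.2.1 rfl fun a b n u hu ha hb hc => ?_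
    simpa [gad, Sat, hu.1, hu.2.1, Tm.ev, ha, hb, eq_comm] using hc
  | mul s t hs ht =>
    have e : (s.mul t).tk = s.tk ++ t.tk ++ [(3, ⟨[]⟩)] := by simp [Tm.tk, Tm.code, conv]
    rw [e] at h ⊢
    simp only [List.append_subset, List.cons_subset] at h
    refine inv2 _ (hs h.1.1) (ht h.1.2) h.2.1 rfl fun a b n u hu ha hb hc => ?_
    simpa [gad, Sat, hu.1, hu.2.1, Tm.ev, ha, hb, eq_comm] using hc
  | neg s hs =>
    have e : s.neg.tk = s.tk ++ [(4, ⟨[]⟩)] := by simp [Tm.tk, Tm.code, conv]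
    rw [e] at h ⊢
    simp only [List.append_subset, List.cons_subset] at h
    refine inv1 _ (hs h.1) h.2.1 rfl fun a b n u hu hb hc => ?_
    simp [gad, Sat, hu.1, hu.2.1, hb] at hc
    simp only [Tm.ev]; linarith

open Classical in
theorem inv_fm (T) (φ : Fm) (h : φ.tk ⊆ T) :
    Inv T φ.tk fun u => if φ.Holds (rho T u) then 1 else 0 := by
  induction φ with
  | lt s t =>
    have e : (Fm.lt s t).tk = s.tk ++ t.tk ++ [(5, ⟨[]⟩)] := by simp [Tm.tk, Fm.tk, Fm.code, conv]
    rw [e] at h ⊢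
    simp only [List.append_subset, List.cons_subset] at h
    refine inv2 _ (inv_tm T s h.1.1) (inv_tm T t h.1.2) h.2.1 rfl fun a b n u hu ha hb hc => ?_
    simp only [gad, Sat, hu.1, hu.2.1, ha, hb, List.forall_mem_cons, if_false, if_true,
      Nat.reduceEqDiff, one_mul, add_zero] at hc
    obtain ⟨h1, h2, h3, h4, h5, h6, h7, -⟩ := hc
    simp only [Fm.Holds]
    have hq : 0 ≤ u (n + 3) := h2 ▸ mul_self_nonneg _
    split_ifs with hl
    · have : u (n + 5) ≠ 0 := by intro h0; linarith
      exact mul_left_cancel₀ this (by rw [h7, mul_one])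
    · have : u (n + 5) = 0 := by
        rcases mul_eq_zero.1 h5 with h0 | h0
        · linarith
        · exact h0
      rw [← h6, this, zero_mul]
  | eq s t =>
    have e : (Fm.eq s t).tk = s.tk ++ t.tk ++ [(6, ⟨[]⟩)] := by simp [Tm.tk, Fm.tk, Fm.code, conv]
    rw [e] at h ⊢
    simp only [List.append_subset, List.cons_subset] at h
    refine inv2 _ (inv_tm T s h.1.1) (inv_tm T t h.1.2) h.2.1 rfl fun a b n u hu ha hb hc => ?_
    simp only [gad, Sat, hu.1, hu.2.1, ha, hb, List.forall_mem_cons, if_false, if_true,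
      Nat.reduceEqDiff, one_mul, add_zero] at hc
    obtain ⟨h1, h2, h3, h4, -⟩ := hc
    simp only [Fm.Holds]
    split_ifs with hl
    · have : u (n + 1) = 0 := by linarith
      rw [this, zero_mul] at h2; linarith
    · have : u (n + 1) ≠ 0 := by intro h0; exact hl (by linarith)
      have := mul_left_cancel₀ this (h3.trans (mul_one _).symm)
      linarith
  | and s t hs ht =>
    have e : (s.and t).tk = s.tk ++ t.tk ++ [(7, ⟨[]⟩)] := by simp [Fm.tk, Fm.code, conv]
    rw [e] at h ⊢
    simp only [List.append_subset, List.cons_subset] at h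
    refine inv2 _ (hs h.1.1) (ht h.1.2) h.2.1 rfl fun a b n u hu ha hb hc => ?_
    simp only [gad, Sat, hu.1, hu.2.1, ha, hb, List.forall_mem_cons, if_false, if_true,
      Nat.reduceEqDiff, one_mul, add_zero] at hc
    simp only [Fm.Holds, ← hc.1]
    by_cases h1 : s.Holds (rho T u) <;> by_cases h2 : t.Holds (rho T u) <;> simp [h1, h2]
  | or s t hs ht =>
    have e : (s.or t).tk = s.tk ++ t.tk ++ [(8, ⟨[]⟩)] := by simp [Fm.tk, Fm.code, conv]
    rw [e] at h ⊢
    simp only [List.append_subset, List.cons_subset] at h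
    refine inv2 _ (hs h.1.1) (ht h.1.2) h.2.1 rfl fun a b n u hu ha hb hc => ?_
    simp only [gad, Sat, hu.1, hu.2.1, ha, hb, List.forall_mem_cons, if_false, if_true,
      Nat.reduceEqDiff, one_mul, add_zero] at hc
    obtain ⟨h3, h4, h5, -⟩ := hc
    simp only [Fm.Holds]
    by_cases h1 : s.Holds (rho T u) <;> by_cases h2 : t.Holds (rho T u) <;>
      simp [h1, h2] at h3 h4 ⊢ <;> linarith
  | not s hs =>
    have e : s.not.tk = s.tk ++ [(9, ⟨[]⟩)] := by simp [Fm.tk, Fm.code, conv]
    rw [e] at h ⊢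
    simp only [List.append_subset, List.cons_subset] at h
    refine inv1 _ (hs h.1) h.2.1 rfl fun a b n u hu hb hc => ?_
    simp only [gad, Sat, hu.1, hu.2.1, hb, List.forall_mem_cons, if_false, if_true,
      Nat.reduceEqDiff, one_mul, add_zero] at hc
    simp only [Fm.Holds]
    by_cases h1 : s.Holds (rho T u) <;> simp [h1] at hc ⊢ <;> linarith

theorem ev_congr (s : Tm) {x y : ℕ → ℝ} (h : ∀ i, (0, ⟨i.bits⟩) ∈ s.tk → x i = y i) :
    s.ev x = s.ev y := by
  induction s with
  | var i => exact h i (by simp [Tm.tk, Tm.code, conv])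
  | num i => rfl
  | add s t hs ht =>
    simp only [Tm.tk, Tm.code, List.map_append, List.mem_append] at *
    simp only [Tm.ev]; rw [hs fun i hi => h i (by tauto), ht fun i hi => h i (by tauto)]
  | mul s t hs ht =>
    simp only [Tm.tk, Tm.code, List.map_append, List.mem_append] at *
    simp only [Tm.ev]; rw [hs fun i hi => h i (by tauto), ht fun i hi => h i (by tauto)]
  | neg s hs =>
    simp only [Tm.tk, Tm.code, List.map_append, List.mem_append] at *
    simp only [Tm.ev]; rw [hs fun i hi => h i (by tauto)]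

theorem holds_congr (φ : Fm) {x y : ℕ → ℝ} (h : ∀ i, (0, ⟨i.bits⟩) ∈ φ.tk → x i = y i) :
    φ.Holds x ↔ φ.Holds y := by
  have H := @ev_congr
  induction φ with
  | lt s t =>
    simp only [Tm.tk, Fm.tk, Fm.code, List.map_append, List.mem_append] at *
    simp only [Fm.Holds]; rw [H s fun i hi => h i (by tauto), H t fun i hi => h i (by tauto)]
  | eq s t =>
    simp only [Tm.tk, Fm.tk, Fm.code, List.map_append, List.mem_append] at *
    simp only [Fm.Holds]; rw [H s fun i hi => h i (by tauto), H t fun i hi => h i (by tauto)]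
  | and s t hs ht =>
    simp only [Fm.tk, Fm.code, List.map_append, List.mem_append] at *
    exact and_congr (hs fun i hi => h i (by tauto)) (ht fun i hi => h i (by tauto))
  | or s t hs ht =>
    simp only [Fm.tk, Fm.code, List.map_append, List.mem_append] at *
    exact or_congr (hs fun i hi => h i (by tauto)) (ht fun i hi => h i (by tauto))
  | not s hs =>
    simp only [Fm.tk, Fm.code, List.map_append, List.mem_append] at *
    exact not_congr (hs fun i hi => h i (by tauto))

theorem cons_eq (T l S) : cons T S l = (List.range l.length).flatMap fun k =>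
    gad T (l.getD k (0, ⟨[]⟩)) (((l.take k).foldl step S).1.getD 1 0)
      (((l.take k).foldl step S).1.getD 0 0) ((l.take k).foldl step S).2 := by
  induction l generalizing S with
  | nil => rfl
  | cons t l ih =>
    rw [List.length_cons, List.range_succ_eq_map, List.flatMap_cons, List.flatMap_map, cons, ih]
    rfl

theorem pt_run {α : Type} [Enc α] {l : α → List Tok} {n : α → ℕ} (hl : PT l) (hn : PT n) :
    PT fun a => (l a).foldl step ([], n a) := by
  have hB : PB fun a => n a + 9 * sz (l a) := hn.nat_pb.add ((PB.const 9).mul hl.pb)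
  refine PT.foldl (f := fun _ => step) ?_ hl (by fun_prop)
    ((((PB.const 2).mul (hl.pb.mul (((PB.const 2).mul hB).add (PB.const 1)))).add
      (PB.const 1)).add hB) fun a k => ?_
  · unfold step sig; fun_prop
  · have : ∀ (m : List Tok) n, (m.foldl step ([], n)).1.length ≤ m.length ∧
        (m.foldl step ([], n)).2 ≤ n + 9 * sz m ∧
        ∀ s ∈ (m.foldl step ([], n)).1, s ≤ (m.foldl step ([], n)).2 := by
      intro m n
      induction m using List.reverseRecOn with
      | nil => simp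
      | append_singleton m t ih =>
        rw [List.foldl_append, List.foldl_cons, List.foldl_nil, sz_append, sz_cons, sz_prod]
        obtain ⟨h1, h2, h3⟩ := ih
        refine ⟨by simp [step]; omega, ?_, fun s hs => ?_⟩
        · have : sz t.2 = t.2.val.length := rfl
          simp only [step]; omega
        · rcases List.mem_cons.1 hs with rfl | hs
          · simp [step]
          · have := h3 s (List.mem_of_mem_drop hs); simp only [step]; omega
    obtain ⟨h1, h2, h3⟩ := this ((l a).take k) (n a)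
    have h4 := sz_le_of_sublist (List.take_sublist k (l a))
    have h5 := length_le_sz ((l a).take k)
    have h6 := sz_le_of_forall (B := n a + 9 * sz (l a)) fun s hs => by
      rw [sz_nat]; exact (h3 s hs).trans (by omega)
    rw [sz_prod, sz_nat]
    have := Nat.mul_le_mul_right (2 * (n a + 9 * sz (l a)) + 1) (h1.trans (h5.trans h4))
    omega

theorem fma_erh : ERH (fun p : ℕ × List Q4 => 3 ≤ p.1 ∧ Bd p.1 p.2) FSol := by
  refine ⟨fun T => ((T.foldl step ([], 3 + T.length)).2,
    [(0, 0, 1, 0), (0, 0, 0, 2), (0, (T.foldl step ([], 3 + T.length)).1.getD 0 0, 1, 0)] ++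
      cons T ([], 3 + T.length) T), ?_, fun φ => ?_⟩
  · have h1 : PT fun T : List Tok => T.foldl step ([], 3 + T.length) := pt_run PT.id' (by fun_prop)
    have h2 : PT fun p : List Tok × ℕ => (p.1.take p.2).foldl step ([], 3 + p.1.length) :=
      pt_run (by fun_prop) (by fun_prop)
    have h3 : PT fun p : List Tok × Tok × ℕ × ℕ × ℕ => gad p.1 p.2.1 p.2.2.1 p.2.2.2.1 p.2.2.2.2 := by
      unfold gad; fun_prop
    simp only [cons_eq]
    refine h1.snd.mk (PT.append (by fun_prop) (PT.flatMap ?_ (by fun_prop)))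
    exact h3.comp (g := fun p : List Tok × ℕ => (p.1, p.1.getD p.2 (0, ⟨[]⟩),
      ((p.1.take p.2).foldl step ([], 3 + p.1.length)).1.getD 1 0,
      ((p.1.take p.2).foldl step ([], 3 + p.1.length)).1.getD 0 0,
      ((p.1.take p.2).foldl step ([], 3 + p.1.length)).2)) (by fun_prop)
  · obtain ⟨r, n, e, hr, hx, hv⟩ := inv_fm φ.tk φ (List.Subset.refl _) [] _ le_rfl (by simp)
    have := hx.1
    simp only [e, FSol, sat_append, bd_append]
    refine ⟨⟨by omega, by simp [Bd]; omega, hx.2.1⟩, ?_, ?_⟩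
    · rintro ⟨x, hφ⟩
      obtain ⟨v, ev, hs⟩ := hx.2.2 (fun i => if i = 0 then 1 else if i = 1 then 0 else
        if i = 2 then 2 else x (bval (φ.tk.getD (i - 3) (0, ⟨[]⟩)).2.val)) ⟨rfl, rfl, rfl⟩
      have hb : Base v := ⟨ev 0 (by omega), ev 1 (by omega), ev 2 (by omega)⟩
      have h1 := hv v hb hs
      beta_reduce at h1
      rw [if_pos] at h1
      · exact ⟨v, hb.1, by simp [Sat, hb.1, hb.2.1, hb.2.2, h1, one_add_one_eq_two], hs⟩
      · refine (holds_congr φ fun i hi => ?_).1 hφ
        have := List.idxOf_lt_length_of_mem hi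
        rw [rho, ev _ (by omega), if_neg (by omega), if_neg (by omega), if_neg (by omega),
          Nat.add_sub_cancel_left, List.getD_eq_getElem _ _ this, List.getElem_idxOf, bval_bits]
    · rintro ⟨u, h0, h1, hs⟩
      simp only [Sat, List.forall_mem_cons, h0, List.getD_cons_zero] at h1
      have hb : Base u := ⟨h0, by linarith [h1.1], by linarith [h1.2.1]⟩
      have h2 := hv u hb hs
      beta_reduce at h2
      by_contra h
      rw [if_neg fun h' => h ⟨_, h'⟩] at h2
      linarith [h1.2.2.1, hb.2.1]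

end Pool.Agent.H38.ER
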