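import Pool.Agent.H38.ER.V3

/-!
A rigid configuration of thirteen vectors.
-/

namespace Pool.Agent.H38.ER

def yuoh : List (ℕ × ℕ) := [(0, 1), (0, 2), (1, 2), (0, 3), (0, 4), (3, 4), (1, 5), (1, 6), (5, 6),
  (2, 7), (2, 8), (7, 8), (9, 3), (9, 5), (9, 7), (10, 3), (10, 6), (10, 8), (11, 4), (11, 5),
  (11, 8), (12, 4), (12, 6), (12, 7)]

def Fr (q : ℕ → V3) : Prop := Pa (q 0) (1, 0, 0) ∧ Pa (q 1) (0, 1, 0) ∧ Pa (q 2) (0, 0, 1) ∧
  Pa (q 3) (0, 1, -1) ∧ Pa (q 5) (1, 0, -1) ∧ Pa (q 7) (1, -1, 0)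

theorem perp2 {a b c d : ℝ} (h : a ≠ 0 ∨ b ≠ 0) (h' : c ≠ 0 ∨ d ≠ 0) (e : a * c + b * d = 0) :
    ∃ s, s ≠ 0 ∧ c = -s * b ∧ d = s * a := by
  have hp : a ^ 2 + b ^ 2 ≠ 0 := by rcases h with h | h <;> positivity
  have h1 : c = -((a * d - b * c) / (a ^ 2 + b ^ 2)) * b := by field_simp; linear_combination a * e
  have h2 : d = ((a * d - b * c) / (a ^ 2 + b ^ 2)) * a := by field_simp; linear_combination b * e
  refine ⟨_, fun h0 => ?_, h1, h2⟩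
  rw [h0] at h1 h2; simp at h1 h2; tauto

theorem sign_of_sq {a b : ℝ} (h : a ^ 2 = b ^ 2) : ∃ ε : ℝ, ε * ε = 1 ∧ b = -ε * a := by
  rcases sq_eq_sq_iff_eq_or_eq_neg.1 h with h | h
  · exact ⟨-1, by ring, by rw [h]; ring⟩
  · exact ⟨1, by ring, by rw [h]; ring⟩

theorem yo_alg {u1 u2 w2 w3 t1 t3 : ℝ} (k3' : w2 ≠ 0 ∨ w3 ≠ 0) (k5' : t1 ≠ 0 ∨ t3 ≠ 0)
    (k7' : u1 ≠ 0 ∨ u2 ≠ 0) (F1 : u1 * w2 * t3 + u2 * w3 * t1 = 0)
    (F2 : u2 * w2 * t1 + u1 * w3 * t3 = 0) (F3 : u2 * w3 * t3 + u1 * w2 * t1 = 0)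
    (F4 : u1 * w3 * t1 + u2 * w2 * t3 = 0) : ∃ ε δ : ℝ, ε * ε = 1 ∧ δ * δ = 1 ∧ u1 ≠ 0 ∧ w2 ≠ 0 ∧
      t1 ≠ 0 ∧ u2 = -ε * u1 ∧ w3 = -δ * w2 ∧ ε * δ * t3 = -t1 := by
  have G1 : (u1 * w2) ^ 2 = (u2 * w3) ^ 2 := by
    rcases k5' with h | h <;> refine mul_left_cancel₀ h ?_
    · linear_combination u1 * w2 * F3 - u2 * w3 * F1
    · linear_combination u1 * w2 * F1 - u2 * w3 * F3
  have G2 : (u2 * w2) ^ 2 = (u1 * w3) ^ 2 := by
    rcases k5' with h | h <;> refine mul_left_cancel₀ h ?_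
    · linear_combination u2 * w2 * F2 - u1 * w3 * F4
    · linear_combination u2 * w2 * F4 - u1 * w3 * F2
  have hu : u1 ^ 2 + u2 ^ 2 ≠ 0 := by rcases k7' with h | h <;> positivity
  have G3 : w2 ^ 2 = w3 ^ 2 := mul_left_cancel₀ hu (by linear_combination G1 + G2)
  have w0 : w2 ≠ 0 := by
    intro e; rw [e] at G3
    have : w3 = 0 := by simpa using G3.symm
    simp_all
  have G4 : u1 ^ 2 = u2 ^ 2 := mul_left_cancel₀ (pow_ne_zero 2 w0) (by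
    linear_combination G1 - u2 ^ 2 * G3)
  have u0 : u1 ≠ 0 := by
    intro e; rw [e] at G4
    have : u2 = 0 := by simpa using G4.symm
    simp_all
  obtain ⟨ε, hε, eu⟩ := sign_of_sq G4
  obtain ⟨δ, hδ, ew⟩ := sign_of_sq G3
  have ε0 : ε ≠ 0 := by rintro rfl; simp at hε
  have δ0 : δ ≠ 0 := by rintro rfl; simp at hδ
  have et : ε * δ * t3 = -t1 := mul_left_cancel₀ (mul_ne_zero u0 w0) (by
    rw [eu, ew] at F1
    linear_combination ε * δ * F1 - u1 * w2 * t1 * δ * δ * hε - u1 * w2 * t1 * hδ)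
  have t0 : t1 ≠ 0 := by
    intro e; rw [e] at et
    have : t3 = 0 := by simpa [ε0, δ0] using et
    simp_all
  exact ⟨ε, δ, hε, hδ, u0, w0, t0, eu, ew, et⟩

theorem frame {q : ℕ → V3} (ok : ∀ i < 13, q i ≠ 0) (h : ∀ e ∈ yuoh, ip (q e.1) (q e.2) = 0) :
    ∃ Φ : V3 → V3, (∀ u v, ip (Φ u) (Φ v) = ip u v) ∧ Fr fun i => Φ (q i) := by
  have g := h
  simp only [yuoh, List.forall_mem_cons] at g
  obtain ⟨Φ, hΦ, ⟨s0, p0, e0⟩, ⟨s1, p1, e1⟩, ⟨s2, p2, e2⟩⟩ :=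
    coords (ok 0 (by norm_num)) (ok 1 (by norm_num)) (ok 2 (by norm_num)) g.1 g.2.1 g.2.2.1
  have ok' : ∀ i < 13, Φ (q i) ≠ 0 := fun i hi => ne_of_ip (by rw [hΦ]; exact (ip_pos (ok i hi)).ne')
  have h' : ∀ e ∈ yuoh, ip (Φ (q e.1)) (Φ (q e.2)) = 0 := fun e he => by rw [hΦ]; exact h e he
  clear g
  generalize hf : (fun i => Φ (q i)) = f
  have hf' : ∀ i, Φ (q i) = f i := fun i => congrFun hf i
  simp only [hf'] at ok' h' e0 e1 e2
  have k := fun i hi => v3_ne.1 (ok' i hi)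
  have k3 := k 3 (by norm_num); have k4 := k 4 (by norm_num); have k5 := k 5 (by norm_num)
  have k6 := k 6 (by norm_num); have k7 := k 7 (by norm_num); have k8 := k 8 (by norm_num)
  simp only [yuoh, List.forall_mem_cons] at h'
  obtain ⟨-, -, -, h1, h2, h3, h4, h5, h6, h7, h8, h9, a1, a2, a3, b1, b2, b3, c1, c2, c3, d1, d2,
    d3, -⟩ := h'
  have E1 := det_of_orth (ok' 9 (by norm_num)) a1 a2 a3
  have E2 := det_of_orth (ok' 10 (by norm_num)) b1 b2 b3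
  have E3 := det_of_orth (ok' 11 (by norm_num)) c1 c2 c3
  have E4 := det_of_orth (ok' 12 (by norm_num)) d1 d2 d3
  simp only [e0, e1, e2, ip] at h1 h2 h3 h4 h5 h6 h7 h8 h9
  have z3 : (f 3).1 = 0 := mul_left_cancel₀ p0 (by linear_combination h1)
  have z4 : (f 4).1 = 0 := mul_left_cancel₀ p0 (by linear_combination h2)
  have z5 : (f 5).2.1 = 0 := mul_left_cancel₀ p1 (by linear_combination h4)
  have z6 : (f 6).2.1 = 0 := mul_left_cancel₀ p1 (by linear_combination h5)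
  have z7 : (f 7).2.2 = 0 := mul_left_cancel₀ p2 (by linear_combination h7)
  have z8 : (f 8).2.2 = 0 := mul_left_cancel₀ p2 (by linear_combination h8)
  have k3' : (f 3).2.1 ≠ 0 ∨ (f 3).2.2 ≠ 0 := k3.resolve_left fun h => h z3
  have k5' : (f 5).1 ≠ 0 ∨ (f 5).2.2 ≠ 0 := k5.imp_right fun h => h.resolve_left fun h => h z5
  have k7' : (f 7).1 ≠ 0 ∨ (f 7).2.1 ≠ 0 := k7.imp_right fun h => h.resolve_right fun h => h z7
  obtain ⟨r4, n4, x4, y4⟩ := perp2 k3' (c := (f 4).2.1) (d := (f 4).2.2) (k4.resolve_left fun h => h z4)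
    (by linear_combination h3 - (f 4).1 * z3)
  obtain ⟨r6, n6, x6, y6⟩ := perp2 k5' (c := (f 6).1) (d := (f 6).2.2)
    (k6.imp_right fun h => h.resolve_left fun h => h z6)
    (by linear_combination h6 - (f 6).2.1 * z5)
  obtain ⟨r8, n8, x8, y8⟩ := perp2 k7' (c := (f 8).1) (d := (f 8).2.1)
    (k8.imp_right fun h => h.resolve_right fun h => h z8)
    (by linear_combination h9 - (f 8).2.2 * z7)
  simp only [det3, z3, z4, z5, z6, z7, z8, x4, y4, x6, y6, x8, y8] at E1 E2 E3 E4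
  have F1 : (f 7).1 * (f 3).2.1 * (f 5).2.2 + (f 7).2.1 * (f 3).2.2 * (f 5).1 = 0 := by linear_combination E1
  have F2 : (f 7).2.1 * (f 3).2.1 * (f 5).1 + (f 7).1 * (f 3).2.2 * (f 5).2.2 = 0 :=
    mul_left_cancel₀ (mul_ne_zero n6 n8) (by linear_combination -E2)
  have F3 : (f 7).2.1 * (f 3).2.2 * (f 5).2.2 + (f 7).1 * (f 3).2.1 * (f 5).1 = 0 :=
    mul_left_cancel₀ (mul_ne_zero n4 n8) (by linear_combination E3)
  have F4 : (f 7).1 * (f 3).2.2 * (f 5).1 + (f 7).2.1 * (f 3).2.1 * (f 5).2.2 = 0 :=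
    mul_left_cancel₀ (mul_ne_zero n4 n6) (by linear_combination -E4)
  obtain ⟨ε, δ, hε, hδ, u0, w0, t0, eu, ew, et⟩ := yo_alg k3' k5' k7' F1 F2 F3 F4
  have ε0 : ε ≠ 0 := by rintro rfl; simp at hε
  have δ0 : δ ≠ 0 := by rintro rfl; simp at hδ
  refine ⟨fun v => ((Φ v).1, ε * (Φ v).2.1, ε * δ * (Φ v).2.2), fun u v => ?_, ?_⟩
  · rw [← hΦ u v]; unfold ip; simp only
    linear_combination ((Φ u).2.1 * (Φ v).2.1 + δ * δ * (Φ u).2.2 * (Φ v).2.2) * hε +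
      (Φ u).2.2 * (Φ v).2.2 * hδ
  · simp only [Fr, hf', e0, e1, e2]
    refine ⟨⟨s0, p0, by simp⟩, ⟨ε * s1, mul_ne_zero ε0 p1, by simp⟩,
      ⟨ε * δ * s2, by positivity, by simp⟩, ⟨ε * (f 3).2.1, mul_ne_zero ε0 w0, ?_⟩, ⟨(f 5).1, t0, ?_⟩,
      ⟨(f 7).1, u0, ?_⟩⟩
    · refine Prod.ext (by simp [z3]) (Prod.ext (by simp) ?_)
      simp only [ew]; linear_combination -ε * (f 3).2.1 * hδ
    · refine Prod.ext (by simp) (Prod.ext (by simp [z5]) ?_)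
      simp only [et]; ring
    · refine Prod.ext (by simp) (Prod.ext ?_ (by simp [z7]))
      simp only [eu]; linear_combination -(f 7).1 * hε

end Pool.Agent.H38.ER
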