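import Mathlib

/-!
Unit simplices and generic isometries in Euclidean space.
-/

namespace Pool.Agent.H38.ER

open Module Finset
open scoped RealInnerProductSpace

variable {E : Type} [NormedAddCommGroup E] [InnerProductSpace ℝ E]

theorem avoid {V : Type} [AddCommGroup V] [Module ℝ V] {ι : Type} [Finite ι] (U : Submodule ℝ V)
    (p : ι → Submodule ℝ V) (h : ∀ i, ¬ U ≤ p i) : ∃ x ∈ U, ∀ i, x ∉ p i := by
  by_contra hc
  push Not at hc
  obtain ⟨i, hi⟩ := Subspace.exists_eq_top_of_iUnion_eq_univ (p := fun i => (p i).comap U.subtype)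
    (Set.eq_univ_of_forall fun x => by
      obtain ⟨i, hi⟩ := hc x x.2
      exact Set.mem_iUnion.2 ⟨i, hi⟩)
  exact h i (Submodule.comap_subtype_eq_top.1 hi)

theorem inner_of_sq {x y : E} {a b c : ℝ} (hx : ‖x‖ ^ 2 = a) (hy : ‖y‖ ^ 2 = b)
    (h : ‖x - y‖ ^ 2 = c) : ⟪x, y⟫ = (a + b - c) / 2 := by
  rw [norm_sub_sq_real] at h; linarith

theorem apexv [FiniteDimensional ℝ E] {n : ℕ} (hd : finrank ℝ E = n + 1) (v : ℕ → E)
    (hv : ∀ i < n, ∀ j < n, ⟪v i, v j⟫ = if i = j then 1 else 1 / 2) {A B : E}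
    (hA : ‖A‖ ^ 2 = 1) (hB : ‖B‖ ^ 2 = 1) (hA' : ∀ i < n, ⟪A, v i⟫ = 1 / 2)
    (hB' : ∀ i < n, ⟪B, v i⟫ = 1 / 2) :
    A = B ∨ (A + B = (2 / (n + 1 : ℝ)) • ∑ i ∈ range n, v i ∧ ‖A - B‖ ^ 2 = 2 + 2 / (n + 1 : ℝ)) := by
  have hs : ∀ (g : ℕ → ℝ), ∀ j < n, ⟪∑ i ∈ range n, g i • v i, v j⟫ =
      (g j + ∑ i ∈ range n, g i) / 2 := by
    intro g j hj
    rw [sum_inner, sum_congr rfl (g := fun i => (if i = j then g i / 2 else 0) + g i / 2)]
    · rw [sum_add_distrib, sum_ite_eq' , if_pos (mem_range.2 hj), ← sum_div]; ring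
    · intro i hi
      rw [real_inner_smul_left, hv i (mem_range.1 hi) j hj]; split_ifs <;> ring
  have li : LinearIndependent ℝ fun i : Fin n => v i := by
    refine Fintype.linearIndependent_iff.2 fun g hg i => ?_
    let G : ℕ → ℝ := fun i => if h : i < n then g ⟨i, h⟩ else 0
    have e : ∑ i ∈ range n, G i • v i = 0 := by
      rw [← hg, ← Fin.sum_univ_eq_sum_range (fun i => G i • v i)]; simp [G]
    have k : ∀ j < n, G j = -∑ i ∈ range n, G i := fun j hj => by
      have := hs G j hj; rw [e, inner_zero_left] at this; linarith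
    have : ∑ i ∈ range n, G i = ∑ i ∈ range n, -∑ i ∈ range n, G i :=
      sum_congr rfl fun j hj => k j (mem_range.1 hj)
    rw [sum_const, card_range, nsmul_eq_mul] at this
    have h0 : ∑ i ∈ range n, G i = 0 :=
      mul_left_cancel₀ (show (n + 1 : ℝ) ≠ 0 by positivity) (by linear_combination this)
    simpa [G, h0] using k i i.2
  let K := Submodule.span ℝ (Set.range fun i : Fin n => v i)
  have hK : finrank ℝ Kᗮ = 1 := Submodule.finrank_add_finrank_orthogonal'
    (by rw [finrank_span_eq_card li, hd]; simp)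
  set w : E := (1 / (n + 1 : ℝ)) • ∑ i ∈ range n, v i with hw
  have n0 : (n + 1 : ℝ) ≠ 0 := by positivity
  have hw1 : ∀ j < n, ⟪w, v j⟫ = 1 / 2 := fun j hj => by
    have := hs (fun _ => 1) j hj
    simp only [one_smul, sum_const, card_range, nsmul_eq_mul, mul_one] at this
    rw [hw, real_inner_smul_left, this]; field_simp; ring
  have hw2 : ∀ X : E, (∀ i < n, ⟪X, v i⟫ = 1 / 2) → ⟪X, w⟫ = n / (2 * (n + 1)) := fun X h => by
    rw [hw, real_inner_smul_right, inner_sum, sum_congr rfl fun i hi => h i (mem_range.1 hi)]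
    simp; field_simp
  have mem : ∀ X : E, (∀ i < n, ⟪X, v i⟫ = 1 / 2) → X - w ∈ Kᗮ := fun X h => by
    rw [Submodule.mem_orthogonal']
    intro u hu
    induction hu using Submodule.span_induction with
    | mem x hx => obtain ⟨i, rfl⟩ := hx; rw [inner_sub_left, h i i.2, hw1 i i.2, sub_self]
    | zero => simp
    | add x y _ _ h1 h2 => rw [inner_add_right, h1, h2, add_zero]
    | smul c x _ h1 => rw [real_inner_smul_right, h1, mul_zero]
  have nrm : ∀ X : E, ‖X‖ ^ 2 = 1 → (∀ i < n, ⟪X, v i⟫ = 1 / 2) →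
      ‖X - w‖ ^ 2 = 1 - n / (2 * (n + 1)) := fun X h1 h => by
    rw [norm_sub_sq_real, h1, hw2 X h, ← real_inner_self_eq_norm_sq, hw2 w hw1]; ring
  have pos : (1 : ℝ) - n / (2 * (n + 1)) ≠ 0 := by
    rw [show (1 : ℝ) - n / (2 * (n + 1)) = (n + 2) / (2 * (n + 1)) by field_simp; ring]; positivity
  have a0 : (⟨A - w, mem A hA'⟩ : Kᗮ) ≠ 0 := by
    intro h
    have := nrm A hA hA'
    rw [show A - w = 0 from congrArg Subtype.val h] at this
    exact pos (by rw [← this]; simp)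
  obtain ⟨c, hc⟩ := (finrank_eq_one_iff_of_nonzero' _ a0).1 hK ⟨B - w, mem B hB'⟩
  have hc : c • (A - w) = B - w := congrArg Subtype.val hc
  have c2 : c ^ 2 = 1 := by
    have := nrm B hB hB'
    rw [← hc, norm_smul, mul_pow, nrm A hA hA', Real.norm_eq_abs, sq_abs] at this
    exact mul_right_cancel₀ pos (by linear_combination this)
  rcases sq_eq_one_iff.1 c2 with rfl | rfl
  · left; rw [one_smul] at hc; exact sub_left_injective hc
  · right
    constructor
    · have : A + B = (2 : ℝ) • w := by linear_combination (norm := module) -hc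
      rw [this, hw, smul_smul]; congr 1; ring
    · have : A - B = (2 : ℝ) • (A - w) := by linear_combination (norm := module) hc
      rw [this, norm_smul, mul_pow, nrm A hA hA']; simp; field_simp; ring

theorem apex [FiniteDimensional ℝ E] {n : ℕ} (hd : finrank ℝ E = n + 1) (x : E) (r : ℕ → E)
    (h1 : ∀ i < n, ‖x - r i‖ ^ 2 = 1) (h2 : ∀ i < n, ∀ j < i, ‖r i - r j‖ ^ 2 = 1) {a b : E}
    (ha : ‖a - x‖ ^ 2 = 1) (hb : ‖b - x‖ ^ 2 = 1) (ha' : ∀ i < n, ‖a - r i‖ ^ 2 = 1)
    (hb' : ∀ i < n, ‖b - r i‖ ^ 2 = 1) :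
    a = b ∨ (a + b = (2 / (n + 1 : ℝ)) • (x + ∑ i ∈ range n, r i) ∧
      ‖a - b‖ ^ 2 = 2 + 2 / (n + 1 : ℝ)) := by
  have h1' : ∀ i < n, ‖r i - x‖ ^ 2 = 1 := fun i hi => by rw [norm_sub_rev]; exact h1 i hi
  have k : ∀ a : E, ‖a - x‖ ^ 2 = 1 → ∀ i < n, ‖a - r i‖ ^ 2 = 1 → ⟪a - x, r i - x⟫ = 1 / 2 :=
    fun a ha i hi h => by
      rw [inner_of_sq ha (h1' i hi) (c := 1) (by rwa [sub_sub_sub_cancel_right])]; ring
  rcases apexv hd (fun i => r i - x) (fun i hi j hj => by
      split_ifs with h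
      · rw [h, real_inner_self_eq_norm_sq, h1' j hj]
      · refine k _ (h1' i hi) j hj ?_
        rcases Nat.lt_or_gt_of_ne h with h | h
        · rw [norm_sub_rev]; exact h2 j hj i h
        · exact h2 i hi j h) ha hb (fun i hi => k a ha i hi (ha' i hi))
      (fun i hi => k b hb i hi (hb' i hi)) with h | ⟨h, h'⟩
  · exact Or.inl (sub_left_injective h)
  · refine Or.inr ⟨?_, by rwa [sub_sub_sub_cancel_right] at h'⟩
    rw [sum_sub_distrib, sum_const, card_range, ← Nat.cast_smul_eq_nsmul ℝ] at h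
    have n0 : (n + 1 : ℝ) ≠ 0 := by positivity
    have e : (2 : ℝ) = 2 / (n + 1) * (n + 1) := by field_simp
    have : (2 : ℝ) • x = (2 / (n + 1 : ℝ) * (n + 1)) • x := by rw [← e]
    linear_combination (norm := module) h + this

theorem simplex (d : ℕ) : ∃ v : ℕ → EuclideanSpace ℝ (Fin d),
    ∀ i < d, ∀ j < d, ⟪v i, v j⟫ = if i = j then 1 else 1 / 2 := by
  rcases Nat.eq_zero_or_pos d with rfl | hd
  · exact ⟨0, by simp⟩
  have d0 : (0 : ℝ) < d := by exact_mod_cast hd
  set s := √(1 / 2 : ℝ) with hs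
  have s2 : s ^ 2 = 1 / 2 := Real.sq_sqrt (by norm_num)
  set u := √((1 + d) / 2 : ℝ)
  have u2 : u ^ 2 = (1 + d) / 2 := Real.sq_sqrt (by positivity)
  set t := (s + u) / d with ht
  have t2 : d * t ^ 2 - 2 * s * t = 1 / 2 := by
    rw [ht]; field_simp; linear_combination 2 * u2 - 2 * s2
  refine ⟨fun i => WithLp.toLp 2 fun j => (if j.val = i then s else 0) - t, fun i hi j hj => ?_⟩
  simp only [PiLp.inner_apply, RCLike.inner_apply, conj_trivial]
  rw [sum_congr rfl (g := fun k : Fin d => (if k = ⟨i, hi⟩ then (if i = j then s ^ 2 else 0) - s * t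
    else 0) - (if k = ⟨j, hj⟩ then s * t else 0) + t ^ 2)]
  · simp only [sum_add_distrib, sum_sub_distrib, sum_ite_eq', mem_univ, if_true, sum_const,
      card_univ, Fintype.card_fin, nsmul_eq_mul]
    split_ifs <;> linarith
  · intro k _
    simp only [Fin.ext_iff]
    split_ifs <;> first | (exfalso; omega) | ring

theorem rot [FiniteDimensional ℝ E] (hd : 3 ≤ finrank ℝ E) {a b a0 b0 : E}
    (h : ‖b0 - a0‖ = ‖b - a‖) (m : ℕ) (g : ℕ → E)
    (off : ∀ i < m, ∀ μ : ℝ, g i - a0 ≠ μ • (b0 - a0)) (F : List E) :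
    ∃ T : E → E, (∀ x y, ‖T x - T y‖ = ‖x - y‖) ∧ T a0 = a ∧ T b0 = b ∧
      ∀ i < m, ∀ x ∈ F, T (g i) ≠ x := by
  let L := (ℝ ∙ ((b0 - a0) - (b - a)))ᗮ.reflection
  have hL : L (b0 - a0) = b - a := Submodule.reflection_sub h
  let U := (ℝ ∙ (b - a))ᗮ
  obtain ⟨n, hn, hp⟩ := avoid (ι := Fin m ⊕ Fin m × Fin F.length) U
    (Sum.elim (fun i => (ℝ ∙ L (g i - a0))ᗮ) fun p => ℝ ∙ (L (g p.1 - a0) - (F[p.2] - a))) (by
      rintro (i | ⟨i, j⟩) hle
      · have := Submodule.orthogonal_le hle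
        simp only [Sum.elim_inl, U, Submodule.orthogonal_orthogonal] at this
        obtain ⟨μ, hμ⟩ := Submodule.mem_span_singleton.1 (this (Submodule.mem_span_singleton_self _))
        rw [← hL, ← map_smul] at hμ
        exact off i i.2 μ (L.injective hμ).symm
      · have h1 := Submodule.finrank_mono hle
        have h2 := Submodule.finrank_add_finrank_orthogonal (ℝ ∙ (b - a))
        have h3 := finrank_span_le_card (R := ℝ) ({b - a} : Set E)
        have h4 := finrank_span_le_card (R := ℝ) ({L (g i - a0) - (F[j] - a)} : Set E)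
        simp only [Set.toFinset_singleton, card_singleton, Sum.elim_inr, U] at h1 h3 h4
        have := h1.trans h4
        omega)
  let R := (ℝ ∙ n)ᗮ.reflection
  refine ⟨fun p => a + R (L (p - a0)), fun x y => ?_, by simp, ?_, fun i hi x hx e => ?_⟩
  · rw [add_sub_add_left_eq_sub, ← map_sub, ← map_sub, R.norm_map, L.norm_map,
      sub_sub_sub_cancel_right]
  · have : R (b - a) = b - a := (Submodule.reflection_eq_self_iff _).2
      (Submodule.mem_orthogonal_singleton_iff_inner_left.2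
        (Submodule.mem_orthogonal_singleton_iff_inner_right.1 hn))
    simp only [hL, this]; abel
  · obtain ⟨j, hj, rfl⟩ := List.getElem_of_mem hx
    have h1 := hp (Sum.inl ⟨i, hi⟩)
    have h2 := hp (Sum.inr (⟨i, hi⟩, ⟨j, hj⟩))
    simp only [Sum.elim_inl, Sum.elim_inr, Submodule.mem_orthogonal_singleton_iff_inner_left,
      Fin.getElem_fin] at h1 h2
    have n0 : n ≠ 0 := by rintro rfl; simp at h1
    simp only [R, Submodule.reflection_orthogonal_apply, Submodule.reflection_singleton_apply] at e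
    set c : ℝ := ⟪n, L (g i - a0)⟫ / ((‖n‖ : ℝ) ^ 2) with hc
    have c0 : c ≠ 0 := div_ne_zero h1 (by positivity)
    refine h2 (Submodule.mem_span_singleton.2 ⟨1 / (2 * c), ?_⟩)
    have : L (g i - a0) - (F[j] - a) = (2 * c) • n := by
      rw [← e]; simp only [RCLike.ofReal_real_eq_id, id_eq, ← hc]; module
    rw [this, smul_smul, one_div_mul_cancel (by positivity), one_smul]

theorem stew {z p o g : E} {μ : ℝ} (h : g - z = μ • (p - z)) :
    ‖g - o‖ ^ 2 = (1 - μ) * ‖z - o‖ ^ 2 + μ * ‖p - o‖ ^ 2 - μ * (1 - μ) * ‖z - p‖ ^ 2 := by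
  have e1 : g - o = (1 - μ) • (z - o) + μ • (p - o) := by linear_combination (norm := module) h
  have e2 : z - p = (z - o) - (p - o) := by abel
  rw [e1, e2, norm_add_sq_real, norm_sub_sq_real (z - o), norm_smul, norm_smul, real_inner_smul_left,
    real_inner_smul_right, mul_pow, mul_pow, Real.norm_eq_abs, Real.norm_eq_abs, sq_abs, sq_abs]
  ring

end Pool.Agent.H38.ER
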