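import Pool.Agent.H38.ER.Key

/-!
Doubly exponential bounds for limits of critical points, three parameters.
-/

namespace Pool.Agent.H38.ER.K3

open Filter Topology Finset

variable {n : ℕ}

noncomputable def mon (k : Fin 3 → ℕ) (β : Fin n → ℕ) (T : Fin 3 → ℝ) (x : Fin n → ℝ) : ℝ :=
  (∏ j, T j ^ k j) * ∏ i, x i ^ β i

theorem mon_mul (k l : Fin 3 → ℕ) (β γ : Fin n → ℕ) (T x) :
    mon k β T x * mon l γ T x = mon (k + l) (β + γ) T x := by
  simp only [mon, pow_add, Pi.add_apply, prod_mul_distrib]; ring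

/-- integer polynomial of degree `≤ d` in `x`, `≤ e` in `T`, and coefficient sum `≤ L` -/
def Pol (d e L : ℕ) (g : (Fin 3 → ℝ) → (Fin n → ℝ) → ℝ) : Prop :=
  ∃ l : List (ℤ × (Fin 3 → ℕ) × (Fin n → ℕ)), (∀ t ∈ l, (∀ j, t.2.1 j ≤ e) ∧ ∑ i, t.2.2 i ≤ d) ∧
    (l.map fun t => t.1.natAbs).sum ≤ L ∧
    ∀ T x, g T x = (l.map fun t => (t.1 : ℝ) * mon t.2.1 t.2.2 T x).sum

theorem Pol.mono {d e L d' e' L' g} (h : Pol (n := n) d e L g) (h1 : d ≤ d') (h2 : e ≤ e')
    (h3 : L ≤ L') : Pol d' e' L' g :=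
  let ⟨l, a, b, c⟩ := h
  ⟨l, fun t ht => ⟨fun j => ((a t ht).1 j).trans h2, (a t ht).2.trans h1⟩, b.trans h3, c⟩

theorem Pol.congr {d e L g g'} (h : Pol (n := n) d e L g) (e' : ∀ T x, g' T x = g T x) :
    Pol d e L g' := by
  have : g' = g := by funext T x; exact e' T x
  rwa [this]

theorem Pol.zero {d e L} : Pol (n := n) d e L fun _ _ => 0 := ⟨[], by simp, by simp, by simp⟩
theorem Pol.int (c : ℤ) : Pol (n := n) 0 0 c.natAbs fun _ _ => c :=
  ⟨[(c, 0, 0)], by simp, by simp, by simp [mon]⟩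
theorem Pol.one : Pol (n := n) 0 0 1 fun _ _ => 1 := (Pol.int 1).congr (by simp)
theorem Pol.tt (j : Fin 3) : Pol (n := n) 0 1 1 fun T _ => T j :=
  ⟨[(1, Pi.single j 1, 0)], by simp [Pi.single_apply]; intro i; split_ifs <;> simp, by simp,
    fun T x => by simp [mon, Pi.single_apply, pow_ite, Finset.prod_ite_eq']⟩
theorem Pol.var (i : Fin n) : Pol 1 0 1 fun _ x => x i :=
  ⟨[(1, 0, Pi.single i 1)], by simp, by simp, fun T x => by
    simp [mon, Pi.single_apply, pow_ite, Finset.prod_ite_eq']⟩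

theorem Pol.add {d e L L' g g'} (h : Pol (n := n) d e L g) (h' : Pol d e L' g') :
    Pol d e (L + L') fun T x => g T x + g' T x :=
  let ⟨l, a, b, c⟩ := h; let ⟨l', a', b', c'⟩ := h'
  ⟨l ++ l', fun t ht => (List.mem_append.1 ht).elim (a t) (a' t), by simpa using add_le_add b b',
    fun T x => by simp [c, c']⟩

theorem Pol.mul {d e L d' e' L' g g'} (h : Pol (n := n) d e L g) (h' : Pol d' e' L' g') :
    Pol (d + d') (e + e') (L * L') fun T x => g T x * g' T x := by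
  obtain ⟨l, a, b, c⟩ := h
  obtain ⟨l', a', b', c'⟩ := h'
  refine ⟨l.flatMap fun s => l'.map fun t => (s.1 * t.1, s.2.1 + t.2.1, s.2.2 + t.2.2), ?_,
    le_trans ?_ (Nat.mul_le_mul b b'), fun T x => ?_⟩
  · simp only [List.mem_flatMap, List.mem_map]
    rintro _ ⟨s, hs, t, ht, rfl⟩
    exact ⟨fun j => add_le_add ((a s hs).1 j) ((a' t ht).1 j), by
      simpa [sum_add_distrib] using add_le_add (a s hs).2 (a' t ht).2⟩
  · clear a b c
    induction l with
    | nil => simp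
    | cons s l ih =>
      simp only [List.flatMap_cons, List.map_append, List.sum_append, List.map_cons, List.sum_cons,
        add_mul, List.map_map, Function.comp_def, Int.natAbs_mul, List.sum_map_mul_left]
      exact Nat.add_le_add_left ih _
  · beta_reduce; rw [c, c']; clear a b c
    induction l with
    | nil => simp
    | cons s l ih =>
      simp only [List.flatMap_cons, List.map_append, List.sum_append, List.map_cons, List.sum_cons,
        add_mul, ih, List.map_map, Function.comp_def]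
      rw [← List.sum_map_mul_left]
      congr 3; funext t; rw [← mon_mul]; push_cast; ring

theorem Pol.neg {d e L g} (h : Pol (n := n) d e L g) : Pol d e L fun T x => -g T x :=
  (((Pol.int (-1)).mul h).congr (by simp)).mono (by simp) (by simp) (by simp)

theorem Pol.sub {d e L L' g g'} (h : Pol (n := n) d e L g) (h' : Pol d e L' g') :
    Pol d e (L + L') fun T x => g T x - g' T x := (h.add h'.neg).congr (by simp [sub_eq_add_neg])

theorem Pol.pow {d e L g} (h : Pol (n := n) d e L g) (a : ℕ) :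
    Pol (d * a) (e * a) (L ^ a) fun T x => g T x ^ a := by
  induction a with
  | zero => simpa using Pol.one
  | succ a ih => exact (ih.mul h).congr fun T x => pow_succ _ _

theorem Pol.lsum {ι : Type} {d e L} (l : List ι) {g : ι → (Fin 3 → ℝ) → (Fin n → ℝ) → ℝ}
    (h : ∀ q ∈ l, Pol d e L (g q)) :
    Pol d e (l.length * L) fun T x => (l.map fun q => g q T x).sum := by
  induction l with
  | nil => simpa using Pol.zero
  | cons q l ih =>
    exact (((h q List.mem_cons_self).add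
      (ih fun q hq => h q (List.mem_cons_of_mem _ hq))).congr (by simp)).mono le_rfl le_rfl
      (by simp [add_mul, add_comm])

def Rep (S : Set ((Fin 3 → ℝ) × (Fin n → ℝ))) (D B : ℕ) (g : (Fin 3 → ℝ) → (Fin n → ℝ) → ℝ) : Prop :=
  ∃ c : (Fin 3 → Fin (D + 1)) × (Fin n → Fin 5) → ℤ, (∀ j, (c j).natAbs ≤ B) ∧
    ∀ s ∈ S, g s.1 s.2 = ∑ j, (c j : ℝ) * mon (fun i => j.1 i) (fun i => j.2 i) s.1 s.2

theorem rep_list {S D} {ι : Type} (l : List ι) (c : ι → ℤ) 
    (g : ι → (Fin 3 → ℝ) → (Fin n → ℝ) → ℝ) (B : ℕ)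
    (h : ∀ t ∈ l, Rep S D B (g t)) :
    Rep S D ((l.map fun t => (c t).natAbs).sum * B)
      fun T x => (l.map fun t => (c t : ℝ) * g t T x).sum := by
  induction l with
  | nil => exact ⟨0, by simp, by simp⟩
  | cons t l ih =>
    obtain ⟨a, ha, ea⟩ := h t List.mem_cons_self
    obtain ⟨b, hb, eb⟩ := ih fun q hq => h q (List.mem_cons_of_mem _ hq)
    refine ⟨fun j => c t * a j + b j, fun j => ?_, fun s hs => ?_⟩
    · refine (Int.natAbs_add_le _ _).trans ?_
      rw [List.map_cons, List.sum_cons, add_mul, Int.natAbs_mul]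
      exact add_le_add (Nat.mul_le_mul_left _ (ha j)) (hb j)
    · simp only [List.map_cons, List.sum_cons, ea s hs, eb s hs, mul_sum, ← sum_add_distrib]
      refine sum_congr rfl fun j _ => ?_
      push_cast; ring

theorem Rep.mono {S D B B' g g'} (h : Rep (n := n) S D B g) (hB : B ≤ B')
    (e : ∀ s ∈ S, g' s.1 s.2 = g s.1 s.2) : Rep S D B' g' :=
  let ⟨c, a, b⟩ := h; ⟨c, fun j => (a j).trans hB, fun s hs => (e s hs).trans (b s hs)⟩

theorem rep_mon {S D L} (hL : 1 ≤ L) {h : Fin n → (Fin 3 → ℝ) → (Fin n → ℝ) → ℝ}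
    (hh : ∀ i, Pol 4 2 L (h i))
    (hS : ∀ s ∈ S, ∀ i, s.2 i ^ 5 = h i s.1 s.2) (N : ℕ) : ∀ (β : Fin n → ℕ) (k : Fin 3 → ℕ),
    ∑ i, β i ≤ N → (∀ j, k j + 2 * N ≤ D) → Rep S D (L ^ N) (mon k β) := by
  induction N with
  | zero =>
    intro β k h1 h2
    have : β = fun _ => ((0 : Fin 5) : ℕ) := by
      funext i; have := single_le_sum (f := β) (fun _ _ => Nat.zero_le _) (mem_univ i)
      simp; omega
    refine ⟨Pi.single (fun j => ⟨k j, by have := h2 j; omega⟩, fun _ => 0) 1, fun j => ?_, fun s _ => ?_⟩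
    · rw [Pi.single_apply]; split_ifs <;> simp
    · simp [Pi.single_apply, this]
  | succ N ih =>
    intro β k h1 h2
    by_cases hb : ∀ i, β i < 5
    · refine ⟨Pi.single (fun j => ⟨k j, by have := h2 j; omega⟩, fun i => ⟨β i, hb i⟩) 1, fun j => ?_, fun s _ => ?_⟩
      · rw [Pi.single_apply]; split_ifs <;> simp [Nat.one_le_pow, Nat.succ_le_iff.1 hL]
      · simp [Pi.single_apply]
    push Not at hb
    obtain ⟨i, hi⟩ := hb
    obtain ⟨l, a, b, c⟩ := hh i
    obtain ⟨β', rfl⟩ : ∃ β', β = β' + Pi.single i 5 :=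
      ⟨β - Pi.single i 5, by
        funext j; by_cases e : j = i
        · subst e; simp; omega
        · simp [e]⟩
    simp only [Pi.add_apply, sum_add_distrib, sum_pi_single', mem_univ, if_true] at h1
    refine (rep_list l (fun t => t.1) (fun t => mon (k + t.2.1) (β' + t.2.2)) (L ^ N)
      fun t ht => ih _ _ ?_ ?_).mono ?_ fun s hs => ?_
    · have := (a t ht).2; simp only [Pi.add_apply, sum_add_distrib]; omega
    · intro j; have := (a t ht).1 j; have := h2 j; simp only [Pi.add_apply]; omega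
    · rw [pow_succ']; exact Nat.mul_le_mul_right _ b
    · have e : mon 0 (Pi.single i 5) s.1 s.2 = s.2 i ^ 5 := by
        simp [mon, Pi.single_apply, pow_ite, Finset.prod_ite_eq']
      rw [← add_zero k, ← mon_mul, e, hS s hs, c, ← List.sum_map_mul_left]
      congr 2; funext t; rw [add_zero, ← mon_mul]; ring

def AA (n : ℕ) : ℕ := 1458 * 5 ^ n

def HH (n L : ℕ) : ℕ := AA n ^ 4 * L ^ (5 * AA n)

attribute [local instance] Matrix.seminormedAddCommGroup in
theorem relation {S : Set ((Fin 3 → ℝ) × (Fin n → ℝ))} {L} (hL : 1 ≤ L)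
    {h : Fin n → (Fin 3 → ℝ) → (Fin n → ℝ) → ℝ} (hh : ∀ i, Pol 4 2 L (h i))
    (hS : ∀ s ∈ S, ∀ i, s.2 i ^ 5 = h i s.1 s.2) {γ} (hγ : Pol 4 0 L γ) :
    ∃ c : Fin (AA n) × Fin (AA n) × Fin (AA n) × Fin (AA n) → ℤ, c ≠ 0 ∧
      (∀ j, |(c j : ℝ)| ≤ HH n L) ∧ ∀ s ∈ S, ∑ j, (c j : ℝ) * (γ s.1 s.2 ^ j.1.val *
        (s.1 0 ^ j.2.1.val * s.1 1 ^ j.2.2.1.val * s.1 2 ^ j.2.2.2.val)) = 0 := by
  have hA : AA n = 1458 * 5 ^ n := rfl
  rw [HH]
  generalize AA n = A at *
  have hp : 0 < 5 ^ n := by positivity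
  have H : ∀ j : Fin A × Fin A × Fin A × Fin A, Rep S (9 * A - 1) (L ^ (5 * A))
      fun T x => γ T x ^ j.1.val * (T 0 ^ j.2.1.val * T 1 ^ j.2.2.1.val * T 2 ^ j.2.2.2.val) := by
    rintro ⟨a, b, c, d⟩
    have pm : Pol (n := n) 0 (A - 1) 1 fun T _ => T 0 ^ b.val * T 1 ^ c.val * T 2 ^ d.val :=
      ⟨[(1, ![b.val, c.val, d.val], 0)], by
        simp only [List.mem_singleton]; rintro _ rfl
        refine ⟨fun j => ?_, by simp⟩
        fin_cases j <;> simp <;> omega, by simp, fun T x => by simp [mon, Fin.prod_univ_three]⟩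
    obtain ⟨l, h1, h2, h3⟩ := (hγ.pow a).mul pm
    refine (rep_list l (fun t => t.1) (fun t => mon t.2.1 t.2.2) (L ^ (4 * A))
      fun t ht => rep_mon hL hh hS _ _ _ ?_ ?_).mono ?_ fun s _ => h3 _ _
    · have := (h1 t ht).2; omega
    · intro j; have := (h1 t ht).1 j; omega
    · rw [show 5 * A = A + 4 * A by ring, pow_add]
      refine Nat.mul_le_mul_right _ (h2.trans ?_)
      simpa using Nat.pow_le_pow_right hL a.2.le
  choose M hM eM using H
  have c1 : Fintype.card ((Fin 3 → Fin (9 * A - 1 + 1)) × (Fin n → Fin 5)) =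
      (9 * A) ^ 3 * 5 ^ n := by
    simp; omega
  have c3 : Fintype.card (Fin A × Fin A × Fin A × Fin A) = A ^ 4 := by simp; ring
  have c2 : A ^ 4 = 2 * ((9 * A) ^ 3 * 5 ^ n) := by rw [pow_succ A 3]; nth_rewrite 2 [hA]; ring
  have hpos : 0 < (9 * A) ^ 3 * 5 ^ n := by rw [hA]; positivity
  obtain ⟨t, ht, e, hn⟩ := Int.Matrix.exists_ne_zero_int_vec_norm_le
    (Matrix.of fun i j => M j i) (by omega) (by omega)
  refine ⟨t, ht, fun j => ?_, fun s hs => ?_⟩
  · have h1 : ‖(Matrix.of fun i j => M j i)‖ ≤ (L : ℝ) ^ (5 * A) :=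
      (Matrix.norm_le_iff (by positivity)).2 fun i j => by
        have : ((M j i).natAbs : ℝ) ≤ (L ^ (5 * A) : ℕ) := by exact_mod_cast hM j i
        simpa [Int.norm_eq_abs] using this
    rw [c1, c3, show (((9 * A) ^ 3 * 5 ^ n : ℕ) : ℝ) / (((A ^ 4 : ℕ) : ℝ) -
      (((9 * A) ^ 3 * 5 ^ n : ℕ) : ℝ)) = 1 by
        have : (((9 * A) ^ 3 * 5 ^ n : ℕ) : ℝ) ≠ 0 := by exact_mod_cast hpos.ne'
        rw [c2, Nat.cast_mul 2, Nat.cast_ofNat, two_mul, add_sub_cancel_right, div_self this],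
      Real.rpow_one] at hn
    refine le_trans ?_ (hn.trans ?_)
    · simpa [Int.norm_eq_abs] using norm_le_pi_norm t j
    · rw [Nat.cast_mul]
      refine mul_le_mul le_rfl (max_le ?_ (by simpa using h1)) (by positivity)
        (by positivity)
      exact_mod_cast Nat.one_le_pow _ _ hL
  · simp only [fun j => eM j s hs, mul_sum]
    rw [sum_comm]
    refine sum_eq_zero fun i _ => ?_
    have := congrFun e i
    simp only [Matrix.mulVec, dotProduct, Matrix.of_apply, Pi.zero_apply] at this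
    have h2 : ∑ j, (M j i : ℝ) * t j = 0 := by exact_mod_cast this
    simp only [← mul_assoc, ← sum_mul]
    rw [mul_eq_zero]; left; simpa [mul_comm] using h2

theorem ratio {A : ℕ} {T E U : ℝ} (hU : 1 ≤ U) (hE : U ^ A ≤ E) (hT : (E * U) ^ A * U ≤ T)
    {b e f b' e' f' : ℕ} (he : e < A) (hf : f < A)
    (h : b < b' ∨ b = b' ∧ (e < e' ∨ e = e' ∧ f < f')) :
    T ^ b * E ^ e * U ^ f * U ≤ T ^ b' * E ^ e' * U ^ f' := by
  have E1 : 1 ≤ E := (one_le_pow₀ hU).trans hE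
  have T1 : 1 ≤ T := le_trans (one_le_mul_of_one_le_of_one_le
    (one_le_pow₀ (one_le_mul_of_one_le_of_one_le E1 hU)) hU) hT
  rcases h with h | ⟨rfl, h | ⟨rfl, h⟩⟩
  · calc T ^ b * E ^ e * U ^ f * U ≤ T ^ b * E ^ A * U ^ A * U := by gcongr
      _ = T ^ b * ((E * U) ^ A * U) := by rw [mul_pow]; ring
      _ ≤ T ^ b * T := by gcongr
      _ ≤ T ^ b' * 1 * 1 := by rw [← pow_succ, mul_one, mul_one]; gcongr; omega
      _ ≤ _ := by gcongr; exacts [one_le_pow₀ E1, one_le_pow₀ hU]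
  · calc T ^ b * E ^ e * U ^ f * U = T ^ b * E ^ e * U ^ (f + 1) := by ring
      _ ≤ T ^ b * E ^ e * U ^ A := by gcongr; omega
      _ ≤ T ^ b * E ^ e * E := by gcongr
      _ ≤ T ^ b * E ^ e' * 1 := by rw [mul_assoc, ← pow_succ, mul_one]; gcongr; omega
      _ ≤ _ := by gcongr; exact one_le_pow₀ hU
  · rw [mul_assoc, ← pow_succ]; gcongr; omega

theorem key {L} (hL : 1 ≤ L) {h : Fin n → (Fin 3 → ℝ) → (Fin n → ℝ) → ℝ}
    (hh : ∀ i, Pol 4 2 L (h i)) {γ} (hγ : Pol 4 0 L γ) {T : ℕ → Fin 3 → ℝ} {x : ℕ → Fin n → ℝ}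
    (hU : Tendsto (fun m => T m 2) atTop atTop) (hU1 : ∀ m, 1 ≤ T m 2)
    (hE : ∀ m, T m 2 ^ AA n ≤ T m 1) (hT : ∀ m, (T m 1 * T m 2) ^ AA n * T m 2 ≤ T m 0)
    (hx : ∀ m i, x m i ^ 5 = h i (T m) (x m)) {ξ : ℝ}
    (hξ : Tendsto (fun m => γ (T m) (x m)) atTop (𝓝 ξ)) :
    |ξ| ≤ 1 + HH n L ∧ (ξ ≠ 0 → |ξ⁻¹| ≤ 1 + HH n L) := by
  obtain ⟨c, hc, hH, e⟩ := relation (S := Set.range fun m => (T m, x m)) hL hh
    (by rintro _ ⟨m, rfl⟩; exact hx m) hγ
  have hA : 0 < AA n := by unfold AA; positivity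
  generalize AA n = A at *
  obtain ⟨K, hd, hm⟩ := exists_max_image (univ.filter fun j => c j ≠ 0)
    (fun j => toLex (j.2.1, toLex j.2.2))
    (by obtain ⟨a, ha⟩ := Function.ne_iff.1 hc; exact ⟨a, by simpa using ha⟩)
  simp only [mem_filter, mem_univ, true_and] at hd hm
  set W : ℕ → Fin A × Fin A × Fin A → ℝ :=
    fun m j => T m 0 ^ j.1.val * T m 1 ^ j.2.1.val * T m 2 ^ j.2.2.val with hW
  have Wp : ∀ m j, 0 < W m j := fun m j => by
    have a := hU1 m
    have b : 1 ≤ T m 1 := (one_le_pow₀ a).trans (hE m)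
    have c : 0 < T m 0 := lt_of_lt_of_le (by positivity) (hT m)
    simp only [hW]; positivity
  have h1 : Tendsto (fun m => ∑ j, (c j : ℝ) * (γ (T m) (x m) ^ j.1.val * (W m j.2 / W m K.2)))
      atTop (𝓝 (∑ j, (c j : ℝ) * (ξ ^ j.1.val * if j.2 = K.2 then 1 else 0))) := by
    refine tendsto_finsetSum _ fun j _ => ?_
    by_cases hj : c j = 0
    · simp [hj]
    refine ((hξ.pow _).mul ?_).const_mul _
    split_ifs with h2
    · simp [h2, fun m => (Wp m K.2).ne']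
    refine squeeze_zero (fun m => (div_pos (Wp _ _) (Wp _ _)).le) (fun m => ?_)
      hU.inv_tendsto_atTop
    rw [Pi.inv_apply, ← one_div, div_le_div_iff₀ (Wp _ _) (by linarith [hU1 m]), one_mul]
    refine ratio (hU1 m) (hE m) (hT m) j.2.2.1.2 j.2.2.2.2 ?_
    have := lt_of_le_of_ne (hm j hj) fun e => h2 (by
      have := Prod.mk.inj (toLex.injective e)
      exact Prod.ext this.1 (toLex.injective this.2))
    rw [Prod.Lex.toLex_lt_toLex, Prod.Lex.lt_iff] at this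
    simpa only [Fin.ext_iff, Fin.lt_def, ofLex_toLex] using this
  have h2 : ∑ j, (c j : ℝ) * (ξ ^ j.1.val * if j.2 = K.2 then 1 else 0) = 0 := by
    refine tendsto_nhds_unique h1 (tendsto_const_nhds.congr fun m => ?_)
    have := e _ ⟨m, rfl⟩
    rw [← zero_div (W m K.2), ← this, sum_div]
    exact sum_congr rfl fun j _ => by simp only [hW]; ring
  have h3 : ∑ a, (c (a, K.2) : ℝ) * ξ ^ a.val = 0 := by
    rw [← h2, Fintype.sum_prod_type]
    exact sum_congr rfl fun a _ => by simp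
  have hp : (fun a => c (a, K.2)) ≠ 0 := Function.ne_iff.2 ⟨K.1, hd⟩
  refine ⟨root_le _ hp (fun a => hH _) h3, fun h0 => ?_⟩
  refine root_le (fun a => c (a.rev, K.2)) (Function.ne_iff.2 ⟨K.1.rev, by simpa using hd⟩)
    (fun a => hH _) ?_
  rw [← mul_zero (ξ⁻¹ ^ (A - 1)), ← h3, mul_sum, ← Equiv.sum_comp Fin.revPerm]
  refine sum_congr rfl fun a _ => ?_
  obtain ⟨r, hr⟩ := Nat.exists_eq_add_of_le (show a.val ≤ A - 1 by omega)
  simp only [Fin.revPerm_apply, Fin.rev_rev, Fin.val_rev]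
  rw [show A - (a.val + 1) = r by omega, hr, pow_add, inv_pow, inv_pow]
  field_simp

theorem HH_le (n L : ℕ) : 1 + HH n L ≤ 2 ^ 2 ^ (3 * n + L + 13) := by
  have h1 : AA n ≤ 2 ^ AA n := Nat.lt_two_pow_self.le
  have h2 : L + 1 ≤ 2 ^ L := Nat.lt_two_pow_self
  have h3 : 5 ^ n ≤ 2 ^ (3 * n) := by rw [pow_mul]; exact Nat.pow_le_pow_left (by omega) _
  have h4 : HH n L ≤ 2 ^ (AA n * 4 + L * (5 * AA n)) := by
    rw [HH, pow_add, pow_mul 2, pow_mul 2 L]
    exact Nat.mul_le_mul (Nat.pow_le_pow_left h1 _)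
      (Nat.pow_le_pow_left (show L ≤ 2 ^ L by omega) _)
  have h5 : AA n * 4 + L * (5 * AA n) + 1 ≤ 2 ^ (3 * n + L + 13) := by
    have : 0 < 5 ^ n := by positivity
    rw [pow_add, pow_add, AA]
    nlinarith [Nat.mul_le_mul h3 h2]
  refine le_trans ?_ (Nat.pow_le_pow_right (by omega) h5)
  rw [pow_succ]
  have : 0 < 2 ^ (AA n * 4 + L * (5 * AA n)) := by positivity
  omega

end Pool.Agent.H38.ER.K3
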