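import Pool.Agent.H38.ER.Key3
import Pool.Agent.H38.ER.Ball

/-!
Bounds for limit points and for infima over solution sets.
-/

namespace Pool.Agent.H38.ER

open Filter Topology Finset Function

variable {n : ℕ}

theorem crit' {ι : Type} (l : List ι) (r : ι → (Fin n → ℝ) → ℝ) (dr : ι → Fin n → (Fin n → ℝ) → ℝ)
    (w : ι → ℝ) (hw : ∀ q, 0 ≤ w q) (e : Fin n → ℝ) (he : ∀ i, 1 ≤ e i) (hc : ∀ q, Continuous (r q))
    (hd : ∀ q i x, HasDerivAt (fun t => r q (update x i t)) (dr q i x) (x i)) :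
    ∃ x, (∀ y, 3 * (l.map fun q => w q * r q x ^ 2).sum + ∑ i, e i * x i ^ 6 ≤
        3 * (l.map fun q => w q * r q y ^ 2).sum + ∑ i, e i * y i ^ 6) ∧
      ∀ i, e i * x i ^ 5 = -(l.map fun q => w q * (r q x * dr q i x)).sum := by
  have h0 : ∀ y, 0 ≤ (l.map fun q => w q * r q y ^ 2).sum := fun y =>
    List.sum_nonneg (by
      simp only [List.mem_map]; rintro _ ⟨q, -, rfl⟩; exact mul_nonneg (hw q) (sq_nonneg _))
  have hG : Continuous fun y : Fin n → ℝ =>
      3 * (l.map fun q => w q * r q y ^ 2).sum + ∑ i, e i * y i ^ 6 :=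
    (continuous_const.mul (continuous_list_sum _ fun q _ => by fun_prop)).add (by fun_prop)
  obtain ⟨x, hx⟩ := hG.exists_forall_le_of_isBounded 0
    ((Metric.isBounded_closedBall (x := 0)).subset fun y hy => mem_closedBall_zero_iff.2
      (norm_le_of_six (le_trans (by
        have : ∑ i, y i ^ 6 ≤ ∑ i, e i * y i ^ 6 :=
          sum_le_sum fun i _ => le_mul_of_one_le_left (by positivity) (he i)
        linarith [h0 y]) hy)))
  refine ⟨x, hx, fun i => ?_⟩
  have d1 : HasDerivAt (fun t => (l.map fun q => w q * r q (update x i t) ^ 2).sum)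
      (2 * (l.map fun q => w q * (r q x * dr q i x)).sum) (x i) := by
    clear h0 hG hx
    induction l with
    | nil => simpa using hasDerivAt_const _ _
    | cons q l ih =>
      simp only [List.map_cons, List.sum_cons]
      refine ((((hd q i x).fun_pow 2).const_mul (w q)).fun_add ih).congr_deriv ?_
      simp; ring
  have d2 : HasDerivAt (fun t => ∑ j, e j * update x i t j ^ 6) (6 * (e i * x i ^ 5)) (x i) := by
    have : (fun t => ∑ j, e j * update x i t j ^ 6) =
        fun t => e i * t ^ 6 + ∑ j ∈ univ.erase i, e j * x j ^ 6 := by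
      funext t
      rw [← add_sum_erase _ _ (mem_univ i), update_self]
      congr 1
      exact sum_congr rfl fun j hj => by rw [update_of_ne (ne_of_mem_erase hj)]
    rw [this]
    exact (((hasDerivAt_pow 6 (x i)).const_mul _).add_const _).congr_deriv (by simp; ring)
  have := IsLocalMin.hasDerivAt_eq_zero (Eventually.of_forall fun t => by
    simpa using hx (update x i t)) ((d1.const_mul 3).add d2)
  linarith

noncomputable def ss (c : List Q4) (u : ℕ → ℝ) : ℝ := (c.map fun q => res u q ^ 2).sum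

theorem ss_nonneg (c u) : 0 ≤ ss c u :=
  List.sum_nonneg (by simp only [List.mem_map]; rintro _ ⟨q, -, rfl⟩; positivity)

theorem res_cont (q) : Continuous fun x : Fin n → ℝ => res (hat x) q :=
  (((hat_cont _).mul (hat_cont _)).add (hat_cont _)).sub (hat_cont _)

theorem ss_cont (c) : Continuous fun x : Fin n → ℝ => ss c (hat x) :=
  continuous_list_sum c fun q _ => (res_cont q).pow 2

noncomputable def dres (i : Fin n) (x : Fin n → ℝ) (q : Q4) : ℝ :=
  dhat i q.1 * hat x q.2.1 + hat x q.1 * dhat i q.2.1 + dhat i q.2.2.1 - dhat i q.2.2.2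

noncomputable def h3 (c o : List Q4) (d : ℕ) (i : Fin n) (T : Fin 3 → ℝ) (x : Fin n → ℝ) : ℝ :=
  -((if i.val < d then 1 else T 1) * (T 0 * (c.map fun q => res (hat x) q * dres i x q).sum +
    T 2 * (o.map fun q => res (hat x) q * dres i x q).sum))

theorem pol3_hat (a : ℕ) : K3.Pol 1 0 1 fun _ (x : Fin n → ℝ) => hat x a := by
  unfold hat; split_ifs
  exacts [K3.Pol.one.mono (by omega) le_rfl le_rfl, K3.Pol.var _, K3.Pol.zero]

theorem pol3_res (q : Q4) : K3.Pol 2 0 3 fun _ (x : Fin n → ℝ) => res (hat x) q :=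
  (((pol3_hat _).mul (pol3_hat _)).add ((pol3_hat _).mono (by omega) le_rfl le_rfl)).sub
    ((pol3_hat _).mono (by omega) le_rfl le_rfl)

theorem pol3_h (c o d) (i : Fin n) : K3.Pol 4 2 ((c.length + o.length) * 12 + 1) (h3 c o d i) := by
  have dh : ∀ a, K3.Pol 0 0 1 fun _ (_ : Fin n → ℝ) => dhat i a := fun a => by
    unfold dhat; split_ifs
    exacts [K3.Pol.one, K3.Pol.zero]
  have p : ∀ c : List Q4, K3.Pol 3 0 (c.length * 12) fun _ (x : Fin n → ℝ) =>
      (c.map fun q => res (hat x) q * dres i x q).sum := fun c => K3.Pol.lsum c fun q _ =>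
    (pol3_res q).mul (((((dh _).mul (pol3_hat _)).add ((pol3_hat _).mul (dh _))).add
      ((dh _).mono (by omega) le_rfl le_rfl)).sub ((dh _).mono (by omega) le_rfl le_rfl))
  have e : K3.Pol 0 1 1 fun T (_ : Fin n → ℝ) => if i.val < d then 1 else T 1 := by
    split_ifs
    exacts [K3.Pol.one.mono le_rfl (by omega) le_rfl, K3.Pol.tt _]
  exact (e.mul (((K3.Pol.tt 0).mul (p c)).add ((K3.Pol.tt 2).mul (p o)))).neg.mono (by omega)
    le_rfl (by omega)

noncomputable def n1 (d : ℕ) (x : Fin n → ℝ) : ℝ := ∑ i, if i.val < d then x i ^ 6 else 0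

theorem n1_nonneg (d) (x : Fin n → ℝ) : 0 ≤ n1 d x := sum_nonneg fun _ _ => by positivity

theorem pick (c o : List Q4) (d : ℕ) (z : Fin n → ℝ) (hz : ss c (hat z) = 0) {U η : ℝ} (hU : 1 ≤ U)
    (hη : 0 < η) : ∃ T : Fin 3 → ℝ, T 2 = U ∧ U ^ K3.AA n ≤ T 1 ∧ (T 1 * U) ^ K3.AA n * U ≤ T 0 ∧
      ∃ x : Fin n → ℝ, (∀ i, x i ^ 5 = h3 c o d i T x) ∧
        3 * U * ss o (hat x) + n1 d x ≤ 3 * U * ss o (hat z) + n1 d z + η ∧
        ∃ v, ss c (hat v) = 0 ∧ dist x v < η ∧ ss o (hat v) < ss o (hat x) + η := by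
  set N := ∑ i, z i ^ 6
  have hN : 0 ≤ N := by positivity
  set E := max (U ^ K3.AA n) (N / η) with hE
  have E1 : 1 ≤ E := (one_le_pow₀ hU).trans (le_max_left _ _)
  have E2 : N ≤ E * η := (div_le_iff₀ hη).1 (le_max_right _ _)
  set C := E * (3 * U * ss o (hat z) + n1 d z + η) with hC
  have hO : IsOpen {x : Fin n → ℝ | ∃ v, ss c (hat v) = 0 ∧ dist x v < η ∧
      ss o (hat v) < ss o (hat x) + η} := by
    simp only [Set.ofPred_exists, Set.ofPred_and]
    refine isOpen_iUnion fun v => (isOpen_const.inter ((isOpen_lt (by fun_prop) (by fun_prop)).inter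
      (isOpen_lt continuous_const ((ss_cont o).add continuous_const))))
  obtain ⟨θ, hθ, hK⟩ := ((isCompact_closedBall (0 : Fin n → ℝ) (C + 1)).diff hO).exists_forall_le'
    (ss_cont c).continuousOn (a := 0) fun x hx => (ss_nonneg _ _).lt_of_ne fun e =>
      hx.2 ⟨x, e.symm, by simpa using hη, by linarith⟩
  set T := max ((E * U) ^ K3.AA n * U) (C / θ + 1) with hT
  have C0 : 0 ≤ C := by have := ss_nonneg o (hat z); have := n1_nonneg d z; positivity
  have T1 : C / θ + 1 ≤ T := le_max_right _ _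
  have T0 : 0 ≤ T := le_trans (by positivity) T1
  obtain ⟨x, hx, ex⟩ := crit' (c.map (Prod.mk false) ++ o.map (Prod.mk true))
    (fun q x => res (hat x) q.2) (fun q i x => dres i x q.2) (fun q => E * cond q.1 U T)
    (fun q => by cases q.1 <;> simp <;> positivity) (fun i => if i.val < d then E else 1)
    (fun i => by split_ifs; exacts [E1, le_rfl]) (fun q => res_cont _) fun q i x => by
      refine ((((hat_deriv x i _).fun_mul (hat_deriv x i _)).fun_add (hat_deriv x i _)).fun_sub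
        (hat_deriv x i _)).congr_deriv ?_
      simp [dres]
  simp only [List.map_append, List.sum_append, List.map_map, Function.comp_def, cond_true,
    cond_false, List.sum_map_mul_left] at hx ex
  have hm := hx z
  change 3 * (E * T * ss c (hat x) + E * U * ss o (hat x)) + _ ≤
    3 * (E * T * ss c (hat z) + E * U * ss o (hat z)) + _ at hm
  have a1 : ∑ i : Fin n, (if i.val < d then E else 1) * z i ^ 6 ≤ E * n1 d z + N := by
    rw [n1, mul_sum, ← sum_add_distrib]
    exact sum_le_sum fun i _ => by split_ifs <;> simp; positivity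
  have a2 : E * n1 d x ≤ ∑ i : Fin n, (if i.val < d then E else 1) * x i ^ 6 := by
    rw [n1, mul_sum]
    exact sum_le_sum fun i _ => by split_ifs <;> simp; positivity
  have a3 : ∑ i, x i ^ 6 ≤ ∑ i : Fin n, (if i.val < d then E else 1) * x i ^ 6 :=
    sum_le_sum fun i _ => le_mul_of_one_le_left (by positivity) (by split_ifs; exacts [E1, le_rfl])
  have b1 : 0 ≤ E * T * ss c (hat x) := by have := ss_nonneg c (hat x); positivity
  have b2 : 0 ≤ E * U * ss o (hat x) := by have := ss_nonneg o (hat x); positivity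
  have b3 : 0 ≤ ∑ i, x i ^ 6 := by positivity
  rw [hz] at hm
  refine ⟨![T, E, U], rfl, le_max_left _ _, le_max_left _ _, x, fun i => ?_, ?_, ?_⟩
  · have := ex i
    simp only [h3, Matrix.cons_val]
    split_ifs at this ⊢
    · exact mul_left_cancel₀ (show E ≠ 0 by linarith) (by rw [this]; ring)
    · rw [one_mul] at this; rw [this]; ring
  · exact le_of_mul_le_mul_left (by nlinarith) (show 0 < E by linarith)
  · by_contra hc
    have := hK x ⟨mem_closedBall_zero_iff.2 (norm_le_of_six (by nlinarith)), hc⟩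
    have c1 : C + θ ≤ T * θ := by
      have := mul_le_mul_of_nonneg_right T1 hθ.le
      rwa [add_mul, div_mul_cancel₀ _ hθ.ne', one_mul] at this
    have c2 : T * θ ≤ T * ss c (hat x) := mul_le_mul_of_nonneg_left this T0
    have c3 : T * ss c (hat x) ≤ E * T * ss c (hat x) := by
      rw [mul_assoc]; exact le_mul_of_one_le_left (by linarith) E1
    nlinarith

theorem hat_res {u : ℕ → ℝ} (h0 : u 0 = 1) {i} (hi : i < n) : hat (fun i : Fin n => u i) i = u i := by
  by_cases h : i = 0 <;> simp [hat, h, hi, h0]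

theorem ss_res {u : ℕ → ℝ} (h0 : u 0 = 1) {c} (hc : Bd n c) :
    ss c (hat fun i : Fin n => u i) = ss c u :=
  congrArg List.sum (List.map_congr_left fun q hq => by
    obtain ⟨a, b, c, d⟩ := hc q hq
    simp only [res, hat_res h0 a, hat_res h0 b, hat_res h0 c, hat_res h0 d])

theorem tend_one : Tendsto (fun m : ℕ => (m : ℝ) + 1) atTop atTop :=
  tendsto_atTop_add_const_right _ _ tendsto_natCast_atTop_atTop

theorem lim1 {c o : List Q4} (hc : Bd n c) (ho : Bd n o) {d : ℕ} (hd : d ≤ n) {M : ℝ}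
    (h : ∀ ε > 0, ∃ u : ℕ → ℝ, u 0 = 1 ∧ Sat u c ∧ ss o u ≤ ε ∧ ∀ i < d, |u i| ≤ M) :
    ∀ ε > 0, ∃ u : ℕ → ℝ, u 0 = 1 ∧ Sat u c ∧ ss o u ≤ ε ∧
      ∀ i < d, |u i| ≤ 2 ^ 2 ^ (3 * n + ((c.length + o.length) * 12 + 1) + 13) + 1 := by
  choose z z0 zc zo zb using fun m : ℕ => h (1 / ((m : ℝ) + 1)) (by positivity)
  choose T T2 T1 T0 x ex hx v vc vd vo using fun m : ℕ => pick c o d (fun i : Fin n => z m i)
    (by rw [ss_res (z0 m) hc]; exact sat_iff_res.1 (zc m)) (U := (m : ℝ) + 1)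
    (by simp) (η := 1 / ((m : ℝ) + 1)) (by positivity)
  set C : ℝ := 4 + n * M ^ 6 with hC
  have b : ∀ m : ℕ, 3 * ((m : ℝ) + 1) * ss o (hat (x m)) + n1 d (x m) ≤ C := fun m => by
    refine (hx m).trans ?_
    have a1 : n1 d (fun i : Fin n => z m i) ≤ ∑ _ : Fin n, M ^ 6 := sum_le_sum fun i _ => by
      split_ifs with hi
      · rw [← Even.pow_abs (by decide)]; exact pow_le_pow_left₀ (abs_nonneg _) (zb m i hi) _
      · positivity
    have a2 : ((m : ℝ) + 1) * ss o (z m) ≤ 1 := by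
      have := zo m; rwa [le_div_iff₀' (by positivity)] at this
    have a3 : 1 / ((m : ℝ) + 1) ≤ 1 := by rw [div_le_one (by positivity)]; simp
    rw [ss_res (z0 m) ho]
    simp at a1; linarith
  obtain ⟨ξ, -, φ, hφ, hl⟩ := tendsto_subseq_of_bounded
    (x := fun m (i : Fin n) => if i.val < d then x m i else 0)
    (Metric.isBounded_closedBall (x := 0) (r := C + 1)) fun m => mem_closedBall_zero_iff.2
      (norm_le_of_six (by
        have := mul_nonneg (show 0 ≤ 3 * ((m : ℝ) + 1) by positivity) (ss_nonneg o (hat (x m)))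
        refine le_trans (le_of_eq ?_) (show n1 d (x m) ≤ C by linarith [b m])
        exact sum_congr rfl fun i _ => by split_ifs <;> simp))
  have hT : Tendsto (fun m => (φ m : ℝ) + 1) atTop atTop := tend_one.comp hφ.tendsto_atTop
  have hl' : ∀ i : Fin n, i.val < d → Tendsto (fun m => x (φ m) i) atTop (𝓝 (ξ i)) := fun i hi => by
    simpa [Function.comp_def, hi] using tendsto_pi_nhds.1 hl i
  have hξ : ∀ i : Fin n, i.val < d →
      |ξ i| ≤ 2 ^ 2 ^ (3 * n + ((c.length + o.length) * 12 + 1) + 13) := fun i hi =>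
    (K3.key (by omega) (pol3_h c o d) ((K3.Pol.var i).mono (by omega) le_rfl (by omega))
      (T := fun m => T (φ m)) (x := fun m => x (φ m)) (by simpa only [T2] using hT)
      (fun m => by rw [T2]; simp) (fun m => by rw [T2]; exact T1 _)
      (fun m => by rw [T2]; exact T0 _) (fun m => ex _) (hl' i hi)).1.trans
      (by exact_mod_cast K3.HH_le _ _)
  intro ε hε
  have e1 : ∀ᶠ m in atTop, ∀ i : Fin n, i.val < d → |x (φ m) i - ξ i| < 1 / 2 :=
    eventually_all.2 fun i => by
      by_cases hi : i.val < d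
      · exact (Metric.tendsto_nhds.1 (hl' i hi) (1 / 2) (by norm_num)).mono fun m hm _ => hm
      · exact Eventually.of_forall fun _ h => (hi h).elim
  obtain ⟨m, m1, m2, m3⟩ := (e1.and ((hT.eventually_ge_atTop ((C + 1) / ε)).and
    (hT.eventually_ge_atTop 2))).exists
  refine ⟨hat (v (φ m)), rfl, sat_iff_res.2 (vc _), ?_, fun i hi => ?_⟩
  · refine (vo _).le.trans ?_
    rw [div_le_iff₀ hε] at m2
    have := b (φ m)
    have := n1_nonneg d (x (φ m))
    have := ss_nonneg o (hat (x (φ m)))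
    refine le_of_mul_le_mul_left ?_ (show (0 : ℝ) < φ m + 1 by positivity)
    rw [mul_add, mul_one_div_cancel (by positivity)]
    nlinarith
  · by_cases h0 : i = 0
    · simp [hat, h0]
    rw [hat, if_neg h0, dif_pos (by omega)]
    have a1 := abs_lt.1 (m1 ⟨i, by omega⟩ hi)
    have a2 := abs_le.1 (hξ ⟨i, by omega⟩ hi)
    have a3 := (dist_le_pi_dist (x (φ m)) (v (φ m)) ⟨i, by omega⟩).trans_lt (vd (φ m))
    have a4 : 1 / ((φ m : ℝ) + 1) ≤ 1 / 2 := one_div_le_one_div_of_le (by norm_num) m3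
    rw [Real.dist_eq, abs_lt] at a3
    rw [abs_le]; constructor <;> linarith [a1.1, a1.2, a3.1, a3.2]

theorem gap2 {c o : List Q4} (hc : Bd n c) (ho : Bd n o) {u : ℕ → ℝ} (h0 : u 0 = 1) (hu : Sat u c)
    (h : ss o u * 2 ^ 2 ^ (3 * n + ((c.length + o.length) * 12 + 1) + 13) < 1) :
    ∀ ε > 0, ∃ u : ℕ → ℝ, u 0 = 1 ∧ Sat u c ∧ ss o u ≤ ε := by
  set S := {s | ∃ u : ℕ → ℝ, u 0 = 1 ∧ Sat u c ∧ ss o u = s}
  have hS : S.Nonempty := ⟨_, u, h0, hu, rfl⟩
  have hb : BddBelow S := ⟨0, by rintro _ ⟨u, -, -, rfl⟩; exact ss_nonneg _ _⟩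
  have μ0 : 0 ≤ sInf S := le_csInf hS (by rintro _ ⟨u, -, -, rfl⟩; exact ss_nonneg _ _)
  have H : ∀ ε > 0, ∃ u : ℕ → ℝ, u 0 = 1 ∧ Sat u c ∧ ss o u ≤ sInf S + ε := fun ε hε => by
    obtain ⟨_, ⟨u, a, b, rfl⟩, h⟩ := exists_lt_of_csInf_lt hS (lt_add_of_pos_right _ hε)
    exact ⟨u, a, b, h.le⟩
  by_cases hμ : sInf S = 0
  · simpa [hμ] using H
  exfalso
  choose z z0 zc zo using fun m : ℕ => H (1 / ((m : ℝ) + 1)) (by positivity)
  choose T T2 T1 T0 x ex hx v vc vd vo using fun m : ℕ => pick c o 0 (fun i : Fin n => z m i)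
    (by rw [ss_res (z0 m) hc]; exact sat_iff_res.1 (zc m)) (U := (m : ℝ) + 1)
    (by simp) (η := 1 / ((m : ℝ) + 1)) (by positivity)
  have t0 : Tendsto (fun m : ℕ => 1 / ((m : ℝ) + 1)) atTop (𝓝 0) := tend_one.const_div_atTop 1
  have hl : Tendsto (fun m => ss o (hat (x m))) atTop (𝓝 (sInf S)) := by
    refine tendsto_of_tendsto_of_tendsto_of_le_of_le (g := fun m : ℕ => sInf S - 1 / ((m : ℝ) + 1))
      (h := fun m : ℕ => sInf S + 2 * (1 / ((m : ℝ) + 1))) (by simpa using t0.const_sub (sInf S))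
      (by simpa using (t0.const_mul 2).const_add (sInf S)) (fun m => ?_) fun m => ?_
    · have := csInf_le hb ⟨hat (v m), rfl, sat_iff_res.2 (vc m), rfl⟩
      linarith [vo m]
    · have := hx m
      simp only [n1, Nat.not_lt_zero, if_false, sum_const_zero, add_zero, ss_res (z0 m) ho] at this
      have a := zo m
      have p : 0 < 1 / ((m : ℝ) + 1) := by positivity
      have : ss o (hat (x m)) ≤ ss o (z m) + 1 / ((m : ℝ) + 1) :=
        le_of_mul_le_mul_left (by nlinarith [Nat.cast_nonneg (α := ℝ) m])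
          (show (0 : ℝ) < 3 * (m + 1) by positivity)
      simp only; linarith
  have k := ((K3.key (by omega) (pol3_h c o 0) (γ := fun _ x => ss o (hat x))
    ((K3.Pol.lsum o fun q _ => (pol3_res q).pow 2).mono le_rfl le_rfl (by omega))
    (T := T) (x := x) (by simpa only [T2] using tend_one) (fun m => by rw [T2]; simp)
    (fun m => by rw [T2]; exact T1 _) (fun m => by rw [T2]; exact T0 _) ex hl).2 hμ).trans
      (by exact_mod_cast K3.HH_le _ _ : _ ≤ (2 : ℝ) ^ 2 ^ _)
  have p : 0 < sInf S := μ0.lt_of_ne' hμ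
  rw [abs_of_pos (inv_pos.2 p), inv_le_iff_one_le_mul₀' p] at k
  have := csInf_le hb ⟨u, h0, hu, rfl⟩
  have := mul_le_mul_of_nonneg_right this
    (show (0 : ℝ) ≤ 2 ^ 2 ^ (3 * n + ((c.length + o.length) * 12 + 1) + 13) by positivity)
  linarith

end Pool.Agent.H38.ER
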