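import Pool.Agent.H38.ER.Ball
import Pool.Agent.H38.NP.Graphs

/-!
Constraint systems and substitution of gadgets for constraints.
-/

namespace Pool.Agent.H38.ER

open Pool.Agent.H38.NP

abbrev Con := ℕ × List ℕ

structure Sem (X : Type) where
  Ok : X → Prop
  Ap : X → X → Prop
  R : ℕ → List X → Prop

variable {X : Type}

def Sem.sat (S : Sem X) (L : List Con) (q : ℕ → X) : Prop := ∀ c ∈ L, S.R c.1 (c.2.map q)

def Sem.gen (S : Sem X) (n : ℕ) (q : ℕ → X) : Prop :=
  (∀ i < n, S.Ok (q i)) ∧ ∀ i < n, ∀ j < n, i ≠ j → S.Ap (q i) (q j)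

def Sem.Rz (S : Sem X) (p : ℕ × List Con) (q : ℕ → X) : Prop := S.gen p.1 q ∧ S.sat p.2 q

def rn (k b : ℕ) (A : List ℕ) (i : ℕ) : ℕ := if i < k then A.getD i 0 else b + (i - k)

def inst (k b : ℕ) (Sk : List Con) (A : List ℕ) : List Con :=
  Sk.map fun c => (c.1, c.2.map (rn k b A))

def ex (k m : ℕ) (Sk : List Con) : ℕ → List Con → List Con
  | _, [] => []
  | b, A :: l => inst k b Sk A.2 ++ ex k m Sk (b + m) l

def subst (c k m : ℕ) (Sk : List Con) (p : ℕ × List Con) : ℕ × List Con :=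
  (p.1 + (p.2.filter fun x => x.1 == c).length * m,
    (p.2.filter fun x => x.1 != c) ++ ex k m Sk p.1 (p.2.filter fun x => x.1 == c))

/-- labels below `b`, arities given by `ar`, arguments below `n`, no loops -/
def WF (ar : ℕ → ℕ) (b : ℕ) (p : ℕ × List Con) : Prop :=
  ∀ c ∈ p.2, c.1 < b ∧ c.2.length = ar c.1 ∧ (∀ a ∈ c.2, a < p.1) ∧ (c.1 = 0 → c.2.Nodup)

def SkWF (ar : ℕ → ℕ) (c m : ℕ) (Sk : List Con) : Prop :=
  ∀ x ∈ Sk, x.1 < c ∧ x.2.length = ar x.1 ∧ (∀ a ∈ x.2, a < ar c + m) ∧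
    (x.1 = 0 → ∃ i j, x.2 = [i, j] ∧ i ≠ j ∧ (ar c ≤ i ∨ ar c ≤ j))

theorem ex_eq (k m Sk b l) : ex k m Sk b l =
    (List.range l.length).flatMap fun t => inst k (b + t * m) Sk (l.getD t (0, [])).2 := by
  induction l generalizing b with
  | nil => rfl
  | cons A l ih =>
    simp only [ex, ih, List.length_cons, List.range_succ_eq_map, List.flatMap_cons,
      List.flatMap_map, zero_mul, add_zero, List.getD_cons_zero, List.getD_cons_succ]
    congr 2; funext t; congr 1; simp only [Nat.succ_eq_add_one]; ring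

@[fun_prop] theorem pt_rn {α : Type} [Enc α] (k : ℕ) {b : α → ℕ} {A : α → List ℕ} {i : α → ℕ}
    (hb : PT b) (hA : PT A) (hi : PT i) : PT fun a => rn k (b a) (A a) (i a) := by
  unfold rn; fun_prop

@[fun_prop] theorem pt_inst {α : Type} [Enc α] (k : ℕ) (Sk : List Con) {b : α → ℕ}
    {A : α → List ℕ} (hb : PT b) (hA : PT A) : PT fun a => inst k (b a) Sk (A a) := by
  unfold inst; fun_prop

@[fun_prop] theorem pt_subst {α : Type} [Enc α] (c k m : ℕ) (Sk : List Con)
    {p : α → ℕ × List Con} (hp : PT p) : PT fun a => subst c k m Sk (p a) := by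
  unfold subst; simp only [ex_eq]; fun_prop

theorem mem_ex {k m Sk b l x} (h : x ∈ ex k m Sk b l) :
    ∃ t < l.length, ∃ A ∈ l, x ∈ inst k (b + t * m) Sk A.2 := by
  induction l generalizing b with
  | nil => simp [ex] at h
  | cons A l ih =>
    rcases List.mem_append.1 h with h | h
    · exact ⟨0, by simp, A, by simp, by simpa using h⟩
    · obtain ⟨t, ht, B, hB, h⟩ := ih h
      exact ⟨t + 1, by simpa using ht, B, by simp [hB], by rwa [add_mul, one_mul, add_comm _ m, ← add_assoc]⟩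

theorem ex_mem {k m Sk b l A} (h : A ∈ l) :
    ∃ t < l.length, inst k (b + t * m) Sk A.2 ⊆ ex k m Sk b l := by
  induction l generalizing b with
  | nil => simp at h
  | cons B l ih =>
    rcases List.mem_cons.1 h with rfl | h
    · exact ⟨0, by simp, by simp [ex]⟩
    · obtain ⟨t, ht, h⟩ := ih (b := b + m) h
      refine ⟨t + 1, by simpa using ht, ?_⟩
      rw [add_mul, one_mul, add_comm _ m, ← add_assoc]
      exact List.subset_append_of_subset_right _ h

theorem rn_lt {k b A i n} (hA : A.length = k) (h : ∀ a ∈ A, a < n) (hi : i < k) :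
    rn k b A i < n := by
  rw [rn, if_pos hi, List.getD_eq_getElem _ _ (by omega)]; exact h _ (List.getElem_mem _)

theorem rn_ge {k b A i} (hi : k ≤ i) : rn k b A i = b + (i - k) := if_neg (by omega)

theorem map_rn {k b A} (hA : List.length A = k) (q : ℕ → X) :
    (List.range k).map (fun i => q (rn k b A i)) = A.map q := by
  refine List.ext_getElem (by simp [hA]) fun i h1 h2 => ?_
  have hi : i < k := by simpa using h1
  simp only [List.getElem_map, List.getElem_range, rn, if_pos hi]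
  rw [List.getD_eq_getElem _ _ (by omega)]

theorem tm_le {t n m : ℕ} (h : t < n) : t * m + m ≤ n * m := by nlinarith

theorem WF.subst {ar c m Sk p} (h : WF ar (c + 1) p) (hs : SkWF ar c m Sk) :
    WF ar c (subst c (ar c) m Sk p) := by
  intro x hx
  rcases List.mem_append.1 hx with hx | hx
  · obtain ⟨hx, hc⟩ := List.mem_filter.1 hx
    obtain ⟨h1, h2, h3, h4⟩ := h x hx
    have : x.1 ≠ c := by simpa using hc
    exact ⟨by omega, h2, fun a ha => (h3 a ha).trans_le (Nat.le_add_right _ _), h4⟩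
  · obtain ⟨t, ht, A, hA, hx⟩ := mem_ex hx
    obtain ⟨hA, hc⟩ := List.mem_filter.1 hA
    have hc : A.1 = c := by simpa using hc
    obtain ⟨-, h2, h3, -⟩ := h A hA
    rw [hc] at h2
    obtain ⟨y, hy, rfl⟩ := List.mem_map.1 hx
    obtain ⟨g1, g2, g3, g4⟩ := hs y hy
    have := tm_le (m := m) ht
    refine ⟨g1, by simpa using g2, fun a ha => ?_, fun h0 => ?_⟩
    · obtain ⟨i, hi, rfl⟩ := List.mem_map.1 ha
      have := g3 i hi
      by_cases hk : i < ar c
      · exact (rn_lt h2 h3 hk).trans_le (Nat.le_add_right _ _)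
      · rw [rn_ge (by omega)]; simp only [Pool.Agent.H38.ER.subst]; omega
    · obtain ⟨i, j, e, hij, hk⟩ := g4 h0
      simp only [e, List.map_cons, List.map_nil, List.nodup_cons, List.mem_singleton,
        List.not_mem_nil, not_false_eq_true, List.nodup_nil, and_true]
      by_cases h1 : i < ar c <;> by_cases h1' : j < ar c
      · omega
      · have := rn_lt (b := p.1 + t * m) h2 h3 h1; rw [rn_ge (i := j) (by omega)]; omega
      · have := rn_lt (b := p.1 + t * m) h2 h3 h1'; rw [rn_ge (i := i) (by omega)]; omega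
      · rw [rn_ge (by omega), rn_ge (by omega)]; omega

theorem mem_subst {c k m Sk p} {x : Con} (h : x ∈ p.2) (hc : x.1 ≠ c) :
    x ∈ (subst c k m Sk p).2 :=
  List.mem_append_left _ (List.mem_filter.2 ⟨h, by simpa using hc⟩)

theorem le_subst {c k m Sk p} : p.1 ≤ (subst c k m Sk p).1 := Nat.le_add_right _ _

theorem sat_inst {S : Sem X} {k b Sk A q} :
    S.sat (inst k b Sk A) q ↔ S.sat Sk fun i => q (rn k b A i) := by
  simp only [Sem.sat, inst, List.forall_mem_map, List.map_map]; rfl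

/-- the gadget is sound -/
def Sem.GS (S : Sem X) (c k m : ℕ) (Sk : List Con) : Prop :=
  ∀ f : ℕ → X, (∀ i < k + m, S.Ok (f i)) →
    (∀ i < k + m, ∀ j < k + m, i ≠ j → k ≤ i ∨ k ≤ j → S.Ap (f i) (f j)) → S.sat Sk f →
    S.R c ((List.range k).map f)

/-- the gadget is complete -/
def Sem.GC (S : Sem X) (c k m : ℕ) (Sk : List Con) : Prop :=
  ∀ f : ℕ → X, S.R c ((List.range k).map f) → ∀ F : List X, (∀ x ∈ F, S.Ok x) →
    ∃ g : ℕ → X, (∀ i < m, S.Ok (g i) ∧ ∀ x ∈ F, S.Ap (g i) x) ∧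
      (∀ i < m, ∀ j < i, S.Ap (g i) (g j)) ∧ S.sat Sk fun i => if i < k then f i else g (i - k)

theorem Sem.sound {S : Sem X} {ar c m Sk p q b} (h : WF ar b p) (hs : S.GS c (ar c) m Sk)
    (hq : S.Rz (subst c (ar c) m Sk p) q) : S.Rz p q := by
  obtain ⟨⟨g1, g2⟩, g3⟩ := hq
  have hle := le_subst (c := c) (k := ar c) (m := m) (Sk := Sk) (p := p)
  refine ⟨⟨fun i hi => g1 i (by omega), fun i hi j hj => g2 i (by omega) j (by omega)⟩,
    fun A hA => ?_⟩
  by_cases hc : A.1 = c
  · obtain ⟨-, h2, h3, -⟩ := h A hA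
    rw [hc] at h2
    obtain ⟨t, ht, hsub⟩ := ex_mem (k := ar c) (m := m) (Sk := Sk) (b := p.1) (A := A)
      (l := p.2.filter fun x => x.1 == c) (List.mem_filter.2 ⟨hA, by simpa using hc⟩)
    have := tm_le (m := m) ht
    have hb : ∀ i < ar c + m, rn (ar c) (p.1 + t * m) A.2 i < (subst c (ar c) m Sk p).1 := by
      intro i hi
      by_cases hk : i < ar c
      · exact (rn_lt h2 h3 hk).trans_le hle
      · rw [rn_ge (by omega)]; simp only [subst]; omega
    rw [hc, ← map_rn (b := p.1 + t * m) h2]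
    refine hs _ (fun i hi => g1 _ (hb i hi)) (fun i hi j hj hij hk => g2 _ (hb i hi) _ (hb j hj) ?_)
      (sat_inst.1 fun x hx => g3 x (List.mem_append_right _ (hsub hx)))
    by_cases h1 : i < ar c <;> by_cases h1' : j < ar c
    · omega
    · have := rn_lt (b := p.1 + t * m) h2 h3 h1; rw [rn_ge (i := j) (by omega)]; omega
    · have := rn_lt (b := p.1 + t * m) h2 h3 h1'; rw [rn_ge (i := i) (by omega)]; omega
    · rw [rn_ge (by omega), rn_ge (by omega)]; omega
  · exact g3 A (mem_subst hA hc)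

theorem Sem.sat_congr {S : Sem X} {L q q' n} (h : S.sat L q) (hb : ∀ c ∈ L, ∀ a ∈ c.2, a < n)
    (e : ∀ i < n, q' i = q i) : S.sat L q' := fun c hc => by
  rw [List.map_congr_left fun a ha => e a (hb c hc a ha)]; exact h c hc

theorem Sem.ex_complete {S : Sem X} (sy : ∀ x y, S.Ap x y → S.Ap y x) {c k m Sk}
    (hb : ∀ x ∈ Sk, ∀ a ∈ x.2, a < k + m) (hs : S.GC c k m Sk) (l : List Con) :
    ∀ b q, S.gen b q → (∀ A ∈ l, A.2.length = k ∧ (∀ a ∈ A.2, a < b) ∧ S.R c (A.2.map q)) →
      ∃ q', (∀ i < b, q' i = q i) ∧ S.gen (b + l.length * m) q' ∧ S.sat (ex k m Sk b l) q' := by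
  induction l with
  | nil => exact fun b q h _ => ⟨q, fun _ _ => rfl, by simpa using h, by simp [Sem.sat, ex]⟩
  | cons A l ih =>
    intro b q hg h
    obtain ⟨h2, h3, h4⟩ := h A (by simp)
    rw [← map_rn (b := b) h2] at h4
    obtain ⟨g, g1, g2, g3⟩ := hs _ h4 ((List.range b).map q)
      (by simpa using hg.1)
    let q1 : ℕ → X := fun i => if i < b then q i else g (i - b)
    have e1 : ∀ i < b, q1 i = q i := fun i hi => if_pos hi
    have e2 : ∀ i, b ≤ i → q1 i = g (i - b) := fun i hi => if_neg (by omega)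
    have hg1 : S.gen (b + m) q1 := by
      refine ⟨fun i hi => ?_, fun i hi j hj hij => ?_⟩
      · by_cases h1 : i < b
        · rw [e1 i h1]; exact hg.1 i h1
        · rw [e2 i (by omega)]; exact (g1 _ (by omega)).1
      · by_cases h1 : i < b <;> by_cases h1' : j < b
        · rw [e1 i h1, e1 j h1']; exact hg.2 i h1 j h1' hij
        · rw [e1 i h1, e2 j (by omega)]
          exact sy _ _ ((g1 _ (by omega)).2 _ (List.mem_map.2 ⟨i, by simpa, rfl⟩))
        · rw [e1 j h1', e2 i (by omega)]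
          exact (g1 _ (by omega)).2 _ (List.mem_map.2 ⟨j, by simpa, rfl⟩)
        · rw [e2 i (by omega), e2 j (by omega)]
          rcases Nat.lt_or_gt_of_ne hij with h | h
          · exact sy _ _ (g2 _ (by omega) _ (by omega))
          · exact g2 _ (by omega) _ (by omega)
    obtain ⟨q', a1, a2, a3⟩ := ih (b + m) q1 hg1 fun B hB => by
      obtain ⟨b2, b3, b4⟩ := h B (by simp [hB])
      refine ⟨b2, fun a ha => by have := b3 a ha; omega, ?_⟩
      rwa [List.map_congr_left fun a ha => e1 a (b3 a ha)]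
    refine ⟨q', fun i hi => (a1 i (by omega)).trans (e1 i hi), ?_, fun x hx => ?_⟩
    · rwa [List.length_cons, add_mul, one_mul, add_comm _ m, ← add_assoc]
    · rcases List.mem_append.1 hx with hx | hx
      · refine sat_inst.2 (Sem.sat_congr g3 hb fun i hi => ?_) x hx
        by_cases hk : i < k
        · have := rn_lt (b := b) h2 h3 hk
          rw [if_pos hk, a1 _ (by omega), e1 _ this]
        · rw [if_neg hk, rn_ge (by omega), a1 _ (by omega), e2 _ (by omega)]; congr 1; omega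
      · exact a3 x hx

theorem Sem.complete {S : Sem X} (sy : ∀ x y, S.Ap x y → S.Ap y x) {ar c m Sk p q b}
    (h : WF ar b p) (hw : SkWF ar c m Sk) (hs : S.GC c (ar c) m Sk) (hq : S.Rz p q) :
    ∃ q', S.Rz (subst c (ar c) m Sk p) q' := by
  obtain ⟨q', a1, a2, a3⟩ := S.ex_complete sy (fun x hx => (hw x hx).2.2.1) hs
    (p.2.filter fun x => x.1 == c) p.1 q hq.1 fun A hA => by
      obtain ⟨hA, hc⟩ := List.mem_filter.1 hA
      have hc : A.1 = c := by simpa using hc
      obtain ⟨-, h2, h3, -⟩ := h A hA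
      exact ⟨hc ▸ h2, h3, hc ▸ hq.2 A hA⟩
  refine ⟨q', a2, fun x hx => ?_⟩
  rcases List.mem_append.1 hx with hx | hx
  · exact Sem.sat_congr hq.2 (fun c hc => (h c hc).2.2.1) a1 x (List.mem_filter.1 hx).1
  · exact a3 x hx

/-- the edge list of a system of binary constraints -/
def edges (L : List Con) : List (ℕ × ℕ) := L.map fun c => (c.2.getD 0 0, c.2.getD 1 0)

@[fun_prop] theorem pt_edges {α : Type} [Enc α] {L : α → List Con} (h : PT L) :
    PT fun a => edges (L a) := by unfold edges; fun_prop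

theorem edges_iff {ar p} (h : WF ar 1 p) (h2 : ar 0 = 2) {S : Sem X} {r : X → X → Prop}
    (sy : ∀ x y, r x y → r y x) (hr : ∀ x y, S.R 0 [x, y] ↔ r x y) (q : ℕ → X) :
    S.sat p.2 q ↔ ∀ u v : Fin p.1, (graphOf p.1 (edges p.2)).Adj u v → r (q u) (q v) := by
  have key : ∀ c ∈ p.2, ∃ i j, c = (0, [i, j]) ∧ i < p.1 ∧ j < p.1 ∧ i ≠ j := by
    rintro ⟨c, A⟩ hc
    obtain ⟨h1, h3, h4, h5⟩ := h _ hc
    obtain rfl : c = 0 := by simpa using h1
    rw [h2] at h3
    obtain ⟨i, j, rfl⟩ := List.length_eq_two.1 h3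
    exact ⟨i, j, rfl, h4 i (by simp), h4 j (by simp), by simpa using h5 rfl⟩
  constructor
  · intro hs u v huv
    have k2 : ∀ u v : ℕ, (u, v) ∈ edges p.2 → r (q u) (q v) := by
      intro u v h
      obtain ⟨c, hc, e⟩ := List.mem_map.1 h
      obtain ⟨i, j, rfl, -⟩ := key c hc
      obtain ⟨rfl, rfl⟩ : i = u ∧ j = v := by simpa using e
      exact (hr _ _).1 (hs _ hc)
    rcases (graphOf_adj.1 huv).2 with h | h
    · exact k2 _ _ h
    · exact sy _ _ (k2 _ _ h)
  · intro hs c hc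
    obtain ⟨i, j, rfl, hi, hj, hij⟩ := key c hc
    exact (hr _ _).2 (hs ⟨i, hi⟩ ⟨j, hj⟩ (graphOf_adj.2 ⟨by simpa using hij,
      Or.inl (List.mem_map.2 ⟨_, hc, rfl⟩)⟩))

end Pool.Agent.H38.ER
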