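import Pool.Agent.H38.ER.Geo
import Pool.Agent.H38.ER.Sub

/-!
Unit distance gadgets forcing the distance `√2` in Euclidean space of dimension at least three.
-/

namespace Pool.Agent.H38.ER

open Module Finset
open scoped RealInnerProductSpace

variable {E : Type} [NormedAddCommGroup E] [InnerProductSpace ℝ E]

noncomputable def val (n : ℕ) : ℕ → ℝ
  | 0 => 1
  | 1 => 2 + 2 / (n + 1 : ℝ)
  | 2 => 2 + 2 / (n + 1 : ℝ)
  | _ => 2

def sL (E : Type) [NormedAddCommGroup E] (n : ℕ) (g : Prop) : Sem E :=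
  ⟨fun _ => True, fun x y => g → x ≠ y, fun c l => match l with
    | [x, y] => (c = 1 ∧ x = y) ∨ ‖x - y‖ ^ 2 = val n c
    | _ => True⟩

def cL (E : Type) [NormedAddCommGroup E] (n : ℕ) (g : Prop) : Sem E :=
  ⟨fun _ => True, fun x y => g → x ≠ y, fun c l => match l with
    | [x, y] => ‖x - y‖ ^ 2 = val n c
    | _ => True⟩

def smp (x b n : ℕ) : List Con :=
  (List.range n).flatMap fun i => (0, [x, b + i]) :: (List.range i).map fun j => (0, [b + i, b + j])

def apx (a b n : ℕ) : List Con := (List.range n).map fun i => (0, [a, b + i])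

def skW (n : ℕ) : List Con := smp 2 3 n ++ apx 0 3 n ++ apx 1 3 n ++ [(0, [0, 2]), (0, [1, 2])]

def skD : List Con := [(1, [0, 1]), (1, [0, 2]), (0, [1, 2])]

def skR (n : ℕ) : List Con := smp 1 5 n ++ apx 2 5 n ++ apx 3 5 n ++ apx 4 5 n ++
  [(0, [2, 1]), (0, [3, 1]), (2, [3, 2]), (0, [4, 2]), (2, [4, 1]), (0, [0, 2]), (0, [0, 4]),
    (2, [0, 3])]

theorem skW_wf (n) : SkWF (fun _ => 2) 1 (n + 1) (skW n) := by
  simp only [SkWF, skW, smp, apx, List.forall_mem_append, List.forall_mem_flatMap,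
    List.forall_mem_map, List.forall_mem_cons, List.mem_range]
  simp
  and_intros <;> intros <;> and_intros <;> intros <;> omega
theorem skD_wf : SkWF (fun _ => 2) 2 1 skD := by simp [SkWF, skD]
theorem skR_wf (n) : SkWF (fun _ => 2) 3 (n + 3) (skR n) := by
  simp only [SkWF, skR, smp, apx, List.forall_mem_append, List.forall_mem_flatMap,
    List.forall_mem_map, List.forall_mem_cons, List.mem_range]
  simp
  and_intros <;> intros <;> and_intros <;> intros <;> omega

theorem val_gt (n : ℕ) : 2 < val n 2 := by simp only [val]; linarith [show 0 < 2 / (n + 1 : ℝ) by positivity]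

theorem w_s [FiniteDimensional ℝ E] {n g} (hd : finrank ℝ E = n + 1) :
    (sL E n g).GS 1 2 (n + 1) (skW n) := by
  intro f _ _ h
  simp only [Sem.sat, skW, smp, apx, List.forall_mem_append, List.forall_mem_flatMap,
    List.forall_mem_map, List.forall_mem_cons, List.mem_range, sL, List.map_cons, List.map_nil,
    val, zero_ne_one, false_and, false_or, List.range_succ, List.range_zero, List.nil_append,
    List.cons_append, true_and] at h ⊢
  obtain ⟨⟨⟨h1, h2⟩, h3⟩, h4, h5, -⟩ := h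
  exact (apex hd (f 2) (fun i => f (3 + i)) (fun i hi => (h1 i hi).1) (fun i hi => (h1 i hi).2)
    h4 h5 h2 h3).imp_right And.right

theorem d_s {n g} : (sL E n g).GS 2 2 1 skD := by
  intro f _ _ h
  simp only [Sem.sat, skD, List.forall_mem_cons, sL, List.map_cons, List.map_nil,
    zero_ne_one, false_and, false_or, List.range_succ, List.range_zero, List.nil_append,
    List.cons_append, true_and] at h ⊢
  obtain ⟨h1, h2, h3, -⟩ := h
  refine Or.inr (h1.resolve_left fun e => ?_)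
  have := val_gt n
  rw [← e] at h3
  rcases h2 with h2 | h2
  · rw [h2] at h3; simp [val] at h3
  · rw [h3] at h2; simp only [val] at h2 this; linarith

theorem r_s [FiniteDimensional ℝ E] {n g} (hd : finrank ℝ E = n + 1) :
    (sL E n g).GS 3 2 (n + 3) (skR n) := by
  intro f _ _ h
  have hv := val_gt n
  simp only [Sem.sat, skR, smp, apx, List.forall_mem_append, List.forall_mem_flatMap,
    List.forall_mem_map, List.forall_mem_cons, List.mem_range, sL, List.map_cons, List.map_nil,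
    val, zero_ne_one, false_and, false_or, List.range_succ, List.range_zero, List.nil_append,
    List.cons_append, OfNat.ofNat_ne_one] at h hv ⊢
  obtain ⟨⟨⟨⟨h1, h2⟩, h3⟩, h4⟩, a1, a2, a3, a4, a5, a6, a7, a8, -⟩ := h
  have k1 := (apex hd (f 1) (fun i => f (5 + i)) (fun i hi => (h1 i hi).1) (fun i hi => (h1 i hi).2)
    a2 a1 h3 h2).resolve_left fun e => by rw [e] at a3; simp at a3; linarith
  have k2 := (apex hd (f 2) (fun i => f (5 + i)) h2 (fun i hi => (h1 i hi).2)
    a4 (by rwa [norm_sub_rev]) h4 (fun i hi => (h1 i hi).1)).resolve_left fun e => by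
      rw [e] at a5; simp at a5; linarith
  have e : f 3 - f 2 = (f 4 - f 2) + (1 + 2 / (n + 1 : ℝ)) • (f 1 - f 2) := by
    linear_combination (norm := module) k1.1 - k2.1
  have i1 := inner_of_sq a6 a4 (c := 1) (by rwa [sub_sub_sub_cancel_right])
  have i2 := inner_of_sq a6 a3 (c := 2 + 2 / (n + 1 : ℝ)) (by rwa [sub_sub_sub_cancel_right])
  rw [e, inner_add_right, real_inner_smul_right, i1] at i2
  have i3 : ⟪f 0 - f 2, f 1 - f 2⟫ = 0 :=
    mul_left_cancel₀ (show 1 + 2 / (n + 1 : ℝ) ≠ 0 by positivity) (by linarith)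
  rw [← sub_sub_sub_cancel_right _ _ (f 2), norm_sub_sq_real, i3, a6, norm_sub_rev, a1]; ring

theorem gc_model [FiniteDimensional ℝ E] (hd : 3 ≤ finrank ℝ E) {n g c m Sk} (q : ℕ → E)
    (hs : (cL E n g).sat Sk q) (h01 : ‖q 0 - q 1‖ ^ 2 = val n c)
    (inj : ∀ i < m, ∀ j < i, q (2 + i) ≠ q (2 + j))
    (off : ∀ i < m, ∀ μ : ℝ, q (2 + i) - q 0 ≠ μ • (q 1 - q 0)) : (cL E n g).GC c 2 m Sk := by
  intro f hf F _
  have hf : ‖f 0 - f 1‖ ^ 2 = val n c := hf
  obtain ⟨T, t1, t2, t3, t4⟩ := rot hd (a := f 0) (b := f 1) (a0 := q 0) (b0 := q 1)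
    (by rw [norm_sub_rev, norm_sub_rev (f 1)]
        exact (pow_left_inj₀ (norm_nonneg _) (norm_nonneg _) two_ne_zero).1 (h01.trans hf.symm))
    m (fun i => q (2 + i)) off F
  refine ⟨fun i => T (q (2 + i)), fun i hi => ⟨trivial, fun x hx _ => t4 i hi x hx⟩,
    fun i hi j hj _ e => inj i hi j hj ?_, fun x hx => ?_⟩
  · have := t1 (q (2 + i)) (q (2 + j))
    rw [show T (q (2 + i)) = T (q (2 + j)) from e, sub_self, norm_zero] at this
    exact sub_eq_zero.1 (norm_eq_zero.1 this.symm)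
  · have e : (fun i => if i < 2 then f i else T (q (2 + (i - 2)))) = T ∘ q := by
      funext i
      split_ifs with h
      · interval_cases i <;> simp [t2, t3]
      · simp only [Function.comp]; congr 2; omega
    rw [e, ← List.map_map]
    have := hs x hx
    generalize x.2.map q = l at this
    match l, this with
    | [], _ => trivial
    | [_], _ => trivial
    | [u, v], h => exact (congrArg (· ^ 2) (t1 u v)).trans h
    | _ :: _ :: _ :: _, _ => trivial

theorem ne_of_sq {x y : E} {c : ℝ} (h : ‖x - y‖ ^ 2 = c) (hc : c ≠ 0) : x ≠ y := by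
  rintro rfl; simp at h; exact hc h.symm

section
variable {n : ℕ} {v : ℕ → E} (hv : ∀ i < n + 1, ∀ j < n + 1, ⟪v i, v j⟫ = if i = j then 1 else 1 / 2)
include hv

theorem sx1 (i) (hi : i < n) : ⟪v (i + 1), ∑ j ∈ range n, v (j + 1)⟫ = (n + 1) / 2 := by
  rw [inner_sum, sum_congr rfl (g := fun j => (if j = i then 1 / 2 else 0) + 1 / 2)]
  · rw [sum_add_distrib, sum_ite_eq', if_pos (mem_range.2 hi)]; simp; ring
  · intro j hj
    rw [hv _ (by omega) _ (by have := mem_range.1 hj; omega)]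
    split_ifs <;> first | (exfalso; omega) | ring

theorem sx0 : ⟪v 0, ∑ j ∈ range n, v (j + 1)⟫ = n / 2 := by
  rw [inner_sum, sum_congr rfl (g := fun j => 1 / 2)]
  · simp; ring
  · intro j hj
    rw [hv _ (by omega) _ (by have := mem_range.1 hj; omega), if_neg (by omega)]

theorem sxx : ⟪∑ j ∈ range n, v (j + 1), ∑ j ∈ range n, v (j + 1)⟫ = n * (n + 1) / 2 := by
  rw [sum_inner, sum_congr rfl fun i hi => sx1 hv i (mem_range.1 hi)]; simp; ring

theorem nA (hn : 2 ≤ n) (x y w : ℝ) : ‖x • v 0 + y • ∑ j ∈ range n, v (j + 1) + w • (v 1 - v 2)‖ ^ 2 =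
    x ^ 2 + x * y * n + y ^ 2 * (n * (n + 1) / 2) + w ^ 2 := by
  have h1 := sx1 hv 0 (by omega); have h2 := sx1 hv 1 (by omega)
  have h3 := sx0 hv; have h4 := sxx hv
  simp only [zero_add, Nat.reduceAdd] at h1 h2
  generalize ∑ j ∈ range n, v (j + 1) = σ at *
  rw [← real_inner_self_eq_norm_sq]
  simp only [inner_add_left, inner_add_right, inner_sub_left, inner_sub_right, real_inner_smul_left,
    real_inner_smul_right, real_inner_comm (v _) σ, h1, h2, h3, h4]
  rw [hv 0 (by omega) 0 (by omega), hv 0 (by omega) 1 (by omega), hv 0 (by omega) 2 (by omega),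
    hv 1 (by omega) 0 (by omega), hv 1 (by omega) 1 (by omega), hv 1 (by omega) 2 (by omega),
    hv 2 (by omega) 0 (by omega), hv 2 (by omega) 1 (by omega), hv 2 (by omega) 2 (by omega)]
  simp; ring

theorem nB (x y : ℝ) (i) (hi : i < n) : ‖x • v 0 + y • ∑ j ∈ range n, v (j + 1) - v (i + 1)‖ ^ 2 =
    x ^ 2 + x * y * n + y ^ 2 * (n * (n + 1) / 2) - x - y * (n + 1) + 1 := by
  have h1 := sx1 hv i hi
  have h3 := sx0 hv; have h4 := sxx hv
  generalize ∑ j ∈ range n, v (j + 1) = σ at *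
  rw [← real_inner_self_eq_norm_sq]
  simp only [inner_add_left, inner_add_right, inner_sub_left, inner_sub_right, real_inner_smul_left,
    real_inner_smul_right, real_inner_comm (v _) σ, h1, h3, h4]
  rw [hv 0 (by omega) 0 (by omega), hv 0 (by omega) (i + 1) (by omega),
    hv (i + 1) (by omega) 0 (by omega), hv (i + 1) (by omega) (i + 1) (by omega)]
  simp; ring

theorem nC (i) (hi : i < n + 1) (j) (hj : j < n + 1) (h : i ≠ j) : ‖v i - v j‖ ^ 2 = 1 := by
  rw [norm_sub_sq_real, ← real_inner_self_eq_norm_sq, ← real_inner_self_eq_norm_sq, hv i hi i hi,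
    hv i hi j hj, hv j hj j hj]; simp [h]

theorem w_c [FiniteDimensional ℝ E] (hd : 3 ≤ finrank ℝ E) (hn : 2 ≤ n) {g} :
    (cL E n g).GC 1 2 (n + 1) (skW n) := by
  have n0 : (n + 1 : ℝ) ≠ 0 := by positivity
  set σ := ∑ j ∈ range n, v (j + 1) with hσ
  set κ : ℝ := 2 / (n + 1) with hκ
  let q : ℕ → E := fun i => if i = 0 then 0 else if i = 1 then κ • v 0 + κ • σ else v (i - 2)
  have q0 : q 0 = 0 := rfl
  have q1 : q 1 = κ • v 0 + κ • σ := rfl
  have q2 : ∀ i, q (2 + i) = v i := fun i => by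
    simp only [q]; rw [if_neg (by omega), if_neg (by omega)]; congr 1; omega
  have q3 : ∀ i, q (3 + i) = v (i + 1) := fun i => by rw [← q2]; congr 1; omega
  have nv : ∀ i < n + 1, ‖0 - v i‖ ^ 2 = 1 := fun i hi => by
    rw [zero_sub, norm_neg, ← real_inner_self_eq_norm_sq, hv i hi i hi, if_pos rfl]
  have h01 : ‖q 0 - q 1‖ ^ 2 = val n 1 := by
    rw [q0, q1, zero_sub, norm_neg, show κ • v 0 + κ • σ = κ • v 0 + κ • σ + (0 : ℝ) • (v 1 - v 2) by
      simp, nA hv hn, hκ]; simp only [val]; field_simp; ring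
  have b1 : ∀ i < n + 1, ‖q 1 - v i‖ ^ 2 = 1 := fun i hi => by
    rcases i with _ | i
    · rw [q1, show κ • v 0 + κ • σ - v 0 = (κ - 1) • v 0 + κ • σ + (0 : ℝ) • (v 1 - v 2) by module,
        nA hv hn, hκ]; field_simp; ring
    · rw [q1, nB hv _ _ i (by omega), hκ]; field_simp; ring
  refine gc_model hd q ?_ h01 (fun i hi j hj => ?_) fun i hi μ e => ?_
  · simp only [Sem.sat, skW, smp, apx, List.forall_mem_append, List.forall_mem_flatMap,
      List.forall_mem_map, List.forall_mem_cons, List.mem_range, cL, List.map_cons, List.map_nil,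
      val, q3, q0, show q 2 = v 0 from rfl]
    exact ⟨⟨⟨fun i hi => ⟨nC hv _ (by omega) _ (by omega) (by omega), fun j hj =>
      nC hv _ (by omega) _ (by omega) (by omega)⟩, fun i hi => nv _ (by omega)⟩,
      fun i hi => b1 _ (by omega)⟩, nv _ (by omega), b1 _ (by omega), by simp⟩
  · rw [q2, q2]; exact ne_of_sq (nC hv _ (by omega) _ (by omega) (by omega)) one_ne_zero
  · have s0 := stew (o := q 0) e
    have s1 := stew (o := q 1) e
    have hv2 := val_gt n
    rw [norm_sub_rev (q 1), h01, q2, norm_sub_rev (v i), q0, nv i hi] at s0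
    rw [h01, q2, norm_sub_rev (v i), b1 i hi] at s1
    simp only [val, sub_self, norm_zero] at s0 s1 hv2
    have hle : 2 / (n + 1 : ℝ) ≤ 2 / 3 := by
      have : (2 : ℝ) ≤ n := by exact_mod_cast hn
      gcongr; linarith
    have : μ = 1 / 2 := mul_left_cancel₀ (show 2 * (2 + 2 / (n + 1 : ℝ)) ≠ 0 by positivity)
      (by linear_combination s1 - s0)
    rw [this] at s0; linarith

theorem d_c [FiniteDimensional ℝ E] (hd : 3 ≤ finrank ℝ E) (hn : 2 ≤ n) {g} :
    (cL E n g).GC 2 2 1 skD := by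
  have hv2 := val_gt n
  obtain ⟨β, hβ⟩ : ∃ β : ℝ, 3 * β ^ 2 + 3 * β + 1 = val n 2 := by
    have := Real.sq_sqrt (show 0 ≤ 12 * val n 2 - 3 by linarith)
    exact ⟨(√(12 * val n 2 - 3) - 3) / 6, by linear_combination this / 12⟩
  have nn : ∀ x y : ℝ, ‖x • v 0 + y • v 1‖ ^ 2 = x ^ 2 + x * y + y ^ 2 := fun x y => by
    rw [← real_inner_self_eq_norm_sq]
    simp only [inner_add_left, inner_add_right, real_inner_smul_left, real_inner_smul_right]
    rw [hv 0 (by omega) 0 (by omega), hv 0 (by omega) 1 (by omega),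
      hv 1 (by omega) 0 (by omega), hv 1 (by omega) 1 (by omega)]
    simp; ring
  let q : ℕ → E := fun i => if i = 0 then 0 else if i = 1 then (β + 1) • v 0 + β • v 1
    else β • v 0 + (β + 1) • v 1
  have h1 : ‖q 0 - q 1‖ ^ 2 = val n 2 := by simp only [q]; simp [nn, -neg_add_rev]; linarith
  have h2 : ‖q 0 - q 2‖ ^ 2 = val n 2 := by simp only [q]; simp [nn, -neg_add_rev]; linarith
  have h3 : ‖q 1 - q 2‖ ^ 2 = 1 := by
    rw [show q 1 - q 2 = (1 : ℝ) • v 0 + (-1 : ℝ) • v 1 by simp only [q]; simp; module, nn]; ring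
  refine gc_model hd q ?_ h1 (fun i hi j hj => by omega) fun i hi μ e => ?_
  · simp only [Sem.sat, skD, List.forall_mem_cons, cL, List.map_cons, List.map_nil]
    exact ⟨h1, h2, h3, by simp⟩
  · obtain rfl : i = 0 := by omega
    have s0 := stew (o := q 0) e
    have s1 := stew (o := q 1) e
    rw [norm_sub_rev (q 1), h1, norm_sub_rev (q 2), h2] at s0
    rw [h1, norm_sub_rev (q 2), h3] at s1
    simp only [sub_self, norm_zero] at s0 s1
    have : μ ^ 2 = 1 := mul_left_cancel₀ (show val n 2 ≠ 0 by linarith) (by linear_combination -s0)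
    rcases sq_eq_one_iff.1 this with rfl | rfl <;> linarith

theorem r_c [FiniteDimensional ℝ E] (hd : 3 ≤ finrank ℝ E) (hn : 2 ≤ n) {g} :
    (cL E n g).GC 3 2 (n + 3) (skR n) := by
  have hv2 := val_gt n
  have n2 : (2 : ℝ) ≤ n := by exact_mod_cast hn
  have n0 : (n + 1 : ℝ) ≠ 0 := by positivity
  have n1 : (n : ℝ) ≠ 0 := by positivity
  have n3 : (n + 2 : ℝ) ≠ 0 := by positivity
  set σ := ∑ j ∈ range n, v (j + 1) with hσ
  set κ : ℝ := 2 / (n + 1) with hκ
  set β : ℝ := (n + 1) / (n * (n + 2)) with hβ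
  obtain ⟨γ, hγ⟩ : ∃ γ : ℝ, γ ^ 2 = 1 - β * (n + 1) / 4 := by
    refine ⟨√_, Real.sq_sqrt ?_⟩
    rw [hβ, sub_nonneg, div_le_one (by norm_num), div_mul_eq_mul_div, div_le_iff₀ (by positivity)]
    nlinarith
  let q : ℕ → E := fun i => if i = 0 then (-β * n / 2) • v 0 + β • σ + γ • (v 1 - v 2)
    else if i = 1 then v 0 else if i = 2 then 0 else if i = 3 then κ • v 0 + κ • σ
    else if i = 4 then (-1 : ℝ) • v 0 + κ • σ else v (i - 4)
  have q5 : ∀ i, q (5 + i) = v (i + 1) := fun i => by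
    simp only [q]
    rw [if_neg (by omega), if_neg (by omega), if_neg (by omega), if_neg (by omega), if_neg (by omega)]
    congr 1; omega
  have key : ∀ i j (x y w : ℝ), q i - q j = x • v 0 + y • σ + w • (v 1 - v 2) → ‖q i - q j‖ ^ 2 =
      x ^ 2 + x * y * n + y ^ 2 * (n * (n + 1) / 2) + w ^ 2 := fun i j x y w e => by
    rw [e, nA hv hn]
  have a1 : ‖q 2 - q 1‖ ^ 2 = 1 := by
    rw [key 2 1 (-1) 0 0 (by simp [q])]; ring
  have a2 : ‖q 3 - q 1‖ ^ 2 = 1 := by
    rw [key 3 1 (κ - 1) κ 0 (by simp [q]; module), hκ]; field_simp; ring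
  have a3 : ‖q 3 - q 2‖ ^ 2 = val n 2 := by
    rw [key 3 2 κ κ 0 (by simp [q]), hκ]; simp only [val]; field_simp; ring
  have a4 : ‖q 4 - q 2‖ ^ 2 = 1 := by
    rw [key 4 2 (-1) κ 0 (by simp [q]), hκ]; field_simp; ring
  have a5 : ‖q 4 - q 1‖ ^ 2 = val n 2 := by
    rw [key 4 1 (-2) κ 0 (by simp [q]; module), hκ]; simp only [val]; field_simp; ring
  have a6 : ‖q 0 - q 2‖ ^ 2 = 1 := by
    rw [key 0 2 (-β * n / 2) β γ (by simp [q]), hγ, hβ]; field_simp; ring
  have a7 : ‖q 0 - q 4‖ ^ 2 = 1 := by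
    rw [key 0 4 (-β * n / 2 + 1) (β - κ) γ (by simp [q]; module), hγ, hβ, hκ]; field_simp; ring
  have a8 : ‖q 0 - q 3‖ ^ 2 = val n 2 := by
    rw [key 0 3 (-β * n / 2 - κ) (β - κ) γ (by simp [q]; module), hγ, hβ, hκ]
    simp only [val]; field_simp; ring
  have a9 : ‖q 0 - q 1‖ ^ 2 = 2 := by
    rw [key 0 1 (-β * n / 2 - 1) β γ (by simp [q]; module), hγ, hβ]; field_simp; ring
  have b1 : ∀ i < n, ‖q 1 - q (5 + i)‖ ^ 2 = 1 := fun i hi => by
    rw [q5]; exact nC hv 0 (by omega) _ (by omega) (by omega)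
  have b2 : ∀ i < n, ‖q 2 - q (5 + i)‖ ^ 2 = 1 := fun i hi => by
    rw [q5, show q 2 = (0 : ℝ) • v 0 + (0 : ℝ) • σ by simp [q], nB hv _ _ i hi]; ring
  have b3 : ∀ i < n, ‖q 3 - q (5 + i)‖ ^ 2 = 1 := fun i hi => by
    rw [q5, show q 3 = κ • v 0 + κ • σ from rfl, nB hv _ _ i hi, hκ]; field_simp; ring
  have b4 : ∀ i < n, ‖q 4 - q (5 + i)‖ ^ 2 = 1 := fun i hi => by
    rw [q5, show q 4 = (-1 : ℝ) • v 0 + κ • σ from rfl, nB hv _ _ i hi, hκ]; field_simp; ring
  have b5 : ∀ i < n, ∀ j < i, ‖q (5 + i) - q (5 + j)‖ ^ 2 = 1 := fun i hi j hj => by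
    rw [q5, q5]; exact nC hv _ (by omega) _ (by omega) (by omega)
  refine gc_model hd q ?_ a9 (fun i hi j hj => ?_) fun i hi μ e => ?_
  · simp only [Sem.sat, skR, smp, apx, List.forall_mem_append, List.forall_mem_flatMap,
      List.forall_mem_map, List.forall_mem_cons, List.mem_range, cL, List.map_cons, List.map_nil]
    exact ⟨⟨⟨⟨fun i hi => ⟨b1 i hi, b5 i hi⟩, b2⟩, b3⟩, b4⟩, a1, a2, a3, a4, a5, a6, a7, a8, by simp⟩
  · by_cases h : i < 3
    · interval_cases i <;> interval_cases j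
      · exact ne_of_sq a3 (by linarith)
      · exact ne_of_sq a4 one_ne_zero
      · intro e
        rw [show q 4 = q 3 from e, a3] at a4; linarith
    · obtain ⟨i, rfl⟩ : ∃ k, i = 3 + k := ⟨i - 3, by omega⟩
      rw [show 2 + (3 + i) = 5 + i by omega]
      by_cases h : j < 3
      · interval_cases j
        · exact (ne_of_sq (b2 i (by omega)) one_ne_zero).symm
        · exact (ne_of_sq (b3 i (by omega)) one_ne_zero).symm
        · exact (ne_of_sq (b4 i (by omega)) one_ne_zero).symm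
      · rw [show 2 + j = 5 + (j - 3) by omega]
        exact ne_of_sq (b5 i (by omega) _ (by omega)) one_ne_zero
  · have s0 := stew (o := q 0) e
    have s1 := stew (o := q 1) e
    have s2 := stew (o := q 2) e
    rw [norm_sub_rev (q 1), a9] at s0
    rw [a9] at s1
    rw [a9, a6, norm_sub_rev (q 1), a1] at s2
    simp only [sub_self (q 0), sub_self (q 1), norm_zero] at s0 s1
    by_cases h : i < 3
    · interval_cases i
      · rw [sub_self, norm_zero] at s2; nlinarith [sq_nonneg (2 * μ - 1)]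
      · rw [norm_sub_rev, a8] at s0; rw [a2] at s1; rw [a3] at s2; nlinarith
      · rw [norm_sub_rev, a7] at s0; rw [a5] at s1; rw [a4] at s2; nlinarith
    · rw [show 2 + i = 5 + (i - 3) by omega, norm_sub_rev] at s1 s2
      rw [b1 _ (by omega)] at s1; rw [b2 _ (by omega)] at s2
      have : μ = 1 / 2 := by nlinarith
      rw [this] at s1; norm_num at s1
end

end Pool.Agent.H38.ER
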