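import Pool.Agent.H38.NP.Api
import Pool.Agent.H38.ER.Defs

/-!
Recognising codes of formulas; the working notion of hardness.
-/

namespace Pool.Agent.H38.ER

open Pool.Agent.H38.NP

abbrev Tok := ℕ × Bits

def conv (t : ℕ × Bin) : Tok := (t.1, ⟨t.2.val.bits⟩)

def Tm.tk (s : Tm) : List Tok := s.code.map conv
def Fm.tk (s : Fm) : List Tok := s.code.map conv

theorem enc_map_conv (l : List (ℕ × Bin)) : enc (l.map conv) = enc l := by
  induction l with
  | nil => rfl
  | cons a l ih => rw [List.map_cons, enc_cons, enc_cons, ih]; rfl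

theorem enc_tk (φ : Fm) : enc φ.tk = enc φ := enc_map_conv _

def sig (k : ℕ) : List Bool × Bool :=
  [([], false), ([], false), ([false, false], false), ([false, false], false), ([false], false),
    ([false, false], true), ([false, false], true), ([true, true], true), ([true, true], true),
    ([true], true)].getD k ([], false)

def okTok (t : Tok) : Bool :=
  decide (t.1 < 10) && cond (decide (t.1 ≤ 1)) (t.2.val.getLast? != some false) t.2.val.isEmpty

def tstep (s : Option (List Bool)) (t : Tok) : Option (List Bool) :=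
  s.bind fun st => cond (okTok t && (st.take (sig t.1).1.length == (sig t.1).1))
    (some ((sig t.1).2 :: st.drop (sig t.1).1.length)) none

theorem exists_bits (w : List Bool) (h : w.getLast? ≠ some false) : ∃ n : ℕ, n.bits = w := by
  induction w with
  | nil => exact ⟨0, rfl⟩
  | cons b w ih =>
    rcases w with _ | ⟨c, w⟩
    · cases b
      · simp at h
      · exact ⟨1, by simp⟩
    · obtain ⟨n, hn⟩ := ih (by simpa [List.getLast?_cons_cons] using h)
      refine ⟨Nat.bit b n, ?_⟩
      rw [Nat.bits_append_bit _ _ (fun h0 => by subst h0; simp at hn), hn]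

theorem bits_last (n : ℕ) : n.bits.getLast? ≠ some false := by
  induction n using Nat.binaryRec' with
  | zero => simp
  | bit b n h ih =>
    rw [Nat.bits_append_bit _ _ h]
    rcases hn : n.bits with _ | ⟨c, w⟩
    · have : n = 0 := by
        by_contra h0
        have := Nat.size_eq_bits_len n
        rw [hn] at this
        exact h0 (Nat.size_eq_zero.1 this.symm)
      simp [h this]
    · rw [hn] at ih; simpa [List.getLast?_cons_cons] using ih

def icode : Tm ⊕ Fm → List Tok
  | .inl s => s.tk
  | .inr φ => φ.tk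

theorem parse (l : List Tok) : ∀ ts, l.foldl tstep (some []) = some ts →
    ∃ it : List (Tm ⊕ Fm), it.map Sum.isRight = ts ∧ l = it.reverse.flatMap icode := by
  induction l using List.reverseRecOn with
  | nil => intro ts h; exact ⟨[], by simpa using h, rfl⟩
  | append_singleton l t ih =>
    intro ts h
    rw [List.foldl_append, List.foldl_cons, List.foldl_nil] at h
    rcases hs : l.foldl tstep (some []) with _ | st
    · rw [hs] at h; simp [tstep] at h
    obtain ⟨it, rfl, rfl⟩ := ih _ hs
    rw [hs] at h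
    obtain ⟨k, ⟨w⟩⟩ := t
    simp only [tstep, Option.bind_some, Bool.cond_eq_ite, Bool.and_eq_true, okTok,
      decide_eq_true_eq, beq_iff_eq, Option.ite_none_right_eq_some, Option.some.injEq] at h
    obtain ⟨⟨⟨hk, hw⟩, ht⟩, rfl⟩ := h
    by_cases h1 : k ≤ 1
    · simp only [h1, if_true, bne_iff_ne] at hw
      obtain ⟨n, rfl⟩ := exists_bits w hw
      interval_cases k
      · exact ⟨.inl (.var n) :: it, by simp [sig], by simp [icode, Tm.tk, Tm.code, conv]⟩
      · exact ⟨.inl (.num n) :: it, by simp [sig], by simp [icode, Tm.tk, Tm.code, conv]⟩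
    · simp only [h1, if_false, List.isEmpty_iff] at hw
      subst hw
      rcases it with _ | ⟨b, it⟩
      · interval_cases k <;> simp [sig] at ht h1
      by_cases h4 : k = 4 ∨ k = 9
      · rcases h4 with rfl | rfl <;> rcases b with b | b <;> simp [sig] at ht
        · exact ⟨.inl (.neg b) :: it, by simp [sig], by simp [icode, Tm.tk, Tm.code, conv]⟩
        · exact ⟨.inr (.not b) :: it, by simp [sig], by simp [icode, Fm.tk, Fm.code, conv]⟩
      rcases it with _ | ⟨a, it⟩
      · interval_cases k <;> simp [sig] at ht h1 h4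
      interval_cases k <;> rcases a with a | a <;> rcases b with b | b <;> simp [sig] at ht h1 h4
      · exact ⟨.inl (.add a b) :: it, by simp [sig], by simp [icode, Tm.tk, Tm.code, conv]⟩
      · exact ⟨.inl (.mul a b) :: it, by simp [sig], by simp [icode, Tm.tk, Tm.code, conv]⟩
      · exact ⟨.inr (.lt a b) :: it, by simp [sig], by simp [icode, Tm.tk, Fm.tk, Fm.code, conv]⟩
      · exact ⟨.inr (.eq a b) :: it, by simp [sig], by simp [icode, Tm.tk, Fm.tk, Fm.code, conv]⟩
      · exact ⟨.inr (.and a b) :: it, by simp [sig], by simp [icode, Fm.tk, Fm.code, conv]⟩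
      · exact ⟨.inr (.or a b) :: it, by simp [sig], by simp [icode, Fm.tk, Fm.code, conv]⟩

theorem chk_tm (s : Tm) : ∀ st, s.tk.foldl tstep (some st) = some (false :: st) := by
  induction s with
  | var i => intro st; simp [Tm.tk, Tm.code, conv, tstep, okTok, sig, bits_last, Bool.cond_eq_ite]
  | num i => intro st; simp [Tm.tk, Tm.code, conv, tstep, okTok, sig, bits_last, Bool.cond_eq_ite]
  | add s t hs ht =>
    intro st; simp only [Tm.tk] at *; simp [Tm.code, hs, ht, conv, tstep, okTok, sig]
  | mul s t hs ht =>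
    intro st; simp only [Tm.tk] at *; simp [Tm.code, hs, ht, conv, tstep, okTok, sig]
  | neg s hs => intro st; simp only [Tm.tk] at *; simp [Tm.code, hs, conv, tstep, okTok, sig]

theorem chk_fm (s : Fm) : ∀ st, s.tk.foldl tstep (some st) = some (true :: st) := by
  have h := chk_tm
  simp only [Tm.tk] at h
  induction s with
  | lt s t => intro st; simp [Fm.tk, Fm.code, h, conv, tstep, okTok, sig]
  | eq s t => intro st; simp [Fm.tk, Fm.code, h, conv, tstep, okTok, sig]
  | and s t hs ht =>
    intro st; simp only [Fm.tk] at *; simp [Fm.code, hs, ht, conv, tstep, okTok, sig]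
  | or s t hs ht =>
    intro st; simp only [Fm.tk] at *; simp [Fm.code, hs, ht, conv, tstep, okTok, sig]
  | not s hs => intro st; simp only [Fm.tk] at *; simp [Fm.code, hs, conv, tstep, okTok, sig]

theorem valid_iff (l : List Tok) : l.foldl tstep (some []) = some [true] ↔ ∃ φ : Fm, φ.tk = l := by
  constructor
  · intro h
    obtain ⟨it, h1, rfl⟩ := parse l _ h
    rcases it with _ | ⟨a | a, _ | ⟨b, it⟩⟩ <;> simp at h1
    exact ⟨a, by simp [icode]⟩
  · rintro ⟨φ, rfl⟩; exact chk_fm φ []

theorem pt_valid : PT fun l : List Tok => l.foldl tstep (some []) := by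
  refine PT.foldl (f := fun _ => tstep) ?_ PT.id' (PT.const _)
    (((PB.const 6).mul PB.sz).add (PB.const 1)) fun l k => ?_
  · unfold tstep okTok sig; fun_prop
  · have : ∀ (m : List Tok) s, (∀ st ∈ s, st.length = 0) →
        ∀ st ∈ m.foldl tstep s, st.length ≤ m.length := by
      intro m
      induction m using List.reverseRecOn with
      | nil => intro s hs st h; exact (hs st h).le
      | append_singleton m t ih =>
        intro s hs st h
        rw [List.foldl_append, List.foldl_cons, List.foldl_nil] at h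
        rcases hm : m.foldl tstep s with _ | st'
        · rw [hm] at h; simp [tstep] at h
        have := ih s hs st' hm
        rw [hm] at h
        simp only [tstep, Option.bind_some, Bool.cond_eq_ite, Option.mem_def,
          Option.ite_none_right_eq_some, Option.some.injEq] at h
        rw [← h.2]; simp; omega
    rcases hm : (l.take k).foldl tstep (some []) with _ | st
    · simp [sz, enc]
    · have h1 := this _ (some []) (by simp) st hm
      have h2 := sz_le_of_forall (l := st) (B := 1) fun _ _ => by simp [sz, enc]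
      have h3 := length_le_sz l
      have : sz (some st) = 2 * sz st + 1 := by
        change sz [st] = _; rw [sz_cons]; simp [sz]
      rw [this]
      simp only [List.length_take] at h1
      omega

variable {α β : Type} [Enc α] [Enc β]

/-- working form of hardness -/
def ERH (C P : α → Prop) : Prop :=
  ∃ g : List Tok → α, PT g ∧ ∀ φ : Fm, C (g φ.tk) ∧ (ETR φ ↔ P (g φ.tk))

theorem ERH.reduce {C P : α → Prop} {C' P' : β → Prop} (h : ERH C P) (f : α → β) (hf : PT f)
    (e : ∀ a, C a → C' (f a) ∧ (P a ↔ P' (f a))) : ERH C' P' :=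
  let ⟨g, hg, hx⟩ := h
  ⟨fun x => f (g x), hf.comp hg, fun x => ⟨(e _ (hx x).1).1, (hx x).2.trans (e _ (hx x).1).2⟩⟩

theorem ERH.mono {C P C' P' : α → Prop} (h : ERH C P)
    (e : ∀ a, C a → C' a ∧ (P a ↔ P' a)) : ERH C' P' := h.reduce (fun a => a) PT.id' e

theorem ERH.hardOn {C P : α → Prop} (h : ERH C P) : ERHardOn C P := by
  obtain ⟨g, hg, hx⟩ := h
  let F : Fm := .lt (.num 0) (.num 0)
  have hF : ¬ ETR F := fun ⟨_, h⟩ => lt_irrefl _ h
  let G : Bits → α := fun x => g (cond (decide (raw (Dec.dec x : List Tok) = x) &&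
    ((Dec.dec x : List Tok).foldl tstep (some []) == some [true])) (Dec.dec x) F.tk)
  have hv := pt_valid
  have hG : PT G := by
    refine hg.comp (PT.cond (PT.and (by fun_prop) (PT.beq (hv.comp Dec.pt) (PT.const _)))
      Dec.pt (PT.const _))
  refine ⟨_, PT.polyTime hG.raw, fun x => ⟨G ⟨x⟩, rfl, ?_⟩⟩
  by_cases hc : ∃ φ : Fm, enc φ = x
  · obtain ⟨φ, rfl⟩ := hc
    have e1 : (⟨enc φ⟩ : Bits) = raw φ.tk := by simp [raw, enc_tk]
    have e2 : G ⟨enc φ⟩ = g φ.tk := by simp [G, e1, Dec.dec_raw, chk_fm]
    rw [e2]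
    refine ⟨(hx φ).1, Iff.trans ⟨?_, fun h => ⟨φ, rfl, h⟩⟩ (hx φ).2⟩
    rintro ⟨ψ, e, hψ⟩
    have : ψ.tk = φ.tk := EncInj.inj (by rw [enc_tk, enc_tk, e])
    rw [(hx φ).2, ← this, ← (hx ψ).2]; exact hψ
  · have e2 : G ⟨x⟩ = g F.tk := by
      simp only [G]
      congr 1
      rw [Bool.cond_eq_ite, if_neg]
      simp only [Bool.and_eq_true, decide_eq_true_eq, beq_iff_eq, valid_iff]
      rintro ⟨e, φ, hφ⟩
      refine hc ⟨φ, ?_⟩
      rw [← enc_tk, hφ]
      exact congrArg Bits.val e
    rw [e2]
    exact ⟨(hx F).1, ⟨fun ⟨φ, e, _⟩ => (hc ⟨φ, e⟩).elim, fun h => (hF ((hx F).2.2 h)).elim⟩⟩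

end Pool.Agent.H38.ER
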