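import Pool.Agent.H38.ER.Gap

/-!
A strict inequality between quartic forms is hard.
-/

namespace Pool.Agent.H38.ER

open Finset Pool.Agent.H38.NP

def strictSys (n k : ℕ) (l : List Q6) : List Q6 :=
  l ++ List.replicate 16 (n + k, n + k, n + k + 1, n + k + 1, n + k + 1, n + k + 1) ++
    List.replicate 16 (n + 1, 0, n + 1, 0, 0, 0) ++
    (List.range (k - 1)).flatMap fun i =>
      List.replicate 16 (n + (i + 2), 0, n + k + 1, n + k + 1, n + (i + 1), n + (i + 1))

theorem sos_append {n} (l l') (x : Fin n → ℝ) : sos (l ++ l') x = sos l x + sos l' x := by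
  simp [sos]
theorem sos_rep {n} (q) (x : Fin n → ℝ) :
    sos (List.replicate 16 q) x = 16 * bil (xt x) (xt x) q ^ 2 := by
  rw [sos, List.map_replicate, List.sum_replicate]; simp
theorem sos_flat {n} {ι : Type} (L : List ι) (f : ι → List Q6) (x : Fin n → ℝ) :
    sos (L.flatMap f) x = (L.map fun i => sos (f i) x).sum := by
  induction L with
  | nil => simp [sos]
  | cons a L ih => simp [sos_append, ih]

theorem chain_small {K : ℕ} {a : ℕ → ℝ} {η : ℝ} (hη : η = |a (K + 3)|) (h0 : η ^ 2 < η / 4)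
    (h1 : |2 * a 1 - 1| < η / 4) (h2 : ∀ i < K + 2, |a (i + 2) - a (i + 1) ^ 2| < η / 4) :
    η ≤ (1 / 2) ^ 2 ^ K := by
  have p : 0 ≤ η := hη ▸ abs_nonneg _
  have q : η < 1 / 4 := by nlinarith
  have s : ∀ i < K + 2, |a (i + 2)| ≤ |a (i + 1)| ^ 2 + η / 4 := fun i hi => by
    have := abs_lt.1 (h2 i hi)
    rw [sq_abs, abs_le]; constructor <;> nlinarith [sq_nonneg (a (i + 1))]
  have a1 : |a 1| ≤ 17 / 32 := by
    have := abs_lt.1 h1; rw [abs_le]; constructor <;> linarith
  have a2 : |a 2| ≤ 3 / 8 := by have := s 0 (by omega); nlinarith [abs_nonneg (a 1)]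
  have : ∀ j ≤ K, |a (j + 3)| ≤ (1 / 2) ^ 2 ^ j / 2 + η / 2 := by
    intro j hj
    induction j with
    | zero => have := s 1 (by omega); norm_num at this ⊢; nlinarith [abs_nonneg (a 2), sq_abs (a 2)]
    | succ j ih =>
      have b := ih (by omega)
      have c := s (j + 2) (by omega)
      rw [pow_succ, pow_mul]
      set B : ℝ := (1 / 2) ^ 2 ^ j
      have : |a (j + 3)| ^ 2 ≤ (B / 2 + η / 2) ^ 2 := by gcongr
      nlinarith [sq_nonneg (B - η)]
  have := this K le_rfl
  linarith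

theorem strict_erh : ERH (fun p : ℕ × List Q6 × ℕ => p.2.2 < p.1 ∧ p.2.1 ≠ [] ∧
      ((∃ x : Fin p.1 → ℝ, sos p.2.1 x < (xt x p.2.2 * xt x 0) ^ 2) →
        ∃ x : Fin p.1 → ℝ, 10 * sos p.2.1 x < (xt x p.2.2 * xt x 0) ^ 2))
    fun p => ∃ x : Fin p.1 → ℝ, sos p.2.1 x < (xt x p.2.2 * xt x 0) ^ 2 := by
  refine h2n_erh.reduce (fun p => (p.1 + (3 * p.1 + (p.2.length + 1) * (2 * p.1 + 20) + 8 + 3) + 1,
    strictSys p.1 (3 * p.1 + (p.2.length + 1) * (2 * p.1 + 20) + 8 + 3) p.2,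
    p.1 + (3 * p.1 + (p.2.length + 1) * (2 * p.1 + 20) + 8 + 3)))
    (by unfold strictSys; fun_prop) ?_
  rintro ⟨n, l⟩ ⟨hn, hl, hb, hp⟩
  simp only at hn hl hb hp ⊢
  have hg := @gap n l
  generalize hK : 3 * n + (l.length + 1) * (2 * n + 20) + 8 = K at *
  have hK8 : 8 ≤ K := by omega
  have cg : ∀ (x : Fin n → ℝ) (y : Fin (n + (K + 3) + 1) → ℝ), (∀ i < n, xt y i = xt x i) →
      sos l y = sos l x := fun x y e => by
    refine congrArg List.sum (List.map_congr_left fun q hq => ?_)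
    obtain ⟨b1, b2, b3, b4, b5, b6⟩ := hb q hq
    simp only [bil, e _ b1, e _ b2, e _ b3, e _ b4, e _ b5, e _ b6]
  have A : HSol (n, l) → ∃ x : Fin (n + (K + 3) + 1) → ℝ,
      10 * sos (strictSys n (K + 3) l) x < (xt x (n + (K + 3)) * xt x 0) ^ 2 := by
    rintro ⟨x, hx, h⟩
    have h0 : xt x 0 ≠ 0 := fun e => hx (hp x h e)
    let v : ℕ → ℝ := fun i => if i < n then xt x i else xt x 0 * (1 / 2) ^ 2 ^ (i - n - 1)
    let y : Fin (n + (K + 3) + 1) → ℝ := fun i => v i
    have e1 : ∀ i < n, xt y i = xt x i := fun i hi => by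
      rw [xt_res v (by omega)]; exact if_pos hi
    have e2 : ∀ i < K + 3, xt y (n + (i + 1)) = xt x 0 * (1 / 2) ^ 2 ^ i := fun i hi => by
      rw [xt_res v (by omega)]; simp [v]
    have e3 : xt y (n + (K + 3) + 1) = 0 := xt_ge _ le_rfl
    have z : sos l x = 0 := by
      rw [sos, List.map_congr_left (g := fun _ => 0) fun q hq => by rw [h q hq]; simp]; simp
    refine ⟨y, ?_⟩
    rw [strictSys, sos_append, sos_append, sos_append, cg x y e1, z, sos_rep, sos_rep, sos_flat,
      List.map_congr_left (g := fun _ => 0) fun i hi => by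
        have := List.mem_range.1 hi
        rw [sos_rep, bil]
        simp only [e2 i (by omega), e2 (i + 1) (by omega), e1 0 hn, e3, pow_succ 2, pow_mul]
        ring]
    simp only [bil, e2 (K + 2) (by omega), e2 0 (by omega), e1 0 hn, e3]
    have hB : (1 / 2 : ℝ) ^ 2 ^ (K + 2) ≤ (1 / 2) ^ 4 :=
      pow_le_pow_of_le_one (by norm_num) (by norm_num) (by rw [pow_add]; nlinarith [Nat.one_le_two_pow (n := K)])
    have hB0 : (0 : ℝ) < (1 / 2) ^ 2 ^ (K + 2) := by positivity
    generalize (1 / 2 : ℝ) ^ 2 ^ (K + 2) = B at *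
    have : 0 < (xt x 0 * B * xt x 0) ^ 2 := by positivity
    simp only [List.map_const', List.sum_replicate, smul_zero]
    nlinarith [mul_pos this (show 0 < 1 - 160 * B ^ 2 by nlinarith)]
  have B : (∃ x : Fin (n + (K + 3) + 1) → ℝ,
      sos (strictSys n (K + 3) l) x < (xt x (n + (K + 3)) * xt x 0) ^ 2) → HSol (n, l) := by
    rintro ⟨y, hy⟩
    by_contra hn'
    have h0 : xt y 0 ≠ 0 := fun e => by
      rw [e] at hy; linarith [sos_nonneg (strictSys n (K + 3) l) y]
    obtain ⟨y, h0, hy⟩ : ∃ y : Fin (n + (K + 3) + 1) → ℝ, xt y 0 = 1 ∧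
        sos (strictSys n (K + 3) l) y < xt y (n + (K + 3)) ^ 2 := by
      refine ⟨(xt y 0)⁻¹ • y, by rw [xt_smul, inv_mul_cancel₀ h0], ?_⟩
      rw [sos_smul, xt_smul]
      refine (mul_lt_mul_of_pos_left hy (by positivity)).trans_eq ?_
      field_simp
    have e3 : xt y (n + (K + 3) + 1) = 0 := xt_ge _ le_rfl
    rw [strictSys, sos_append, sos_append, sos_append, sos_rep, sos_rep, sos_flat] at hy
    have s1 := sos_nonneg l y
    have s2 : 0 ≤ ((List.range (K + 3 - 1)).map fun i => sos (List.replicate 16 (n + (i + 2), 0,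
        n + (K + 3) + 1, n + (K + 3) + 1, n + (i + 1), n + (i + 1))) y).sum :=
      List.sum_nonneg (by simp only [List.mem_map]; rintro _ ⟨q, -, rfl⟩; exact sos_nonneg _ _)
    have ab : ∀ r : ℝ, 16 * r ^ 2 < xt y (n + (K + 3)) ^ 2 → |r| < |xt y (n + (K + 3))| / 4 :=
      fun r hr => abs_lt_of_sq_lt_sq (by rw [div_pow, sq_abs]; linarith) (by positivity)
    simp only [bil, e3, h0] at hy
    have hη := chain_small (K := K) (a := fun i => xt y (n + i)) rfl
      (by
        have := ab (xt y (n + (K + 3)) ^ 2) (by nlinarith [sq_nonneg (2 * xt y (n + 1) - 1)])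
        rwa [abs_pow] at this)
      (ab _ (by nlinarith [sq_nonneg (xt y (n + (K + 3)) ^ 2)])) fun i hi => ab _ (by
        have := List.single_le_sum (l := (List.range (K + 3 - 1)).map fun i => sos
          (List.replicate 16 (n + (i + 2), 0, n + (K + 3) + 1, n + (K + 3) + 1, n + (i + 1),
            n + (i + 1))) y)
          (by simp only [List.mem_map]; rintro _ ⟨q, -, rfl⟩; exact sos_nonneg _ _) _
          (List.mem_map_of_mem (List.mem_range.2 hi))
        rw [sos_rep] at this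
        simp only [bil, e3, h0] at this
        nlinarith [sq_nonneg (xt y (n + (K + 3)) ^ 2), sq_nonneg (2 * xt y (n + 1) - 1)])
    let x : Fin n → ℝ := fun i => xt y i
    rw [cg x y fun i hi => (xt_res _ hi).symm] at hy s1
    have n1 : 1 ≤ ∑ i, x i ^ 2 := by
      have := single_le_sum (f := fun i => x i ^ 2) (fun _ _ => sq_nonneg _) (mem_univ ⟨0, hn⟩)
      simpa [x, h0] using this
    set N := ∑ i, x i ^ 2 with hN
    have := hg hn' ((√N)⁻¹ • x) (by
      simp only [Pi.smul_apply, smul_eq_mul, mul_pow, ← mul_sum, inv_pow]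
      rw [Real.sq_sqrt (by linarith), inv_mul_cancel₀ (by linarith)])
    rw [sos_smul] at this
    have h4 : (√N)⁻¹ ^ 4 ≤ 1 :=
      pow_le_one₀ (by positivity) (inv_le_one_of_one_le₀ (Real.one_le_sqrt.2 n1))
    have h5 : (1 / 2 : ℝ) ^ 2 ^ K ≤ 1 := pow_le_one₀ (by norm_num) (by norm_num)
    nlinarith [sq_abs (xt y (n + (K + 3))), abs_nonneg (xt y (n + (K + 3))),
      sq_nonneg (xt y (n + (K + 3)) ^ 2), sq_nonneg (2 * xt y (n + 1) - 1)]
  refine ⟨⟨by omega, by simp [strictSys], fun h => A (B h)⟩, fun h => ?_, B⟩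
  obtain ⟨x, hx⟩ := A h
  exact ⟨x, by linarith [sos_nonneg (strictSys n (K + 3) l) x]⟩

end Pool.Agent.H38.ER
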