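import Pool.Agent.H38.ER.Weak3

/-!
Point-line configurations with distinct points and lines: soundness of the gadgets.
-/

namespace Pool.Agent.H38.ER

open Pool.Agent.H38.NP

def NP (u v : V3) : Prop :=
  u.1 * v.2.1 ≠ u.2.1 * v.1 ∨ u.1 * v.2.2 ≠ u.2.2 * v.1 ∨ u.2.1 * v.2.2 ≠ u.2.2 * v.2.1

theorem NP.symm {u v} (h : NP u v) : NP v u := by
  unfold NP at *
  rcases h with h | h | h
  · exact Or.inl fun e => h (by linarith)
  · exact Or.inr (Or.inl fun e => h (by linarith))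
  · exact Or.inr (Or.inr fun e => h (by linarith))

theorem np_smul (c : ℝ) (v) : ¬ NP (c • v) v := by
  simp only [NP, Prod.smul_fst, Prod.smul_snd, smul_eq_mul]
  rintro (h | h | h) <;> exact h (by ring)

theorem NP.ne {u v} (h : NP u v) : v ≠ 0 := by rintro rfl; simp [NP] at h

theorem par {w v a b : V3} (h : NP a b) (hv : v ≠ 0) (h1 : ip w a = 0) (h2 : ip w b = 0)
    (h3 : ip v a = 0) (h4 : ip v b = 0) : ∃ c : ℝ, w = c • v := by
  have k : w.1 * v.2.1 = w.2.1 * v.1 ∧ w.1 * v.2.2 = w.2.2 * v.1 ∧ w.2.1 * v.2.2 = w.2.2 * v.2.1 := by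
    unfold ip at *
    rcases h with h | h | h <;> grind
  have hp := (ip_pos hv).ne'
  refine ⟨ip w v / ip v v, ?_⟩
  obtain ⟨k1, k2, k3⟩ := k
  refine Prod.ext ?_ (Prod.ext ?_ ?_) <;> simp only [Prod.smul_fst, Prod.smul_snd, smul_eq_mul] <;>
    field_simp <;> unfold ip
  · linear_combination v.2.1 * k1 + v.2.2 * k2
  · linear_combination -v.1 * k1 + v.2.2 * k3
  · linear_combination -v.1 * k2 - v.2.1 * k3

theorem two {w v a b : V3} (h : NP a b) (h' : NP w v) (h1 : ip w a = 0) (h2 : ip w b = 0)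
    (h3 : ip v a = 0) : ip v b ≠ 0 := fun h4 => by
  obtain ⟨c, rfl⟩ := par h h'.ne h1 h2 h3 h4
  exact np_smul c v h'

theorem sub_ip (u v w) : ip (u - v) w = ip u w - ip v w := by
  simp only [ip, Prod.fst_sub, Prod.snd_sub]; ring

noncomputable def vec (O L P : V3) : V3 := (1 / ip P L) • P - (1 / ip O L) • O

def Rat (O L P P' : V3) (l : ℝ) : Prop :=
  ip P L ≠ 0 ∧ ip P' L ≠ 0 ∧ vec O L P ≠ 0 ∧ vec O L P' = l • vec O L P

theorem vec_L {O L P} (hO : ip O L ≠ 0) (hP : ip P L ≠ 0) : ip (vec O L P) L = 0 := by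
  rw [vec, sub_ip, smul_ip, smul_ip]; field_simp; ring

theorem vec_ip {O L P m} (hO : ip O m = 0) : ip (vec O L P) m = 1 / ip P L * ip P m := by
  rw [vec, sub_ip, smul_ip, smul_ip, hO]; ring

theorem vec_sub {O L P Q m} (hP : ip P m = 0) (hQ : ip Q m = 0) :
    ip (vec O L P - vec O L Q) m = 0 := by
  simp only [vec, sub_ip, smul_ip, hP, hQ]; ring

theorem vec_ne {O L P} (hP : ip P L ≠ 0) (h : NP P O) : vec O L P ≠ 0 := fun e => by
  have : P = (ip P L / ip O L) • O := by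
    rw [div_eq_mul_one_div, mul_smul, ← sub_eq_zero.1 e, smul_smul, mul_one_div_cancel hP, one_smul]
  rw [this] at h; exact np_smul _ _ h

theorem rat_line {O L N R R'} (hO : ip O L ≠ 0) (h1 : ip O N = 0) (h2 : ip R N = 0)
    (h3 : ip R' N = 0) (hN : NP N L) (f1 : ip R L ≠ 0) (f2 : ip R' L ≠ 0) (hR : NP R O) :
    ∃ l, Rat O L R R' l := by
  obtain ⟨c, hc⟩ := par (w := vec O L R') hN (vec_ne f1 hR) (by rw [vec_ip h1, h3, mul_zero])
    (vec_L hO f2) (by rw [vec_ip h1, h2, mul_zero]) (vec_L hO f1)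
  exact ⟨c, f1, f2, vec_ne f1 hR, hc⟩

theorem dir {O L P Q m J} (hO : ip O L ≠ 0) (f1 : ip P L ≠ 0) (f2 : ip Q L ≠ 0) (h1 : ip P m = 0)
    (h2 : ip Q m = 0) (h3 : ip J m = 0) (h4 : ip J L = 0) (hJ : J ≠ 0) (hm : NP m L) :
    ∃ c : ℝ, vec O L P - vec O L Q = c • J :=
  par hm hJ (vec_sub h1 h2) (by rw [sub_ip, vec_L hO f1, vec_L hO f2, sub_zero]) h3 h4

theorem hom {O L P P' R R' N J m m' l l'} (hO : ip O L ≠ 0) (hP : Rat O L P P' l)
    (hR : Rat O L R R' l') (n1 : ip O N = 0) (n2 : ip R N = 0) (hJ : ip J L = 0) (a1 : ip P m = 0)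
    (a2 : ip R m = 0) (a3 : ip J m = 0) (b1 : ip P' m' = 0) (b2 : ip R' m' = 0) (b3 : ip J m' = 0)
    (J0 : J ≠ 0) (c1 : NP m L) (c2 : NP m' L) (c3 : NP m N) (c4 : NP R P) : l = l' := by
  obtain ⟨c, hc⟩ := dir hO hP.1 hR.1 a1 a2 a3 hJ J0 c1
  obtain ⟨c', hc'⟩ := dir hO hP.2.1 hR.2.1 b1 b2 b3 hJ J0 c2
  rw [hP.2.2.2, hR.2.2.2] at hc'
  have p0 : ip (vec O L P) N ≠ 0 := by
    rw [vec_ip n1]; exact mul_ne_zero (one_div_ne_zero hP.1) (two c3 c4 a2 n2 a1)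
  have r0 : ip (vec O L R) N = 0 := by rw [vec_ip n1, n2, mul_zero]
  have e1 := congrArg (ip · N) hc
  have e2 := congrArg (ip · N) hc'
  simp only [sub_ip, smul_ip, r0] at e1 e2
  have c0 : c ≠ 0 := by rintro rfl; simp at e1; exact p0 e1
  have e3 : c * l = c' := mul_right_cancel₀ p0 (by linear_combination c * e2 - c' * e1)
  have e4 : (c * l - c * l') • vec O L R = 0 := by
    rw [← e3] at hc'
    linear_combination (norm := module) c • hc' - (c * l) • hc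
  exact mul_left_cancel₀ c0 (sub_eq_zero.1 ((smul_eq_zero.1 e4).resolve_right hR.2.2.1))

def arS : ℕ → ℕ | 0 => 2 | 1 => 6 | _ => 10

def sS : Sem V3 := ⟨(· ≠ 0), NP, fun c l => match c, l with
  | 0, [u, v] => ip u v = 0
  | 1, [O, L, P, P', Q, Q'] => ip O L ≠ 0 → ∀ l l', Rat O L P P' l → Rat O L Q Q' l' → l = l'
  | 2, [O, L, A, A', B, B', C, C', D, D'] => ip O L ≠ 0 → ∀ a b c d, Rat O L A A' a →
      Rat O L B B' b → Rat O L C C' c → Rat O L D D' d → a * b + c = d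
  | _, _ => True⟩

def skE : List Con := mkE [(0, 6), (7, 6), (8, 6), (9, 1), (2, 10), (7, 10), (9, 10), (3, 11),
  (8, 11), (9, 11), (12, 1), (4, 13), (7, 13), (12, 13), (5, 14), (8, 14), (12, 14)]

def skC : List Con := mkE [(0, 20), (10, 20), (12, 20), (13, 20), (14, 20), (17, 20), (0, 21),
  (11, 21), (15, 21), (18, 21), (17, 1), (18, 1), (19, 1), (15, 22), (16, 22), (17, 22), (13, 23),
  (16, 23), (18, 23), (10, 24), (11, 24), (19, 24), (16, 25), (14, 25), (19, 25)] ++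
  [(1, [0, 1, 4, 5, 10, 12]), (1, [0, 1, 2, 3, 12, 13]), (1, [0, 1, 6, 7, 11, 15]),
    (1, [0, 1, 8, 9, 10, 14])]

theorem skE_wf : SkWF arS 1 9 skE := by simp [SkWF, skE, mkE, arS]
theorem skC_wf : SkWF arS 2 16 skC := by simp [SkWF, skC, mkE, arS]

theorem e_s : sS.GS 1 6 9 skE := by
  intro f ok ap h
  have np : ∀ i j, 6 ≤ i → i < 15 → j < 15 → i ≠ j → NP (f i) (f j) :=
    fun i j h1 h2 h3 h4 => ap i h2 j h3 h4 (Or.inl h1)
  simp only [Sem.sat, skE, mkE, sS, List.map_cons, List.map_nil, List.forall_mem_cons,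
    List.range_succ, List.range_zero, List.nil_append, List.cons_append] at h ⊢
  obtain ⟨h1, h2, h3, h4, h5, h6, h7, h8, h9, h10, h11, h12, h13, h14, h15, h16, h17, -⟩ := h
  intro hO l l' hP hQ
  obtain ⟨r, hR⟩ := rat_line hO h1 h2 h3 (np 6 1 (by norm_num) (by norm_num) (by norm_num) (by norm_num))
    (two (np 10 1 (by norm_num) (by norm_num) (by norm_num) (by norm_num))
      (np 9 7 (by norm_num) (by norm_num) (by norm_num) (by norm_num)) h7 h4 h6)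
    (two (np 11 1 (by norm_num) (by norm_num) (by norm_num) (by norm_num))
      (np 9 8 (by norm_num) (by norm_num) (by norm_num) (by norm_num)) h10 h4 h9)
    (np 7 0 (by norm_num) (by norm_num) (by norm_num) (by norm_num))
  rw [hom hO hP hR h1 h2 h4 h5 h6 h7 h8 h9 h10 (ok 9 (by norm_num)) (np 10 1 ..) (np 11 1 ..)
    (np 10 6 ..) (np 7 2 ..), hom hO hQ hR h1 h2 h11 h12 h13 h14 h15 h16 h17 (ok 12 (by norm_num))
    (np 13 1 ..) (np 14 1 ..) (np 13 6 ..) (np 7 4 ..)] <;> norm_num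

theorem c_s : sS.GS 2 10 16 skC := by
  intro f ok ap h
  have np : ∀ i j, (10 ≤ i ∧ i < 26 ∧ j < 26 ∧ i ≠ j) → NP (f i) (f j) :=
    fun i j h => ap i h.2.1 j h.2.2.1 h.2.2.2 (Or.inl h.1)
  simp only [Sem.sat, skC, mkE, sS, List.map_cons, List.map_nil, List.forall_mem_cons,
    List.range_succ, List.range_zero, List.nil_append, List.cons_append] at h ⊢
  obtain ⟨m1, m2, m3, m4, m5, m6, n1, n2, n3, n4, l1, l2, l3, g1, g2, g3, k1, k2, k3, p1, p2, p3,
    s1, s2, s3, E1, E2, E3, E4, -⟩ := h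
  intro hO a b c d hA hB hC hD
  have M1 := np 20 1 (by norm_num)
  have M2 := np 21 1 (by norm_num)
  have f10 := two M1 (np 17 10 (by norm_num)) m6 l1 m2
  have f12 := two M1 (np 17 12 (by norm_num)) m6 l1 m3
  have f13 := two M1 (np 17 13 (by norm_num)) m6 l1 m4
  have f14 := two M1 (np 17 14 (by norm_num)) m6 l1 m5
  have f11 := two M2 (np 18 11 (by norm_num)) n4 l2 n2
  have f15 := two M2 (np 18 15 (by norm_num)) n4 l2 n3
  have f16 := two (np 22 1 (by norm_num)) (np 17 16 (by norm_num)) g3 l1 g2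
  obtain ⟨β, hβ⟩ := rat_line hO m1 m2 m3 M1 f10 f12 (np 10 0 (by norm_num))
  obtain ⟨α, hα⟩ := rat_line hO m1 m3 m4 M1 f12 f13 (np 12 0 (by norm_num))
  obtain ⟨γ, hγ⟩ := rat_line hO n1 n2 n3 M2 f11 f15 (np 11 0 (by norm_num))
  obtain ⟨δ, hδ⟩ := rat_line hO m1 m2 m5 M1 f10 f14 (np 10 0 (by norm_num))
  rw [E1 hO _ _ hB hβ, E2 hO _ _ hA hα, E3 hO _ _ hC hγ, E4 hO _ _ hD hδ]
  obtain ⟨x1, e1⟩ := dir hO f16 f15 g2 g1 g3 l1 (ok 17 (by norm_num)) (np 22 1 (by norm_num))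
  obtain ⟨x2, e2⟩ := dir hO f16 f13 k2 k1 k3 l2 (ok 18 (by norm_num)) (np 23 1 (by norm_num))
  obtain ⟨x3, e3⟩ := dir hO f10 f11 p1 p2 p3 l3 (ok 19 (by norm_num)) (np 24 1 (by norm_num))
  obtain ⟨x4, e4⟩ := dir hO f16 f14 s1 s2 s3 l3 (ok 19 (by norm_num)) (np 25 1 (by norm_num))
  rw [hγ.2.2.2] at e1
  rw [hα.2.2.2, hβ.2.2.2] at e2
  rw [hδ.2.2.2] at e4
  have w1 : ip (vec (f 0) (f 1) (f 10)) (f 20) = 0 := by rw [vec_ip m1, m2, mul_zero]
  have w2 : ip (vec (f 0) (f 1) (f 11)) (f 21) = 0 := by rw [vec_ip n1, n2, mul_zero]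
  have w3 : ip (vec (f 0) (f 1) (f 11)) (f 20) ≠ 0 := by
    rw [vec_ip m1]
    exact mul_ne_zero (one_div_ne_zero f11)
      (two (np 21 20 (by norm_num)) (np 11 0 (by norm_num)).symm n1 m1 n2)
  have w4 : ip (vec (f 0) (f 1) (f 10)) (f 21) ≠ 0 := by
    rw [vec_ip n1]
    exact mul_ne_zero (one_div_ne_zero f10)
      (two (np 20 21 (by norm_num)) (np 10 0 (by norm_num)).symm m1 n1 m2)
  have a1 := congrArg (ip · (f 20)) e1
  have a2 := congrArg (ip · (f 21)) e2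
  have a3 := congrArg (ip · (f 20)) e3
  have a4 := congrArg (ip · (f 21)) e3
  have a5 := congrArg (ip · (f 20)) e4
  have a6 := congrArg (ip · (f 21)) e4
  simp only [sub_ip, smul_ip, w1, w2, m6, n4] at a1 a2 a3 a4 a5 a6
  refine mul_right_cancel₀ (mul_ne_zero w3 w4) ?_
  have x0 : x3 ≠ 0 := by rintro rfl; simp at a4; exact w4 a4
  refine mul_left_cancel₀ x0 ?_
  grind

end Pool.Agent.H38.ER
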