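import Pool.Agent.H38.ER.Strong1

/-!
Point-line configurations with distinct points and lines: completeness of the gadgets.
-/

namespace Pool.Agent.H38.ER

open Pool.Agent.H38.NP Filter

theorem quad_ev {a b c : ℝ} (h : a ≠ 0 ∨ b ≠ 0 ∨ c ≠ 0) :
    ∀ᶠ t in cofinite, a + b * t + c * t ^ 2 ≠ 0 := by
  let p : Polynomial ℝ := Polynomial.C c * Polynomial.X ^ 2 + Polynomial.C b * Polynomial.X +
    Polynomial.C a
  have hp : p ≠ 0 := fun e => by
    have h0 := congrArg (·.coeff 0) e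
    have h1 := congrArg (·.coeff 1) e
    have h2 := congrArg (·.coeff 2) e
    simp [p, Polynomial.coeff_X, Polynomial.coeff_C] at h0 h1 h2
    tauto
  refine (Polynomial.finite_setOfPred_isRoot hp).subset fun t ht => ?_
  simp only [Set.mem_compl_iff, Set.mem_ofPred_eq, not_not] at ht
  simp only [p, Set.mem_ofPred_eq, Polynomial.IsRoot, Polynomial.eval_add, Polynomial.eval_mul,
    Polynomial.eval_C, Polynomial.eval_pow, Polynomial.eval_X]
  linarith

def cv (u0 u1 u2 : V3) (t : ℝ) : V3 := (u0.1 + u1.1 * t + u2.1 * t ^ 2,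
  u0.2.1 + u1.2.1 * t + u2.2.1 * t ^ 2, u0.2.2 + u1.2.2 * t + u2.2.2 * t ^ 2)

theorem np_of {u v f : V3} (hf : f ≠ 0) (h : NP u v) : NP u f ∨ NP v f := by
  by_contra hc
  simp only [NP, not_or, not_not] at hc
  obtain ⟨⟨a1, a2, a3⟩, b1, b2, b3⟩ := hc
  rcases v3_ne.1 hf with k | k | k <;> rcases h with h | h | h <;> grind

theorem ev_np {u0 u1 u2 f : V3} (hf : f ≠ 0) (h : NP u0 u1 ∨ NP u0 u2 ∨ NP u1 u2) :
    ∀ᶠ t in cofinite, NP (cv u0 u1 u2 t) f := by
  have k : NP u0 f ∨ NP u1 f ∨ NP u2 f := by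
    rcases h with h | h | h <;> rcases np_of hf h with h | h <;> tauto
  have k' : (u0.1 * f.2.1 - u0.2.1 * f.1 ≠ 0 ∨ u1.1 * f.2.1 - u1.2.1 * f.1 ≠ 0 ∨
      u2.1 * f.2.1 - u2.2.1 * f.1 ≠ 0) ∨ (u0.1 * f.2.2 - u0.2.2 * f.1 ≠ 0 ∨
      u1.1 * f.2.2 - u1.2.2 * f.1 ≠ 0 ∨ u2.1 * f.2.2 - u2.2.2 * f.1 ≠ 0) ∨
      (u0.2.1 * f.2.2 - u0.2.2 * f.2.1 ≠ 0 ∨ u1.2.1 * f.2.2 - u1.2.2 * f.2.1 ≠ 0 ∨
      u2.2.1 * f.2.2 - u2.2.2 * f.2.1 ≠ 0) := by
    simp only [NP, sub_ne_zero] at k ⊢; tauto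
  rcases k' with k | k | k <;> filter_upwards [quad_ev k] with t ht
  · exact Or.inl fun e => ht (by simp only [cv] at e; linear_combination e)
  · exact Or.inr (Or.inl fun e => ht (by simp only [cv] at e; linear_combination e))
  · exact Or.inr (Or.inr fun e => ht (by simp only [cv] at e; linear_combination e))

theorem ev_all {α : Type} {l : List α} {p : α → ℝ → Prop} (h : ∀ x ∈ l, ∀ᶠ t in cofinite, p x t) :
    ∀ᶠ t in cofinite, ∀ x ∈ l, p x t :=
  (eventually_all_finite l.finite_toSet).2 h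

theorem ev_lt {m : ℕ} {p : ℕ → ℝ → Prop} (h : ∀ i < m, ∀ᶠ t in cofinite, p i t) :
    ∀ᶠ t in cofinite, ∀ i < m, p i t :=
  (eventually_all_finite (Set.finite_lt_nat m)).2 h

abbrev TV := Bool × V3

def RatC (P P' : TV) (l : ℝ) : Prop :=
  ∃ x y : ℝ, (x ≠ 0 ∨ y ≠ 0) ∧ P = (true, x, y, 1) ∧ P' = (true, l * x, l * y, 1)

def cS : Sem TV := ⟨fun x => x.2 ≠ 0, fun x y => x.1 = y.1 → NP x.2 y.2, fun c l => match c, l with
  | 0, [u, v] => u.1 = true ∧ v.1 = false ∧ ip u.2 v.2 = 0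
  | 1, [O, L, P, P', Q, Q'] => O = (true, 0, 0, 1) ∧ L = (false, 0, 0, 1) ∧ P ≠ Q ∧
      ∃ l, l ≠ 0 ∧ l ≠ 1 ∧ RatC P P' l ∧ RatC Q Q' l
  | 2, [O, L, A, A', B, B', C, C', D, D'] => O = (true, 0, 0, 1) ∧ L = (false, 0, 0, 1) ∧
      ∃ a b c, 1 < a ∧ 1 < b ∧ 1 < c ∧ RatC A A' a ∧ RatC B B' b ∧ RatC C C' c ∧
        RatC D D' (a * b + c)
  | _, _ => True⟩

theorem cS_sy (x y) (h : cS.Ap x y) : cS.Ap y x := fun e => (h e.symm).symm

theorem np12 {u v : V3} {H : ℝ} (hH : H ≠ 0) (h : u.1 * v.2.1 - u.2.1 * v.1 = H ∨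
    u.1 * v.2.1 - u.2.1 * v.1 = -H) : NP u v := Or.inl fun e => by
  rcases h with h | h <;> exact hH (by linarith)
theorem np13 {u v : V3} {H : ℝ} (hH : H ≠ 0) (h : u.1 * v.2.2 - u.2.2 * v.1 = H ∨
    u.1 * v.2.2 - u.2.2 * v.1 = -H) : NP u v := Or.inr <| Or.inl fun e => by
  rcases h with h | h <;> exact hH (by linarith)
theorem np23 {u v : V3} {H : ℝ} (hH : H ≠ 0) (h : u.2.1 * v.2.2 - u.2.2 * v.2.1 = H ∨
    u.2.1 * v.2.2 - u.2.2 * v.2.1 = -H) : NP u v := Or.inr <| Or.inr fun e => by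
  rcases h with h | h <;> exact hH (by linarith)

def eM (l x y z w : ℝ) : List (Bool × V3 × V3 × V3) :=
  [(false, (0, -1, 0), (1, 0, 0), (0, 0, 0)), (true, (0, 0, 1), (1, 0, 0), (0, 1, 0)),
    (true, (0, 0, 1), (l, 0, 0), (0, l, 0)), (true, (-x, -y, 0), (1, 0, 0), (0, 1, 0)),
    (false, (y, -x, 0), (0, 1, -y), (-1, 0, x)), (false, (y, -x, 0), (0, 1, -(l * y)), (-1, 0, l * x)),
    (true, (-z, -w, 0), (1, 0, 0), (0, 1, 0)),
    (false, (w, -z, 0), (0, 1, -w), (-1, 0, z)), (false, (w, -z, 0), (0, 1, -(l * w)), (-1, 0, l * z))]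

def cvM (M : List (Bool × V3 × V3 × V3)) (t : ℝ) (i : ℕ) : TV :=
  ((M.getD i default).1, cv (M.getD i default).2.1 (M.getD i default).2.2.1 (M.getD i default).2.2.2 t)

theorem cvM_ev {M : List (Bool × V3 × V3 × V3)} {m}
    (h : ∀ i < m, NP (M.getD i default).2.1 (M.getD i default).2.2.1 ∨
      NP (M.getD i default).2.1 (M.getD i default).2.2.2 ∨
      NP (M.getD i default).2.2.1 (M.getD i default).2.2.2) {F : List TV} (hF : ∀ x ∈ F, cS.Ok x) :
    ∀ᶠ t in cofinite, ∀ i < m, cS.Ok (cvM M t i) ∧ ∀ x ∈ F, cS.Ap (cvM M t i) x :=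
  ev_lt fun i hi => ((ev_np (f := (1, 0, 0)) (by simp) (h i hi)).mono fun _ h => h.symm.ne).and
    (ev_all fun x hx => (ev_np (hF x hx) (h i hi)).mono fun _ h _ => h)

theorem e_c : cS.GC 1 6 9 skE := by
  intro f h F hF
  simp only [cS, List.map_cons, List.map_nil, List.range_succ, List.range_zero, List.nil_append,
    List.cons_append] at h
  obtain ⟨e0, e1, hne, l, l0, l1, ⟨x, y, hx, e2, e3⟩, z, w, hz, e4, e5⟩ := h
  have hne' : x * w - y * z ≠ 0 ∨ y - w ≠ 0 ∨ z - x ≠ 0 := by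
    rw [e2, e4] at hne
    by_contra hc
    simp only [not_or, not_not, sub_eq_zero] at hc
    exact hne (by rw [hc.2.1, hc.2.2])
  obtain ⟨t, ⟨⟨⟨⟨⟨h1, t0⟩, t1⟩, t2⟩, t3⟩, t4⟩, t5⟩ := (((((((cvM_ev (M := eM l x y z w) (m := 9)
    (fun i hi => by interval_cases i <;> simp [eM, NP, l0]) hF).and
    (quad_ev (a := 0) (b := 1) (c := 0) (by simp))).and
    (quad_ev (a := -x) (b := 1) (c := 0) (by simp))).and
    (quad_ev (a := -z) (b := 1) (c := 0) (by simp))).and (quad_ev hne')).and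
    (quad_ev (a := -y) (b := x) (c := 0) (by simpa [or_comm] using hx))).and
    (quad_ev (a := -w) (b := z) (c := 0) (by simpa [or_comm] using hz))).exists
  have l2 := sub_ne_zero.2 l1
  refine ⟨cvM (eM l x y z w) t, h1, fun i hi j hj => ?_, ?_⟩
  · interval_cases i <;> interval_cases j <;> simp only [cvM, eM, cS, cv, List.getD_cons_succ,
      List.getD_cons_zero, Bool.false_eq_true, Bool.true_eq_false, false_imp_iff, true_imp_iff]
    · exact np13 (mul_ne_zero l2 t0) (by left; ring)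
    · exact np13 t1 (by left; ring)
    · exact np13 t1 (by left; ring)
    · exact np23 (mul_ne_zero t0 t4) (by left; ring)
    · exact np23 (mul_ne_zero l0 (mul_ne_zero t0 t4)) (by left; ring)
    · exact np23 (mul_ne_zero l2 (mul_ne_zero t1 (mul_ne_zero t0 t4))) (by right; ring)
    · exact np13 t2 (by left; ring)
    · exact np13 t2 (by left; ring)
    · exact np12 t3 (by right; ring)
    · exact np23 (mul_ne_zero t0 t5) (by left; ring)
    · exact np12 t3 (by right; ring)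
    · exact np12 t3 (by right; ring)
    · exact np23 (mul_ne_zero l0 (mul_ne_zero t0 t5)) (by left; ring)
    · exact np12 t3 (by right; ring)
    · exact np12 t3 (by right; ring)
    · exact np23 (mul_ne_zero l2 (mul_ne_zero t2 (mul_ne_zero t0 t5))) (by right; ring)
  · simp [Sem.sat, skE, mkE, cS, e0, e1, e2, e3, e4, e5, ip, cvM, eM, cv]
    and_intros <;> ring

def rM (u : TV) : Bool × V3 × V3 × V3 :=
  (u.1, u.2, (-u.2.2.1, u.2.1, 0), (0, 0, cond u.1 0 u.2.2.2))

def cM (b c y z : ℝ) : List TV :=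
  [(true, 1, 0, 1), (true, 0, 1, 1), (true, b, 0, 1), (true, y, 0, 1), (true, z, 0, 1),
    (true, 0, c, 1), (true, y, c, 1), (true, 1, 0, 0), (true, 0, 1, 0), (true, 1, -1, 0),
    (false, 0, 1, 0), (false, 1, 0, 0), (false, 0, 1, -c), (false, 1, 0, -y), (false, 1, 1, -1),
    (false, 1, 1, -z)]

theorem np_rot {u v : TV} (t : ℝ) (h : cS.Ap u v) :
    cS.Ap (u.1, cv u.2 (-u.2.2.1, u.2.1, 0) (0, 0, cond u.1 0 u.2.2.2) t)
      (v.1, cv v.2 (-v.2.2.1, v.2.1, 0) (0, 0, cond v.1 0 v.2.2.2) t) := by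
  obtain ⟨s, a, b, c⟩ := u
  obtain ⟨s', d, e, f⟩ := v
  rintro (rfl : s = s')
  have h := h rfl
  have ht : 1 + t ^ 2 ≠ 0 := by positivity
  by_contra hc
  cases s <;> simp only [NP, cv, not_or, not_not, cond_true, cond_false] at hc h <;>
    rcases h with h | h | h <;> grind

theorem c_c : cS.GC 2 10 16 skC := by
  intro f h F hF
  simp only [cS, List.map_cons, List.map_nil, List.range_succ, List.range_zero, List.nil_append,
    List.cons_append] at h
  obtain ⟨e0, e1, a, b, c, ha, hb, hc, hA, hB, hC, hD⟩ := h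
  have ok : ∀ {P P' l}, RatC P P' l → cS.Ok P := fun ⟨x, y, _, e, _⟩ => by simp [e, cS]
  have hy : b < a * b := by nlinarith
  obtain ⟨y, ey⟩ : ∃ y, y = a * b := ⟨_, rfl⟩
  rw [← ey] at hy hD
  obtain ⟨t, h1⟩ := (cvM_ev (M := (cM b c y (y + c)).map rM) (m := 16)
    (F := f 2 :: f 4 :: f 6 :: f 8 :: F)
    (fun i hi => by
      left; left
      interval_cases i <;> simp only [cM, rM, List.map_cons, List.getD_cons_succ,
        List.getD_cons_zero] <;> intro e <;> nlinarith)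
    (by simp only [List.forall_mem_cons]; exact ⟨ok hA, ok hB, ok hC, ok hD, hF⟩)).exists
  have ne : ∀ i < 16, ∀ x ∈ [f 2, f 4, f 6, f 8], x ≠ cvM ((cM b c y (y + c)).map rM) t i :=
    fun i hi x hx e => by
      have := (h1 i hi).2 x (by simp at hx ⊢; tauto) (by rw [e])
      rw [← e] at this
      simp [NP, mul_comm] at this
  refine ⟨cvM ((cM b c y (y + c)).map rM) t, fun i hi =>
    ⟨(h1 i hi).1, fun x hx => (h1 i hi).2 x (by simp [hx])⟩, fun i hi j hj => ?_, ?_⟩
  · have : cS.Ap ((cM b c y (y + c)).getD i default) ((cM b c y (y + c)).getD j default) := by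
      interval_cases i <;> interval_cases j <;> simp only [cM, cS, NP, List.getD_cons_succ,
        List.getD_cons_zero, Bool.false_eq_true, false_imp_iff, true_imp_iff] <;>
        first
        | exact Or.inr (Or.inl fun e => by linarith)
        | exact Or.inr (Or.inr fun e => by linarith)
        | exact Or.inl fun e => by linarith
    have hl : (cM b c y (y + c)).length = 16 := rfl
    simp only [cvM, List.getD_eq_getElem?_getD, List.getElem?_map,
      List.getElem?_eq_getElem (show i < (cM b c y (y + c)).length by omega),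
      List.getElem?_eq_getElem (show j < (cM b c y (y + c)).length by omega), Option.map_some,
      Option.getD_some] at this ⊢
    exact np_rot t this
  · have n0 := ne 0 (by norm_num)
    have n1 := ne 1 (by norm_num)
    have n2 := ne 2 (by norm_num)
    simp only [Sem.sat, skC, mkE, List.map_cons, List.map_nil, List.forall_mem_cons,
      List.cons_append, List.nil_append]
    simp only [cS, e0, e1, ip, cvM, cM, rM, cv, List.map_cons, List.map_nil, List.getD_cons_succ,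
      List.getD_cons_zero, Nat.reduceLT, if_true, if_false, Nat.reduceSub, true_and, cond_true,
      cond_false] at n0 n1 n2 ⊢
    have rc : ∀ (x y l x' y' : ℝ) (z z' : ℝ), (x ≠ 0 ∨ y ≠ 0) → x' = l * x → y' = l * y → z = 1 →
        z' = 1 → RatC (true, x, y, z) (true, x', y', z') l := by
      rintro x y l _ _ _ _ h rfl rfl rfl rfl; exact ⟨x, y, h, rfl, rfl⟩
    refine ⟨by ring, by ring, by ring, by ring, by ring, by ring, by ring, by ring, by ring, by ring,
      by ring, by ring, by ring, by ring, by ring, by ring, by ring, by ring, by ring, by ring,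
      by ring, by ring, by ring, by ring, by ring,
      ⟨n0 _ (by simp), b, by linarith, by linarith, hB, rc _ _ _ _ _ _ _ (Or.inl (by simp))
        (by ring) (by ring) (by ring) (by ring)⟩,
      ⟨n2 _ (by simp), a, by linarith, by linarith, hA, rc _ _ _ _ _ _ _
        (Or.inl (by simp; linarith)) (by rw [ey]; ring) (by rw [ey]; ring) (by ring) (by ring)⟩,
      ⟨n1 _ (by simp), c, by linarith, by linarith, hC, rc _ _ _ _ _ _ _ (Or.inr (by simp))
        (by ring) (by ring) (by ring) (by ring)⟩,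
      ⟨n0 _ (by simp), y + c, by linarith, by linarith, hD, rc _ _ _ _ _ _ _ (Or.inl (by simp))
        (by ring) (by ring) (by ring) (by ring)⟩, by simp⟩

end Pool.Agent.H38.ER
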