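import Pool.Agent.H38.ER.FmPT
import Pool.Agent.H38.ER.Proj
import Pool.Agent.H38.ER.Defs2

/-!
Surjectivity of integer polynomial maps between full spaces.
-/

namespace Pool.Agent.H38.ER

open Pool.Agent.H38.NP

theorem qhard_of_pt {α β : Type} [Enc α] [Enc β] [Dec β] {Q : β → Prop} {C P : α → Prop}
    (g : β → α) (hg : PT g) (b : β) (hb : ¬ Q b) (e : ∀ b, C (g b) ∧ (Q b ↔ P (g b))) :
    QHardOn Q C P := by
  have : PT fun x : Bits => g (cond (decide (raw (Dec.dec x : β) = x)) (Dec.dec x) b) :=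
    hg.comp (PT.cond (by fun_prop) Dec.pt (PT.const _))
  refine ⟨_, PT.polyTime this.raw, fun x => ⟨_, rfl, (e _).1, ?_⟩⟩
  refine (mem_lang_iff ⟨x⟩).trans (Iff.trans ?_ (e _).2)
  by_cases h : raw (Dec.dec ⟨x⟩ : β) = ⟨x⟩ <;> simp [h, hb]

def embA (φ : Fm) (k : ℕ) : List Q4 :=
  (fC φ).map (fun q => (sh (1 + k) q.1, sh (1 + k) q.2.1, sh (1 + k) q.2.2.1, sh (1 + k) q.2.2.2)) ++
    (List.range φ.tk.length).map fun j => (0, 1 + k + (3 + j), 1 + k + 1,
      if k ≤ min (bval (φ.tk.getD j (0, ⟨[]⟩)).2.val) k then 1 + k + (3 + j) else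
        1 + min (bval (φ.tk.getD j (0, ⟨[]⟩)).2.val) k)

theorem pt_embA : PT fun p : ℕ × Fm => embA p.2 p.1 := by
  have h1 : PT fun p : (ℕ × Fm) × ℕ => min (bval (p.1.2.tk.getD p.2 (0, ⟨[]⟩)).2.val) p.1.1 :=
    pt_minb (by fun_prop) (by fun_prop)
  unfold embA sh
  refine PT.append (by fun_prop) (PT.map (PT.mk (by fun_prop) (PT.mk (by fun_prop) (PT.mk
    (by fun_prop) (PT.ite (PT.le (by fun_prop) h1) (by fun_prop) (PT.add (by fun_prop) h1)))))
    (by fun_prop))

theorem embA_bd (φ : Fm) (k : ℕ) : Bd (1 + k + fN φ) (embA φ k) := by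
  obtain ⟨a, b, -⟩ := fC_spec φ
  simp only [embA, bd_append]
  constructor
  · simp only [Bd, List.forall_mem_map, sh]
    intro q hq
    have := b q hq
    refine ⟨?_, ?_, ?_, ?_⟩ <;> split_ifs <;> omega
  · simp only [Bd, List.forall_mem_map, List.mem_range]
    intro j hj
    refine ⟨by omega, by omega, by omega, ?_⟩
    split_ifs <;> omega

theorem embA_iff (φ : Fm) (k : ℕ) (x : ℕ → ℝ) : (∃ y : ℕ → ℝ, (∀ i < k, y i = x i) ∧ φ.Holds y) ↔
    ∃ u : ℕ → ℝ, u 0 = 1 ∧ (∀ i < k, u (1 + i) = x i) ∧ Sat u (embA φ k) := by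
  obtain ⟨a, b, c, d⟩ := fC_spec φ
  constructor
  · rintro ⟨y, hy, h⟩
    obtain ⟨w, w0, hw, e⟩ := d _ h
    have z := (c w w0 hw).1
    let u := ov (1 + k) (fun i => if i = 0 then 1 else x (i - 1)) w
    have h0 : u 0 = 1 := ov_lt (by omega)
    have hx : ∀ i < k, u (1 + i) = x i := fun i hi => (ov_lt (by omega)).trans (by simp)
    have hu : ∀ i, u (1 + k + i) = w i := fun i => ov_add
    have s : ∀ i, u (sh (1 + k) i) = w i := fun i => by
      unfold sh; split_ifs with h
      · rw [h0, h, w0]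
      · exact hu i
    refine ⟨u, h0, hx, sat_append.2 ⟨?_, ?_⟩⟩
    · simp only [Sat, List.forall_mem_map, s]; exact hw
    · simp only [Sat, List.forall_mem_map, List.mem_range]
      intro j hj
      rw [h0, hu, hu, z]
      split_ifs with hk
      · rw [hu]; simp
      · rw [e j hj, hx _ (by omega), hy _ (by omega), min_eq_left (by omega)]; simp
  · rintro ⟨u, h0, hx, h⟩
    rw [embA, sat_append] at h
    obtain ⟨z, hz⟩ := c (fun i => u (sh (1 + k) i)) h0 fun q hq => h.1 _ (List.mem_map_of_mem hq)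
    have z' : u (1 + k + 1) = 0 := z
    refine ⟨fun i => if i < k then x i else rho φ.tk (fun i => u (sh (1 + k) i)) i,
      fun i hi => if_pos hi, (holds_congr φ fun i hi => ?_).1 hz⟩
    split_ifs with hk
    · have hl := List.idxOf_lt_length_of_mem hi
      have := h.2 _ (List.mem_map_of_mem (List.mem_range.2 hl))
      rw [List.getD_eq_getElem _ _ hl, List.getElem_idxOf, bval_bits] at this
      simp only [h0, z', one_mul, add_zero] at this
      rw [rho, sh, if_neg (by omega), this, if_neg (by omega), min_eq_left hk.le, hx i hk]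
    · rfl

abbrev Raw := List (List ℕ × Bool)

noncomputable def mv (u : ℕ → ℝ) (R : Raw) : ℝ :=
  (R.map fun t => cond t.2 (-1) 1 * (t.1.map u).prod).sum

def mulR (R S : Raw) : Raw := R.flatMap fun s => S.map fun t => (s.1 ++ t.1, xor s.2 t.2)

theorem mv_append (u R S) : mv u (R ++ S) = mv u R + mv u S := by simp [mv]

theorem mv_mul (u R S) : mv u (mulR R S) = mv u R * mv u S := by
  induction R with
  | nil => simp [mv, mulR]
  | cons s R ih =>
    rw [mulR, List.flatMap_cons, mv_append, ← mulR, ih]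
    simp only [mv, List.map_cons, List.sum_cons, add_mul, List.map_map, Function.comp_def,
      List.map_append, List.prod_append]
    congr 1
    rw [← List.sum_map_mul_left]
    congr 2; funext t; cases s.2 <;> cases t.2 <;> simp

def sqR (c : List Q4) : Raw := c.flatMap fun q => mulR (tq q) (tq q)

theorem mv_sqR (u c) : mv u (sqR c) = (c.map fun q => res u q ^ 2).sum := by
  induction c with
  | nil => simp [mv, sqR]
  | cons q c ih =>
    rw [sqR, List.flatMap_cons, mv_append, ← sqR, ih, mv_mul]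
    simp [mv, tq, res]; ring

def RB (N : ℕ) (R : Raw) : Prop := ∀ t ∈ R, ∀ i ∈ t.1, i < N

theorem RB.mul {N R S} (h : RB N R) (h' : RB N S) : RB N (mulR R S) := by
  simp only [RB, mulR, List.forall_mem_flatMap, List.forall_mem_map, List.mem_append] at *
  exact fun s hs t ht i hi => hi.elim (h s hs i) (h' t ht i)

theorem rb_sqR {N c} (h : Bd N c) : RB N (sqR c) := by
  simp only [sqR, RB, List.forall_mem_flatMap]
  intro q hq
  have : RB N (tq q) := by have := h q hq; simp [RB, tq]; omega
  exact this.mul this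

def toP (N : ℕ) (R : Raw) : List (List ℕ × ℤ) := collect (R.map fun t => (exps N 0 t.1, t.2))

theorem pev_toP {N R} (h : RB (N + 1) R) (x : Fin (N + 1) → ℝ) :
    pev (toP (N + 1) R) x = mv (hat x) R := by
  rw [pev, toP, sum_collect _ fun e : List ℕ => ∏ i, x i ^ e.getD i.val 0, List.map_map, mv]
  exact congrArg List.sum (List.map_congr_left fun t ht => by
    simp only [Function.comp, prod_exps _ _ _ (h t ht), pow_zero, one_mul])

theorem wf_toP (N R) : PolyWF N (toP N R) := wf_collect (by
  simp only [List.forall_mem_map]; simp [exps])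

@[fun_prop] theorem pt_toP {α : Type} [Enc α] {N : α → ℕ} {R : α → Raw} (hN : PT N) (hR : PT R) :
    PT fun a => toP (N a) (R a) := pt_collect (by unfold exps; fun_prop)

def sMap (k n : ℕ) (c : List Q4) : List (List (List ℕ × ℤ)) :=
  (List.range k).map (fun j => toP (n + 4) [([1 + j], false)]) ++
    [toP (n + 4) (mulR (([n, n], false) :: sqR c) [([], false), ([n + 2, n + 3], false)]),
      toP (n + 4) (mulR (([n, n], false) :: sqR c)
        [([n + 3], false), ([n + 1], false), ([n + 1, n + 2, n + 3], false)])]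

@[fun_prop] theorem pt_mulR {α : Type} [Enc α] {R S : α → Raw} (hR : PT R) (hS : PT S) :
    PT fun a => mulR (R a) (S a) := by unfold mulR; fun_prop
@[fun_prop] theorem pt_sqR {α : Type} [Enc α] {c : α → List Q4} (hc : PT c) :
    PT fun a => sqR (c a) := by unfold sqR tq; fun_prop
theorem pt_sMap {α : Type} [Enc α] {k n : α → ℕ} {c : α → List Q4} (hk : PT k) (hn : PT n)
    (hc : PT c) : PT fun a => sMap (k a) (n a) (c a) := by unfold sMap; fun_prop

theorem surj_hard : QHardOn AE
    (fun p : ℕ × List (List (List ℕ × ℤ)) => ∀ f ∈ p.2, PolyWF p.1 f)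
    fun p => Function.Surjective fun (x : Fin p.1 → ℝ) (j : Fin p.2.length) => pev (p.2.getD j []) x := by
  refine qhard_of_pt (fun p => (1 + p.1 + fN p.2 + 4, sMap p.1 (1 + p.1 + fN p.2) (embA p.2 p.1)))
    ?_ (0, .lt (.num 0) (.num 0)) (fun h => let ⟨_, _, h⟩ := h 0; lt_irrefl _ h) ?_
  · exact PT.mk (by fun_prop) (pt_sMap (by fun_prop) (by fun_prop) pt_embA)
  rintro ⟨k, φ⟩
  have hb := embA_bd φ k
  simp only [AE, embA_iff]
  generalize embA φ k = c at *
  have hn : 1 + k ≤ 1 + k + fN φ := by omega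
  generalize 1 + k + fN φ = n at *
  refine ⟨by simp [sMap, wf_toP, or_imp, forall_and], ?_⟩
  have len : (sMap k n c).length = k + 2 := by simp [sMap]
  have rb : RB (n + 4) (([n, n], false) :: sqR c) := by
    have := rb_sqR (hb.mono (show n ≤ n + 4 by omega))
    simp only [RB, List.forall_mem_cons] at this ⊢
    exact ⟨by simp, this⟩
  have mp : ∀ u, mv u (([n, n], false) :: sqR c) = u n ^ 2 + (c.map fun q => res u q ^ 2).sum :=
    fun u => by rw [← mv_sqR]; simp [mv, sq]
  have e1 : ∀ (x : Fin (n + 4) → ℝ) (j : Fin (sMap k n c).length), j.val < k →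
      pev ((sMap k n c).getD j []) x = hat x (1 + j) := fun x j hj => by
    generalize j.val = j at hj
    rw [sMap, List.getD_append _ _ _ _ (by simpa using hj), List.getD_eq_getElem _ _
      (by simpa using hj), List.getElem_map, pev_toP (by simp [RB]; omega)]
    simp [mv]
  have e2 : ∀ (x : Fin (n + 4) → ℝ) (j : Fin (sMap k n c).length), j.val = k →
      pev ((sMap k n c).getD j []) x = (hat x n ^ 2 + (c.map fun q => res (hat x) q ^ 2).sum) *
        (1 + hat x (n + 2) * hat x (n + 3)) := fun x j hj => by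
    rw [hj, sMap, List.getD_append_right _ _ _ _ (by simp)]
    simp only [List.length_map, List.length_range, Nat.sub_self, List.getD_cons_zero]
    rw [pev_toP (rb.mul (by simp [RB])), mv_mul, mp]; simp [mv]
  have e3 : ∀ (x : Fin (n + 4) → ℝ) (j : Fin (sMap k n c).length), j.val = k + 1 →
      pev ((sMap k n c).getD j []) x = (hat x n ^ 2 + (c.map fun q => res (hat x) q ^ 2).sum) *
        (hat x (n + 3) + hat x (n + 1) * (1 + hat x (n + 2) * hat x (n + 3))) := fun x j hj => by
    rw [hj, sMap, List.getD_append_right _ _ _ _ (by simp)]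
    simp only [List.length_map, List.length_range, Nat.add_sub_cancel_left,
      List.getD_cons_succ, List.getD_cons_zero]
    rw [pev_toP (rb.mul (by simp [RB])), mv_mul, mp]; simp [mv]; left; ring
  have hP : ∀ u : ℕ → ℝ, 0 ≤ (c.map fun q => res u q ^ 2).sum := fun x =>
    List.sum_nonneg (by simp only [List.mem_map]; rintro _ ⟨q, -, rfl⟩; positivity)
  have hh : ∀ (u : ℕ → ℝ) i, 0 < i → i < n + 4 → hat (fun i : Fin (n + 4) => u i) i = u i :=
    fun u i h0 hi => by simp [hat, hi, h0.ne']
  constructor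
  · intro h y
    let y' : ℕ → ℝ := fun i => if h : i < (sMap k n c).length then y ⟨i, h⟩ else 0
    obtain ⟨u, h0, hx, hu⟩ := h y'
    obtain ⟨w, s, t, v, a, b⟩ : ∃ w s t v : ℝ, w ^ 2 * (1 + t * v) = y' k ∧
        w ^ 2 * (v + s * (1 + t * v)) = y' (k + 1) := by
      by_cases h1 : y' k = 0
      · by_cases h2 : y' (k + 1) = 0
        · exact ⟨0, 0, 0, 0, by simp [h1], by simp [h2]⟩
        · exact ⟨1, 0, -(y' (k + 1))⁻¹, y' (k + 1), by simp [h1, h2], by simp⟩
      · exact ⟨1, (y' (k + 1) - 1) / y' k, y' k - 1, 1, by simp, by simp; field_simp; ring⟩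
    let U := ov n u fun i => [w, s, t, v].getD i 0
    have eU : ∀ i < n, hat (fun i : Fin (n + 4) => U i) i = u i := fun i hi => by
      by_cases h : i = 0
      · simp [h, hat, h0]
      · rw [hh _ _ (by omega) (by omega)]; exact ov_lt hi
    have z := sat_iff_res.1 (hu.congr hb eU)
    refine ⟨fun i => U i, funext fun j => ?_⟩
    have yj : y j = y' j := by simp [y']
    have hj := j.2
    rw [yj]
    beta_reduce
    rcases (show j.val < k ∨ j.val = k ∨ j.val = k + 1 by omega) with h | h | h
    · rw [e1 _ _ h, eU _ (by omega), hx _ h]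
    · rw [e2 _ _ h, z, h, ← a, hh _ _ (by omega) (by omega), hh _ _ (by omega) (by omega),
        hh _ _ (by omega) (by omega)]
      simp [U]
    · rw [e3 _ _ h, z, h, ← b, hh _ _ (by omega) (by omega), hh _ _ (by omega) (by omega),
        hh _ _ (by omega) (by omega), hh _ _ (by omega) (by omega)]
      simp [U]
  · intro h x
    obtain ⟨X, hX⟩ := h fun j => if j.val < k then x j else 0
    have a := congrFun hX ⟨k, by omega⟩
    have b := congrFun hX ⟨k + 1, by omega⟩
    simp only [e2 X ⟨k, by omega⟩ rfl, e3 X ⟨k + 1, by omega⟩ rfl, lt_irrefl, if_false,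
      show ¬ k + 1 < k by omega] at a b
    refine ⟨hat X, rfl, fun i hi => ?_, sat_iff_res.2 ?_⟩
    · have := congrFun hX ⟨i, by omega⟩
      simpa only [e1 X ⟨i, by omega⟩ hi, hi, if_true] using this
    · by_contra hc
      have : hat X n ^ 2 + (c.map fun q => res (hat X) q ^ 2).sum ≠ 0 :=
        (add_pos_of_nonneg_of_pos (sq_nonneg _) ((hP _).lt_of_ne' hc)).ne'
      have a := (mul_eq_zero.1 a).resolve_left this
      have b := (mul_eq_zero.1 b).resolve_left this
      rw [a, mul_zero, add_zero] at b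
      rw [b] at a; simp at a

end Pool.Agent.H38.ER
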