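import Pool.Agent.H38.ER.Defs

/-!
Rational `d × d × d` tensors given as nested lists.
-/

namespace Pool.Agent.H38.ER

/-- The nested list has shape `d × d × d`. -/
def Shape (d : ℕ) (T : List (List (List ℚ))) : Prop :=
  T.length = d ∧ ∀ A ∈ T, A.length = d ∧ ∀ r ∈ A, r.length = d

/-- The entry `t i j k`. -/
def tget {d : ℕ} (T : List (List (List ℚ))) (i j k : Fin d) : ℝ :=
  ((((T.getD i []).getD j []).getD k 0 : ℚ) : ℝ)

/-- `σ` is an `ℓ²` singular value of the tensor. -/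
def IsSingVal (d : ℕ) (T : List (List (List ℚ))) (σ : ℝ) : Prop :=
  ∃ x y z : Fin d → ℝ, ∑ i, x i ^ 2 = 1 ∧ ∑ i, y i ^ 2 = 1 ∧ ∑ i, z i ^ 2 = 1 ∧
    (∀ i, ∑ j, ∑ k, tget T i j k * y j * z k = σ * x i) ∧
    (∀ j, ∑ i, ∑ k, tget T i j k * x i * z k = σ * y j) ∧
    (∀ k, ∑ i, ∑ j, tget T i j k * x i * y j = σ * z k)

/-- The spectral norm: the supremum (attained) of `|T(x,y,z)|` over unit vectors. -/
noncomputable def specNorm (d : ℕ) (T : List (List (List ℚ))) : ℝ :=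
  sSup {s | ∃ x y z : Fin d → ℝ, ∑ i, x i ^ 2 = 1 ∧ ∑ i, y i ^ 2 = 1 ∧ ∑ i, z i ^ 2 = 1 ∧
    s = |∑ i, ∑ j, ∑ k, tget T i j k * x i * y j * z k|}

end Pool.Agent.H38.ER
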