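import Pool.Agent.H38.ER.Strict
import Pool.Agent.H38.ER.TenDefs

/-!
Tensor singular values and the spectral norm.
-/

namespace Pool.Agent.H38.ER

open Finset Pool.Agent.H38.NP

def ind (p r a b : ℕ) : ℤ := if p = a ∧ r = b then 1 else 0

def qe (q : Q6) (p r : ℕ) : ℤ :=
  ind p r q.1 q.2.1 + ind p r q.2.2.1 q.2.2.2.1 - ind p r q.2.2.2.2.1 q.2.2.2.2.2

abbrev Dsc := Bool × Q6 × ℕ × ℕ

def ent (D : Dsc) (p r : ℕ) : ℤ :=
  cond D.1 (ind p r D.2.2.1 0) (5 * ind p r D.2.2.1 D.2.2.2 - qe D.2.1 D.2.2.1 D.2.2.2 * qe D.2.1 p r)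

def slices (n : ℕ) (l : List Q6) (a : ℕ) : List Dsc :=
  (true, (0, 0, 0, 0, 0, 0), a, 0) :: (List.range (l.length * l.length)).flatMap fun j =>
    (List.range n).flatMap fun α => (List.range n).map fun β =>
      (false, l.getD j (n, n, n, n, n, n), α, β)

def dim (n : ℕ) (l : List Q6) : ℕ := n + (l.length * l.length * (n * n) + 1)

def tz (n : ℕ) (l : List Q6) (a p r k : ℕ) : ℤ :=
  if p < n ∧ r < n then ent ((slices n l a).getD k (true, (0, 0, 0, 0, 0, 0), n, 0)) p r +
    ent ((slices n l a).getD k (true, (0, 0, 0, 0, 0, 0), n, 0)) r p else 0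

def tens (n : ℕ) (l : List Q6) (a : ℕ) : List (List (List ℚ)) :=
  (List.range (dim n l)).map fun p => (List.range (dim n l)).map fun r =>
    (List.range (dim n l)).map fun k => (tz n l a p r k : ℚ)

section
variable {α : Type} [Enc α]

@[fun_prop] theorem pt_ind {a b c d : α → ℕ} (ha : PT a) (hb : PT b) (hc : PT c) (hd : PT d) :
    PT fun x => ind (a x) (b x) (c x) (d x) := by unfold ind; fun_prop
@[fun_prop] theorem pt_qe {q : α → Q6} {a b : α → ℕ} (hq : PT q) (ha : PT a) (hb : PT b) :
    PT fun x => qe (q x) (a x) (b x) := by unfold qe; fun_prop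
@[fun_prop] theorem pt_ent {q : α → Dsc} {a b : α → ℕ} (hq : PT q) (ha : PT a) (hb : PT b) :
    PT fun x => ent (q x) (a x) (b x) := by unfold ent; fun_prop
@[fun_prop] theorem pt_slices {n a : α → ℕ} {l : α → List Q6} (hn : PT n) (hl : PT l)
    (ha : PT a) : PT fun x => slices (n x) (l x) (a x) := by unfold slices; fun_prop
@[fun_prop] theorem pt_tz {n a p r k : α → ℕ} {l : α → List Q6} (hn : PT n) (hl : PT l)
    (ha : PT a) (hp : PT p) (hr : PT r) (hk : PT k) :
    PT fun x => tz (n x) (l x) (a x) (p x) (r x) (k x) := by unfold tz; fun_prop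
theorem pt_tens {n a : α → ℕ} {l : α → List Q6} (hn : PT n) (hl : PT l)
    (ha : PT a) : PT fun x => tens (n x) (l x) (a x) := by unfold tens dim; fun_prop
end

theorem shape_tens (n l a) : Shape (dim n l) (tens n l a) := by simp [Shape, tens]

theorem tget_tens (n l a) (i j k : Fin (dim n l)) : tget (tens n l a) i j k = tz n l a i j k := by
  simp [tget, tens, List.getD_eq_getElem?_getD]

noncomputable def ip (n : ℕ) (R : ℕ → ℕ → ℤ) (W : ℕ → ℕ → ℝ) : ℝ :=
  ∑ p ∈ range n, ∑ r ∈ range n, (R p r : ℝ) * W p r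

theorem ip_ind (n a b W) : ip n (fun p r => ind p r a b) W = if a < n ∧ b < n then W a b else 0 := by
  simp only [ip, ind, ite_and]
  push_cast
  simp only [ite_mul, one_mul, zero_mul, sum_ite_irrel, sum_const_zero, sum_ite_eq', mem_range]

theorem ip_qe (n q W) : ip n (qe q) W = ip n (fun p r => ind p r q.1 q.2.1) W +
    ip n (fun p r => ind p r q.2.2.1 q.2.2.2.1) W -
      ip n (fun p r => ind p r q.2.2.2.2.1 q.2.2.2.2.2) W := by
  simp [ip, qe, add_mul, sub_mul, sum_add_distrib, sum_sub_distrib]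

noncomputable def kap (n : ℕ) (q : Q6) : ℝ := 10 - ip n (qe q) fun p r => qe q p r

theorem kap_bd (n q) : 1 ≤ kap n q ∧ kap n q ≤ 10 := by
  have h : ∀ a b, ∑ p ∈ range n, ∑ r ∈ range n, (ind p r a b : ℝ) ^ 2 ≤ 1 := fun a b => by
    have := ip_ind n a b fun p r => ind p r a b
    simp only [ip, ← sq] at this
    rw [this]; split_ifs <;> simp [ind]
  constructor
  · have : ip n (qe q) (fun p r => qe q p r) ≤ ∑ p ∈ range n, ∑ r ∈ range n,
        (3 * (ind p r q.1 q.2.1 : ℝ) ^ 2 + 3 * (ind p r q.2.2.1 q.2.2.2.1 : ℝ) ^ 2 +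
          3 * (ind p r q.2.2.2.2.1 q.2.2.2.2.2 : ℝ) ^ 2) :=
      sum_le_sum fun p _ => sum_le_sum fun r _ => by
        simp only [qe]; push_cast
        generalize (ind p r q.1 q.2.1 : ℝ) = x
        generalize (ind p r q.2.2.1 q.2.2.2.1 : ℝ) = y
        generalize (ind p r q.2.2.2.2.1 q.2.2.2.2.2 : ℝ) = z
        nlinarith [sq_nonneg (x - y), sq_nonneg (x + z), sq_nonneg (y + z)]
    simp only [sum_add_distrib, ← mul_sum] at this
    linarith [h q.1 q.2.1, h q.2.2.1 q.2.2.2.1, h q.2.2.2.2.1 q.2.2.2.2.2, kap.eq_1 n q]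
  · have : 0 ≤ ip n (qe q) fun p r => qe q p r :=
      sum_nonneg fun p _ => sum_nonneg fun r _ => mul_self_nonneg _
    linarith [kap.eq_1 n q]

theorem slice_id (n q) (W W' : ℕ → ℕ → ℝ) : ∑ α ∈ range n, ∑ β ∈ range n,
    ip n (ent (false, q, α, β)) W * ip n (ent (false, q, α, β)) W' =
      25 * ∑ p ∈ range n, ∑ r ∈ range n, W p r * W' p r -
        kap n q * (ip n (qe q) W * ip n (qe q) W') := by
  have e : ∀ W, ∀ α ∈ range n, ∀ β ∈ range n,
      ip n (ent (false, q, α, β)) W = 5 * W α β - qe q α β * ip n (qe q) W := by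
    intro W α hα β hβ
    have := ip_ind n α β W
    rw [if_pos ⟨mem_range.1 hα, mem_range.1 hβ⟩] at this
    rw [← this]
    simp [ip, ent, sub_mul, mul_sum, mul_assoc]
  rw [sum_congr rfl fun α hα => sum_congr rfl fun β hβ => by rw [e W α hα β hβ, e W' α hα β hβ]]
  have : ∀ α β, (5 * W α β - qe q α β * ip n (qe q) W) * (5 * W' α β - qe q α β * ip n (qe q) W') =
      25 * (W α β * W' α β) - 5 * ip n (qe q) W' * (qe q α β * W α β) -
      5 * ip n (qe q) W * (qe q α β * W' α β) +
      ip n (qe q) W * ip n (qe q) W' * (qe q α β * qe q α β) := fun _ _ => by ring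
  simp only [this, sum_add_distrib, sum_sub_distrib, ← mul_sum]
  simp only [kap, ip]; ring

def sym (u v : ℕ → ℝ) (p r : ℕ) : ℝ := u p * v r + v p * u r

variable {n : ℕ} {l : List Q6} {a : ℕ}

noncomputable def cut (x : Fin (dim n l) → ℝ) : Fin n → ℝ := fun i => x ⟨i, by unfold dim; omega⟩

noncomputable def TT (a : ℕ) (x y : Fin (dim n l) → ℝ) (k : Fin (dim n l)) : ℝ :=
  ∑ i, ∑ j, tget (tens n l a) i j k * x i * y j

theorem sum_cut (F : ℕ → ℝ → ℝ) (x : Fin (dim n l) → ℝ) :
    ∑ i : Fin (dim n l), (if i.val < n then F i (x i) else 0) =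
      ∑ p ∈ range n, F p (xt (cut x) p) := by
  have : ∀ i : Fin (dim n l), (if i.val < n then F i (x i) else 0) =
      (fun p => if p < n then F p (xt (cut x) p) else 0) i := fun i => by
    by_cases h : i.val < n <;> simp [h, xt, cut]
  rw [sum_congr rfl fun i _ => this i, Fin.sum_univ_eq_sum_range
    (fun p => if p < n then F p (xt (cut x) p) else 0), ← sum_filter]
  congr 1; ext p; simp [dim]; omega

theorem TT_eq (x y : Fin (dim n l) → ℝ) (k) : TT a x y k =
    ip n (ent ((slices n l a).getD k (true, (0, 0, 0, 0, 0, 0), n, 0)))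
      (sym (xt (cut x)) (xt (cut y))) := by
  set D := (slices n l a).getD k (true, (0, 0, 0, 0, 0, 0), n, 0) with hD
  have : TT a x y k = ∑ p ∈ range n, ∑ r ∈ range n,
      ((ent D p r : ℝ) + ent D r p) * xt (cut x) p * xt (cut y) r := by
    rw [← sum_cut (fun p s => ∑ r ∈ range n, ((ent D p r : ℝ) + ent D r p) * s * xt (cut y) r) x]
    refine sum_congr rfl fun i _ => ?_
    rw [← sum_cut (fun r s => ((ent D i r : ℝ) + ent D r i) * x i * s) y]
    split_ifs with h
    · refine sum_congr rfl fun j _ => ?_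
      by_cases h' : j.val < n <;> simp [tget_tens, tz, h, h', hD]
    · simp [tget_tens, tz, h]
  simp only [this, ip, sym, add_mul, mul_add, sum_add_distrib]
  congr 1
  · simp only [mul_assoc]
  · rw [sum_comm]; exact sum_congr rfl fun _ _ => sum_congr rfl fun _ _ => by ring

theorem sum_getD {β : Type} (L : List β) (d : ℕ) (hd : L.length ≤ d) (b : β) (F : β → ℝ)
    (hb : F b = 0) : ∑ k : Fin d, F (L.getD k b) = (L.map F).sum := by
  rw [Fin.sum_univ_eq_sum_range fun k => F (L.getD k b)]
  induction L generalizing d with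
  | nil => simp [hb]
  | cons c L ih =>
    obtain ⟨d, rfl⟩ : ∃ e, d = e + 1 := ⟨d - 1, by simp at hd; omega⟩
    rw [sum_range_succ', List.map_cons, List.sum_cons, add_comm, ← ih d (by simpa using hd)]
    simp

theorem sum_flat {β γ : Type} (L : List β) (f : β → List γ) (F : γ → ℝ) :
    ((L.flatMap f).map F).sum = (L.map fun b => ((f b).map F).sum).sum := by
  induction L with
  | nil => simp
  | cons a L ih => simp [ih]

theorem ip_sym (q) (x y : Fin n → ℝ) :
    ip n (qe q) (sym (xt x) (xt y)) = bil (xt x) (xt y) q + bil (xt y) (xt x) q := by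
  have : ∀ a b, ip n (fun p r => ind p r a b) (sym (xt x) (xt y)) = sym (xt x) (xt y) a b := by
    intro a b; rw [ip_ind]
    split_ifs with h
    · rfl
    · rcases not_and_or.1 h with h | h <;> simp [sym, xt_ge _ (not_lt.1 h)]
  rw [ip_qe, this, this, this]; simp only [sym, bil]; ring

noncomputable def dot (x y : Fin n → ℝ) : ℝ := ∑ i, x i * y i

theorem TT_id (x y x' y' : Fin (dim n l) → ℝ) : ∑ k, TT a x y k * TT a x' y' k =
    sym (xt (cut x)) (xt (cut y)) a 0 * sym (xt (cut x')) (xt (cut y')) a 0 +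
    (50 * (l.length : ℝ) ^ 2 * (dot (cut x) (cut x') * dot (cut y) (cut y') +
      dot (cut x) (cut y') * dot (cut y) (cut x')) -
    (l.map fun q => kap n q * ((bil (xt (cut x)) (xt (cut y)) q + bil (xt (cut y)) (xt (cut x)) q) *
      (bil (xt (cut x')) (xt (cut y')) q + bil (xt (cut y')) (xt (cut x')) q))).sum) := by
  simp only [TT_eq]
  generalize cut x = u
  generalize cut y = v
  generalize cut x' = u'
  generalize cut y' = v'
  have e0 : ∀ (a) (u v : Fin n → ℝ), ip n (ent (true, (0, 0, 0, 0, 0, 0), a, 0))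
      (sym (xt u) (xt v)) = sym (xt u) (xt v) a 0 := fun a u v => by
    refine (ip_ind n a 0 _).trans ?_
    split_ifs with h
    · rfl
    · rcases not_and_or.1 h with h | h <;> simp [sym, xt_ge _ (not_lt.1 h)]
  rw [sum_getD _ _ (by simp [slices, dim, List.length_flatMap]) _
    (fun D => ip n (ent D) (sym (xt u) (xt v)) * ip n (ent D) (sym (xt u') (xt v')))
    (by rw [e0]; simp [sym, xt_ge]), slices, List.map_cons, List.sum_cons, e0, e0, sum_flat]
  congr 1
  have e1 : ∀ q, (((List.range n).flatMap fun α => (List.range n).map fun β =>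
      ((false, q, α, β) : Dsc)).map fun D => ip n (ent D) (sym (xt u) (xt v)) *
        ip n (ent D) (sym (xt u') (xt v'))).sum = 50 * (dot u u' * dot v v' + dot u v' * dot v u') -
      kap n q * ((bil (xt u) (xt v) q + bil (xt v) (xt u) q) *
        (bil (xt u') (xt v') q + bil (xt v') (xt u') q)) := fun q => by
    rw [← ip_sym, ← ip_sym, sum_flat]
    simp only [List.map_map, Function.comp_def]
    refine (slice_id n q _ _).trans ?_
    congr 1
    have d : ∀ u v : Fin n → ℝ, dot u v = ∑ p ∈ range n, xt u p * xt v p := fun u v => by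
      rw [← Fin.sum_univ_eq_sum_range fun p => xt u p * xt v p]
      simp [dot, xt]
    simp only [d, sum_mul_sum, ← sum_add_distrib]
    rw [show (50 : ℝ) = 25 * 2 by norm_num, mul_assoc]
    congr 1
    rw [two_mul]
    nth_rewrite 3 [sum_comm]
    simp only [← sum_add_distrib, sym]
    exact sum_congr rfl fun _ _ => sum_congr rfl fun _ _ => by ring
  simp only [e1]
  have e2 := sum_getD l (l.length * l.length) (Nat.le_mul_self _) (n, n, n, n, n, n)
    (fun q => kap n q * ((bil (xt u) (xt v) q + bil (xt v) (xt u) q) *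
        (bil (xt u') (xt v') q + bil (xt v') (xt u') q))) (by simp [bil, xt_ge])
  rw [← e2, Fin.sum_univ_eq_sum_range fun k => (fun q => kap n q * ((bil (xt u) (xt v) q +
    bil (xt v) (xt u) q) * (bil (xt u') (xt v') q + bil (xt v') (xt u') q)))
      (l.getD k (n, n, n, n, n, n))]
  change ∑ k ∈ range _, _ = _
  rw [sum_sub_distrib]; simp; ring

theorem dot_cut_le (x : Fin (dim n l) → ℝ) : dot (cut x) (cut x) ≤ ∑ i, x i ^ 2 := by
  have := sum_cut (fun _ s => s ^ 2) x
  rw [← Fin.sum_univ_eq_sum_range fun p => xt (cut x) p ^ 2] at this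
  calc _ = ∑ i : Fin (dim n l), (if i.val < n then x i ^ 2 else 0) := by
        rw [this]; simp [dot, xt, sq]
    _ ≤ _ := sum_le_sum fun i _ => by split_ifs; exacts [le_rfl, sq_nonneg _]

noncomputable def pad (l : List Q6) (x : Fin n → ℝ) : Fin (dim n l) → ℝ := fun i => xt x i

theorem cut_pad (x : Fin n → ℝ) : cut (pad l x) = x := by funext i; simp [cut, pad, xt]

theorem pad_sq (x : Fin n → ℝ) : ∑ i, pad l x i ^ 2 = dot x x := by
  have := sum_cut (fun _ s => s ^ 2) (pad l x)
  rw [← Fin.sum_univ_eq_sum_range fun p => xt (cut (pad l x)) p ^ 2, cut_pad] at this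
  calc _ = ∑ i : Fin (dim n l), (if i.val < n then pad l x i ^ 2 else 0) :=
        sum_congr rfl fun i _ => by split_ifs with h; exacts [rfl, by simp [pad, xt, h]]
    _ = _ := by rw [this]; simp [dot, xt, sq]

theorem exists_unit {x : Fin n → ℝ} (hx : x ≠ 0) : ∃ c : ℝ, 0 < c ∧ dot (c • x) (c • x) = 1 := by
  have h : 0 < dot x x := by
    obtain ⟨i, hi⟩ := Function.ne_iff.1 hx
    exact sum_pos' (fun i _ => mul_self_nonneg _) ⟨i, mem_univ _, mul_self_pos.2 hi⟩
  refine ⟨(√(dot x x))⁻¹, by positivity, ?_⟩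
  have : dot ((√(dot x x))⁻¹ • x) ((√(dot x x))⁻¹ • x) = ((√(dot x x)) ^ 2)⁻¹ * dot x x := by
    simp only [dot, mul_sum, Pi.smul_apply, smul_eq_mul]
    exact sum_congr rfl fun _ _ => by ring
  rw [this, Real.sq_sqrt h.le, inv_mul_cancel₀ h.ne']

theorem tz_symm (p r k) : tz n l a p r k = tz n l a r p k := by
  simp only [tz, and_comm, add_comm]

theorem TT_single (i) (y : Fin (dim n l) → ℝ) (k) :
    TT a (Pi.single i 1) y k = ∑ j, tget (tens n l a) i j k * y j := by
  simp [TT, Pi.single_apply]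

theorem tsv_erh : ERH (fun p : ℕ × List (List (List ℚ)) × ℚ => Shape p.1 p.2.1 ∧ 0 < p.2.2)
    fun p => IsSingVal p.1 p.2.1 p.2.2 := by
  refine h2n_erh.reduce (fun p => (dim p.1 p.2, tens p.1 p.2 p.1, ((10 * p.2.length : ℕ) : ℤ)))
    (PT.mk (by unfold dim; fun_prop) (PT.mk (pt_tens (by fun_prop) (by fun_prop) (by fun_prop))
      (by fun_prop))) ?_
  rintro ⟨n, l⟩ ⟨-, hl, -, -⟩
  have hm : (0 : ℝ) < l.length := by exact_mod_cast List.length_pos_iff.2 hl
  refine ⟨⟨shape_tens _ _ _, by simpa using List.length_pos_iff.2 hl⟩, ?_, ?_⟩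
  · rintro ⟨x, hx, h⟩
    obtain ⟨c, hc, h1⟩ := exists_unit hx
    have h2 : ∀ q ∈ l, bil (xt (c • x)) (xt (c • x)) q = 0 := fun q hq => by
      have := h q hq; simp only [bil, xt_smul] at this ⊢; linear_combination c ^ 2 * this
    generalize c • x = x at h1 h2
    have key : ∀ y : Fin (dim n l) → ℝ, ∑ k, TT n (pad l x) (pad l x) k * TT n y (pad l x) k =
        100 * (l.length : ℝ) ^ 2 * dot x (cut y) := fun y => by
      rw [TT_id, cut_pad, h1, List.map_congr_left (g := fun _ => 0) fun q hq => by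
        rw [h2 q hq]; simp]
      simp [sym, xt_ge]; ring
    have k1 : ∀ i, ∑ j, ∑ k, tget (tens n l n) i j k * pad l x j *
        (TT n (pad l x) (pad l x) k / (10 * l.length)) = 10 * l.length * pad l x i := fun i => by
      have := key (Pi.single i 1)
      rw [show dot x (cut (Pi.single i 1)) = pad l x i by
        by_cases h : i.val < n
        · rw [dot, sum_eq_single ⟨i, h⟩ (fun b _ hb => by
            rw [cut, Pi.single_eq_of_ne (fun e => hb (by subst e; rfl)), mul_zero])
            (by simp)]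
          simp [cut, pad, xt, h]
        · rw [dot, sum_eq_zero fun b _ => by
            rw [cut, Pi.single_eq_of_ne (fun e => h (by rw [← e]; exact b.2)), mul_zero]]
          simp [pad, xt, h]] at this
      rw [sum_comm]
      simp only [← sum_mul, ← TT_single, ← mul_div_assoc, ← sum_div]
      rw [div_eq_iff (by positivity), sum_congr rfl fun _ _ => mul_comm _ _, this]; ring
    refine ⟨pad l x, pad l x, fun k => TT n (pad l x) (pad l x) k / (10 * l.length),
      by rw [pad_sq, h1], by rw [pad_sq, h1], ?_, fun i => ?_, fun i => ?_, fun k => ?_⟩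
    · simp only [div_pow]
      simp only [← sum_div, sq, key, cut_pad, h1]; field_simp; norm_num
    · simpa using k1 i
    · simpa [tget_tens, tz_symm _ i.val] using k1 i
    · push_cast; rw [mul_div_cancel₀ _ (by positivity)]; rfl
  · rintro ⟨x, y, z, hx, hy, hz, -, -, h⟩
    have e : ∑ k, TT n x y k * TT n x y k = 100 * (l.length : ℝ) ^ 2 := by
      have : ∀ k, TT n x y k = 10 * l.length * z k := fun k => by simpa [TT] using h k
      simp only [this]
      rw [← mul_one (100 * _), ← hz, mul_sum]; exact sum_congr rfl fun _ _ => by ring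
    rw [TT_id] at e
    have a1 := dot_cut_le x
    have a2 := dot_cut_le y
    rw [hx] at a1; rw [hy] at a2
    generalize cut x = u at *
    generalize cut y = v at *
    have b0 : dot v u = dot u v := sum_congr rfl fun _ _ => mul_comm _ _
    have b1 : 0 ≤ dot u u := sum_nonneg fun _ _ => mul_self_nonneg _
    have b2 : 0 ≤ dot v v := sum_nonneg fun _ _ => mul_self_nonneg _
    have cs : dot u v ^ 2 ≤ dot u u * dot v v := by
      simpa [dot, sq] using sum_mul_sq_le_sq_mul_sq univ u v
    have hs : ∀ r ∈ l.map fun q => kap n q * ((bil (xt u) (xt v) q + bil (xt v) (xt u) q) *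
        (bil (xt u) (xt v) q + bil (xt v) (xt u) q)), 0 ≤ r := by
      simp only [List.mem_map]; rintro _ ⟨q, -, rfl⟩
      exact mul_nonneg (by linarith [(kap_bd n q).1]) (mul_self_nonneg _)
    have s0 := List.sum_nonneg hs
    simp only [sym, xt_ge _ le_rfl, zero_mul, add_zero, zero_add, b0] at e
    have p1 : dot u u * dot v v ≤ 1 := mul_le_one₀ a1 b2 a2
    have m2 : 0 < (l.length : ℝ) ^ 2 := by positivity
    have c1 : 2 ≤ dot u u * dot v v + dot u v * dot u v := by nlinarith
    have c2 : dot u v * dot u v = 1 := by nlinarith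
    have c3 : dot u u = 1 := by nlinarith
    have c4 : dot v v = 1 := by nlinarith
    have c5 : v = dot u v • u := by
      have : ∑ i, (v i - dot u v * u i) ^ 2 = 0 := by
        have : ∀ i, (v i - dot u v * u i) ^ 2 = v i * v i - 2 * dot u v * (u i * v i) +
          dot u v * dot u v * (u i * u i) := fun i => by ring
        simp only [this, sum_add_distrib, sum_sub_distrib, ← mul_sum]
        change dot v v - 2 * dot u v * dot u v + dot u v * dot u v * dot u u = 0
        rw [c3, c4]; linarith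
      funext i
      exact sub_eq_zero.1 (pow_eq_zero_iff two_ne_zero |>.1
        ((sum_eq_zero_iff_of_nonneg fun _ _ => sq_nonneg _).1 this i (mem_univ _)))
    refine ⟨u, fun e => by simp [e, dot] at c3, fun q hq => ?_⟩
    have := List.single_le_sum hs _ (List.mem_map_of_mem hq)
    have z : bil (xt u) (xt v) q + bil (xt v) (xt u) q = 2 * dot u v * bil (xt u) (xt u) q := by
      conv_lhs => rw [c5]
      simp only [bil, xt_smul]; ring
    rw [z] at this
    have k := (kap_bd n q).1
    rw [c2, c3, c4] at e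
    have : bil (xt u) (xt u) q ^ 2 ≤ 0 := by nlinarith [sq_nonneg (bil (xt u) (xt u) q)]
    exact pow_eq_zero_iff two_ne_zero |>.1 (le_antisymm this (sq_nonneg _))

theorem TT_diag (x : Fin (dim n l) → ℝ) : ∑ k, TT a x x k ^ 2 =
    100 * (l.length : ℝ) ^ 2 * dot (cut x) (cut x) ^ 2 +
      4 * ((xt (cut x) a * xt (cut x) 0) ^ 2 -
        (l.map fun q => kap n q * bil (xt (cut x)) (xt (cut x)) q ^ 2).sum) := by
  simp only [sq, TT_id, sym]
  rw [List.map_congr_left (g := fun q => 4 * (kap n q * (bil (xt (cut x)) (xt (cut x)) q *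
    bil (xt (cut x)) (xt (cut x)) q))) fun q _ => by ring, List.sum_map_mul_left]
  ring

theorem tri_eq (x y z : Fin (dim n l) → ℝ) :
    ∑ i, ∑ j, ∑ k, tget (tens n l a) i j k * x i * y j * z k = ∑ k, TT a x y k * z k := by
  simp only [TT, sum_mul]
  rw [sum_congr rfl fun i _ => sum_comm, sum_comm]

theorem spec_erh : ERH (fun p : ℕ × List (List (List ℚ)) × ℚ => Shape p.1 p.2.1 ∧ 0 < p.2.2)
    fun p => (p.2.2 : ℝ) < specNorm p.1 p.2.1 := by
  refine strict_erh.reduce (fun p => (dim p.1 p.2.1, tens p.1 p.2.1 p.2.2,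
    ((10 * p.2.1.length : ℕ) : ℤ)))
    (PT.mk (by unfold dim; fun_prop) (PT.mk (pt_tens (by fun_prop) (by fun_prop) (by fun_prop))
      (by fun_prop))) ?_
  rintro ⟨n, l, a⟩ ⟨-, hl, hp⟩
  have hm : (0 : ℝ) < l.length := by exact_mod_cast List.length_pos_iff.2 hl
  refine ⟨⟨shape_tens _ _ _, by simpa using List.length_pos_iff.2 hl⟩, fun h => ?_, fun h => ?_⟩
  · obtain ⟨x, hx⟩ := hp h
    simp only at x hx
    obtain ⟨c, hc, h1⟩ := exists_unit (x := x) fun e => by
      subst e; have := sos_nonneg l (0 : Fin n → ℝ); simp [xt] at hx; linarith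
    have h2 : 10 * sos l (c • x) < (xt (c • x) a * xt (c • x) 0) ^ 2 := by
      rw [sos_smul, xt_smul, xt_smul]
      nlinarith [mul_lt_mul_of_pos_left hx (pow_pos hc 4)]
    generalize c • x = x at h1 h2
    have h3 : (l.map fun q => kap n q * bil (xt x) (xt x) q ^ 2).sum ≤ 10 * sos l x := by
      rw [sos, ← List.sum_map_mul_left]
      exact List.sum_le_sum fun q _ => mul_le_mul_of_nonneg_right (kap_bd n q).2 (sq_nonneg _)
    have h4 := TT_diag (a := a) (pad l x)
    rw [cut_pad, h1] at h4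
    set N := ∑ k, TT a (pad l x) (pad l x) k ^ 2 with hN
    have h5 : (10 * l.length) ^ 2 < N := by linarith
    have h6 : 0 < N := lt_of_le_of_lt (sq_nonneg _) h5
    refine lt_of_lt_of_le ?_ (le_csSup ⟨∑ i : Fin (dim n l), ∑ j, ∑ k, |tget (tens n l a) i j k|, ?_⟩
      ⟨pad l x, pad l x, fun k => TT a (pad l x) (pad l x) k / √N, by rw [pad_sq, h1],
        by rw [pad_sq, h1], ?_, rfl⟩)
    · rw [tri_eq]
      simp only [← mul_div_assoc, ← sum_div, ← sq, ← hN, Real.div_sqrt]
      rw [abs_of_nonneg (Real.sqrt_nonneg _)]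
      push_cast
      exact Real.lt_sqrt_of_sq_lt h5
    · rintro _ ⟨x, y, z, hx, hy, hz, rfl⟩
      have b : ∀ x : Fin (dim n l) → ℝ, ∑ i, x i ^ 2 = 1 → ∀ i, |x i| ≤ 1 := fun x hx i =>
        (sq_le_one_iff_abs_le_one _).1 (hx ▸ single_le_sum (f := fun i => x i ^ 2)
          (fun _ _ => sq_nonneg _) (mem_univ i))
      refine (abs_sum_le_sum_abs _ _).trans (sum_le_sum fun i _ => (abs_sum_le_sum_abs _ _).trans
        (sum_le_sum fun j _ => (abs_sum_le_sum_abs _ _).trans (sum_le_sum fun k _ => ?_)))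
      rw [mul_assoc, mul_assoc, abs_mul, abs_mul, abs_mul]
      exact mul_le_of_le_one_right (abs_nonneg _) (mul_le_one₀ (b x hx i) (by positivity)
        (mul_le_one₀ (b y hy j) (abs_nonneg _) (b z hz k)))
    · simp only [div_pow, ← sum_div, ← hN]; rw [Real.sq_sqrt h6.le, div_self h6.ne']
  · by_contra hc
    push Not at hc
    refine absurd h (not_lt.2 (Real.sSup_le ?_ (by positivity)))
    rintro _ ⟨x, y, z, hx, hy, hz, rfl⟩
    simp only at x y z hx hy hz hc ⊢
    have D : ∀ x : Fin (dim n l) → ℝ, |∑ k, TT a x x k * z k| ≤ 10 * l.length * ∑ i, x i ^ 2 := by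
      intro x
      have h3 : sos l (cut x) ≤ (l.map fun q => kap n q * bil (xt (cut x)) (xt (cut x)) q ^ 2).sum :=
        List.sum_le_sum fun q _ => le_mul_of_one_le_left (sq_nonneg _) (kap_bd n q).1
      have h4 := TT_diag (a := a) x
      have h5 := sum_mul_sq_le_sq_mul_sq univ (TT a x x) z
      have h6 := dot_cut_le x
      have h7 : 0 ≤ dot (cut x) (cut x) := sum_nonneg fun _ _ => mul_self_nonneg _
      have h8 : dot (cut x) (cut x) ^ 2 ≤ (∑ i, x i ^ 2) ^ 2 := by gcongr
      refine abs_le_of_sq_le_sq ?_ (by positivity)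
      rw [hz, mul_one] at h5
      nlinarith [hc (cut x), mul_le_mul_of_nonneg_left h8 (sq_nonneg (l.length : ℝ))]
    have P : ∀ k, TT a (x + y) (x + y) k - TT a (x - y) (x - y) k = 4 * TT a x y k := fun k => by
      have : TT a y x k = TT a x y k := by
        simp only [TT, tget_tens]
        rw [sum_comm]
        exact sum_congr rfl fun i _ => sum_congr rfl fun j _ => by rw [tz_symm]; ring
      rw [show 4 * TT a x y k = 2 * TT a x y k + 2 * TT a y x k by rw [this]; ring]
      simp only [TT, mul_sum, ← sum_add_distrib, ← sum_sub_distrib, Pi.add_apply, Pi.sub_apply]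
      exact sum_congr rfl fun i _ => sum_congr rfl fun j _ => by ring
    have Q : ∑ i, (x + y) i ^ 2 + ∑ i, (x - y) i ^ 2 = 4 := by
      rw [← sum_add_distrib, show (4 : ℝ) = 2 * ∑ i, x i ^ 2 + 2 * ∑ i, y i ^ 2 by
        rw [hx, hy]; norm_num, mul_sum, mul_sum, ← sum_add_distrib]
      exact sum_congr rfl fun i _ => by simp; ring
    have R : ∑ k, TT a (x + y) (x + y) k * z k - ∑ k, TT a (x - y) (x - y) k * z k =
        4 * ∑ k, TT a x y k * z k := by
      simp only [← sum_sub_distrib, ← sub_mul, P, mul_sum, mul_assoc]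
    have d1 := abs_le.1 (D (x + y))
    have d2 := abs_le.1 (D (x - y))
    rw [tri_eq, abs_le]
    push_cast
    have : 10 * (l.length : ℝ) * ∑ i, (x + y) i ^ 2 + 10 * l.length * ∑ i, (x - y) i ^ 2 =
      40 * l.length := by rw [← mul_add, Q]; ring
    constructor <;> linarith [d1.1, d1.2, d2.1, d2.2]

end Pool.Agent.H38.ER
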