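import Pool.Agent.H38.ER.Sub

/-!
Vectors in three-space: orthogonality, determinants, orthonormal coordinates.
-/

namespace Pool.Agent.H38.ER

abbrev V3 := ℝ × ℝ × ℝ

def ip (u v : V3) : ℝ := u.1 * v.1 + u.2.1 * v.2.1 + u.2.2 * v.2.2

def det3 (u v w : V3) : ℝ :=
  u.1 * (v.2.1 * w.2.2 - v.2.2 * w.2.1) - u.2.1 * (v.1 * w.2.2 - v.2.2 * w.1) +
    u.2.2 * (v.1 * w.2.1 - v.2.1 * w.1)

def Pa (v w : V3) : Prop := ∃ s : ℝ, s ≠ 0 ∧ v = (s * w.1, s * w.2.1, s * w.2.2)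

theorem ip_comm (u v) : ip u v = ip v u := by unfold ip; ring

theorem v3_ne {v : V3} : v ≠ 0 ↔ v.1 ≠ 0 ∨ v.2.1 ≠ 0 ∨ v.2.2 ≠ 0 := by
  obtain ⟨a, b, c⟩ := v; simp only [ne_eq, Prod.mk_eq_zero]; tauto

theorem ip_pos {v : V3} (h : v ≠ 0) : 0 < ip v v := by
  unfold ip
  rcases v3_ne.1 h with h | h | h <;> have := mul_self_pos.2 h <;>
    nlinarith [mul_self_nonneg v.1, mul_self_nonneg v.2.1, mul_self_nonneg v.2.2]

theorem ne_of_ip {v : V3} (h : ip v v ≠ 0) : v ≠ 0 := by rintro rfl; simp [ip] at h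

theorem det_of_orth {n u v w : V3} (hn : n ≠ 0) (h1 : ip n u = 0) (h2 : ip n v = 0)
    (h3 : ip n w = 0) : det3 u v w = 0 := by
  unfold ip at *; unfold det3
  rcases v3_ne.1 hn with h | h | h <;> refine mul_left_cancel₀ h ?_
  · linear_combination (v.2.1 * w.2.2 - v.2.2 * w.2.1) * h1 - (u.2.1 * w.2.2 - u.2.2 * w.2.1) * h2
      + (u.2.1 * v.2.2 - u.2.2 * v.2.1) * h3
  · linear_combination -(v.1 * w.2.2 - v.2.2 * w.1) * h1 + (u.1 * w.2.2 - u.2.2 * w.1) * h2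
      - (u.1 * v.2.2 - u.2.2 * v.1) * h3
  · linear_combination (v.1 * w.2.1 - v.2.1 * w.1) * h1 - (u.1 * w.2.1 - u.2.1 * w.1) * h2
      + (u.1 * v.2.1 - u.2.1 * v.1) * h3

theorem parseval {a b c : V3} (ha : ip a a = 1) (hb : ip b b = 1) (hc : ip c c = 1)
    (ab : ip a b = 0) (ac : ip a c = 0) (bc : ip b c = 0) (u v : V3) :
    ip (ip u a, ip u b, ip u c) (ip v a, ip v b, ip v c) = ip u v := by
  let M : Matrix (Fin 3) (Fin 3) ℝ := !![a.1, a.2.1, a.2.2; b.1, b.2.1, b.2.2; c.1, c.2.1, c.2.2]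
  have h : M * M.transpose = 1 := by
    unfold ip at *
    ext i j; fin_cases i <;> fin_cases j <;> simp [M, Matrix.mul_apply, Fin.sum_univ_three] <;>
      linarith
  have h' := mul_eq_one_comm.1 h
  have e := fun i j => congrFun (congrFun h' i) j
  have e00 := e 0 0; have e01 := e 0 1; have e02 := e 0 2
  have e11 := e 1 1; have e12 := e 1 2; have e22 := e 2 2
  simp [M, Matrix.mul_apply, Fin.sum_univ_three] at e00 e01 e02 e11 e12 e22
  unfold ip; simp only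
  linear_combination u.1 * v.1 * e00 + (u.1 * v.2.1 + u.2.1 * v.1) * e01 +
    (u.1 * v.2.2 + u.2.2 * v.1) * e02 + u.2.1 * v.2.1 * e11 + (u.2.1 * v.2.2 + u.2.2 * v.2.1) * e12
    + u.2.2 * v.2.2 * e22

theorem unit3 {a : V3} (h : a ≠ 0) : ∃ s : ℝ, s ≠ 0 ∧ ip (s • a) (s • a) = 1 := by
  have := ip_pos h
  refine ⟨1 / √(ip a a), by positivity, ?_⟩
  have e : ip ((1 / √(ip a a)) • a) ((1 / √(ip a a)) • a) = (1 / √(ip a a)) ^ 2 * ip a a := by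
    simp only [ip, Prod.smul_fst, Prod.smul_snd, smul_eq_mul]; ring
  rw [e, div_pow, Real.sq_sqrt this.le]; field_simp

theorem ip_smul (s : ℝ) (u v) : ip u (s • v) = s * ip u v := by
  simp only [ip, Prod.smul_fst, Prod.smul_snd, smul_eq_mul]; ring
theorem smul_ip (s : ℝ) (u v) : ip (s • u) v = s * ip u v := by
  simp only [ip, Prod.smul_fst, Prod.smul_snd, smul_eq_mul]; ring

theorem coords {a b c : V3} (ha : a ≠ 0) (hb : b ≠ 0) (hc : c ≠ 0)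
    (ab : ip a b = 0) (ac : ip a c = 0) (bc : ip b c = 0) :
    ∃ Φ : V3 → V3, (∀ u v, ip (Φ u) (Φ v) = ip u v) ∧ Pa (Φ a) (1, 0, 0) ∧ Pa (Φ b) (0, 1, 0) ∧
      Pa (Φ c) (0, 0, 1) := by
  obtain ⟨r, hr, h1⟩ := unit3 ha
  obtain ⟨s, hs, h2⟩ := unit3 hb
  obtain ⟨t, ht, h3⟩ := unit3 hc
  refine ⟨fun u => (ip u (r • a), ip u (s • b), ip u (t • c)), parseval h1 h2 h3
    (by simp [ip_smul, smul_ip, ab]) (by simp [ip_smul, smul_ip, ac]) (by simp [ip_smul, smul_ip, bc]),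
    ⟨r * ip a a, mul_ne_zero hr (ip_pos ha).ne', by simp [ip_smul, ab, ac]⟩,
    ⟨s * ip b b, mul_ne_zero hs (ip_pos hb).ne', by simp [ip_smul, ip_comm b a, ab, bc]⟩,
    ⟨t * ip c c, mul_ne_zero ht (ip_pos hc).ne', by simp [ip_smul, ip_comm c a, ip_comm c b, ac, bc]⟩⟩

end Pool.Agent.H38.ER
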